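import Pool.Agent.helper52.DQ.Disp

/-!
Displacement of boundary arcs.
-/

open Set Metric Filter Topology
open scoped ContDiff ComplexConjugate

noncomputable section

namespace DiskQM

/-- rotation by `w`, as an element of `GL₂⁺(ℝ)` -/
def rotP (w : ℂ) (hw : ‖w‖ = 1) : GLp := linP w.re (-w.im) w.im w.re (by
  have h : w.re * w.re + w.im * w.im = 1 := by
    rw [← Complex.normSq_apply, Complex.normSq_eq_norm_sq, hw]; norm_num
  nlinarith)

theorem rotP_apply (w : ℂ) (hw : ‖w‖ = 1) (z : ℂ) : (rotP w hw).1 z = w * z := by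
  rw [rotP, linP_apply]
  apply Complex.ext
  · simp; ring
  · simp; ring

theorem tau_rotP (w : ℂ) (hw : ‖w‖ = 1) {z : ℂ} (hz : z ∈ Disk) : tau (rotP w hw) • z = w * z := by
  rw [tau_smul _ hz, tauFun]
  have h1 : nrm (rotP w hw).1 z = 1 := by
    rw [nrm, rotP_apply, norm_mul, hw]; ring
  rw [h1, Real.sqrt_one, inv_one, one_smul, rotP_apply]

/-- the linear maps displacing the cone `Re z ≥ |z|/10`. -/
def dispP (i : ℕ) : GLp := linP 1 0 i (1 / 40) (by norm_num)

theorem arc_disp {i j : ℕ} (hij : i ≠ j) {p : ℂ} (hp : p ∈ Cir) :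
    ((tau (dispP i))⁻¹ • p).re ≤ 1 / 10 ∨ ((tau (dispP j))⁻¹ • p).re ≤ 1 / 10 := by
  by_contra hcon
  push Not at hcon
  obtain ⟨h1, h2⟩ := hcon
  have key : ∀ k : ℕ, 1 / 10 < ((tau (dispP k))⁻¹ • p).re →
      0 < p.re ∧ |p.im - k * p.re| < p.re / 4 := by
    intro k hk
    set q := (tau (dispP k))⁻¹ • p with hq
    have hqC : q ∈ Cir := inv_cir.2 _ p hp
    have hqD : q ∈ Disk := cir_sub hqC
    obtain ⟨c, hc, e⟩ := tau_smul_eq (dispP k) hqD
    rw [hq, smul_inv_smul, ← hq, dispP, linP_apply] at e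
    have e1 : p.re = c * q.re := by rw [e, Complex.smul_re, smul_eq_mul]; ring
    have e2 : p.im = c * (k * q.re + q.im / 40) := by rw [e, Complex.smul_im, smul_eq_mul]; ring
    have hqi : |q.im| ≤ 1 := (Complex.abs_im_le_norm q).trans (le_of_eq hqC)
    rw [abs_le] at hqi
    constructor
    · rw [e1]; have : 0 < q.re := by linarith
      positivity
    · rw [e1, e2, abs_lt]
      constructor <;> nlinarith
  obtain ⟨a1, a2⟩ := key i h1
  obtain ⟨b1, b2⟩ := key j h2
  rw [abs_lt] at a2 b2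
  rcases lt_or_gt_of_ne hij with h | h
  · have : (i : ℝ) + 1 ≤ j := by exact_mod_cast h
    nlinarith
  · have : (j : ℝ) + 1 ≤ i := by exact_mod_cast h
    nlinarith

/-- identity near `0` and near the boundary points outside the cone around `w` -/
def EE (w : ℂ) : Subgroup DiffD := LocSub {0} ⊓ LocSub {p | p ∈ Cir ∧ (conj w * p).re ≤ 1 / 10}

/-- fixing the boundary points outside the cone around `w` -/
def PP (w : ℂ) : Subgroup DiffD := HH ⊓ FixSub {p | p ∈ Cir ∧ (conj w * p).re ≤ 1 / 10}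

variable {φ : DiffD → ℝ} {C : ℝ}

theorem addOn_EE_one (hφ : HQM φ C) : AddOn φ (EE 1 : Subgroup DiffD) := by
  intro a ha b hb
  apply hφ.addOn_pair_of_displace_mod KK (addOn_KK hφ)
  intro n
  refine ⟨fun i => tau (dispP i), fun i _ j _ hij x hx y hy => ?_⟩
  have hE : ∀ x ∈ ({a, b} : Set DiffD), x ∈ EE 1 := by
    intro x hx
    rcases hx with rfl | rfl
    · exact ha
    · exact hb
  have loc0 : ∀ (k : ℕ), ∀ x ∈ ({a, b} : Set DiffD), Loc (tau (dispP k) * x * (tau (dispP k))⁻¹) 0 := by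
    intro k x hx
    have := ((hE x hx).1 0 rfl).conj zero_mem_disk (tau (dispP k))
    rwa [smul_zero'] at this
  have locC : ∀ (k : ℕ), ∀ x ∈ ({a, b} : Set DiffD), ∀ p ∈ Cir, ((tau (dispP k))⁻¹ • p).re ≤ 1 / 10 →
      Loc (tau (dispP k) * x * (tau (dispP k))⁻¹) p := by
    intro k x hx p hp h
    have hq : (tau (dispP k))⁻¹ • p ∈ Cir := inv_cir.2 _ p hp
    have := ((hE x hx).2 _ ⟨hq, by simpa using h⟩).conj (cir_sub hq) (tau (dispP k))
    rwa [smul_inv_smul] at this
  constructor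
  · apply commutator_mem_locSub inv_zero
    rintro _ rfl
    exact Or.inl (loc0 i x hx)
  · apply commutator_mem_locSub inv_cir
    intro p hp
    exact (arc_disp hij hp).imp (locC i x hx p hp) (locC j y hy p hp)

theorem addOn_EE (hφ : HQM φ C) {w : ℂ} (hw : ‖w‖ = 1) : AddOn φ (EE w : Subgroup DiffD) := by
  apply hφ.addOn_conj (addOn_EE_one hφ) (tau (rotP w hw))⁻¹
  intro g hg
  rw [inv_inv]
  set T := tau (rotP w hw) with hT
  constructor
  · rintro _ rfl
    have := (hg.1 0 rfl).conj zero_mem_disk T⁻¹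
    rwa [smul_zero', inv_inv] at this
  · rintro p ⟨hp, hp2⟩
    have e : T • p = w * p := tau_rotP w hw (cir_sub hp)
    have hTp : T • p ∈ Cir := inv_cir.2 _ p hp
    have h1 : (conj w * (T • p)).re ≤ 1 / 10 := by
      rw [e, ← mul_assoc, mul_comm (conj w), Complex.mul_conj, Complex.normSq_eq_norm_sq, hw]
      simpa using hp2
    have := (hg.2 _ ⟨hTp, h1⟩).conj (cir_sub hTp) T⁻¹
    rwa [inv_smul_smul, inv_inv] at this

theorem addOn_PP_one (hφ : HQM φ C) (hHB : AddOn φ (HB : Subgroup DiffD)) :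
    AddOn φ (PP 1 : Subgroup DiffD) := by
  intro a ha b hb
  apply hφ.addOn_pair_of_displace_mod HB hHB
  intro n
  refine ⟨fun i => tau (dispP i), fun i _ j _ hij x hx y hy => ?_⟩
  have hE : ∀ x ∈ ({a, b} : Set DiffD), x ∈ PP 1 := by
    intro x hx
    rcases hx with rfl | rfl
    · exact ha
    · exact hb
  have hH : ∀ (k : ℕ), ∀ x ∈ ({a, b} : Set DiffD), tau (dispP k) * x * (tau (dispP k))⁻¹ ∈ HH :=
    fun k x hx => hh_normal.conj_mem x (hE x hx).1 _
  have fixC : ∀ (k : ℕ), ∀ x ∈ ({a, b} : Set DiffD), ∀ p ∈ Cir, ((tau (dispP k))⁻¹ • p).re ≤ 1 / 10 →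
      (tau (dispP k) * x * (tau (dispP k))⁻¹) • p = p := by
    intro k x hx p hp h
    have hq : (tau (dispP k))⁻¹ • p ∈ Cir := inv_cir.2 _ p hp
    have := (hE x hx).2 _ ⟨hq, by simpa using h⟩
    rw [mul_smul, mul_smul, this, smul_inv_smul]
  constructor
  · exact HH.mul_mem (HH.mul_mem (HH.mul_mem (hH i x hx) (hH j y hy)) (HH.inv_mem (hH i x hx))) (HH.inv_mem (hH j y hy))
  · apply commutator_mem_fixSub inv_cir
    intro p hp
    exact (arc_disp hij hp).imp (fixC i x hx p hp) (fixC j y hy p hp)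

theorem addOn_PP (hφ : HQM φ C) (hHB : AddOn φ (HB : Subgroup DiffD)) {w : ℂ} (hw : ‖w‖ = 1) :
    AddOn φ (PP w : Subgroup DiffD) := by
  apply hφ.addOn_conj (addOn_PP_one hφ hHB) (tau (rotP w hw))⁻¹
  intro g hg
  set T := tau (rotP w hw) with hT
  constructor
  · exact hh_normal.conj_mem g hg.1 _
  · rintro p ⟨hp, hp2⟩
    rw [inv_inv]
    have e : T • p = w * p := tau_rotP w hw (cir_sub hp)
    have hTp : T • p ∈ Cir := inv_cir.2 _ p hp
    have h1 : (conj w * (T • p)).re ≤ 1 / 10 := by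
      rw [e, ← mul_assoc, mul_comm (conj w), Complex.mul_conj, Complex.normSq_eq_norm_sq, hw]
      simpa using hp2
    rw [mul_smul, mul_smul, hg.2 _ ⟨hTp, h1⟩, inv_smul_smul]

end DiskQM
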