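import Mathlib

/-!
# The group `Diff₀(D², *)` and homogeneous quasimorphisms

Definitions used in the statement of the main theorem.
-/

open Set Metric
open scoped ContDiff

namespace DiskQM

/-- The closed unit disk `D²` in the plane `ℝ² = ℂ`. -/
abbrev Disk : Set ℂ := Metric.closedBall (0 : ℂ) 1

open Classical in
/-- A bijection `f` of the closed unit disk, regarded as a map `ℂ → ℂ` (extended by the identity
outside the disk; only its values on the disk matter). -/
noncomputable def toMap (f : Equiv.Perm Disk) : ℂ → ℂ :=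
  fun z => if h : z ∈ Disk then (f ⟨z, h⟩ : ℂ) else z

theorem toMap_of_mem (f : Equiv.Perm Disk) {z : ℂ} (h : z ∈ Disk) : toMap f z = f ⟨z, h⟩ :=
  dif_pos h

theorem toMap_of_notMem (f : Equiv.Perm Disk) {z : ℂ} (h : z ∉ Disk) : toMap f z = z :=
  dif_neg h

theorem toMap_mem (f : Equiv.Perm Disk) {z : ℂ} (h : z ∈ Disk) : toMap f z ∈ Disk := by
  rw [toMap_of_mem f h]; exact (f ⟨z, h⟩).2

theorem toMap_mul (f g : Equiv.Perm Disk) (z : ℂ) : toMap (f * g) z = toMap f (toMap g z) := by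
  by_cases h : z ∈ Disk
  · have e : (⟨toMap g z, toMap_mem g h⟩ : Disk) = g ⟨z, h⟩ := Subtype.ext (toMap_of_mem g h)
    rw [toMap_of_mem _ h, toMap_of_mem f (toMap_mem g h), e]
    rfl
  · rw [toMap_of_notMem _ h, toMap_of_notMem g h, toMap_of_notMem f h]

theorem toMap_one (z : ℂ) : toMap 1 z = z := by
  by_cases h : z ∈ Disk
  · rw [toMap_of_mem _ h]; rfl
  · rw [toMap_of_notMem _ h]

theorem uniqueDiffOn_disk : UniqueDiffOn ℝ Disk :=
  uniqueDiffOn_convex (convex_closedBall 0 1) (by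
    rw [interior_closedBall _ one_ne_zero]
    exact ⟨0, mem_ball_self one_pos⟩)

theorem zero_mem_disk : (0 : ℂ) ∈ Disk := mem_closedBall_self zero_le_one

theorem fderivWithin_toMap_mul {f g : Equiv.Perm Disk} (hf : ContDiffOn ℝ ∞ (toMap f) Disk)
    (hg : ContDiffOn ℝ ∞ (toMap g) Disk) {z : ℂ} (hz : z ∈ Disk) :
    fderivWithin ℝ (toMap (f * g)) Disk z =
      (fderivWithin ℝ (toMap f) Disk (toMap g z)).comp (fderivWithin ℝ (toMap g) Disk z) := by
  have h1 : toMap (f * g) = toMap f ∘ toMap g := funext (toMap_mul f g)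
  rw [h1]
  exact fderivWithin_comp z ((hf.differentiableOn (by simp)) _ (toMap_mem g hz))
    ((hg.differentiableOn (by simp)) _ hz) (fun _ h => toMap_mem g h) (uniqueDiffOn_disk z hz)

theorem fderivWithin_toMap_one {z : ℂ} (hz : z ∈ Disk) :
    fderivWithin ℝ (toMap 1) Disk z = ContinuousLinearMap.id ℝ ℂ := by
  have h1 : toMap 1 = id := funext toMap_one
  rw [h1, fderivWithin_id (uniqueDiffOn_disk z hz)]

theorem det_comp' (A B : ℂ →L[ℝ] ℂ) : (A.comp B).det = A.det * B.det := by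
  exact LinearMap.det_comp _ _

theorem det_id' : (ContinuousLinearMap.id ℝ ℂ).det = 1 := by
  exact LinearMap.det_id

/-- The group `Diff₀(D², *)` of smooth orientation preserving diffeomorphisms of the closed unit
disk (smooth up to the boundary, with smooth inverse, and with positive Jacobian determinant
everywhere) fixing the origin. The boundary is not required to be fixed. -/
noncomputable def DiffD : Subgroup (Equiv.Perm Disk) where
  carrier := {f | ContDiffOn ℝ ∞ (toMap f) Disk ∧ ContDiffOn ℝ ∞ (toMap f⁻¹) Disk ∧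
    (∀ z ∈ Disk, 0 < (fderivWithin ℝ (toMap f) Disk z).det) ∧ toMap f 0 = 0}
  mul_mem' := by
    rintro f g ⟨hf, hf', hfd, hf0⟩ ⟨hg, hg', hgd, hg0⟩
    refine ⟨?_, ?_, ?_, ?_⟩
    · have h1 : toMap (f * g) = toMap f ∘ toMap g := funext (toMap_mul f g)
      rw [h1]
      exact hf.comp hg (fun _ h => toMap_mem g h)
    · have h1 : toMap (f * g)⁻¹ = toMap g⁻¹ ∘ toMap f⁻¹ := by
        rw [mul_inv_rev]; exact funext (toMap_mul _ _)
      rw [h1]
      exact hg'.comp hf' (fun _ h => toMap_mem _ h)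
    · intro z hz
      rw [fderivWithin_toMap_mul hf hg hz, det_comp']
      exact mul_pos (hfd _ (toMap_mem g hz)) (hgd z hz)
    · rw [toMap_mul, hg0, hf0]
  one_mem' := by
    have h1 : toMap 1 = id := funext toMap_one
    refine ⟨?_, ?_, ?_, ?_⟩
    · rw [h1]; exact contDiff_id.contDiffOn
    · rw [inv_one, h1]; exact contDiff_id.contDiffOn
    · intro z hz
      rw [fderivWithin_toMap_one hz, det_id']
      exact one_pos
    · exact toMap_one 0
  inv_mem' := by
    rintro f ⟨hf, hf', hfd, hf0⟩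
    refine ⟨hf', by rwa [inv_inv], ?_, ?_⟩
    · intro z hz
      have h1 := fderivWithin_toMap_mul hf hf' hz
      rw [mul_inv_cancel, fderivWithin_toMap_one hz] at h1
      have h2 := congrArg ContinuousLinearMap.det h1
      rw [det_comp', det_id'] at h2
      have h3 := hfd _ (toMap_mem f⁻¹ hz)
      by_contra hcon
      have h4 : (fderivWithin ℝ (toMap f) Disk (toMap f⁻¹ z)).det *
        (fderivWithin ℝ (toMap f⁻¹) Disk z).det ≤ 0 :=
        mul_nonpos_of_nonneg_of_nonpos h3.le (not_lt.mp hcon)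
      linarith
    · have h1 := toMap_mul f⁻¹ f 0
      rw [inv_mul_cancel, toMap_one, hf0] at h1
      exact h1.symm

/-- The real vector space `Q(Γ)` of homogeneous quasimorphisms on a group `Γ`. -/
def HomogQM (Γ : Type*) [Group Γ] : Submodule ℝ (Γ → ℝ) where
  carrier := {φ | (∃ C : ℝ, ∀ a b, |φ (a * b) - φ a - φ b| ≤ C) ∧
    ∀ (a : Γ) (n : ℤ), φ (a ^ n) = n * φ a}
  add_mem' := by
    rintro φ ψ ⟨⟨C, hC⟩, hφ⟩ ⟨⟨C', hC'⟩, hψ⟩
    refine ⟨⟨C + C', fun a b => ?_⟩, fun a n => ?_⟩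
    · calc |(φ + ψ) (a * b) - (φ + ψ) a - (φ + ψ) b|
          = |(φ (a * b) - φ a - φ b) + (ψ (a * b) - ψ a - ψ b)| := by
            simp only [Pi.add_apply]; ring_nf
        _ ≤ C + C' := (abs_add_le _ _).trans (add_le_add (hC a b) (hC' a b))
    · simp only [Pi.add_apply, hφ, hψ]; ring
  zero_mem' := ⟨⟨0, fun a b => by simp⟩, fun a n => by simp⟩
  smul_mem' := by
    rintro c φ ⟨⟨C, hC⟩, hφ⟩
    refine ⟨⟨|c| * C, fun a b => ?_⟩, fun a n => ?_⟩
    · calc |(c • φ) (a * b) - (c • φ) a - (c • φ) b| = |c * (φ (a * b) - φ a - φ b)| := by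
            simp only [Pi.smul_apply, smul_eq_mul]; ring_nf
        _ = |c| * |φ (a * b) - φ a - φ b| := abs_mul _ _
        _ ≤ |c| * C := by gcongr; exact hC a b
    · simp only [Pi.smul_apply, smul_eq_mul, hφ]; ring

/-- The real vector space `Hom(Γ, ℝ)` of homomorphisms from a group `Γ` to `ℝ`. -/
def HomSpace (Γ : Type*) [Group Γ] : Submodule ℝ (Γ → ℝ) where
  carrier := {φ | ∀ a b, φ (a * b) = φ a + φ b}
  add_mem' := by
    intro φ ψ hφ hψ a b
    simp only [Pi.add_apply, hφ a b, hψ a b]; ring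
  zero_mem' := by intro a b; simp
  smul_mem' := by
    intro c φ hφ a b
    simp only [Pi.smul_apply, smul_eq_mul, hφ a b]; ring

/-- The subspace `Hom(Γ, ℝ) ⊆ Q(Γ)` of homomorphisms. -/
def HomSub (Γ : Type*) [Group Γ] : Submodule ℝ (HomogQM Γ) :=
  (HomSpace Γ).comap (HomogQM Γ).subtype

theorem mem_homSub {Γ : Type*} [Group Γ] {φ : HomogQM Γ} :
    φ ∈ HomSub Γ ↔ ∀ a b, φ.1 (a * b) = φ.1 a + φ.1 b := Iff.rfl

/-- Homomorphisms are homogeneous quasimorphisms. -/
theorem homSpace_le_homogQM (Γ : Type*) [Group Γ] : HomSpace Γ ≤ HomogQM Γ := by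
  intro φ hφ
  have hφ' : ∀ a b, φ (a * b) = φ a + φ b := hφ
  refine ⟨⟨0, fun a b => by rw [hφ' a b]; simp⟩, fun a n => ?_⟩
  let f : Γ →* Multiplicative ℝ :=
    MonoidHom.mk' (fun a => Multiplicative.ofAdd (φ a)) (fun a b => by rw [hφ' a b]; rfl)
  have h1 : f (a ^ n) = f a ^ n := map_zpow f a n
  have h2 : φ (a ^ n) = n • φ a := congrArg Multiplicative.toAdd h1
  rw [h2]; simp

/-- The dimension of the real vector space `Q(Γ)/Hom(Γ, ℝ)` of homogeneous quasimorphisms on `Γ`
modulo homomorphisms. -/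
noncomputable def dimQbar (Γ : Type) [Group Γ] : Cardinal :=
  Module.rank ℝ (HomogQM Γ ⧸ HomSub Γ)

end DiskQM
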