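import Pool.Agent.helper52.DQ.QM

/-!
A group acting on a circle `S`; additivity on point stabilizers plus one numerical condition
implies additivity.
-/

namespace DiskQM

variable {G X : Type*} [Group G] [MulAction G X]

/-- stabilizer of `q` in `H`. -/
def Dst (H : Subgroup G) (q : X) : Subgroup G where
  carrier := {h | h ∈ H ∧ h • q = q}
  mul_mem' := by
    rintro a b ⟨ha, ha'⟩ ⟨hb, hb'⟩
    exact ⟨H.mul_mem ha hb, by rw [mul_smul, hb', ha']⟩
  one_mem' := ⟨H.one_mem, one_smul _ _⟩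
  inv_mem' := by
    rintro a ⟨ha, ha'⟩
    exact ⟨H.inv_mem ha, by rw [inv_smul_eq_iff, ha']⟩

/-- `v` is a value of the factorisation of `h` through the stabilizers of `q` and `o`. -/
def Val (φ : G → ℝ) (H : Subgroup G) (o : X) (h : G) (q : X) (v : ℝ) : Prop :=
  ∃ s ∈ Dst H q, s • o = h • o ∧ v = φ s + φ (s⁻¹ * h)

section

variable {φ : G → ℝ} {C : ℝ} {H : Subgroup G} {o : X}

theorem Val.mem_o {h s : G} {q : X} (hh : h ∈ H) (hs : s ∈ Dst H q) (hso : s • o = h • o) :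
    s⁻¹ * h ∈ Dst H o :=
  ⟨H.mul_mem (H.inv_mem hs.1) hh, by rw [mul_smul, ← hso, inv_smul_smul]⟩

theorem Val.unique {h : G} {q : X} {v v' : ℝ}
    (hDo : AddOn φ (Dst H o : Subgroup G)) (hDq : AddOn φ (Dst H q : Subgroup G))
    (hh : h ∈ H) (h1 : Val φ H o h q v) (h2 : Val φ H o h q v') : v = v' := by
  obtain ⟨s, hs, hso, rfl⟩ := h1
  obtain ⟨s', hs', hso', rfl⟩ := h2
  have hu : s⁻¹ * s' ∈ Dst H q := (Dst H q).mul_mem ((Dst H q).inv_mem hs) hs'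
  have hu' : s⁻¹ * s' ∈ Dst H o :=
    ⟨hu.1, by rw [mul_smul, hso', ← hso, inv_smul_smul]⟩
  have e1 : φ s' = φ s + φ (s⁻¹ * s') := by
    rw [← hDq s hs _ hu]; congr 1; group
  have e2 : φ (s⁻¹ * h) = φ (s⁻¹ * s') + φ (s'⁻¹ * h) := by
    rw [← hDo _ hu' _ (Val.mem_o hh hs' hso')]; congr 1; group
  rw [e1, e2]; ring

theorem Val.mul_right {h w : G} {q : X} {v : ℝ} (hDo : AddOn φ (Dst H o : Subgroup G))
    (hh : h ∈ H) (hw : w ∈ Dst H o) (h1 : Val φ H o h q v) : Val φ H o (h * w) q (v + φ w) := by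
  obtain ⟨s, hs, hso, rfl⟩ := h1
  refine ⟨s, hs, by rw [mul_smul, hw.2, hso], ?_⟩
  rw [← mul_assoc, hDo _ (Val.mem_o hh hs hso) _ hw]; ring

theorem Val.mul_left (hφ : HQM φ C) (hDo : AddOn φ (Dst H o : Subgroup G)) {h w : G} {q : X} {v : ℝ}
    (hh : h ∈ H) (hw : w ∈ Dst H o) (h1 : Val φ H o h q v) :
    Val φ H o (w * h) (w • q) (φ w + v) := by
  obtain ⟨s, hs, hso, rfl⟩ := h1
  refine ⟨w * s * w⁻¹, ⟨H.mul_mem (H.mul_mem hw.1 hs.1) (H.inv_mem hw.1), ?_⟩, ?_, ?_⟩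
  · rw [mul_smul, inv_smul_smul, mul_smul, hs.2]
  · have : w⁻¹ • o = o := ((Dst H o).inv_mem hw).2
    rw [mul_smul, this, mul_smul, hso, mul_smul]
  · have e : (w * s * w⁻¹)⁻¹ * (w * h) = w * (s⁻¹ * h) := by group
    rw [e, hφ.conj, hDo _ hw _ (Val.mem_o hh hs hso)]; ring

theorem Val.same_side (hφ : HQM φ C) (hDo : AddOn φ (Dst H o : Subgroup G)) {h u : G} {q : X} {v : ℝ}
    (hh : h ∈ H) (hu : u ∈ Dst H o) (huy : u • (h • o) = h • o) (h1 : Val φ H o h q v) :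
    Val φ H o h (u • q) v := by
  have h2 := Val.mul_left hφ hDo hh hu h1
  have hx : h⁻¹ * u * h ∈ Dst H o :=
    ⟨H.mul_mem (H.mul_mem (H.inv_mem hh) hu.1) hh, by rw [mul_smul, mul_smul, huy, inv_smul_smul]⟩
  have h3 := Val.mul_right hDo (H.mul_mem hu.1 hh) ((Dst H o).inv_mem hx) h2
  have e1 : u * h * (h⁻¹ * u * h)⁻¹ = h := by group
  have e2 : φ (h⁻¹ * u * h)⁻¹ = - φ u := by rw [hφ.map_inv, hφ.conj']
  rw [e1, e2] at h3
  convert h3 using 1
  ring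

variable (S : Set X)

/-- The main abstract lemma. -/
theorem addOn_of_two_sides (hφ : HQM φ C) (hD : ∀ q ∈ S, AddOn φ (Dst H q : Subgroup G))
    (hoS : o ∈ S) (hS : ∀ h ∈ H, ∀ x ∈ S, h • x ∈ S) (hinf : S.Infinite)
    {y₀ q₁ q₂ : X} {h₀ : G} (hh₀ : h₀ ∈ H) (hy₀ : h₀ • o = y₀) (hy₀o : y₀ ≠ o)
    (T1 : ∀ q ∈ S, ∀ x ∈ S, ∀ y ∈ S, x ≠ q → y ≠ q → ∃ h ∈ Dst H q, h • x = y)
    (T2 : ∀ q ∈ S, q ≠ o → q ≠ y₀ → ∃ u ∈ Dst H o, u • y₀ = y₀ ∧ (u • q₁ = q ∨ u • q₂ = q))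
    {v₀ : ℝ} (hv₁ : Val φ H o h₀ q₁ v₀) (hv₂ : Val φ H o h₀ q₂ v₀) : AddOn φ H := by
  classical
  have hDo := hD o hoS
  have hy₀S : y₀ ∈ S := hy₀ ▸ hS h₀ hh₀ o hoS
  -- independence of `q`
  have indep : ∀ h ∈ H, h • o ≠ o → ∃ v : ℝ, ∀ q ∈ S, q ≠ o → q ≠ h • o → Val φ H o h q v := by
    intro h hh hho
    obtain ⟨w, hw, hwy⟩ := T1 o hoS y₀ hy₀S (h • o) (hS h hh o hoS) hy₀o hho
    have hx : (w * h₀)⁻¹ * h ∈ Dst H o :=
      ⟨H.mul_mem (H.inv_mem (H.mul_mem hw.1 hh₀)) hh, by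
        rw [mul_smul, inv_smul_eq_iff, mul_smul, hy₀, hwy]⟩
    set x := (w * h₀)⁻¹ * h with hxdef
    have hfac : h = (w * h₀) * x := by rw [hxdef]; group
    have A : ∀ {p : X}, Val φ H o h₀ p v₀ → Val φ H o h (w • p) (φ w + v₀ + φ x) := by
      intro p hp
      have h1 := Val.mul_left hφ hDo hh₀ hw hp
      have h2 := Val.mul_right hDo (H.mul_mem hw.1 hh₀) hx h1
      rw [← hfac] at h2
      exact h2
    refine ⟨φ w + v₀ + φ x, fun q hq hqo hqh => ?_⟩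
    have hwinv := (Dst H o).inv_mem hw
    obtain ⟨u, hu, huy, huq⟩ := T2 (w⁻¹ • q) (hS _ hwinv.1 q hq)
      (by
        intro h'
        rw [inv_smul_eq_iff, hw.2] at h'
        exact hqo h')
      (by
        intro h'
        rw [inv_smul_eq_iff, hwy] at h'
        exact hqh h')
    have hu' : w * u * w⁻¹ ∈ Dst H o := (Dst H o).mul_mem ((Dst H o).mul_mem hw hu) hwinv
    have hu'y : (w * u * w⁻¹) • (h • o) = h • o := by
      rw [← hwy, mul_smul, inv_smul_smul, mul_smul, huy]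
    rcases huq with huq | huq
    · have h3 := Val.same_side hφ hDo hh hu' hu'y (A hv₁)
      have e : (w * u * w⁻¹) • (w • q₁) = q := by
        rw [mul_smul, inv_smul_smul, mul_smul, huq, smul_inv_smul]
      rwa [e] at h3
    · have h3 := Val.same_side hφ hDo hh hu' hu'y (A hv₂)
      have e : (w * u * w⁻¹) • (w • q₂) = q := by
        rw [mul_smul, inv_smul_smul, mul_smul, huq, smul_inv_smul]
      rwa [e] at h3
  -- a point avoiding finitely many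
  have avoid : ∀ a b c : X, ∃ q ∈ S, q ≠ a ∧ q ≠ b ∧ q ≠ c := by
    intro a b c
    obtain ⟨q, hq, hqn⟩ := hinf.exists_notMem_finset ({a, b, c} : Finset X)
    refine ⟨q, hq, ?_, ?_, ?_⟩ <;> (rintro rfl; exact hqn (by simp))
  -- the additive function
  have hex : ∀ h ∈ H, ∃ v : ℝ, (h • o = o → v = φ h) ∧
      (h • o ≠ o → ∀ q ∈ S, q ≠ o → q ≠ h • o → Val φ H o h q v) := by
    intro h hh
    by_cases hho : h • o = o
    · exact ⟨φ h, fun _ => rfl, fun h' => absurd hho h'⟩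
    · obtain ⟨v, hv⟩ := indep h hh hho
      exact ⟨v, fun h' => absurd h' hho, fun _ => hv⟩
  let Φ : G → ℝ := fun h => if hh : h ∈ H then Classical.choose (hex h hh) else 0
  have hΦ1 : ∀ h ∈ H, h • o = o → Φ h = φ h := by
    intro h hh hho
    have := (Classical.choose_spec (hex h hh)).1 hho
    simp only [Φ, dif_pos hh, this]
  have hΦ2 : ∀ h ∈ H, h • o ≠ o → ∀ q ∈ S, q ≠ o → q ≠ h • o → Val φ H o h q (Φ h) := by
    intro h hh hho
    have := (Classical.choose_spec (hex h hh)).2 hho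
    simp only [Φ, dif_pos hh]
    exact this
  have hclose : ∀ h ∈ H, |φ h - Φ h| ≤ C := by
    intro h hh
    by_cases hho : h • o = o
    · rw [hΦ1 h hh hho]; simpa using hφ.C_nonneg
    · obtain ⟨q, hq, hqa, hqb, -⟩ := avoid o (h • o) o
      obtain ⟨s, hs, hso, hv⟩ := hΦ2 h hh hho q hq hqa hqb
      rw [hv]
      have := hφ.defect s (s⁻¹ * h)
      rw [mul_inv_cancel_left] at this
      calc |φ h - (φ s + φ (s⁻¹ * h))| = |φ h - φ s - φ (s⁻¹ * h)| := by ring_nf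
        _ ≤ C := this
  have hright : ∀ f ∈ H, ∀ g ∈ Dst H o, Φ (f * g) = Φ f + φ g := by
    intro f hf g hg
    by_cases hfo : f • o = o
    · rw [hΦ1 f hf hfo, hΦ1 _ (H.mul_mem hf hg.1) (by rw [mul_smul, hg.2, hfo]),
        hDo f ⟨hf, hfo⟩ g hg]
    · obtain ⟨q, hq, hqa, hqb, -⟩ := avoid o (f • o) o
      have h1 := Val.mul_right hDo hf hg (hΦ2 f hf hfo q hq hqa hqb)
      have hfgo : (f * g) • o = f • o := by rw [mul_smul, hg.2]
      have h2 := hΦ2 (f * g) (H.mul_mem hf hg.1) (by rw [hfgo]; exact hfo) q hq hqa (by rw [hfgo]; exact hqb)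
      exact Val.unique hDo (hD q hq) (H.mul_mem hf hg.1) h2 h1
  have hleft : ∀ f ∈ Dst H o, ∀ g ∈ H, Φ (f * g) = φ f + Φ g := by
    intro f hf g hg
    by_cases hgo : g • o = o
    · rw [hΦ1 g hg hgo, hΦ1 _ (H.mul_mem hf.1 hg) (by rw [mul_smul, hgo, hf.2]),
        hDo f hf g ⟨hg, hgo⟩]
    · obtain ⟨q, hq, hqa, hqb, -⟩ := avoid o (g • o) o
      have h1 := Val.mul_left hφ hDo hg hf (hΦ2 g hg hgo q hq hqa hqb)
      have hne : (f * g) • o ≠ o := by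
        rw [mul_smul]
        intro h'
        exact hgo (smul_left_cancel f (h'.trans hf.2.symm))
      have h2 := hΦ2 (f * g) (H.mul_mem hf.1 hg) hne (f • q) (hS f hf.1 q hq)
        (by
          intro h'
          exact hqa (smul_left_cancel f (h'.trans hf.2.symm)))
        (by
          rw [mul_smul]
          intro h'
          exact hqb (smul_left_cancel f h'))
      exact Val.unique hDo (hD _ (hS f hf.1 q hq)) (H.mul_mem hf.1 hg) h2 h1
  have hadd : AddOn Φ (H : Set G) := by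
    intro f hf g hg
    by_cases hgo : g • o = o
    · rw [hright f hf g ⟨hg, hgo⟩, hΦ1 g hg hgo]
    by_cases hfo : f • o = o
    · rw [hleft f ⟨hf, hfo⟩ g hg, hΦ1 f hf hfo]
    have hfg : f * g ∈ H := H.mul_mem hf hg
    obtain ⟨q, hq, hqo, hqy, hqw⟩ := avoid o (f • o) ((f * g) • o)
    obtain ⟨t, ht, hto⟩ := T1 q hq o hoS (f • o) (hS f hf o hoS) (Ne.symm hqo) (Ne.symm hqy)
    have ht' : t⁻¹ * f ∈ Dst H o := Val.mem_o hf ht hto
    have hΦf : Φ f = φ t + φ (t⁻¹ * f) :=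
      Val.unique hDo (hD q hq) hf (hΦ2 f hf hfo q hq hqo hqy) ⟨t, ht, hto, rfl⟩
    set g₁ := t⁻¹ * f * g with hg₁
    have hg₁H : g₁ ∈ H := H.mul_mem ht'.1 hg
    have hΦg₁ : Φ g₁ = φ (t⁻¹ * f) + Φ g := hleft _ ht' g hg
    have htg₁ : t * g₁ = f * g := by rw [hg₁]; group
    have htx : t • (g₁ • o) = (f * g) • o := by rw [← mul_smul, htg₁]
    have hx1 : g₁ • o ≠ o := by
      intro h'
      rw [h', hto, mul_smul] at htx
      exact hgo (smul_left_cancel f htx).symm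
    have hx2 : q ≠ g₁ • o := by
      intro h'
      rw [← h', ht.2] at htx
      exact hqw htx
    obtain ⟨s₁, hs₁, hs₁o, hv₁'⟩ := hΦ2 g₁ hg₁H hx1 q hq hqo hx2
    have hr : s₁⁻¹ * g₁ ∈ Dst H o := Val.mem_o hg₁H hs₁ hs₁o
    have hts : t * s₁ ∈ Dst H q := (Dst H q).mul_mem ht hs₁
    have htso : (t * s₁) • o = (f * g) • o := by rw [mul_smul, hs₁o, htx]
    have hinv : (t * s₁)⁻¹ * (f * g) = s₁⁻¹ * g₁ := by rw [← htg₁]; group
    have goal1 : Φ (f * g) = φ (t * s₁) + φ (s₁⁻¹ * g₁) := by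
      by_cases hw : (f * g) • o = o
      · have h1 : t * s₁ ∈ Dst H o := ⟨hts.1, by rw [htso, hw]⟩
        rw [hΦ1 _ hfg hw, ← hDo _ h1 _ hr]
        congr 1
        rw [← hinv]; group
      · exact Val.unique hDo (hD q hq) hfg (hΦ2 _ hfg hw q hq hqo hqw)
          ⟨t * s₁, hts, htso, by rw [hinv]⟩
    rw [goal1, hD q hq t ht s₁ hs₁]
    linarith
  exact hφ.addOn_of_close hadd hclose

end

end DiskQM
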