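import Pool.Agent.helper52.DQ.Defs
import Pool.Agent.helper52.DQ.TwoSides

/-!
Basic API for the group `DiffD`.
-/

open Set Metric Filter Topology
open scoped ContDiff

namespace DiskQM

/-- Permutations of the disk act on the plane. -/
noncomputable instance instAct : MulAction (Equiv.Perm Disk) ℂ where
  smul f z := toMap f z
  one_smul z := toMap_one z
  mul_smul f g z := toMap_mul f g z

theorem perm_smul_def (f : Equiv.Perm Disk) (z : ℂ) : f • z = toMap f z := rfl

theorem smul_def (g : DiffD) (z : ℂ) : g • z = toMap g.1 z := rfl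

theorem smul_mem (g : DiffD) {z : ℂ} (h : z ∈ Disk) : g • z ∈ Disk := toMap_mem g.1 h

theorem smul_notMem (g : DiffD) {z : ℂ} (h : z ∉ Disk) : g • z = z := toMap_of_notMem g.1 h

theorem smul_mem_iff (g : DiffD) {z : ℂ} : g • z ∈ Disk ↔ z ∈ Disk := by
  constructor
  · intro h
    have := smul_mem g⁻¹ h
    rwa [inv_smul_smul] at this
  · exact smul_mem g

theorem contDiffOn_smul (g : DiffD) : ContDiffOn ℝ ∞ (fun z : ℂ => g • z) Disk := g.2.1

theorem smul_zero' (g : DiffD) : g • (0 : ℂ) = 0 := g.2.2.2.2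

theorem continuousOn_smul (g : DiffD) : ContinuousOn (fun z : ℂ => g • z) Disk :=
  (contDiffOn_smul g).continuousOn

/-- derivative of `g` within the disk. -/
noncomputable def dg (g : DiffD) (z : ℂ) : ℂ →L[ℝ] ℂ := fderivWithin ℝ (fun z : ℂ => g • z) Disk z

theorem dg_eq (g : DiffD) (z : ℂ) : dg g z = fderivWithin ℝ (toMap g.1) Disk z := rfl

theorem hasFDerivWithinAt_smul (g : DiffD) {z : ℂ} (hz : z ∈ Disk) :
    HasFDerivWithinAt (fun z : ℂ => g • z) (dg g z) Disk z :=
  ((contDiffOn_smul g).differentiableOn (by simp) z hz).hasFDerivWithinAt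

theorem dg_mul (g h : DiffD) {z : ℂ} (hz : z ∈ Disk) :
    dg (g * h) z = (dg g (h • z)).comp (dg h z) :=
  fderivWithin_toMap_mul g.2.1 h.2.1 hz

theorem dg_one {z : ℂ} (hz : z ∈ Disk) : dg 1 z = ContinuousLinearMap.id ℝ ℂ :=
  fderivWithin_toMap_one hz

theorem dg_inv_comp (g : DiffD) {z : ℂ} (hz : z ∈ Disk) :
    (dg g⁻¹ (g • z)).comp (dg g z) = ContinuousLinearMap.id ℝ ℂ := by
  rw [← dg_mul g⁻¹ g hz, inv_mul_cancel, dg_one hz]

theorem dg_comp_inv (g : DiffD) {z : ℂ} (hz : z ∈ Disk) :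
    (dg g z).comp (dg g⁻¹ (g • z)) = ContinuousLinearMap.id ℝ ℂ := by
  have h1 := dg_mul g g⁻¹ (smul_mem g hz)
  rw [inv_smul_smul, mul_inv_cancel, dg_one (smul_mem g hz)] at h1
  exact h1.symm

theorem det_dg_pos (g : DiffD) {z : ℂ} (hz : z ∈ Disk) : 0 < (dg g z).det := g.2.2.2.1 z hz

/-- derivative as an equivalence -/
noncomputable def dgEquiv (g : DiffD) {z : ℂ} (hz : z ∈ Disk) : ℂ ≃L[ℝ] ℂ :=
  ContinuousLinearEquiv.equivOfInverse (dg g z) (dg g⁻¹ (g • z))
    (fun v => by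
      have := congrArg (fun A : ℂ →L[ℝ] ℂ => A v) (dg_inv_comp g hz)
      simpa using this)
    (fun v => by
      have := congrArg (fun A : ℂ →L[ℝ] ℂ => A v) (dg_comp_inv g hz)
      simpa using this)

theorem coe_dgEquiv (g : DiffD) {z : ℂ} (hz : z ∈ Disk) :
    (dgEquiv g hz : ℂ →L[ℝ] ℂ) = dg g z := rfl

theorem continuousOn_dg (g : DiffD) : ContinuousOn (dg g) Disk :=
  (contDiffOn_smul g).continuousOn_fderivWithin uniqueDiffOn_disk (by simp)

theorem contDiffOn_dg (g : DiffD) : ContDiffOn ℝ ∞ (dg g) Disk :=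
  (contDiffOn_smul g).fderivWithin uniqueDiffOn_disk (by simp)

theorem mem_disk {z : ℂ} : z ∈ Disk ↔ ‖z‖ ≤ 1 := by simp [Disk]

theorem disk_mem_nhds {z : ℂ} (hz : ‖z‖ < 1) : Disk ∈ 𝓝 z := by
  apply Filter.mem_of_superset (isOpen_ball.mem_nhds (mem_ball_zero_iff.mpr hz)) ball_subset_closedBall

/-- `g` preserves the open disk. -/
theorem norm_smul_lt (g : DiffD) {z : ℂ} (hz : ‖z‖ < 1) : ‖g • z‖ < 1 := by
  have hzD : z ∈ Disk := mem_disk.mpr hz.le
  have hnhds : Disk ∈ 𝓝 z := disk_mem_nhds hz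
  have h1 : ContDiffAt ℝ ∞ (fun z : ℂ => g • z) z := (contDiffOn_smul g).contDiffAt hnhds
  have h2 : HasFDerivAt (fun z : ℂ => g • z) (dgEquiv g hzD : ℂ →L[ℝ] ℂ) z :=
    (hasFDerivWithinAt_smul g hzD).hasFDerivAt hnhds
  have h3 : HasStrictFDerivAt (fun z : ℂ => g • z) (dgEquiv g hzD : ℂ →L[ℝ] ℂ) z :=
    h1.hasStrictFDerivAt' h2 (by simp)
  have h4 := h3.map_nhds_eq_of_equiv
  have h5 : (fun z : ℂ => g • z) ⁻¹' Disk ∈ 𝓝 z := by
    filter_upwards [hnhds] with w hw using smul_mem g hw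
  have h6 : Disk ∈ 𝓝 (g • z) := by
    rw [← h4]; exact h5
  have h7 : g • z ∈ interior Disk := mem_interior_iff_mem_nhds.mpr h6
  rw [interior_closedBall _ one_ne_zero] at h7
  simpa using h7

theorem norm_smul_lt_iff (g : DiffD) {z : ℂ} : ‖g • z‖ < 1 ↔ ‖z‖ < 1 := by
  constructor
  · intro h
    have := norm_smul_lt g⁻¹ h
    rwa [inv_smul_smul] at this
  · exact norm_smul_lt g

theorem norm_smul_eq_one_iff (g : DiffD) {z : ℂ} : ‖g • z‖ = 1 ↔ ‖z‖ = 1 := by
  have h1 := norm_smul_lt_iff g (z := z)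
  have h2 := smul_mem_iff g (z := z)
  rw [mem_disk, mem_disk] at h2
  constructor
  · intro h
    have a : ‖z‖ ≤ 1 := h2.mp h.le
    have b : ¬ ‖z‖ < 1 := fun hlt => absurd (h1.mpr hlt) (by rw [h]; exact lt_irrefl _)
    exact le_antisymm a (not_lt.mp b)
  · intro h
    have a : ‖g • z‖ ≤ 1 := h2.mpr h.le
    have b : ¬ ‖g • z‖ < 1 := fun hlt => absurd (h1.mp hlt) (by rw [h]; exact lt_irrefl _)
    exact le_antisymm a (not_lt.mp b)

theorem ext_smul {g h : DiffD} (H : ∀ z ∈ Disk, g • z = h • z) : g = h := by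
  apply Subtype.ext
  ext ⟨z, hz⟩
  have := H z hz
  rw [smul_def, smul_def, toMap_of_mem _ hz, toMap_of_mem _ hz] at this
  rw [this]

theorem smul_eq_zero_iff' (g : DiffD) {z : ℂ} : g • z = 0 ↔ z = 0 := by
  rw [smul_eq_iff_eq_inv_smul, smul_zero' g⁻¹]

/-- pointwise disjoint supports imply commuting. -/
theorem commute_of_disjoint {g h : DiffD} (H : ∀ z ∈ Disk, g • z = z ∨ h • z = z) : Commute g h := by
  have H' : ∀ z : ℂ, g • z = z ∨ h • z = z := by
    intro z
    by_cases hz : z ∈ Disk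
    · exact H z hz
    · exact Or.inl (smul_notMem g hz)
  apply ext_smul
  intro z _
  rw [mul_smul, mul_smul]
  rcases H' z with h1 | h1
  · rw [h1]
    rcases H' (h • z) with h2 | h2
    · exact h2
    · have : h • z = z := smul_left_cancel h h2
      rw [this, h1]
  · rw [h1]
    rcases H' (g • z) with h2 | h2
    · have : g • z = z := smul_left_cancel g h2
      rw [this, h1]
    · exact h2.symm

/-! ### Constructing elements of `DiffD` -/

/-- build a permutation of the disk from a pair of inverse functions. -/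
noncomputable def mkPerm (f f' : ℂ → ℂ) (hf : MapsTo f Disk Disk) (hf' : MapsTo f' Disk Disk)
    (h1 : ∀ z ∈ Disk, f' (f z) = z) (h2 : ∀ z ∈ Disk, f (f' z) = z) : Equiv.Perm Disk where
  toFun z := ⟨f z, hf z.2⟩
  invFun z := ⟨f' z, hf' z.2⟩
  left_inv z := Subtype.ext (h1 z z.2)
  right_inv z := Subtype.ext (h2 z z.2)

theorem isPreconnected_disk : IsPreconnected Disk := (convex_closedBall (0:ℂ) 1).isPreconnected

theorem continuous_det : Continuous (fun A : ℂ →L[ℝ] ℂ => A.det) :=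
  ContinuousLinearMap.continuous_det

/-- If the derivative is everywhere invertible on the disk and has positive determinant at `0`,
then it has positive determinant everywhere. -/
theorem det_pos_of_zero {f : ℂ → ℂ} (hc : ContDiffOn ℝ ∞ f Disk)
    (hne : ∀ z ∈ Disk, (fderivWithin ℝ f Disk z).det ≠ 0)
    (hd : 0 < (fderivWithin ℝ f Disk 0).det) : ∀ z ∈ Disk, 0 < (fderivWithin ℝ f Disk z).det := by
  intro z hz
  by_contra hcon
  have hcont : ContinuousOn (fun z => (fderivWithin ℝ f Disk z).det) Disk :=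
    continuous_det.comp_continuousOn (hc.continuousOn_fderivWithin uniqueDiffOn_disk (by simp))
  have h1 := isPreconnected_disk.intermediate_value hz zero_mem_disk hcont
  have h2 : (0:ℝ) ∈ Icc ((fderivWithin ℝ f Disk z).det) ((fderivWithin ℝ f Disk 0).det) :=
    ⟨not_lt.mp hcon, hd.le⟩
  obtain ⟨w, hw, hw'⟩ := h1 h2
  exact hne w hw hw'

theorem exists_of_inverse {f f' : ℂ → ℂ} (hf : MapsTo f Disk Disk) (hf' : MapsTo f' Disk Disk)
    (h1 : ∀ z ∈ Disk, f' (f z) = z) (h2 : ∀ z ∈ Disk, f (f' z) = z)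
    (hc : ContDiffOn ℝ ∞ f Disk) (hc' : ContDiffOn ℝ ∞ f' Disk) (h0 : f 0 = 0)
    (hd : 0 < (fderivWithin ℝ f Disk 0).det) :
    ∃ g : DiffD, (∀ z ∈ Disk, g • z = f z) ∧ (∀ z ∈ Disk, g⁻¹ • z = f' z) := by
  let p := mkPerm f f' hf hf' h1 h2
  have hp : ∀ z ∈ Disk, toMap p z = f z := fun z hz => toMap_of_mem p hz
  have hp' : ∀ z ∈ Disk, toMap p⁻¹ z = f' z := fun z hz => toMap_of_mem p⁻¹ hz
  have hne : ∀ z ∈ Disk, (fderivWithin ℝ f Disk z).det ≠ 0 := by
    intro z hz h0
    have e1 : fderivWithin ℝ (f' ∘ f) Disk z = (fderivWithin ℝ f' Disk (f z)).comp (fderivWithin ℝ f Disk z) :=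
      fderivWithin_comp z (hc'.differentiableOn (by simp) _ (hf hz))
        (hc.differentiableOn (by simp) _ hz) hf (uniqueDiffOn_disk z hz)
    have e2 : fderivWithin ℝ (f' ∘ f) Disk z = ContinuousLinearMap.id ℝ ℂ := by
      have e3 : fderivWithin ℝ (f' ∘ f) Disk z = fderivWithin ℝ id Disk z :=
        fderivWithin_congr (fun w hw => h1 w hw) (h1 z hz)
      rw [e3, fderivWithin_id (uniqueDiffOn_disk z hz)]
    rw [e2] at e1
    have := congrArg ContinuousLinearMap.det e1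
    rw [det_comp', det_id', h0, mul_zero] at this
    exact one_ne_zero this
  refine ⟨⟨p, hc.congr hp, hc'.congr hp', ?_, ?_⟩, hp, hp'⟩
  · intro z hz
    rw [fderivWithin_congr hp (hp z hz)]
    exact det_pos_of_zero hc hne hd z hz
  · rw [hp 0 zero_mem_disk, h0]

theorem inverse_contDiffOn {f f' : ℂ → ℂ} (hf : MapsTo f Disk Disk) (hf' : MapsTo f' Disk Disk)
    (h1 : ∀ z ∈ Disk, f' (f z) = z) (h2 : ∀ z ∈ Disk, f (f' z) = z)
    (hc : ContDiffOn ℝ ∞ f Disk) 
    (hd : ∀ z ∈ Disk, (fderivWithin ℝ f Disk z).IsInvertible) : ContDiffOn ℝ ∞ f' Disk := by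
  -- continuity of the inverse
  have hcont : ContinuousOn f' Disk := by
    let F : Disk → Disk := fun z => ⟨f z, hf z.2⟩
    let F' : Disk → Disk := fun z => ⟨f' z, hf' z.2⟩
    have hF : Continuous F := by
      apply Continuous.subtype_mk
      exact hc.continuousOn.domRestrict
    have : CompactSpace Disk := isCompact_iff_compactSpace.mp (isCompact_closedBall (0:ℂ) 1)
    let e : Disk ≃ Disk := ⟨F, F', fun z => Subtype.ext (h1 z z.2), fun z => Subtype.ext (h2 z z.2)⟩
    have he : Continuous e.symm := Continuous.continuous_symm_of_equiv_compact_to_t2 (f := e) hF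
    rw [continuousOn_iff_continuous_domRestrict]
    exact continuous_subtype_val.comp he
  have hder : ∀ w ∈ Disk, HasFDerivWithinAt f' (ContinuousLinearMap.inverse (fderivWithin ℝ f Disk (f' w))) Disk w := by
    intro w hw
    obtain ⟨e, he⟩ := hd _ (hf' hw)
    rw [← he, ContinuousLinearMap.inverse_equiv]
    apply HasFDerivWithinAt.of_local_left_inverse (f := f) (t := Disk) (f' := e) _ _ hw
    · filter_upwards [self_mem_nhdsWithin] with z hz using h2 z hz
    · exact (hcont w hw).tendsto_nhdsWithin hf'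
    · rw [he]
      exact (hc.differentiableOn (by simp) _ (hf' hw)).hasFDerivWithinAt
  have main : ∀ n : ℕ, ContDiffOn ℝ n f' Disk := by
    intro n
    induction n with
    | zero => exact contDiffOn_zero.mpr hcont
    | succ n ih =>
      push_cast
      rw [contDiffOn_succ_iff_hasFDerivWithinAt_of_uniqueDiffOn uniqueDiffOn_disk]
      refine ⟨by simp, fun w => ContinuousLinearMap.inverse (fderivWithin ℝ f Disk (f' w)), ?_, hder⟩
      intro w hw
      have hinv := (hd _ (hf' hw)).contDiffAt_map_inverse (n := (n : WithTop ℕ∞))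
      have hD : ContDiffOn ℝ n (fun z => fderivWithin ℝ f Disk z) Disk :=
        (hc.fderivWithin uniqueDiffOn_disk (m := ∞) (by simp)).of_le (by exact_mod_cast le_top)
      exact hinv.comp_contDiffWithinAt w (hD.comp ih hf' w hw)
  exact contDiffOn_infty.mpr main

theorem isInvertible_of_det_ne_zero {A : ℂ →L[ℝ] ℂ} (h : A.det ≠ 0) : A.IsInvertible :=
  ⟨A.toContinuousLinearEquivOfDetNeZero h, A.coe_toContinuousLinearEquivOfDetNeZero h⟩

/-- Main construction lemma: a smooth bijection of the disk with invertible derivative. -/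
theorem exists_of_bijOn {f : ℂ → ℂ} (hf : BijOn f Disk Disk) (hc : ContDiffOn ℝ ∞ f Disk)
    (h0 : f 0 = 0) (hne : ∀ z ∈ Disk, (fderivWithin ℝ f Disk z).det ≠ 0)
    (hd : 0 < (fderivWithin ℝ f Disk 0).det) : ∃ g : DiffD, ∀ z ∈ Disk, g • z = f z := by
  obtain ⟨f', hf'⟩ : ∃ f' : ℂ → ℂ, InvOn f' f Disk Disk ∧ MapsTo f' Disk Disk := by
    refine ⟨Function.invFunOn f Disk, hf.invOn_invFunOn, hf.surjOn.mapsTo_invFunOn⟩
  obtain ⟨⟨h1, h2⟩, hm⟩ := hf'
  have hc' := inverse_contDiffOn hf.mapsTo hm h1 h2 hc (fun z hz => isInvertible_of_det_ne_zero (hne z hz))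
  obtain ⟨g, hg, -⟩ := exists_of_inverse hf.mapsTo hm h1 h2 hc hc' h0 hd
  exact ⟨g, hg⟩

end DiskQM
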