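import Pool.Agent.helper52.DQ.Lin

/-!
Displacement arguments.
-/

open Set Metric Filter Topology
open scoped ContDiff

noncomputable section

namespace DiskQM

theorem exists_collar {P : ℂ → Prop} (h : ∀ p ∈ Cir, ∀ᶠ z in 𝓝[Disk] p, P z) :
    ∃ R : ℝ, 0 < R ∧ R < 1 ∧ ∀ z ∈ Disk, R ≤ ‖z‖ → P z := by
  set U : Set ℂ := {z | ∀ᶠ w in 𝓝 z, w ∈ Disk → P w} with hU
  have hUo : IsOpen U := isOpen_setOfPred_eventually_nhds
  have hCU : Cir ⊆ U := fun p hp => eventually_nhdsWithin_iff.mp (h p hp)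
  have hPU : ∀ z ∈ Disk, z ∈ U → P z := fun z hz hzU => (Filter.Eventually.self_of_nhds hzU) hz
  set K : Set ℂ := Disk ∩ Uᶜ with hK
  have hKc : IsCompact K := (isCompact_closedBall (0:ℂ) 1).inter_right hUo.isClosed_compl
  rcases K.eq_empty_or_nonempty with he | hne
  · refine ⟨1 / 2, by norm_num, by norm_num, fun z hz _ => hPU z hz ?_⟩
    by_contra hzU
    have : z ∈ K := ⟨hz, hzU⟩
    rw [he] at this
    exact this
  · obtain ⟨m, hm, hmax⟩ := hKc.exists_isMaxOn hne continuous_norm.continuousOn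
    have hm1 : ‖m‖ < 1 := by
      rcases lt_or_eq_of_le (mem_disk.mp hm.1) with h1 | h1
      · exact h1
      · exact absurd (hCU h1) hm.2
    refine ⟨(1 + ‖m‖) / 2, by positivity, by linarith, fun z hz hzR => hPU z hz ?_⟩
    by_contra hzU
    have h1 : ‖z‖ ≤ ‖m‖ := hmax ⟨hz, hzU⟩
    linarith

theorem exists_ball_zero {P : ℂ → Prop} (h : ∀ᶠ z in 𝓝[Disk] (0:ℂ), P z) :
    ∃ r : ℝ, 0 < r ∧ r < 1 ∧ ∀ z : ℂ, ‖z‖ ≤ r → P z := by
  have h1 : 𝓝[Disk] (0:ℂ) = 𝓝 0 := nhdsWithin_eq_nhds.mpr (disk_mem_nhds (by simp))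
  rw [h1] at h
  obtain ⟨ε, hε, hb⟩ := Metric.eventually_nhds_iff.mp h
  refine ⟨min (ε / 2) (1 / 2), by positivity, lt_of_le_of_lt (min_le_right _ _) (by norm_num), ?_⟩
  intro z hz
  apply hb
  rw [dist_zero_right]
  exact lt_of_le_of_lt (hz.trans (min_le_left _ _)) (by linarith)

theorem kk_radii {g : DiffD} (hg : g ∈ KK) :
    ∃ r R : ℝ, 0 < r ∧ r < 1 ∧ 0 < R ∧ R < 1 ∧ ∀ z ∈ Disk, (‖z‖ ≤ r ∨ R ≤ ‖z‖) → g • z = z := by
  obtain ⟨r, hr, hr1, hr2⟩ := exists_ball_zero (hg.1 0 rfl)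
  obtain ⟨R, hR, hR1, hR2⟩ := exists_collar hg.2
  exact ⟨r, R, hr, hr1, hR, hR1, fun z hz h => h.elim (hr2 z) (hR2 z hz)⟩

/-- homothety in `GL₂⁺(ℝ)` -/
def homo (s : ℝ) (hs : 0 < s) : GLp := linP s 0 0 s (by simpa using mul_pos hs hs)

theorem homo_apply (s : ℝ) (hs : 0 < s) (z : ℂ) : (homo s hs).1 z = s • z := by
  rw [homo, linP_apply]
  apply Complex.ext <;> simp

theorem homo_mul (s t : ℝ) (hs : 0 < s) (ht : 0 < t) : homo s hs * homo t ht = homo (s * t) (mul_pos hs ht) := by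
  apply GLp_ext
  intro z
  show (homo s hs).1 ((homo t ht).1 z) = _
  rw [homo_apply, homo_apply, homo_apply, smul_smul]

theorem homo_one : homo 1 one_pos = 1 := by
  apply GLp_ext
  intro z
  rw [homo_apply, one_smul]; rfl

/-- the radius squared in the plane -/
def vv (z : ℂ) : ℝ := ‖z‖ ^ 2 / (1 - ‖z‖ ^ 2)

theorem vv_homo (s : ℝ) (hs : 0 < s) {z : ℂ} (hz : ‖z‖ < 1) :
    vv (tau (homo s hs) • z) = s ^ 2 * vv z := by
  have hzD : z ∈ Disk := mem_disk.mpr hz.le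
  have hp := nrm_pos (homo s hs).1 hzD
  have h2 : 0 < 1 - ‖z‖ ^ 2 := by nlinarith [norm_nonneg z]
  rw [tau_smul _ hzD, vv, norm_tauFun_sq _ hzD]
  have e : nrm (homo s hs).1 z = 1 - ‖z‖ ^ 2 + s ^ 2 * ‖z‖ ^ 2 := by
    rw [nrm, homo_apply, norm_smul, mul_pow, Real.norm_of_nonneg hs.le]
  have e2 : ‖(homo s hs).1 z‖ ^ 2 = s ^ 2 * ‖z‖ ^ 2 := by
    rw [homo_apply, norm_smul, mul_pow, Real.norm_of_nonneg hs.le]
  rw [e2, e, vv]
  rw [e] at hp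
  have e3 : 1 - s ^ 2 * ‖z‖ ^ 2 / (1 - ‖z‖ ^ 2 + s ^ 2 * ‖z‖ ^ 2) =
    (1 - ‖z‖ ^ 2) / (1 - ‖z‖ ^ 2 + s ^ 2 * ‖z‖ ^ 2) := by field_simp; ring
  rw [e3]
  field_simp

theorem vv_mono {r : ℝ} {z : ℂ} (hr : 0 ≤ r) (hz : ‖z‖ < 1) (h : r < ‖z‖) :
    r ^ 2 / (1 - r ^ 2) < vv z := by
  have h2 : 0 < 1 - ‖z‖ ^ 2 := by nlinarith [norm_nonneg z]
  have h1 : 0 < 1 - r ^ 2 := by nlinarith [norm_nonneg z]
  rw [vv, div_lt_div_iff₀ h1 h2]
  nlinarith [norm_nonneg z]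

theorem vv_mono' {R : ℝ} {z : ℂ} (hR : R < 1) (h : ‖z‖ < R) :
    vv z < R ^ 2 / (1 - R ^ 2) := by
  have h0 := norm_nonneg z
  have h2 : 0 < 1 - ‖z‖ ^ 2 := by nlinarith [norm_nonneg z]
  have h1 : 0 < 1 - R ^ 2 := by nlinarith [norm_nonneg z]
  rw [vv, div_lt_div_iff₀ h2 h1]
  nlinarith [norm_nonneg z]

theorem vv_homo_pow (s : ℝ) (hs : 0 < s) (n : ℕ) {z : ℂ} (hz : ‖z‖ < 1) :
    vv ((tau (homo s hs)) ^ n • z) = (s ^ 2) ^ n * vv z := by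
  induction n with
  | zero => simp
  | succ n ih =>
    rw [pow_succ', mul_smul, vv_homo s hs (norm_smul_lt _ hz), ih]; ring

variable {φ : DiffD → ℝ} {C : ℝ}

theorem addOn_KK (hφ : HQM φ C) : AddOn φ (KK : Subgroup DiffD) := by
  intro a ha b hb
  obtain ⟨r₁, R₁, hr₁, hr₁', hR₁, hR₁', ha'⟩ := kk_radii ha
  obtain ⟨r₂, R₂, hr₂, hr₂', hR₂, hR₂', hb'⟩ := kk_radii hb
  set r := min r₁ r₂ with hr
  set R := max R₁ R₂ with hR
  have hr0 : 0 < r := lt_min hr₁ hr₂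
  have hR0 : 0 < R := lt_max_of_lt_left hR₁
  have hR1 : R < 1 := max_lt hR₁' hR₂'
  have hr1 : r < 1 := min_lt_of_left_lt hr₁'
  -- both a and b fix points outside the annulus
  have hfix : ∀ x ∈ ({a, b} : Set DiffD), ∀ z ∈ Disk, (‖z‖ ≤ r ∨ R ≤ ‖z‖) → x • z = z := by
    intro x hx z hz h
    rcases hx with rfl | rfl
    · exact ha' z hz (h.imp (fun h => h.trans (min_le_left _ _)) (fun h => (le_max_left _ _).trans h))
    · exact hb' z hz (h.imp (fun h => h.trans (min_le_right _ _)) (fun h => (le_max_right _ _).trans h))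
  set A := r ^ 2 / (1 - r ^ 2) with hA
  set B := R ^ 2 / (1 - R ^ 2) with hB
  have hA0 : 0 < A := by
    apply div_pos (by positivity); nlinarith
  have hB0 : 0 < B := by
    apply div_pos (by positivity); nlinarith
  -- scaling factor
  obtain ⟨s, hs, hsA, hs1⟩ : ∃ s : ℝ, 0 < s ∧ B ≤ s ^ 2 * A ∧ 1 ≤ s ^ 2 := by
    refine ⟨Real.sqrt (B / A + 1), Real.sqrt_pos.mpr (by positivity), ?_, ?_⟩
    · rw [Real.sq_sqrt (by positivity), add_mul, div_mul_cancel₀ _ hA0.ne']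
      linarith
    · rw [Real.sq_sqrt (by positivity)]
      have : 0 < B / A := by positivity
      linarith
  set T := tau (homo s hs) with hT
  have key : ∀ i j : ℕ, i < j → ∀ z ∈ Disk, (∀ x ∈ ({a, b} : Set DiffD), (T ^ i * x * (T ^ i)⁻¹) • z = z) ∨
      (∀ y ∈ ({a, b} : Set DiffD), (T ^ j * y * (T ^ j)⁻¹) • z = z) := by
    intro i j hij z hz
    have conv : ∀ (k : ℕ) (x : DiffD), x • ((T ^ k)⁻¹ • z) = (T ^ k)⁻¹ • z → (T ^ k * x * (T ^ k)⁻¹) • z = z := by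
      intro k x h
      rw [mul_smul, mul_smul, h, smul_inv_smul]
    have hmem : ∀ k : ℕ, (T ^ k)⁻¹ • z ∈ Disk := fun k => smul_mem _ hz
    by_cases h1 : ‖(T ^ i)⁻¹ • z‖ ≤ r ∨ R ≤ ‖(T ^ i)⁻¹ • z‖
    · exact Or.inl (fun x hx => conv i x (hfix x hx _ (hmem i) h1))
    by_cases h2 : ‖(T ^ j)⁻¹ • z‖ ≤ r ∨ R ≤ ‖(T ^ j)⁻¹ • z‖
    · exact Or.inr (fun x hx => conv j x (hfix x hx _ (hmem j) h2))
    exfalso
    push Not at h1 h2
    have hi1 : ‖(T ^ i)⁻¹ • z‖ < 1 := h1.2.trans hR1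
    have hj1 : ‖(T ^ j)⁻¹ • z‖ < 1 := h2.2.trans hR1
    have e1 := vv_homo_pow s hs i hi1
    have e2 := vv_homo_pow s hs j hj1
    rw [← hT, smul_inv_smul] at e1 e2
    have l1 := vv_mono' hR1 h1.2
    have l2 := vv_mono hr0.le hj1 h2.1
    obtain ⟨k, rfl⟩ := Nat.exists_eq_add_of_lt hij
    have hpos : 0 < (s ^ 2) ^ i := by positivity
    have e3 : vv ((T ^ i)⁻¹ • z) = (s ^ 2) ^ (k + 1) * vv ((T ^ (i + k + 1))⁻¹ • z) := by
      have : (s ^ 2) ^ i * vv ((T ^ i)⁻¹ • z) = (s ^ 2) ^ i * ((s ^ 2) ^ (k + 1) * vv ((T ^ (i + k + 1))⁻¹ • z)) := by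
        rw [← e1, e2]; ring
      exact mul_left_cancel₀ hpos.ne' this
    have hk : s ^ 2 ≤ (s ^ 2) ^ (k + 1) := by
      have h3 : 1 ≤ (s ^ 2) ^ k := one_le_pow₀ hs1
      calc s ^ 2 = 1 * s ^ 2 := (one_mul _).symm
        _ ≤ (s ^ 2) ^ k * s ^ 2 := by gcongr
        _ = (s ^ 2) ^ (k + 1) := (pow_succ _ _).symm
    have l3 : B ≤ vv ((T ^ i)⁻¹ • z) := by
      rw [e3]
      calc B ≤ s ^ 2 * A := hsA
        _ ≤ (s ^ 2) ^ (k + 1) * vv ((T ^ (i + k + 1))⁻¹ • z) := by gcongr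
    linarith
  have comm : ∀ i j : ℕ, i ≠ j → ∀ x ∈ ({a, b} : Set DiffD), ∀ y ∈ ({a, b} : Set DiffD),
      Commute (T ^ i * x * (T ^ i)⁻¹) (T ^ j * y * (T ^ j)⁻¹) := by
    intro i j hij x hx y hy
    rcases lt_or_gt_of_ne hij with h | h
    · exact commute_of_disjoint (fun z hz => (key i j h z hz).imp (fun h' => h' x hx) (fun h' => h' y hy))
    · exact (commute_of_disjoint (fun z hz => (key j i h z hz).imp (fun h' => h' y hy) (fun h' => h' x hx))).symm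
  apply hφ.addOn_pair_of_displace
  intro n
  exact ⟨fun i => T ^ i, fun i _ j _ hij => ⟨comm i j hij a (by simp) a (by simp),
    comm i j hij a (by simp) b (by simp), comm i j hij b (by simp) b (by simp)⟩⟩

end DiskQM
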