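import Pool.Agent.helper52.DQ.Arc

/-!
Smallness calculus and fragmentation.
-/

open Set Metric Filter Topology
open scoped ContDiff ComplexConjugate

noncomputable section

namespace DiskQM

/-- `g` is `C¹`-close to the identity -/
def Sm (g : DiffD) (ε : ℝ) : Prop := ∀ z ∈ Disk, ‖dg g z - ContinuousLinearMap.id ℝ ℂ‖ ≤ ε

theorem Sm.nonneg {g : DiffD} {ε : ℝ} (h : Sm g ε) : 0 ≤ ε := (norm_nonneg _).trans (h 0 zero_mem_disk)

theorem Sm.mono {g : DiffD} {ε ε' : ℝ} (h : Sm g ε) (hε : ε ≤ ε') : Sm g ε' :=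
  fun z hz => (h z hz).trans hε

theorem Sm.mul {g h : DiffD} {a b : ℝ} (hg : Sm g a) (hh : Sm h b) : Sm (g * h) (a * (1 + b) + b) := by
  intro z hz
  rw [dg_mul g h hz]
  have e : (dg g (h • z)).comp (dg h z) - ContinuousLinearMap.id ℝ ℂ =
      (dg g (h • z) - ContinuousLinearMap.id ℝ ℂ).comp (dg h z) + (dg h z - ContinuousLinearMap.id ℝ ℂ) := by
    ext v
    · simp
  rw [e]
  have h1 := hg _ (smul_mem h hz)
  have h2 := hh z hz
  have h3 : ‖dg h z‖ ≤ 1 + b := by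
    have : dg h z = (dg h z - ContinuousLinearMap.id ℝ ℂ) + ContinuousLinearMap.id ℝ ℂ := by abel
    rw [this]
    refine (norm_add_le _ _).trans ?_
    have := ContinuousLinearMap.norm_id_le (𝕜 := ℝ) (E := ℂ)
    linarith
  refine (norm_add_le _ _).trans (add_le_add ((ContinuousLinearMap.opNorm_comp_le _ _).trans ?_) h2)
  gcongr
  exact hg.nonneg

theorem Sm.inv {g : DiffD} {ε : ℝ} (hg : Sm g ε) (hε : ε ≤ 1 / 2) : Sm g⁻¹ (2 * ε) := by
  intro w hw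
  set z := g⁻¹ • w with hz
  have hzD : z ∈ Disk := smul_mem _ hw
  have hgz : g • z = w := smul_inv_smul g w
  have h1 := dg_inv_comp g hzD
  rw [hgz] at h1
  set B := dg g⁻¹ w with hB
  set A := dg g z with hA
  have h2 : B - ContinuousLinearMap.id ℝ ℂ = B.comp (ContinuousLinearMap.id ℝ ℂ - A) := by
    rw [ContinuousLinearMap.comp_sub, h1, ContinuousLinearMap.comp_id]
  have h3 : ‖ContinuousLinearMap.id ℝ ℂ - A‖ ≤ ε := by
    rw [norm_sub_rev]; exact hg z hzD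
  have h4 : ‖B - ContinuousLinearMap.id ℝ ℂ‖ ≤ ‖B‖ * ε := by
    rw [h2]
    exact (ContinuousLinearMap.opNorm_comp_le _ _).trans (by gcongr)
  have h5 : ‖B‖ ≤ 1 + ‖B - ContinuousLinearMap.id ℝ ℂ‖ := by
    have : B = (B - ContinuousLinearMap.id ℝ ℂ) + ContinuousLinearMap.id ℝ ℂ := by abel
    conv_lhs => rw [this]
    refine (norm_add_le _ _).trans ?_
    have := ContinuousLinearMap.norm_id_le (𝕜 := ℝ) (E := ℂ)
    linarith
  have h0 := hg.nonneg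
  have h6 := norm_nonneg (B - ContinuousLinearMap.id ℝ ℂ)
  nlinarith

theorem contDiffOn_sub_id (g : DiffD) : ContDiffOn ℝ ∞ (fun z : ℂ => g • z - z) Disk :=
  (contDiffOn_smul g).sub contDiff_id.contDiffOn

theorem fderivWithin_sub_id (g : DiffD) {z : ℂ} (hz : z ∈ Disk) :
    fderivWithin ℝ (fun z : ℂ => g • z - z) Disk z = dg g z - ContinuousLinearMap.id ℝ ℂ :=
  ((hasFDerivWithinAt_smul g hz).sub (hasFDerivWithinAt_id z Disk)).fderivWithin (uniqueDiffOn_disk z hz)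

theorem Sm.norm_sub_le {g : DiffD} {ε : ℝ} (hg : Sm g ε) {z : ℂ} (hz : z ∈ Disk) :
    ‖g • z - z‖ ≤ ε * ‖z‖ := by
  have := norm_sub_le_of_deriv (contDiffOn_sub_id g) (fun w hw => by
    rw [fderivWithin_sub_id g hw]; exact hg w hw) hz zero_mem_disk
  simpa [smul_zero'] using this

/-- product with a cutoff function which is singular at `0` only -/
theorem contDiffOn_cutoff {θ : ℂ → ℝ} {v : ℂ → ℂ} (hv : ContDiffOn ℝ ∞ v Disk)
    (hv0 : ∀ᶠ z in 𝓝[Disk] (0:ℂ), v z = 0) (hθ : ∀ z, z ≠ 0 → ContDiffAt ℝ ∞ θ z) :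
    ContDiffOn ℝ ∞ (fun z => θ z • v z) Disk := by
  intro z hz
  by_cases h : z = 0
  · rw [h]
    have h1 : (fun z => θ z • v z) =ᶠ[𝓝[Disk] (0:ℂ)] fun _ => (0:ℂ) := by
      filter_upwards [hv0] with z hz
      rw [hz, smul_zero]
    exact contDiffWithinAt_const.congr_of_eventuallyEq h1 (h1.self_of_nhdsWithin zero_mem_disk)
  · exact (hθ z h).contDiffWithinAt.smul (hv z hz)

theorem fderivWithin_cutoff {θ : ℂ → ℝ} {v : ℂ → ℂ} (hv : ContDiffOn ℝ ∞ v Disk)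
    (hθ : ∀ z, z ≠ 0 → ContDiffAt ℝ ∞ θ z) {z : ℂ} (hz : z ∈ Disk) (hz0 : z ≠ 0) :
    fderivWithin ℝ (fun z => θ z • v z) Disk z =
      θ z • fderivWithin ℝ v Disk z + (fderiv ℝ θ z).smulRight (v z) :=
  ((((hθ z hz0).differentiableAt (by simp)).hasFDerivAt.hasFDerivWithinAt).smul
    (hv.differentiableOn (by simp) z hz).hasFDerivWithinAt).fderivWithin (uniqueDiffOn_disk z hz)

theorem norm_fderivWithin_cutoff_le {θ : ℂ → ℝ} {v : ℂ → ℂ} {ε L : ℝ} (hv : ContDiffOn ℝ ∞ v Disk)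
    (hv0 : ∀ᶠ z in 𝓝[Disk] (0:ℂ), v z = 0) (hθ : ∀ z, z ≠ 0 → ContDiffAt ℝ ∞ θ z)
    (hθ1 : ∀ z, |θ z| ≤ 1) (hθL : ∀ z, z ≠ 0 → ‖fderiv ℝ θ z‖ * ‖z‖ ≤ L) (hε : 0 ≤ ε) (hL : 0 ≤ L)
    (hb : ∀ z ∈ Disk, ‖v z‖ ≤ ε * ‖z‖) (hd : ∀ z ∈ Disk, ‖fderivWithin ℝ v Disk z‖ ≤ ε) :
    ∀ z ∈ Disk, ‖fderivWithin ℝ (fun z => θ z • v z) Disk z‖ ≤ ε * (1 + L) := by
  intro z hz
  by_cases h : z = 0
  · rw [h]
    have h1 : (fun z => θ z • v z) =ᶠ[𝓝[Disk] (0:ℂ)] fun _ => (0:ℂ) := by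
      filter_upwards [hv0] with z hz
      rw [hz, smul_zero]
    rw [h1.fderivWithin_eq (h1.self_of_nhdsWithin zero_mem_disk)]
    simp
    positivity
  · rw [fderivWithin_cutoff hv hθ hz h]
    refine (norm_add_le _ _).trans ?_
    rw [norm_smul, ContinuousLinearMap.norm_smulRight_apply, Real.norm_eq_abs]
    have h1 : |θ z| * ‖fderivWithin ℝ v Disk z‖ ≤ 1 * ε := by
      gcongr
      · exact hθ1 z
      · exact hd z hz
    have h2 : ‖fderiv ℝ θ z‖ * ‖v z‖ ≤ ε * L := by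
      calc ‖fderiv ℝ θ z‖ * ‖v z‖ ≤ ‖fderiv ℝ θ z‖ * (ε * ‖z‖) := by gcongr; exact hb z hz
        _ = ε * (‖fderiv ℝ θ z‖ * ‖z‖) := by ring
        _ ≤ ε * L := by gcongr; exact hθL z h
    linarith

/-- one dimensional cutoff -/
def sT (t : ℝ) : ℝ := Real.smoothTransition ((t - 1 / 5) * 20)

theorem sT_contDiff : ContDiff ℝ ∞ sT :=
  (Real.smoothTransition.contDiff (n := ⊤)).comp ((contDiff_id.sub contDiff_const).mul contDiff_const)

theorem sT_zero {t : ℝ} (h : t ≤ 1 / 5) : sT t = 0 :=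
  Real.smoothTransition.zero_of_nonpos (by linarith)

theorem sT_one {t : ℝ} (h : 1 / 4 ≤ t) : sT t = 1 :=
  Real.smoothTransition.one_of_one_le (by linarith)

theorem sT_abs (t : ℝ) : |sT t| ≤ 1 := by
  rw [abs_le]
  have h : 0 ≤ sT t := Real.smoothTransition.nonneg _
  exact ⟨by linarith, Real.smoothTransition.le_one _⟩

theorem sT_lip : ∃ M : ℝ, 0 ≤ M ∧ ∀ s ∈ Icc (-1:ℝ) 1, ∀ t ∈ Icc (-1:ℝ) 1, |sT s - sT t| ≤ M * |s - t| := by
  have hc : Continuous (deriv sT) := sT_contDiff.continuous_deriv (by simp)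
  obtain ⟨M, hM⟩ := (isCompact_Icc (a := (-1:ℝ)) (b := 1)).exists_bound_of_continuousOn hc.continuousOn
  refine ⟨max M 0, le_max_right _ _, fun s hs t ht => ?_⟩
  have := (convex_Icc (-1:ℝ) 1).norm_image_sub_le_of_norm_deriv_le (f := sT) (C := max M 0)
    (fun x _ => (sT_contDiff.differentiable (by simp)) x) (fun x hx => (hM x hx).trans (le_max_left _ _)) ht hs
  simpa [Real.norm_eq_abs] using this

/-- angular cutoff -/
def thet (w z : ℂ) : ℝ := sT ((conj w * z).re / ‖z‖)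

theorem thet_contDiffAt (w : ℂ) {z : ℂ} (hz : z ≠ 0) : ContDiffAt ℝ ∞ (thet w) z := by
  unfold thet
  refine sT_contDiff.contDiffAt.comp z (ContDiffAt.div ?_ (contDiffAt_norm ℝ hz) (norm_ne_zero_iff.mpr hz))
  exact (Complex.reCLM.contDiff.comp (contDiff_const.mul contDiff_id)).contDiffAt

theorem thet_abs (w z : ℂ) : |thet w z| ≤ 1 := sT_abs _

theorem ratio_mem {w : ℂ} (hw : ‖w‖ = 1) {z : ℂ} (hz : z ≠ 0) : (conj w * z).re / ‖z‖ ∈ Icc (-1:ℝ) 1 := by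
  have h := Complex.abs_re_le_norm (conj w * z)
  rw [norm_mul, Complex.norm_conj, hw, one_mul, abs_le] at h
  have hp : 0 < ‖z‖ := norm_pos_iff.mpr hz
  constructor
  · rw [le_div_iff₀ hp]; linarith [h.1]
  · rw [div_le_iff₀ hp]; linarith [h.2]

theorem ratio_lip {w : ℂ} (hw : ‖w‖ = 1) {z z' : ℂ} (hz : z ≠ 0) (hz' : z' ≠ 0) :
    |(conj w * z').re / ‖z'‖ - (conj w * z).re / ‖z‖| ≤ 2 / ‖z‖ * ‖z' - z‖ := by
  have hp : 0 < ‖z‖ := norm_pos_iff.mpr hz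
  have hp' : 0 < ‖z'‖ := norm_pos_iff.mpr hz'
  have e : (conj w * z').re / ‖z'‖ - (conj w * z).re / ‖z‖ =
      ((conj w * (z' - z)).re + ((conj w * z').re / ‖z'‖) * (‖z‖ - ‖z'‖)) / ‖z‖ := by
    rw [mul_sub, Complex.sub_re]
    field_simp
    ring
  have e3 : 2 / ‖z‖ * ‖z' - z‖ = 2 * ‖z' - z‖ / ‖z‖ := by ring
  rw [e, abs_div, abs_of_pos hp, e3]
  apply div_le_div_of_nonneg_right _ hp.le
  have h1 : |(conj w * (z' - z)).re| ≤ ‖z' - z‖ := by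
    have := Complex.abs_re_le_norm (conj w * (z' - z))
    rwa [norm_mul, Complex.norm_conj, hw, one_mul] at this
  have h2 : |(conj w * z').re / ‖z'‖| ≤ 1 := abs_le.mpr (ratio_mem hw hz')
  have h3 : |‖z‖ - ‖z'‖| ≤ ‖z' - z‖ := by
    have := abs_norm_sub_norm_le z z'
    rwa [norm_sub_rev] at this
  calc |(conj w * (z' - z)).re + ((conj w * z').re / ‖z'‖) * (‖z‖ - ‖z'‖)|
      ≤ |(conj w * (z' - z)).re| + |((conj w * z').re / ‖z'‖) * (‖z‖ - ‖z'‖)| := abs_add_le _ _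
    _ ≤ ‖z' - z‖ + 1 * ‖z' - z‖ := by
        rw [abs_mul]
        gcongr
    _ = 2 * ‖z' - z‖ := by ring

theorem exists_thet_bound : ∃ L : ℝ, 0 ≤ L ∧ ∀ w : ℂ, ‖w‖ = 1 → ∀ z, z ≠ 0 → ‖fderiv ℝ (thet w) z‖ * ‖z‖ ≤ L := by
  obtain ⟨M, hM0, hM⟩ := sT_lip
  refine ⟨2 * M, by positivity, fun w hw z hz => ?_⟩
  have hp : 0 < ‖z‖ := norm_pos_iff.mpr hz
  have h1 : ‖fderiv ℝ (thet w) z‖ ≤ M * (2 / ‖z‖) := by
    apply norm_fderiv_le_of_lip' ℝ (by positivity)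
    filter_upwards [isOpen_ne.mem_nhds hz] with z' hz'
    rw [Real.norm_eq_abs]
    calc |thet w z' - thet w z| ≤ M * |(conj w * z').re / ‖z'‖ - (conj w * z).re / ‖z‖| :=
          hM _ (ratio_mem hw hz') _ (ratio_mem hw hz)
      _ ≤ M * (2 / ‖z‖ * ‖z' - z‖) := by gcongr; exact ratio_lip hw hz hz'
      _ = M * (2 / ‖z‖) * ‖z' - z‖ := by ring
  calc ‖fderiv ℝ (thet w) z‖ * ‖z‖ ≤ M * (2 / ‖z‖) * ‖z‖ := by gcongr
    _ = 2 * M := by field_simp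

theorem thet_zero {w z : ℂ} (hz : z ≠ 0) (h : (conj w * z).re ≤ ‖z‖ / 5) : thet w z = 0 := by
  apply sT_zero
  rw [div_le_iff₀ (norm_pos_iff.mpr hz)]
  linarith

theorem thet_one {w z : ℂ} (hz : z ≠ 0) (h : ‖z‖ / 4 ≤ (conj w * z).re) : thet w z = 1 := by
  apply sT_one
  rw [le_div_iff₀ (norm_pos_iff.mpr hz)]
  linarith

/-- constants for fragmentation -/
theorem exists_frag_step : ∃ M : ℝ, 5 ≤ M ∧ ∀ (g : DiffD) (ε : ℝ) (w : ℂ), ‖w‖ = 1 → Sm g ε →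
    M * ε ≤ 1 / 8 → Loc g 0 → g ∈ FixSub Cir →
    ∃ g₁ g' : DiffD, g = g₁ * g' ∧ Sm g' (M * ε) ∧
      (∀ z ∈ Disk, (conj w * z).re ≤ ‖z‖ / 5 → g₁ • z = z) ∧
      (∀ z ∈ Disk, g • z = z → g₁ • z = z ∧ g' • z = z) ∧
      (∀ z ∈ Disk, ‖z‖ / 4 ≤ (conj w * z).re → g' • z = z) ∧
      (∀ p ∈ Cir, dg g p = ContinuousLinearMap.id ℝ ℂ →
        dg g₁ p = ContinuousLinearMap.id ℝ ℂ ∧ dg g' p = ContinuousLinearMap.id ℝ ℂ) := by
  obtain ⟨L, hL0, hL⟩ := exists_thet_bound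
  refine ⟨5 * (1 + L), by linarith, ?_⟩
  intro g ε w hw hg hε hg0 hgC
  have hε0 := hg.nonneg
  set v : ℂ → ℂ := fun z => g • z - z with hv
  have hvc : ContDiffOn ℝ ∞ v Disk := contDiffOn_sub_id g
  have hv0 : ∀ᶠ z in 𝓝[Disk] (0:ℂ), v z = 0 := by
    filter_upwards [hg0] with z hz
    rw [hv]; simp [hz]
  have hvd : ∀ z ∈ Disk, ‖fderivWithin ℝ v Disk z‖ ≤ ε := by
    intro z hz
    rw [hv, fderivWithin_sub_id g hz]; exact hg z hz
  have hvb : ∀ z ∈ Disk, ‖v z‖ ≤ ε * ‖z‖ := fun z hz => hg.norm_sub_le hz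
  set u : ℂ → ℂ := fun z => thet w z • v z with hu
  have huc : ContDiffOn ℝ ∞ u Disk := contDiffOn_cutoff hvc hv0 (fun z hz => thet_contDiffAt w hz)
  have hud : ∀ z ∈ Disk, ‖fderivWithin ℝ u Disk z‖ ≤ ε * (1 + L) :=
    norm_fderivWithin_cutoff_le hvc hv0 (fun z hz => thet_contDiffAt w hz) (thet_abs w)
      (hL w hw) hε0 hL0 hvb hvd
  have hsmall : ε * (1 + L) ≤ 1 / 8 := by nlinarith
  obtain ⟨g₁, hg₁⟩ := exists_small_zero huc (fun z hz => (hud z hz).trans hsmall)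
    (by simp [hu, hv, smul_zero']) (fun p hp => by
      have : v p = 0 := by rw [hv]; simp [hgC p hp]
      simp [hu, this])
  have hdg₁ : ∀ z ∈ Disk, dg g₁ z = ContinuousLinearMap.id ℝ ℂ + fderivWithin ℝ u Disk z := by
    intro z hz
    rw [dg, fderivWithin_congr hg₁ (hg₁ z hz), fderivWithin_id_add huc hz]
  have hSm₁ : Sm g₁ (ε * (1 + L)) := by
    intro z hz
    rw [hdg₁ z hz, add_sub_cancel_left]
    exact hud z hz
  have hfix : ∀ z ∈ Disk, g • z = z → g₁ • z = z ∧ (g₁⁻¹ * g) • z = z := by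
    intro z hz h
    have h1 : g₁ • z = z := by
      rw [hg₁ z hz]; simp [hu, hv, h]
    exact ⟨h1, by rw [mul_smul, h, inv_smul_eq_iff, h1]⟩
  refine ⟨g₁, g₁⁻¹ * g, by group, ?_, ?_, hfix, ?_, ?_⟩
  · refine ((hSm₁.inv (by linarith)).mul hg).mono ?_
    nlinarith [mul_nonneg hε0 hL0]
  · intro z hz h
    by_cases hz0 : z = 0
    · rw [hz0, smul_zero']
    · rw [hg₁ z hz]; simp [hu, thet_zero hz0 h]
  · intro z hz h
    by_cases hz0 : z = 0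
    · rw [hz0, smul_zero']
    · have h1 : g₁ • z = g • z := by
        rw [hg₁ z hz]; simp [hu, thet_one hz0 h, hv]
      rw [mul_smul, inv_smul_eq_iff, h1]
  · intro p hp h
    have hpD := cir_sub hp
    have hp0 : p ≠ 0 := by
      rintro rfl
      have : ‖(0:ℂ)‖ = 1 := hp
      simp at this
    have hgp : g • p = p := hgC p hp
    have h1 : fderivWithin ℝ u Disk p = 0 := by
      have e1 : fderivWithin ℝ v Disk p = 0 := by rw [hv, fderivWithin_sub_id g hpD, h, sub_self]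
      have e2 : v p = 0 := by rw [hv]; simp [hgp]
      rw [hu, fderivWithin_cutoff hvc (fun z hz => thet_contDiffAt w hz) hpD hp0, e1, e2]
      ext
      simp
    have h2 : dg g₁ p = ContinuousLinearMap.id ℝ ℂ := by rw [hdg₁ p hpD, h1, add_zero]
    refine ⟨h2, ?_⟩
    have h3 : g₁ • p = p := (hfix p hpD hgp).1
    have h4 := dg_inv_comp g₁ hpD
    rw [h3, h2, ContinuousLinearMap.comp_id] at h4
    rw [dg_mul _ _ hpD, hgp, h, h4, ContinuousLinearMap.comp_id]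

/-- pieces of a fragmentation -/
structure IsPiece (g gk : DiffD) (w : ℂ) : Prop where
  supp : ∀ z ∈ Disk, (conj w * z).re ≤ ‖z‖ / 5 → gk • z = z
  fix : ∀ z ∈ Disk, g • z = z → gk • z = z
  tan : ∀ p ∈ Cir, dg g p = ContinuousLinearMap.id ℝ ℂ → dg gk p = ContinuousLinearMap.id ℝ ℂ

theorem Loc.of_fix {g h : DiffD} {p : ℂ} (hg : Loc g p) (H : ∀ z ∈ Disk, g • z = z → h • z = z) : Loc h p := by
  filter_upwards [hg, self_mem_nhdsWithin] with z hz hzD using H z hzD hz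

theorem exists_frag : ∃ ε₀ : ℝ, 0 < ε₀ ∧ ∀ g : DiffD, Sm g ε₀ → Loc g 0 → g ∈ FixSub Cir →
    ∃ g₁ g₂ g₃ g₄ : DiffD, g = g₁ * (g₂ * (g₃ * g₄)) ∧ IsPiece g g₁ 1 ∧ IsPiece g g₂ (-1) ∧
      IsPiece g g₃ Complex.I ∧ IsPiece g g₄ (-Complex.I) := by
  obtain ⟨M, hM5, hM⟩ := exists_frag_step
  have hM0 : 0 < M := by linarith
  refine ⟨1 / (8 * M ^ 3), by positivity, ?_⟩
  intro g hg hg0 hgC
  have e1 : M * (1 / (8 * M ^ 3)) = 1 / (8 * M ^ 2) := by field_simp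
  have e2 : M * (1 / (8 * M ^ 2)) = 1 / (8 * M) := by field_simp
  have e3 : M * (1 / (8 * M)) = 1 / 8 := by field_simp
  have l1 : 1 / (8 * M ^ 2) ≤ 1 / 8 := by
    apply one_div_le_one_div_of_le (by norm_num)
    nlinarith
  have l2 : 1 / (8 * M) ≤ 1 / 8 := by
    apply one_div_le_one_div_of_le (by norm_num)
    nlinarith
  obtain ⟨g₁, g', hfac1, hS1, a1, b1, c1, d1⟩ := hM g _ 1 (by simp) hg (by rw [e1]; exact l1) hg0 hgC
  rw [e1] at hS1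
  have hg'0 : Loc g' 0 := hg0.of_fix (fun z hz h => (b1 z hz h).2)
  have hg'C : g' ∈ FixSub Cir := fun p hp => (b1 p (cir_sub hp) (hgC p hp)).2
  obtain ⟨g₂, g'', hfac2, hS2, a2, b2, c2, d2⟩ := hM g' _ (-1) (by simp) hS1 (by rw [e2]; exact l2) hg'0 hg'C
  rw [e2] at hS2
  have hg''0 : Loc g'' 0 := hg'0.of_fix (fun z hz h => (b2 z hz h).2)
  have hg''C : g'' ∈ FixSub Cir := fun p hp => (b2 p (cir_sub hp) (hg'C p hp)).2
  obtain ⟨g₃, g₄, hfac3, hS3, a3, b3, c3, d3⟩ := hM g'' _ Complex.I (by simp) hS2 (by rw [e3]) hg''0 hg''C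
  refine ⟨g₁, g₂, g₃, g₄, by rw [hfac1, hfac2, hfac3], ⟨a1, fun z hz h => (b1 z hz h).1, fun p hp h => (d1 p hp h).1⟩,
    ⟨a2, fun z hz h => (b2 z hz (b1 z hz h).2).1, fun p hp h => (d2 p hp (d1 p hp h).2).1⟩,
    ⟨a3, fun z hz h => (b3 z hz (b2 z hz (b1 z hz h).2).2).1,
      fun p hp h => (d3 p hp (d2 p hp (d1 p hp h).2).2).1⟩,
    ⟨?_, fun z hz h => (b3 z hz (b2 z hz (b1 z hz h).2).2).2,
      fun p hp h => (d3 p hp (d2 p hp (d1 p hp h).2).2).2⟩⟩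
  intro z hz h
  have h' : -z.im ≤ ‖z‖ / 5 := by
    simpa using h
  by_cases h1 : ‖z‖ / 4 ≤ z.re
  · exact (b3 z hz (b2 z hz (c1 z hz (by simpa using h1))).2).2
  by_cases h2 : ‖z‖ / 4 ≤ -z.re
  · exact (b3 z hz (c2 z hz (by simpa using h2))).2
  by_cases h3 : ‖z‖ / 4 ≤ z.im
  · exact c3 z hz (by simpa using h3)
  exfalso
  push Not at h1 h2 h3
  have h0 := norm_nonneg z
  have hsq : ‖z‖ ^ 2 = z.re ^ 2 + z.im ^ 2 := by
    rw [← Complex.normSq_eq_norm_sq, Complex.normSq_apply]; ring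
  have hz0 : 0 < ‖z‖ := by
    rcases h0.lt_or_eq with h4 | h4
    · exact h4
    · rw [← h4] at h1 h2; linarith
  have a : z.re ^ 2 ≤ (‖z‖ / 4) ^ 2 := by
    apply sq_le_sq'
    · linarith
    · linarith
  have b : z.im ^ 2 ≤ (‖z‖ / 4) ^ 2 := by
    apply sq_le_sq'
    · linarith
    · linarith
  nlinarith

end DiskQM
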