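import Pool.Agent.helper52.DQ.Subs

/-!
The action of `GL₂⁺(ℝ)` on the disk by radial compactification.
-/

open Set Metric Filter Topology
open scoped ContDiff

noncomputable section

namespace DiskQM

/-- `1 - |z|² + |T z|²` -/
def nrm (T : ℂ ≃L[ℝ] ℂ) (z : ℂ) : ℝ := 1 - ‖z‖ ^ 2 + ‖T z‖ ^ 2

theorem nrm_pos (T : ℂ ≃L[ℝ] ℂ) {z : ℂ} (hz : z ∈ Disk) : 0 < nrm T z := by
  rw [mem_disk] at hz
  unfold nrm
  by_cases h : z = 0
  · simp [h]
  · have h1 : 0 < ‖T z‖ := by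
      rw [norm_pos_iff]; intro h'; exact h (T.map_eq_zero_iff.mp h')
    have h2 : 0 ≤ 1 - ‖z‖ ^ 2 := by nlinarith [norm_nonneg z]
    positivity

/-- radial compactification of a linear map -/
def tauFun (T : ℂ ≃L[ℝ] ℂ) (z : ℂ) : ℂ := (Real.sqrt (nrm T z))⁻¹ • T z

theorem norm_tauFun_sq (T : ℂ ≃L[ℝ] ℂ) {z : ℂ} (hz : z ∈ Disk) :
    ‖tauFun T z‖ ^ 2 = ‖T z‖ ^ 2 / nrm T z := by
  have h := nrm_pos T hz
  rw [tauFun, norm_smul, mul_pow, norm_inv, Real.norm_of_nonneg (Real.sqrt_nonneg _), inv_pow,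
    Real.sq_sqrt h.le]
  field_simp

theorem tauFun_mem (T : ℂ ≃L[ℝ] ℂ) {z : ℂ} (hz : z ∈ Disk) : tauFun T z ∈ Disk := by
  have h := nrm_pos T hz
  have h1 : ‖tauFun T z‖ ^ 2 ≤ 1 := by
    rw [norm_tauFun_sq T hz, div_le_one h]
    unfold nrm
    rw [mem_disk] at hz
    nlinarith [norm_nonneg z]
  rw [mem_disk]
  nlinarith [norm_nonneg (tauFun T z)]

theorem tauFun_comp (S T : ℂ ≃L[ℝ] ℂ) {z : ℂ} (hz : z ∈ Disk) :
    tauFun S (tauFun T z) = tauFun (S * T) z := by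
  have hT := nrm_pos T hz
  have hS := nrm_pos S (tauFun_mem T hz)
  have hST := nrm_pos (S * T) hz
  have e1 : nrm S (tauFun T z) = nrm (S * T) z / nrm T z := by
    have e2 : S (tauFun T z) = (Real.sqrt (nrm T z))⁻¹ • S (T z) := by
      rw [tauFun, map_smul]
    rw [nrm, norm_tauFun_sq T hz, e2, norm_smul, mul_pow, norm_inv, Real.norm_of_nonneg (Real.sqrt_nonneg _), inv_pow,
      Real.sq_sqrt hT.le]
    have e3 : nrm (S * T) z = 1 - ‖z‖ ^ 2 + ‖S (T z)‖ ^ 2 := rfl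
    have e4 : nrm T z = 1 - ‖z‖ ^ 2 + ‖T z‖ ^ 2 := rfl
    rw [e3]
    field_simp
    rw [e4]; ring
  have e2 : Real.sqrt (nrm S (tauFun T z)) = Real.sqrt (nrm (S * T) z) / Real.sqrt (nrm T z) := by
    rw [e1, Real.sqrt_div' _ hT.le]
  have h1 : Real.sqrt (nrm T z) ≠ 0 := (Real.sqrt_pos.mpr hT).ne'
  have h2 : Real.sqrt (nrm (S * T) z) ≠ 0 := (Real.sqrt_pos.mpr hST).ne'
  rw [tauFun, e2, tauFun, map_smul, smul_smul, tauFun]
  have e3 : (S * T) z = S (T z) := rfl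
  rw [e3]
  congr 1
  field_simp

theorem tauFun_one (z : ℂ) : tauFun 1 z = z := by
  have : nrm 1 z = 1 := by
    unfold nrm
    have : (1 : ℂ ≃L[ℝ] ℂ) z = z := rfl
    rw [this]; ring
  rw [tauFun, this, Real.sqrt_one, inv_one, one_smul]
  rfl

theorem contDiff_nrm (T : ℂ ≃L[ℝ] ℂ) : ContDiff ℝ ∞ (nrm T) := by
  unfold nrm
  exact (contDiff_const.sub (contDiff_norm_sq ℝ)).add ((contDiff_norm_sq ℝ).comp T.contDiff)

theorem contDiffOn_tauFun (T : ℂ ≃L[ℝ] ℂ) : ContDiffOn ℝ ∞ (tauFun T) Disk := by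
  unfold tauFun
  refine ContDiffOn.smul (ContDiffOn.inv (ContDiffOn.sqrt (contDiff_nrm T).contDiffOn ?_) ?_) T.contDiff.contDiffOn
  · intro z hz; exact (nrm_pos T hz).ne'
  · intro z hz; exact (Real.sqrt_pos.mpr (nrm_pos T hz)).ne'

theorem tauFun_zero (T : ℂ ≃L[ℝ] ℂ) : tauFun T 0 = 0 := by
  rw [tauFun, map_zero, smul_zero]

theorem fderivWithin_tauFun_zero (T : ℂ ≃L[ℝ] ℂ) :
    fderivWithin ℝ (tauFun T) Disk 0 = (T : ℂ →L[ℝ] ℂ) := by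
  have h0 : nrm T 0 = 1 := by simp [nrm]
  have h1 : DifferentiableAt ℝ (fun z => (Real.sqrt (nrm T z))⁻¹) 0 := by
    apply DifferentiableAt.inv
    · apply DifferentiableAt.sqrt
      · exact (contDiff_nrm T).differentiable (by simp) 0
      · rw [h0]; exact one_ne_zero
    · rw [h0]; simp
  have h2 := h1.hasFDerivAt.smul (T : ℂ →L[ℝ] ℂ).hasFDerivAt
  have h3 := h2.hasFDerivWithinAt (s := Disk) |>.fderivWithin (uniqueDiffOn_disk 0 zero_mem_disk)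
  have h4 : tauFun T = fun z => (Real.sqrt (nrm T z))⁻¹ • (T : ℂ →L[ℝ] ℂ) z := rfl
  rw [h4]
  refine Eq.trans h3 ?_
  ext v; simp [h0]

/-- the group `GL₂⁺(ℝ)` -/
def GLp : Subgroup (ℂ ≃L[ℝ] ℂ) where
  carrier := {T | 0 < (T : ℂ →L[ℝ] ℂ).det}
  mul_mem' := by
    intro S T hS hT
    have : ((S * T : ℂ ≃L[ℝ] ℂ) : ℂ →L[ℝ] ℂ) = (S : ℂ →L[ℝ] ℂ).comp (T : ℂ →L[ℝ] ℂ) := rfl
    show 0 < ((S * T : ℂ ≃L[ℝ] ℂ) : ℂ →L[ℝ] ℂ).det
    rw [this, det_comp']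
    exact mul_pos hS hT
  one_mem' := by
    show 0 < ((1 : ℂ ≃L[ℝ] ℂ) : ℂ →L[ℝ] ℂ).det
    have : ((1 : ℂ ≃L[ℝ] ℂ) : ℂ →L[ℝ] ℂ) = ContinuousLinearMap.id ℝ ℂ := rfl
    rw [this, det_id']; exact one_pos
  inv_mem' := by
    intro T hT
    have h1 : (T : ℂ →L[ℝ] ℂ).comp ((T⁻¹ : ℂ ≃L[ℝ] ℂ) : ℂ →L[ℝ] ℂ) = ContinuousLinearMap.id ℝ ℂ := by
      ext v
      exact T.apply_symm_apply v
    have h2 := congrArg ContinuousLinearMap.det h1
    rw [det_comp', det_id'] at h2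
    show 0 < ((T⁻¹ : ℂ ≃L[ℝ] ℂ) : ℂ →L[ℝ] ℂ).det
    have h3 : 0 < (T : ℂ →L[ℝ] ℂ).det := hT
    by_contra hcon
    have := mul_nonpos_of_nonneg_of_nonpos h3.le (not_lt.mp hcon)
    linarith

/-- the permutation of the disk given by `T` -/
def tauPerm (T : ℂ ≃L[ℝ] ℂ) : Equiv.Perm Disk :=
  mkPerm (tauFun T) (tauFun T⁻¹) (fun _ h => tauFun_mem T h) (fun _ h => tauFun_mem T⁻¹ h)
    (fun z hz => by rw [tauFun_comp _ _ hz, inv_mul_cancel, tauFun_one])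
    (fun z hz => by rw [tauFun_comp _ _ hz, mul_inv_cancel, tauFun_one])

theorem toMap_tauPerm (T : ℂ ≃L[ℝ] ℂ) {z : ℂ} (hz : z ∈ Disk) : toMap (tauPerm T) z = tauFun T z :=
  toMap_of_mem _ hz

theorem tauPerm_mul (S T : ℂ ≃L[ℝ] ℂ) : tauPerm (S * T) = tauPerm S * tauPerm T := by
  ext ⟨z, hz⟩
  have h1 := toMap_tauPerm (S * T) hz
  have h2 := toMap_mul (tauPerm S) (tauPerm T) z
  rw [toMap_tauPerm T hz, toMap_tauPerm S (tauFun_mem T hz), tauFun_comp S T hz, ← h1,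
    toMap_of_mem _ hz, toMap_of_mem _ hz] at h2
  exact h2.symm

theorem tauPerm_inv (T : ℂ ≃L[ℝ] ℂ) : (tauPerm T)⁻¹ = tauPerm T⁻¹ := by
  have h : tauPerm T * tauPerm T⁻¹ = 1 := by
    rw [← tauPerm_mul, mul_inv_cancel]
    ext ⟨z, hz⟩
    have h1 := toMap_tauPerm 1 hz
    rw [toMap_of_mem _ hz, tauFun_one] at h1
    exact h1
  exact inv_eq_of_mul_eq_one_right h

theorem tauPerm_mem {T : ℂ ≃L[ℝ] ℂ} (hT : T ∈ GLp) : tauPerm T ∈ DiffD := by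
  have hc : ContDiffOn ℝ ∞ (toMap (tauPerm T)) Disk :=
    (contDiffOn_tauFun T).congr (fun z hz => toMap_tauPerm T hz)
  have hc' : ContDiffOn ℝ ∞ (toMap (tauPerm T)⁻¹) Disk := by
    rw [tauPerm_inv]
    exact (contDiffOn_tauFun T⁻¹).congr (fun z hz => toMap_tauPerm T⁻¹ hz)
  refine ⟨hc, hc', ?_, ?_⟩
  · obtain ⟨g, hg, -⟩ := exists_of_inverse (f := tauFun T) (f' := tauFun T⁻¹)
      (fun _ h => tauFun_mem T h) (fun _ h => tauFun_mem T⁻¹ h)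
      (fun z hz => by rw [tauFun_comp _ _ hz, inv_mul_cancel, tauFun_one])
      (fun z hz => by rw [tauFun_comp _ _ hz, mul_inv_cancel, tauFun_one])
      (contDiffOn_tauFun T) (contDiffOn_tauFun T⁻¹) (tauFun_zero T)
      (by rw [fderivWithin_tauFun_zero]; exact hT)
    intro z hz
    have h1 := det_dg_pos g hz
    rw [dg, fderivWithin_congr hg (hg z hz)] at h1
    rw [fderivWithin_congr (fun z hz => toMap_tauPerm T hz) (toMap_tauPerm T hz)]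
    exact h1
  · rw [toMap_tauPerm T zero_mem_disk, tauFun_zero]

/-- `GL₂⁺(ℝ) → DiffD` -/
def tau : GLp →* DiffD := MonoidHom.mk' (fun T => ⟨tauPerm T.1, tauPerm_mem T.2⟩) (by
  intro S T
  apply Subtype.ext
  exact tauPerm_mul S.1 T.1)

theorem tau_smul (T : GLp) {z : ℂ} (hz : z ∈ Disk) : tau T • z = tauFun T.1 z := toMap_tauPerm T.1 hz

theorem dg_tau (T : GLp) : dg (tau T) 0 = (T.1 : ℂ →L[ℝ] ℂ) := by
  rw [dg, fderivWithin_congr (fun z hz => tau_smul T hz) (tau_smul T zero_mem_disk),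
    fderivWithin_tauFun_zero]

/-- `tau T • z` is a positive multiple of `T z` -/
theorem tau_smul_eq (T : GLp) {z : ℂ} (hz : z ∈ Disk) :
    ∃ c : ℝ, 0 < c ∧ tau T • z = c • T.1 z :=
  ⟨(Real.sqrt (nrm T.1 z))⁻¹, inv_pos.mpr (Real.sqrt_pos.mpr (nrm_pos T.1 hz)), tau_smul T hz⟩

/-- linear map with given matrix -/
def lin (a b c d : ℝ) : ℂ →L[ℝ] ℂ :=
  (a • Complex.reCLM + b • Complex.imCLM).smulRight (1 : ℂ) +
    (c • Complex.reCLM + d • Complex.imCLM).smulRight Complex.I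

theorem lin_apply (a b c d : ℝ) (z : ℂ) : lin a b c d z = ⟨a * z.re + b * z.im, c * z.re + d * z.im⟩ := by
  apply Complex.ext <;> simp [lin]

theorem det_lin (a b c d : ℝ) : (lin a b c d).det = a * d - b * c := by
  rw [det_eq, lin_apply, lin_apply]; simp

/-- element of `GL₂⁺(ℝ)` with given matrix -/
def linP (a b c d : ℝ) (h : 0 < a * d - b * c) : GLp :=
  ⟨(lin a b c d).toContinuousLinearEquivOfDetNeZero (by rw [det_lin]; exact h.ne'), by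
    show 0 < (((lin a b c d).toContinuousLinearEquivOfDetNeZero _ : ℂ ≃L[ℝ] ℂ) : ℂ →L[ℝ] ℂ).det
    rw [ContinuousLinearMap.coe_toContinuousLinearEquivOfDetNeZero, det_lin]; exact h⟩

theorem linP_apply (a b c d : ℝ) (h : 0 < a * d - b * c) (z : ℂ) :
    (linP a b c d h).1 z = ⟨a * z.re + b * z.im, c * z.re + d * z.im⟩ := lin_apply a b c d z

theorem GLp_ext {S T : GLp} (h : ∀ z : ℂ, S.1 z = T.1 z) : S = T :=
  Subtype.ext (ContinuousLinearEquiv.ext (funext h))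

end DiskQM
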