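import Pool.Agent.helper52.DQ.Top

/-!
The lower bound: the difference of the translation numbers of the lifts of the boundary action and
of the action on directions at the origin.
-/

open Set Metric Filter Topology
open scoped ContDiff ComplexConjugate

noncomputable section

namespace DiskQM

/-- the point of angle `2 π x` -/
def ee (x : ℝ) : ℂ := Complex.exp (((2 * Real.pi * x : ℝ) : ℂ) * Complex.I)

theorem norm_ee (x : ℝ) : ‖ee x‖ = 1 := Complex.norm_exp_ofReal_mul_I _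

theorem ee_ne (x : ℝ) : ee x ≠ 0 := Complex.exp_ne_zero _

theorem ee_add (x y : ℝ) : ee (x + y) = ee x * ee y := by
  rw [ee, ee, ee, ← Complex.exp_add]; congr 1; push_cast; ring

theorem ee_zero : ee 0 = 1 := by simp [ee]

theorem ee_int (n : ℤ) : ee n = 1 := by
  rw [ee, Complex.exp_eq_one_iff]
  exact ⟨n, by push_cast; ring⟩

theorem ee_add_int (x : ℝ) (n : ℤ) : ee (x + n) = ee x := by rw [ee_add, ee_int, mul_one]

theorem ee_eq_one {x : ℝ} (h : ee x = 1) : ∃ n : ℤ, x = n := by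
  rw [ee, Complex.exp_eq_one_iff] at h
  obtain ⟨n, hn⟩ := h
  refine ⟨n, ?_⟩
  have h1 : ((2 * Real.pi * x : ℝ) : ℂ) = ((n * (2 * Real.pi) : ℝ) : ℂ) := by
    apply mul_right_cancel₀ Complex.I_ne_zero
    rw [hn]; push_cast; ring
  have h2 : 2 * Real.pi * x = n * (2 * Real.pi) := by exact_mod_cast h1
  have h3 : (2 * Real.pi) ≠ 0 := by positivity
  apply mul_left_cancel₀ h3
  rw [h2]; ring

theorem ee_eq_ee {x y : ℝ} (h : ee x = ee y) : ∃ n : ℤ, x = y + n := by
  have h1 : ee (x - y) = 1 := by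
    have h2 : ee x = ee (x - y) * ee y := by rw [← ee_add]; congr 1; ring
    rw [h] at h2
    exact (mul_eq_right₀ (ee_ne y)).mp h2.symm
  obtain ⟨n, hn⟩ := ee_eq_one h1
  exact ⟨n, by linarith⟩

theorem continuous_ee : Continuous ee := by
  unfold ee
  fun_prop

theorem ee_re (x : ℝ) : (ee x).re = Real.cos (2 * Real.pi * x) := Complex.exp_ofReal_mul_I_re _
theorem ee_im (x : ℝ) : (ee x).im = Real.sin (2 * Real.pi * x) := Complex.exp_ofReal_mul_I_im _

theorem ee_half : ee (1 / 2) = -1 := by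
  apply Complex.ext
  · rw [ee_re]
    have : 2 * Real.pi * (1 / 2) = Real.pi := by ring
    rw [this]; simp
  · rw [ee_im]
    have : 2 * Real.pi * (1 / 2) = Real.pi := by ring
    rw [this]; simp

/-- `w` has direction `t` -/
def Dir (w : ℂ) (t : ℝ) : Prop := w = ‖w‖ * ee t

theorem Dir.of_eq {w : ℂ} {c t : ℝ} (hc : 0 ≤ c) (h : w = c * ee t) : Dir w t := by
  have : ‖w‖ = c := by rw [h, norm_mul, norm_ee, mul_one, Complex.norm_real, Real.norm_of_nonneg hc]
  rw [Dir, this]; exact h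

theorem Dir.unique {w : ℂ} (hw : w ≠ 0) {s t : ℝ} (hs : Dir w s) (ht : Dir w t) : ee s = ee t := by
  have h : (‖w‖ : ℂ) * ee s = ‖w‖ * ee t := hs.symm.trans ht
  have h0 : (‖w‖ : ℂ) ≠ 0 := by exact_mod_cast norm_ne_zero_iff.mpr hw
  exact mul_left_cancel₀ h0 h

/-- the strip -/
abbrev SS : Set (ℝ × ℝ) := Icc 0 1 ×ˢ univ

theorem isPreconnected_SS : IsPreconnected SS := isPreconnected_Icc.prod isPreconnected_univ

theorem int_const {f : ℝ × ℝ → ℝ} (hc : ContinuousOn f SS) (hint : ∀ p ∈ SS, ∃ n : ℤ, f p = n) :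
    ∃ n : ℤ, ∀ p ∈ SS, f p = n := by
  have h0 : ((0:ℝ), (0:ℝ)) ∈ SS := ⟨⟨le_rfl, zero_le_one⟩, trivial⟩
  obtain ⟨n, hn⟩ := hint _ h0
  refine ⟨n, fun p hp => ?_⟩
  obtain ⟨m, hm⟩ := hint p hp
  by_contra hne
  rw [hm] at hne
  have hconn : IsPreconnected (f '' SS) := isPreconnected_SS.image f hc
  have key : ∀ a b : ℤ, (a : ℝ) ∈ f '' SS → (b : ℝ) ∈ f '' SS → a < b → False := by
    intro a b ha hb hab
    have h1 : (a : ℝ) + 1 / 2 ∈ f '' SS := by
      apply hconn.Icc_subset ha hb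
      have : (a : ℝ) + 1 ≤ b := by exact_mod_cast hab
      constructor <;> linarith
    obtain ⟨q, hq, hq2⟩ := h1
    obtain ⟨k, hk⟩ := hint q hq
    rw [hk] at hq2
    have h2 : (2 * k : ℤ) = 2 * a + 1 := by
      have : (2 * (k : ℝ)) = 2 * a + 1 := by linarith
      exact_mod_cast this
    omega
  have hnm : n ≠ m := by
    rintro rfl
    exact hne rfl
  have hnI : (n : ℝ) ∈ f '' SS := ⟨_, h0, hn⟩
  have hmI : (m : ℝ) ∈ f '' SS := ⟨_, hp, hm⟩
  rcases lt_or_gt_of_ne hnm with h | h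
  · exact key n m hnI hmI h
  · exact key m n hmI hnI h

theorem exists_arg_lift {Φ : ℝ × ℝ → ℂ} (hc : Continuous Φ) (hne : ∀ p, Φ p ≠ 0) :
    ∃ F : ℝ × ℝ → ℝ, Continuous F ∧ ∀ p, Dir (Φ p) (F p) := by
  obtain ⟨L, ⟨-, hL⟩, -⟩ := Complex.isCoveringMapOn_exp.existsUnique_continuousMap_lifts
    (⟨Φ, hc⟩ : C(ℝ × ℝ, ℂ)) (a₀ := (0, 0)) (e₀ := Complex.log (Φ (0, 0)))
    (Complex.exp_log (hne _)) (fun p => hne p)
  have hL' : ∀ p, Complex.exp (L p) = Φ p := fun p => congrFun hL p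
  refine ⟨fun p => (L p).im / (2 * Real.pi), ?_, fun p => ?_⟩
  · exact (Complex.continuous_im.comp L.continuous).div_const _
  · apply Dir.of_eq (c := Real.exp (L p).re) (Real.exp_pos _).le
    rw [← hL' p, ee]
    have : (2 * Real.pi * ((L p).im / (2 * Real.pi)) : ℝ) = (L p).im := by
      field_simp
    rw [this]
    conv_lhs => rw [← Complex.re_add_im (L p), Complex.exp_add, ← Complex.ofReal_exp]

/-- `g` in polar coordinates, divided by the radius -/
def Gf (g : DiffD) (p : ℝ × ℝ) : ℂ := if p.1 = 0 then dg g 0 (ee p.2) else (p.1⁻¹ : ℝ) • (g • (p.1 • ee p.2))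

theorem Gf_zero (g : DiffD) (x : ℝ) : Gf g (0, x) = dg g 0 (ee x) := by simp [Gf]
theorem Gf_pos (g : DiffD) {r : ℝ} (hr : r ≠ 0) (x : ℝ) : Gf g (r, x) = (r⁻¹ : ℝ) • (g • (r • ee x)) := by
  simp [Gf, hr]

theorem mem_disk_polar {r : ℝ} (hr : r ∈ Icc (0:ℝ) 1) (x : ℝ) : r • ee x ∈ Disk := by
  rw [mem_disk, norm_smul, norm_ee, mul_one, Real.norm_of_nonneg hr.1]; exact hr.2

theorem Gf_ne (g : DiffD) {p : ℝ × ℝ} (hp : p ∈ SS) : Gf g p ≠ 0 := by
  obtain ⟨r, x⟩ := p
  by_cases hr : r = 0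
  · rw [hr, Gf_zero]
    intro h
    have h1 := congrArg (fun A : ℂ →L[ℝ] ℂ => A (ee x)) (dg_inv_comp g zero_mem_disk)
    simp only [ContinuousLinearMap.comp_apply, h, map_zero, ContinuousLinearMap.id_apply] at h1
    exact ee_ne x h1.symm
  · rw [Gf_pos g hr]
    apply smul_ne_zero (inv_ne_zero hr)
    rw [Ne, smul_eq_zero_iff']
    exact smul_ne_zero hr (ee_ne x)

theorem Gf_continuousOn (g : DiffD) : ContinuousOn (Gf g) SS := by
  rintro ⟨r₀, x₀⟩ hp
  by_cases hr₀ : r₀ = 0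
  · rw [hr₀]
    set R : ℝ × ℝ → ℂ := fun p => Gf g p - dg g 0 (ee p.2) with hR
    have hRt : Tendsto R (𝓝[SS] (0, x₀)) (𝓝 0) := by
      rw [Metric.tendsto_nhds]
      intro ε hε
      have h1 := (hasFDerivWithinAt_smul g zero_mem_disk).isLittleO
      rw [Asymptotics.isLittleO_iff] at h1
      have h2 := h1 (half_pos hε)
      simp only [sub_zero, smul_zero'] at h2
      have h3 : Tendsto (fun p : ℝ × ℝ => p.1 • ee p.2) (𝓝[SS] (0, x₀)) (𝓝[Disk] 0) := by
        apply tendsto_nhdsWithin_of_tendsto_nhds_of_eventually_within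
        · have hcont : Continuous (fun p : ℝ × ℝ => p.1 • ee p.2) :=
            continuous_fst.smul (continuous_ee.comp continuous_snd)
          have := hcont.tendsto (0, x₀)
          simp only [zero_smul] at this
          exact this.mono_left nhdsWithin_le_nhds
        · filter_upwards [self_mem_nhdsWithin] with p hp using mem_disk_polar hp.1 p.2
      filter_upwards [h3.eventually h2, self_mem_nhdsWithin] with p hp2 hpS
      rw [dist_zero_right]
      obtain ⟨r, x⟩ := p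
      by_cases hr : r = 0
      · rw [hR, hr]
        simp only [Gf_zero, sub_self, norm_zero]
        exact hε
      · have hr0 : 0 < r := lt_of_le_of_ne hpS.1.1 (Ne.symm hr)
        have e : R (r, x) = (r⁻¹ : ℝ) • (g • (r • ee x) - dg g 0 (r • ee x)) := by
          rw [hR]
          simp only [Gf_pos g hr, smul_sub, map_smul, smul_smul, inv_mul_cancel₀ hr, one_smul]
        rw [e, norm_smul, norm_inv, Real.norm_of_nonneg hr0.le]
        simp only [norm_smul, norm_ee, mul_one, Real.norm_of_nonneg hr0.le] at hp2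
        calc r⁻¹ * ‖g • (r • ee x) - dg g 0 (r • ee x)‖ ≤ r⁻¹ * (ε / 2 * r) := by gcongr
          _ = ε / 2 := by field_simp
          _ < ε := by linarith
    have h4 : Tendsto (fun p : ℝ × ℝ => dg g 0 (ee p.2)) (𝓝[SS] (0, x₀)) (𝓝 (dg g 0 (ee x₀))) := by
      have hcont : Continuous (fun p : ℝ × ℝ => dg g 0 (ee p.2)) :=
        (dg g 0).continuous.comp (continuous_ee.comp continuous_snd)
      exact (hcont.tendsto (0, x₀)).mono_left nhdsWithin_le_nhds
    have h5 := hRt.add h4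
    rw [zero_add] at h5
    show Tendsto (Gf g) (𝓝[SS] (0, x₀)) (𝓝 (Gf g (0, x₀)))
    rw [Gf_zero]
    refine h5.congr (fun p => ?_)
    rw [hR]; ring
  · have a1 : ContinuousWithinAt (fun p : ℝ × ℝ => (p.1⁻¹ : ℝ)) SS (r₀, x₀) :=
      (continuousAt_fst.inv₀ hr₀).continuousWithinAt
    have a2 : ContinuousWithinAt (fun p : ℝ × ℝ => g • (p.1 • ee p.2)) SS (r₀, x₀) := by
      have h2 : ContinuousOn (fun p : ℝ × ℝ => p.1 • ee p.2) SS :=
        (continuous_fst.smul (continuous_ee.comp continuous_snd)).continuousOn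
      exact (continuousOn_smul g).comp h2 (fun p hp => mem_disk_polar hp.1 p.2) _ hp
    have h1 : ContinuousWithinAt (fun p : ℝ × ℝ => (p.1⁻¹ : ℝ) • (g • (p.1 • ee p.2))) SS (r₀, x₀) := a1.smul a2
    apply h1.congr_of_eventuallyEq
    · have : ∀ᶠ p : ℝ × ℝ in 𝓝[SS] (r₀, x₀), p.1 ≠ 0 := by
        apply nhdsWithin_le_nhds
        exact continuous_fst.continuousAt.eventually_ne hr₀
      filter_upwards [this] with p hp
      exact Gf_pos g hp p.2
    · exact Gf_pos g hr₀ x₀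

/-- continuous lift of `g` to polar coordinates -/
def IsLift (g : DiffD) (F : ℝ × ℝ → ℝ) : Prop := ContinuousOn F SS ∧ ∀ p ∈ SS, Dir (Gf g p) (F p)

theorem exists_lift (g : DiffD) : ∃ F, IsLift g F := by
  set c : ℝ × ℝ → ℝ × ℝ := fun p => (max 0 (min 1 p.1), p.2) with hc
  have hcc : Continuous c := by
    rw [hc]; fun_prop
  have hcS : ∀ p, c p ∈ SS := fun p =>
    ⟨⟨le_max_left _ _, max_le zero_le_one (min_le_left _ _)⟩, trivial⟩
  have hcid : ∀ p ∈ SS, c p = p := by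
    rintro ⟨r, x⟩ hp
    have h1 : 0 ≤ r := hp.1.1
    have h2 : r ≤ 1 := hp.1.2
    simp only [hc, min_eq_right h2, max_eq_right h1]
  have h1 : Continuous (fun p => Gf g (c p)) :=
    (Gf_continuousOn g).comp_continuous hcc hcS
  obtain ⟨F, hF, hF2⟩ := exists_arg_lift h1 (fun p => Gf_ne g (hcS p))
  refine ⟨F, hF.continuousOn, fun p hp => ?_⟩
  have := hF2 p
  rwa [hcid p hp] at this

theorem IsLift.unique {g : DiffD} {F F' : ℝ × ℝ → ℝ} (h : IsLift g F) (h' : IsLift g F') :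
    ∃ n : ℤ, ∀ p ∈ SS, F' p = F p + n := by
  obtain ⟨n, hn⟩ := int_const (h'.1.sub h.1) (fun p hp => by
    obtain ⟨n, hn⟩ := ee_eq_ee (Dir.unique (Gf_ne g hp) (h'.2 p hp) (h.2 p hp))
    exact ⟨n, by simp only [Pi.sub_apply]; linarith⟩)
  exact ⟨n, fun p hp => by
    have := hn p hp
    simp only [Pi.sub_apply] at this
    linarith⟩

theorem IsLift.one : IsLift 1 Prod.snd := by
  refine ⟨continuous_snd.continuousOn, ?_⟩
  rintro ⟨r, x⟩ hp
  apply Dir.of_eq zero_le_one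
  by_cases hr : r = 0
  · rw [hr, Gf_zero, dg_one zero_mem_disk]; simp
  · rw [Gf_pos _ hr, one_smul, smul_smul, inv_mul_cancel₀ hr]; simp

theorem IsLift.mul {g h : DiffD} {F H : ℝ × ℝ → ℝ} (hF : IsLift g F) (hH : IsLift h H) :
    IsLift (g * h) (fun p => F (‖h • (p.1 • ee p.2)‖, H p)) := by
  have hmaps : MapsTo (fun p : ℝ × ℝ => (‖h • (p.1 • ee p.2)‖, H p)) SS SS := by
    intro p hp
    exact ⟨⟨norm_nonneg _, mem_disk.mp (smul_mem h (mem_disk_polar hp.1 p.2))⟩, trivial⟩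
  refine ⟨?_, ?_⟩
  · apply hF.1.comp _ hmaps
    apply ContinuousOn.prodMk _ hH.1
    apply ContinuousOn.norm
    have h2 : ContinuousOn (fun p : ℝ × ℝ => p.1 • ee p.2) SS :=
      (continuous_fst.smul (continuous_ee.comp continuous_snd)).continuousOn
    exact (continuousOn_smul h).comp h2 (fun p hp => mem_disk_polar hp.1 p.2)
  · intro p hp
    have h1 := hH.2 p hp
    have h2 := hF.2 _ (hmaps hp)
    obtain ⟨r, x⟩ := p
    simp only at h2 ⊢
    by_cases hr : r = 0
    · subst hr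
      simp only [zero_smul, smul_zero', norm_zero] at h2 ⊢
      rw [Gf_zero] at h1 h2 ⊢
      rw [dg_mul g h zero_mem_disk, smul_zero', ContinuousLinearMap.comp_apply]
      have e : dg g 0 (dg h 0 (ee x)) = ‖dg h 0 (ee x)‖ • dg g 0 (ee (H (0, x))) := by
        conv_lhs => rw [h1, ← Complex.real_smul, map_smul]
      rw [e]
      apply Dir.of_eq (c := ‖dg h 0 (ee x)‖ * ‖dg g 0 (ee (H (0, x)))‖) (by positivity)
      rw [h2, Complex.real_smul]
      push_cast
      rw [norm_mul, norm_ee, mul_one, Complex.norm_real, norm_norm]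
      ring
    · have hr0 : 0 < r := lt_of_le_of_ne hp.1.1 (Ne.symm hr)
      set z := r • ee x with hz
      have hz0 : z ≠ 0 := smul_ne_zero hr (ee_ne x)
      have hρ : ‖h • z‖ ≠ 0 := by
        rw [norm_ne_zero_iff, Ne, smul_eq_zero_iff']; exact hz0
      rw [Gf_pos _ hr] at h1 ⊢
      rw [← hz] at h1 ⊢
      rw [Gf_pos _ hρ] at h2
      -- direction of `h • z`
      have h3 : h • z = ‖h • z‖ • ee (H (r, x)) := by
        have h4 : (r⁻¹ : ℝ) • (h • z) = (r⁻¹ : ℝ) • (‖h • z‖ • ee (H (r, x))) := by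
          rw [Dir] at h1
          conv_lhs => rw [h1]
          rw [norm_smul, norm_inv, Real.norm_of_nonneg hr0.le]
          simp only [Complex.real_smul]
          push_cast
          ring
        exact smul_right_injective ℂ (inv_ne_zero hr) h4
      rw [← h3] at h2
      rw [mul_smul]
      have h5 : (r⁻¹ : ℝ) • (g • (h • z)) = (r⁻¹ * ‖h • z‖) • ((‖h • z‖⁻¹ : ℝ) • (g • (h • z))) := by
        rw [smul_smul (r⁻¹ * ‖h • z‖) (‖h • z‖⁻¹ : ℝ), mul_assoc, mul_inv_cancel₀ hρ, mul_one]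
      rw [h5]
      apply Dir.of_eq (c := (r⁻¹ * ‖h • z‖) * ‖(‖h • z‖⁻¹ : ℝ) • (g • (h • z))‖) (by positivity)
      rw [Dir] at h2
      conv_lhs => rw [h2]
      rw [Complex.real_smul]
      push_cast
      ring

end DiskQM
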