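import Pool.Agent.helper52.DQ.StepHB

/-!
Möbius diffeomorphisms, boundary rotations and transitivity on the boundary circle.
-/

open Set Metric Filter Topology
open scoped ContDiff ComplexConjugate

noncomputable section

namespace DiskQM

theorem mem_HH {g : DiffD} : g ∈ HH ↔ dg g 0 = ContinuousLinearMap.id ℝ ℂ :=
  ⟨fun h => (h 0 rfl).2, fun h => by
    rintro _ rfl
    exact ⟨smul_zero' g, h⟩⟩

/-- the function underlying the Möbius diffeomorphisms -/
def mobf (a z : ℂ) : ℂ := z * ((1 + a * conj z) / (1 + conj a * z))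

theorem mob_ne {a z : ℂ} (ha : ‖a‖ < 1) (hz : z ∈ Disk) : 1 + conj a * z ≠ 0 := by
  intro h
  have h1 : ‖conj a * z‖ < 1 := by
    rw [norm_mul, Complex.norm_conj]
    have := mem_disk.mp hz
    nlinarith [norm_nonneg a, norm_nonneg z]
  have h2 : conj a * z = -1 := by linear_combination h
  rw [h2, norm_neg, norm_one] at h1
  exact lt_irrefl _ h1

theorem mob_conj (a z : ℂ) : conj (1 + conj a * z) = 1 + a * conj z := by
  simp

theorem mob_ne' {a z : ℂ} (ha : ‖a‖ < 1) (hz : z ∈ Disk) : 1 + a * conj z ≠ 0 := by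
  rw [← mob_conj]
  exact (map_ne_zero _).mpr (mob_ne ha hz)

theorem norm_mobf {a z : ℂ} (ha : ‖a‖ < 1) (hz : z ∈ Disk) : ‖mobf a z‖ = ‖z‖ := by
  have h1 : ‖1 + a * conj z‖ = ‖1 + conj a * z‖ := by rw [← mob_conj, Complex.norm_conj]
  rw [mobf, norm_mul, norm_div, h1, div_self (norm_ne_zero_iff.mpr (mob_ne ha hz)), mul_one]

theorem mobf_neg {a z : ℂ} (ha : ‖a‖ < 1) (hz : z ∈ Disk) : mobf (-a) (mobf a z) = z := by
  have h1 := mob_ne ha hz
  have h2 := mob_ne' ha hz
  have h3 : conj (mobf a z) = conj z * ((1 + conj a * z) / (1 + a * conj z)) := by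
    simp [mobf]
  have h4 : 1 + conj (-a) * mobf a z = (1 - (a * conj a) * (z * conj z)) / (1 + conj a * z) := by
    rw [mobf, map_neg]; field_simp; ring
  have h5 : 1 + (-a) * conj (mobf a z) = (1 - (a * conj a) * (z * conj z)) / (1 + a * conj z) := by
    rw [h3]; field_simp; ring
  have h6 : 1 - (a * conj a) * (z * conj z) ≠ 0 := by
    rw [Complex.mul_conj, Complex.mul_conj, Complex.normSq_eq_norm_sq, Complex.normSq_eq_norm_sq]
    have h7 : ‖a‖ ^ 2 * ‖z‖ ^ 2 < 1 := by
      have := mem_disk.mp hz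
      have h0 := norm_nonneg a
      have h0' := norm_nonneg z
      have : ‖a‖ * ‖z‖ < 1 := by nlinarith
      nlinarith [mul_nonneg h0 h0']
    intro h8
    have h9 : (1:ℝ) - ‖a‖ ^ 2 * ‖z‖ ^ 2 = 0 := by exact_mod_cast h8
    linarith
  have e : mobf (-a) (mobf a z) = mobf a z * ((1 + (-a) * conj (mobf a z)) / (1 + conj (-a) * mobf a z)) := rfl
  rw [e, h4, h5, mobf]
  have gen : ∀ N D K z : ℂ, N ≠ 0 → D ≠ 0 → K ≠ 0 → z * (N / D) * ((K / N) / (K / D)) = z := by
    intro N D K z hN hD hK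
    field_simp
  exact gen _ _ _ _ h2 h1 h6

theorem contDiffOn_mobq {a : ℂ} (ha : ‖a‖ < 1) :
    ContDiffOn ℝ ∞ (fun z : ℂ => (1 + a * conj z) / (1 + conj a * z)) Disk := by
  simp only [div_eq_mul_inv]
  apply ContDiffOn.mul
  · exact (contDiff_const.add (contDiff_const.mul Complex.conjCLE.contDiff)).contDiffOn
  · apply ContDiffOn.inv
    · exact (contDiff_const.add (contDiff_const.mul contDiff_id)).contDiffOn
    · intro z hz
      exact mob_ne ha hz

theorem contDiffOn_mobf {a : ℂ} (ha : ‖a‖ < 1) : ContDiffOn ℝ ∞ (mobf a) Disk :=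
  contDiff_id.contDiffOn.mul (contDiffOn_mobq ha)

theorem fderivWithin_mobf {a : ℂ} (ha : ‖a‖ < 1) : fderivWithin ℝ (mobf a) Disk 0 = ContinuousLinearMap.id ℝ ℂ := by
  have hG := contDiffOn_mobq ha
  have h1 := (hasFDerivWithinAt_id (𝕜 := ℝ) (0:ℂ) Disk).mul (hG.differentiableOn (by simp) 0 zero_mem_disk).hasFDerivWithinAt
  have h2 := h1.fderivWithin (uniqueDiffOn_disk 0 zero_mem_disk)
  have e : mobf a = (id * fun z : ℂ => (1 + a * conj z) / (1 + conj a * z)) := rfl
  rw [e, h2]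
  simp

theorem exists_mob {a : ℂ} (ha : ‖a‖ < 1) : ∃ u : DiffD, u ∈ HH ∧
    (∀ z ∈ Disk, u • z = mobf a z) ∧ (∀ z ∈ Disk, u⁻¹ • z = mobf (-a) z) := by
  have ha' : ‖-a‖ < 1 := by rwa [norm_neg]
  have hm : ∀ {a : ℂ}, ‖a‖ < 1 → MapsTo (mobf a) Disk Disk := by
    intro a ha z hz
    rw [mem_disk, norm_mobf ha hz]
    exact mem_disk.mp hz
  obtain ⟨u, h1, h2⟩ := exists_of_inverse (f := mobf a) (f' := mobf (-a)) (hm ha) (hm ha')
    (fun z hz => mobf_neg ha hz) (fun z hz => by
      have := mobf_neg ha' hz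
      rwa [neg_neg] at this) (contDiffOn_mobf ha) (contDiffOn_mobf ha') (by simp [mobf])
    (by rw [fderivWithin_mobf ha, det_id']; exact one_pos)
  refine ⟨u, mem_HH.mpr ?_, h1, h2⟩
  rw [dg, fderivWithin_congr h1 (h1 0 zero_mem_disk), fderivWithin_mobf ha]

theorem cir_mul_conj {z : ℂ} (hz : z ∈ Cir) : z * conj z = 1 := by
  rw [Complex.mul_conj, Complex.normSq_eq_norm_sq, show ‖z‖ = 1 from hz]; simp

theorem mobf_cir {a z : ℂ} (hz : z ∈ Cir) : mobf a z = (z + a) / (1 + conj a * z) := by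
  rw [mobf, ← mul_div_assoc]
  congr 1
  linear_combination a * cir_mul_conj hz

/-- rotation of the boundary which is tangent to the identity at `0` -/
theorem exists_brot (θ : ℝ) : ∃ u : DiffD, u ∈ HH ∧ ∀ z ∈ Cir, u • z = z * Complex.exp (θ * Complex.I) := by
  obtain ⟨u, h1, -⟩ := exists_twist (ρ := fun z => θ * ‖z‖ ^ 2) (contDiff_const.mul (contDiff_norm_sq ℝ))
    (fun z w hzw => by simp only [hzw])
  refine ⟨u, mem_HH.mpr ?_, ?_⟩
  · have hE : ContDiff ℝ ∞ (fun z : ℂ => Complex.exp (((θ * ‖z‖ ^ 2 : ℝ) : ℂ) * Complex.I)) :=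
      ((Complex.ofRealCLM.contDiff.comp (contDiff_const.mul (contDiff_norm_sq ℝ))).mul contDiff_const).cexp
    have h2 : HasFDerivAt (fun z : ℂ => z * Complex.exp (((θ * ‖z‖ ^ 2 : ℝ) : ℂ) * Complex.I))
        ((0:ℂ) • fderiv ℝ (fun z : ℂ => Complex.exp (((θ * ‖z‖ ^ 2 : ℝ) : ℂ) * Complex.I)) 0 +
          Complex.exp (((θ * ‖(0:ℂ)‖ ^ 2 : ℝ) : ℂ) * Complex.I) • ContinuousLinearMap.id ℝ ℂ) 0 :=
      (hasFDerivAt_id (0:ℂ)).mul ((hE.differentiable (by simp) 0).hasFDerivAt)
    rw [dg, fderivWithin_congr h1 (h1 0 zero_mem_disk),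
      h2.hasFDerivWithinAt.fderivWithin (uniqueDiffOn_disk 0 zero_mem_disk)]
    simp
  · intro z hz
    rw [h1 z (cir_sub hz), show ‖z‖ = 1 from hz]
    simp

/-- transitivity for the stabilizer of `1` -/
theorem trans_one {y : ℂ} (hy : y ∈ Cir) (hy1 : y ≠ 1) : ∃ h ∈ Dst HH (1:ℂ), h • (-1 : ℂ) = y := by
  have hyn : y.re * y.re + y.im * y.im = 1 := by
    rw [← Complex.normSq_apply, Complex.normSq_eq_norm_sq, show ‖y‖ = 1 from hy]; norm_num
  have hre : y.re < 1 := by
    rcases lt_or_ge y.re 1 with h | h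
    · exact h
    · exfalso
      have h2 : y.im = 0 := by nlinarith
      have h3 : y.re = 1 := by nlinarith
      exact hy1 (Complex.ext (by simpa using h3) (by simpa using h2))
  -- `w = c + i d`, `w² = -y`
  set c := Real.sqrt ((1 - y.re) / 2) with hc
  have hc0 : 0 < c := Real.sqrt_pos.mpr (by linarith)
  have hc2 : c ^ 2 = (1 - y.re) / 2 := Real.sq_sqrt (by linarith)
  set d := - y.im / (2 * c) with hd
  have hcd : 2 * c * d = - y.im := by rw [hd]; field_simp
  have hd2 : d ^ 2 = (1 + y.re) / 2 := by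
    have h1 : (2 * c * d) ^ 2 = y.im ^ 2 := by rw [hcd]; ring
    have h2 : 4 * c ^ 2 * d ^ 2 = y.im ^ 2 := by rw [← h1]; ring
    rw [hc2] at h2
    have h3 : (1 - y.re) * (d ^ 2 - (1 + y.re) / 2) = 0 := by nlinarith
    rcases mul_eq_zero.mp h3 with h4 | h4
    · linarith
    · linarith
  have hcd1 : c ^ 2 + d ^ 2 = 1 := by rw [hc2, hd2]; ring
  set s := - d / (1 + c) with hs
  have hs1 : s ^ 2 < 1 := by
    rw [hs, div_pow, div_lt_one (by positivity)]
    nlinarith
  set a : ℂ := ⟨0, s⟩ with ha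
  have ha1 : ‖a‖ < 1 := by
    have : ‖a‖ ^ 2 < 1 := by
      rw [← Complex.normSq_eq_norm_sq, ha, Complex.normSq_mk]; nlinarith
    nlinarith [norm_nonneg a]
  obtain ⟨u, huH, hu, -⟩ := exists_mob ha1
  -- the value at `1` and `-1`
  set w : ℂ := ⟨c, d⟩ with hw
  have hw1 : (1 - a) = w * (1 + a) := by
    have h1 : s * (1 + c) = - d := by rw [hs]; field_simp
    apply Complex.ext
    · simp only [hw, ha, Complex.sub_re, Complex.one_re, Complex.mul_re, Complex.add_re, Complex.add_im, Complex.one_im]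
      have : c ^ 2 + d ^ 2 = 1 := hcd1
      have h2 : (1 - c) * (1 + c) = d ^ 2 := by linarith
      have h3 : (1 + c) * (1 - 0 - (c * (1 + 0) - d * (0 + s))) = 0 := by
        linear_combination h2 + d * h1
      rcases mul_eq_zero.mp h3 with h4 | h4
      · linarith
      · linarith
    · simp only [hw, ha, Complex.sub_im, Complex.one_im, Complex.mul_im, Complex.add_re, Complex.add_im, Complex.one_re]
      linear_combination -h1
  have hca : conj a = -a := by
    apply Complex.ext <;> simp [ha]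
  have hwn : w ∈ Cir := by
    show ‖w‖ = 1
    have : ‖w‖ ^ 2 = 1 := by
      rw [← Complex.normSq_eq_norm_sq, hw, Complex.normSq_mk]; nlinarith
    nlinarith [norm_nonneg w]
  have hne1 : 1 + a ≠ 0 := by
    intro h
    have := congrArg Complex.re h
    simp [ha] at this
  have hne2 : 1 - a ≠ 0 := by
    intro h
    have := congrArg Complex.re h
    simp [ha] at this
  have hw0 : w ≠ 0 := by
    intro h
    have := congrArg Complex.re h
    simp [hw] at this
    linarith
  have hu1 : u • (1:ℂ) = w⁻¹ := by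
    have h1 : (1:ℂ) ∈ Cir := by simp
    rw [hu 1 (cir_sub h1), mobf_cir h1, hca]
    have : 1 + -a * 1 = w * (1 + a) := by rw [← hw1]; ring
    rw [this]
    field_simp
  have hu2 : u • (-1:ℂ) = - w := by
    have h1 : (-1:ℂ) ∈ Cir := by simp
    rw [hu (-1) (cir_sub h1), mobf_cir h1, hca]
    have : -1 + a = - (w * (1 + a)) := by rw [← hw1]; ring
    rw [this]
    have h2 : 1 + -a * -1 = 1 + a := by ring
    rw [h2]
    field_simp
  obtain ⟨v, hvH, hv⟩ := exists_brot w.arg
  have hwe : Complex.exp (w.arg * Complex.I) = w := by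
    have := Complex.norm_mul_exp_arg_mul_I w
    rwa [show ‖w‖ = 1 from hwn, Complex.ofReal_one, one_mul] at this
  refine ⟨v * u, ⟨HH.mul_mem hvH huH, ?_⟩, ?_⟩
  · have h1 : w⁻¹ ∈ Cir := by
      show ‖w⁻¹‖ = 1
      rw [norm_inv, show ‖w‖ = 1 from hwn, inv_one]
    rw [mul_smul, hu1, hv _ h1, hwe, inv_mul_cancel₀ hw0]
  · have h1 : -w ∈ Cir := by
      show ‖-w‖ = 1
      rw [norm_neg]; exact hwn
    rw [mul_smul, hu2, hv _ h1, hwe]
    apply Complex.ext
    · simp only [hw, Complex.mul_re, Complex.neg_re, Complex.neg_im]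
      nlinarith
    · simp only [hw, Complex.mul_im, Complex.neg_re, Complex.neg_im]
      nlinarith

theorem one_mem_cir : (1:ℂ) ∈ Cir := by simp
theorem neg_one_mem_cir : (-1:ℂ) ∈ Cir := by simp
theorem I_mem_cir : Complex.I ∈ Cir := by simp
theorem neg_I_mem_cir : -Complex.I ∈ Cir := by simp

/-- rotations conjugate the stabilizers -/
theorem rot_conj_stab {q : ℂ} (hq : q ∈ Cir) : ∃ T : DiffD, T • (1:ℂ) = q := by
  refine ⟨tau (rotP q hq), ?_⟩
  rw [tau_rotP q hq (cir_sub one_mem_cir), mul_one]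

theorem T1 : ∀ q ∈ Cir, ∀ x ∈ Cir, ∀ y ∈ Cir, x ≠ q → y ≠ q → ∃ h ∈ Dst HH q, h • x = y := by
  intro q hq x hx y hy hxq hyq
  obtain ⟨T, hT⟩ := rot_conj_stab hq
  have hTi : T⁻¹ • q = 1 := by rw [inv_smul_eq_iff, hT]
  have key : ∀ z ∈ Cir, z ≠ q → ∃ h ∈ Dst HH (1:ℂ), h • (-1 : ℂ) = T⁻¹ • z := by
    intro z hz hzq
    apply trans_one (inv_cir.2 _ z hz)
    intro h
    rw [← hTi] at h
    exact hzq (smul_left_cancel _ h)
  obtain ⟨h₁, hh₁, e₁⟩ := key x hx hxq
  obtain ⟨h₂, hh₂, e₂⟩ := key y hy hyq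
  have h12 : h₂ * h₁⁻¹ ∈ Dst HH (1:ℂ) := (Dst HH (1:ℂ)).mul_mem hh₂ ((Dst HH (1:ℂ)).inv_mem hh₁)
  refine ⟨T * (h₂ * h₁⁻¹) * T⁻¹, ⟨hh_normal.conj_mem _ h12.1 T, ?_⟩, ?_⟩
  · rw [mul_smul, mul_smul, hTi, h12.2, hT]
  · rw [mul_smul, mul_smul, ← e₁, mul_smul, inv_smul_smul, e₂, smul_inv_smul]

theorem T2 : ∀ q ∈ Cir, q ≠ 1 → q ≠ -1 → ∃ u ∈ Dst HH (1:ℂ), u • (-1:ℂ) = -1 ∧
    (u • Complex.I = q ∨ u • (-Complex.I) = q) := by
  intro q hq hq1 hq2
  have hqn : q.re * q.re + q.im * q.im = 1 := by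
    rw [← Complex.normSq_apply, Complex.normSq_eq_norm_sq, show ‖q‖ = 1 from hq]; norm_num
  have him : q.im ≠ 0 := by
    intro h
    rw [h] at hqn
    have : (q.re - 1) * (q.re + 1) = 0 := by linarith
    rcases mul_eq_zero.mp this with h1 | h1
    · exact hq1 (Complex.ext (by simp; linarith) (by simp [h]))
    · exact hq2 (Complex.ext (by simp; linarith) (by simp [h]))
  -- general real parameter
  have real_mob : ∀ t : ℝ, |t| < 1 → ∃ u ∈ Dst HH (1:ℂ), u • (-1:ℂ) = -1 ∧
      (∀ z ∈ Cir, u • z = (z + t) / (1 + t * z)) := by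
    intro t ht
    have ht' : ‖(t:ℂ)‖ < 1 := by rwa [Complex.norm_real]
    obtain ⟨u, huH, hu, -⟩ := exists_mob ht'
    have hu' : ∀ z ∈ Cir, u • z = (z + t) / (1 + t * z) := by
      intro z hz
      rw [hu z (cir_sub hz), mobf_cir hz, Complex.conj_ofReal]
    have hne : (1 + t : ℂ) ≠ 0 := by
      have := mob_ne ht' (cir_sub one_mem_cir)
      rwa [Complex.conj_ofReal, mul_one] at this
    have hne' : (1 - t : ℂ) ≠ 0 := by
      have := mob_ne ht' (cir_sub neg_one_mem_cir)
      rw [Complex.conj_ofReal] at this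
      intro h
      apply this
      linear_combination h
    refine ⟨u, ⟨huH, ?_⟩, ?_, hu'⟩
    · rw [hu' 1 one_mem_cir, mul_one, div_self hne]
    · rw [hu' (-1) neg_one_mem_cir]
      have : (-1 + t : ℂ) = -(1 - t) := by ring
      have h2 : (1 + t * -1 : ℂ) = 1 - t := by ring
      rw [this, h2, neg_div, div_self hne']
  have hre1 : |q.re| ≤ 1 := (Complex.abs_re_le_norm q).trans (le_of_eq hq)
  rcases lt_or_gt_of_ne him with h | h
  · -- lower half circle
    set t := q.re / (1 - q.im) with ht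
    have h1 : 0 < 1 - q.im := by linarith
    have ht1 : |t| < 1 := by
      rw [ht, abs_div, abs_of_pos h1, div_lt_one h1]
      linarith
    have ht2 : t * (1 - q.im) = q.re := by rw [ht]; field_simp
    obtain ⟨u, hu, hu1, hu2⟩ := real_mob t ht1
    refine ⟨u, hu, hu1, Or.inr ?_⟩
    have hne : 1 + (t:ℂ) * -Complex.I ≠ 0 := by
      intro h
      have := congrArg Complex.re h
      simp at this
    rw [hu2 _ neg_I_mem_cir, div_eq_iff hne]
    apply Complex.ext
    · simp
      linear_combination ht2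
    · simp
      have h3 : q.re * t = 1 + q.im := by
        have : (1 - q.im) * (q.re * t - (1 + q.im)) = 0 := by
          linear_combination q.re * ht2 + hqn
        rcases mul_eq_zero.mp this with h4 | h4
        · linarith
        · linarith
      linarith
  · set t := q.re / (1 + q.im) with ht
    have h1 : 0 < 1 + q.im := by linarith
    have ht1 : |t| < 1 := by
      rw [ht, abs_div, abs_of_pos h1, div_lt_one h1]
      linarith
    have ht2 : t * (1 + q.im) = q.re := by rw [ht]; field_simp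
    obtain ⟨u, hu, hu1, hu2⟩ := real_mob t ht1
    refine ⟨u, hu, hu1, Or.inl ?_⟩
    have hne : 1 + (t:ℂ) * Complex.I ≠ 0 := by
      intro h
      have := congrArg Complex.re h
      simp at this
    rw [hu2 _ I_mem_cir, div_eq_iff hne]
    apply Complex.ext
    · simp
      linear_combination ht2
    · simp
      have h3 : q.re * t = 1 - q.im := by
        have : (1 + q.im) * (q.re * t - (1 - q.im)) = 0 := by
          linear_combination q.re * ht2 + hqn
        rcases mul_eq_zero.mp this with h4 | h4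
        · linarith
        · linarith
      linarith

end DiskQM
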