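import Pool.Agent.helper52.DQ.Rot

/-!
`Rot` is not a homomorphism.
-/

open Set Metric Filter Topology
open scoped ContDiff ComplexConjugate

noncomputable section

namespace DiskQM

/-- small angular pushes -/
theorem exists_push {β : ℂ → ℝ} (hβ : ContDiff ℝ ∞ β) (h0 : ∀ᶠ z in 𝓝 (0:ℂ), β z = 0) {c : ℝ} (hc : 0 < c)
    (hb : ∀ z ∈ Disk, |c * β z| ≤ 1 / 16) (hd : ∀ z ∈ Disk, ‖fderiv ℝ (fun z => c * β z) z‖ ≤ 1 / 16) :
    ∃ g : DiffD, IsLift g (fun p => p.2 + c * β (p.1 • ee p.2) / (2 * Real.pi)) := by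
  have hβc : ContDiff ℝ ∞ (fun z => c * β z) := contDiff_const.mul hβ
  obtain ⟨g, hg⟩ := exists_small_ang hβc.contDiffOn hb (fun z hz => by
    rw [(hβc.differentiable (by simp) z).hasFDerivAt.hasFDerivWithinAt.fderivWithin (uniqueDiffOn_disk z hz)]
    exact hd z hz)
  refine ⟨g, ?_, ?_⟩
  · apply Continuous.continuousOn
    have h1 : Continuous (fun p : ℝ × ℝ => p.1 • ee p.2) :=
      continuous_fst.smul (continuous_ee.comp continuous_snd)
    exact continuous_snd.add ((continuous_const.mul (hβ.continuous.comp h1)).div_const _)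
  · rintro ⟨r, x⟩ hp
    apply Dir.of_eq zero_le_one
    rw [Complex.ofReal_one, one_mul]
    have hpi : (2 * Real.pi) ≠ 0 := by positivity
    by_cases hr : r = 0
    · subst hr
      have hloc : Loc g 0 := by
        filter_upwards [nhdsWithin_le_nhds h0, self_mem_nhdsWithin] with z hz hzD
        rw [hg z hzD, hz]; simp
      rw [Gf_zero, hloc.dg zero_mem_disk]
      simp [h0.self_of_nhds]
    · rw [Gf_pos g hr, hg _ (mem_disk_polar hp.1 x)]
      simp only
      rw [ee_add]
      have e : ee (c * β (r • ee x) / (2 * Real.pi)) = Complex.exp (((c * β (r • ee x) : ℝ) : ℂ) * Complex.I) := by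
        rw [ee]
        congr 3
        field_simp
      rw [e, ← smul_mul_assoc, smul_smul, inv_mul_cancel₀ hr, one_smul]

theorem exists_push' {β : ℂ → ℝ} (hβ : ContDiff ℝ ∞ β) (h0 : ∀ᶠ z in 𝓝 (0:ℂ), β z = 0) :
    ∃ c : ℝ, 0 < c ∧ ∃ g : DiffD, IsLift g (fun p => p.2 + c * β (p.1 • ee p.2) / (2 * Real.pi)) := by
  obtain ⟨B, hB⟩ := (isCompact_closedBall (0:ℂ) 1).exists_bound_of_continuousOn hβ.continuous.continuousOn
  obtain ⟨B', hB'⟩ := (isCompact_closedBall (0:ℂ) 1).exists_bound_of_continuousOn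
    (hβ.continuous_fderiv (by simp)).continuousOn
  have hB0 : 0 ≤ B := (norm_nonneg _).trans (hB 0 zero_mem_disk)
  have hB'0 : 0 ≤ B' := (norm_nonneg _).trans (hB' 0 zero_mem_disk)
  set c : ℝ := 1 / (16 * (1 + B + B')) with hc
  have hc0 : 0 < c := by positivity
  have hcB : ∀ b : ℝ, b ≤ 1 + B + B' → c * b ≤ 1 / 16 := by
    intro b hb
    rw [hc, one_div_mul_eq_div, div_le_div_iff₀ (by positivity) (by norm_num)]
    linarith
  refine ⟨c, hc0, exists_push hβ h0 hc0 ?_ ?_⟩
  · intro z hz
    rw [abs_mul, abs_of_pos hc0]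
    apply hcB
    have := hB z hz
    rw [Real.norm_eq_abs] at this
    linarith
  · intro z hz
    have h1 : HasFDerivAt (fun z => c * β z) (c • fderiv ℝ β z) z :=
      ((hβ.differentiable (by simp) z).hasFDerivAt).const_mul c
    rw [h1.fderiv, norm_smul, Real.norm_of_nonneg hc0.le]
    apply hcB
    have := hB' z hz
    linarith

theorem rad_zero_near : ∀ᶠ z in 𝓝 (0:ℂ), rad (1 / 4) (1 / 4) z = 0 := by
  filter_upwards [Metric.closedBall_mem_nhds (0:ℂ) (by norm_num : (0:ℝ) < 1 / 2)] with z hz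
  have hz' : ‖z‖ ≤ 1 / 2 := by simpa using hz
  apply Real.smoothTransition.zero_of_nonpos
  apply div_nonpos_of_nonpos_of_nonneg _ (by norm_num)
  nlinarith [norm_nonneg z]

theorem rad_one_cir (x : ℝ) : rad (1 / 4) (1 / 4) (ee x) = 1 := by
  apply Real.smoothTransition.one_of_one_le
  rw [norm_ee]; norm_num

/-- `Rot` is not a homomorphism -/
theorem Rot_not_hom : ∃ a b : DiffD, Rot (a * b) ≠ Rot a + Rot b := by
  have hre : ContDiff ℝ ∞ (fun z : ℂ => z.re) := Complex.reCLM.contDiff
  obtain ⟨c, hc, a, ha⟩ := exists_push' (β := fun z => rad (1 / 4) (1 / 4) z * (1 - z.re))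
    ((rad_contDiff _ _).mul (contDiff_const.sub hre))
    (rad_zero_near.mono (fun z hz => by rw [hz, zero_mul]))
  obtain ⟨c', hc', b, hb⟩ := exists_push' (β := fun z => rad (1 / 4) (1 / 4) z * (1 + z.re))
    ((rad_contDiff _ _).mul (contDiff_const.add hre))
    (rad_zero_near.mono (fun z hz => by rw [hz, zero_mul]))
  obtain ⟨f₁, f₀, hf, hf1, hf0⟩ := exists_lift2_of ha
  obtain ⟨k₁, k₀, hk, hk1, hk0⟩ := exists_lift2_of hb
  have hpi := Real.pi_pos
  have hf1' : ∀ x, f₁ x = x + c * (1 - Real.cos (2 * Real.pi * x)) / (2 * Real.pi) := by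
    intro x
    rw [hf1]
    simp only [one_smul, rad_one_cir, one_mul, ee_re]
  have hk1' : ∀ x, k₁ x = x + c' * (1 + Real.cos (2 * Real.pi * x)) / (2 * Real.pi) := by
    intro x
    rw [hk1]
    simp only [one_smul, rad_one_cir, one_mul, ee_re]
  have hrad0 : rad (1 / 4) (1 / 4) 0 = 0 := rad_zero_near.self_of_nhds
  have hf0' : ∀ x, f₀ x = x := by
    intro x
    rw [hf0]
    simp only [zero_smul, hrad0, zero_mul, mul_zero, zero_div, add_zero]
  have hk0' : ∀ x, k₀ x = x := by
    intro x
    rw [hk0]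
    simp only [zero_smul, hrad0, zero_mul, mul_zero, zero_div, add_zero]
  have ef0 : f₀ = 1 := CircleDeg1Lift.ext (fun x => by rw [hf0']; rfl)
  have ek0 : k₀ = 1 := CircleDeg1Lift.ext (fun x => by rw [hk0']; rfl)
  have tf1 : f₁.translationNumber = 0 := by
    have := f₁.translationNumber_of_eq_add_int (x := 0) (m := 0) (by rw [hf1']; simp)
    simpa using this
  have tk1 : k₁.translationNumber = 0 := by
    have := k₁.translationNumber_of_eq_add_int (x := 1 / 2) (m := 0) (by
      rw [hk1']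
      have : 2 * Real.pi * (1 / 2) = Real.pi := by ring
      rw [this]; simp)
    simpa using this
  refine ⟨a, b, ?_⟩
  rw [Rot_eq (hf.mul hk), Rot_eq hf, Rot_eq hk, ef0, ek0, mul_one, CircleDeg1Lift.translationNumber_one, tf1, tk1]
  have hcont : Continuous (f₁ * k₁) := by
    have c1 : Continuous f₁ := by
      have : (f₁ : ℝ → ℝ) = fun x => x + c * (1 - Real.cos (2 * Real.pi * x)) / (2 * Real.pi) := funext hf1'
      rw [this]; fun_prop
    have c2 : Continuous k₁ := by
      have : (k₁ : ℝ → ℝ) = fun x => x + c' * (1 + Real.cos (2 * Real.pi * x)) / (2 * Real.pi) := funext hk1'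
      rw [this]; fun_prop
    rw [CircleDeg1Lift.coe_mul]
    exact c1.comp c2
  have hpos : 0 < (f₁ * k₁).translationNumber := by
    apply CircleDeg1Lift.lt_translationNumber_of_forall_add_lt _ hcont
    intro x
    rw [add_zero, CircleDeg1Lift.mul_apply]
    have h1 : ∀ y, y ≤ f₁ y := by
      intro y
      rw [hf1']
      have := Real.cos_le_one (2 * Real.pi * y)
      have : 0 ≤ c * (1 - Real.cos (2 * Real.pi * y)) / (2 * Real.pi) := by
        apply div_nonneg _ (by positivity)
        exact mul_nonneg hc.le (by linarith)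
      linarith
    have hcos := Real.neg_one_le_cos (2 * Real.pi * x)
    rcases hcos.lt_or_eq with h2 | h2
    · have h3 : x < k₁ x := by
        rw [hk1']
        have : 0 < c' * (1 + Real.cos (2 * Real.pi * x)) / (2 * Real.pi) := by
          apply div_pos _ (by positivity)
          exact mul_pos hc' (by linarith)
        linarith
      exact lt_of_lt_of_le h3 (h1 _)
    · have h3 : k₁ x = x := by
        rw [hk1', ← h2]; simp
      rw [h3, hf1', ← h2]
      have : 0 < c * (1 - -1) / (2 * Real.pi) := by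
        apply div_pos _ (by positivity)
        exact mul_pos hc (by norm_num)
      linarith
  intro h
  linarith

end DiskQM
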