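import Mathlib

/-!
Abstract lemmas on homogeneous quasimorphisms.
-/

namespace DiskQM

open Function

/-- `φ` is a homogeneous quasimorphism on `G` with defect at most `C`. -/
structure HQM {G : Type*} [Group G] (φ : G → ℝ) (C : ℝ) : Prop where
  defect : ∀ a b, |φ (a * b) - φ a - φ b| ≤ C
  zpow : ∀ a (n : ℤ), φ (a ^ n) = n * φ a

/-- A real number all of whose multiples are bounded is zero. -/
theorem eq_zero_of_nat_mul_le {x B : ℝ} (h : ∀ n : ℕ, (n : ℝ) * |x| ≤ B) : x = 0 := by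
  by_contra hx
  have hpos : 0 < |x| := abs_pos.mpr hx
  obtain ⟨n, hn⟩ := exists_nat_gt (B / |x|)
  have := h n
  rw [div_lt_iff₀ hpos] at hn
  linarith

/-- `φ` is additive on the set `P`. -/
def AddOn {G : Type*} [Group G] (φ : G → ℝ) (P : Set G) : Prop :=
  ∀ a ∈ P, ∀ b ∈ P, φ (a * b) = φ a + φ b

namespace HQM

variable {G : Type*} [Group G] {φ : G → ℝ} {C : ℝ}

theorem pow (h : HQM φ C) (a : G) (n : ℕ) : φ (a ^ n) = n * φ a := by
  have := h.zpow a n
  simpa using this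

theorem map_one (h : HQM φ C) : φ 1 = 0 := by
  have := h.zpow 1 0
  simpa using this

theorem map_inv (h : HQM φ C) (a : G) : φ a⁻¹ = - φ a := by
  have := h.zpow a (-1)
  simpa using this

theorem C_nonneg (h : HQM φ C) : 0 ≤ C := (abs_nonneg _).trans (h.defect 1 1)

theorem conj (h : HQM φ C) (g a : G) : φ (g * a * g⁻¹) = φ a := by
  have key : ∀ n : ℕ, (n : ℝ) * |φ (g * a * g⁻¹) - φ a| ≤ 2 * C := by
    intro n
    have h1 : φ ((g * a * g⁻¹) ^ n) = n * φ (g * a * g⁻¹) := h.pow _ _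
    have h2 : φ (a ^ n) = n * φ a := h.pow _ _
    have h3 : (g * a * g⁻¹) ^ n = g * a ^ n * g⁻¹ := by
      rw [conj_pow]
    have h4 := h.defect (g * a ^ n) g⁻¹
    have h5 := h.defect g (a ^ n)
    rw [h.map_inv] at h4
    rw [← abs_of_nonneg (Nat.cast_nonneg n : (0:ℝ) ≤ n), ← abs_mul, mul_sub,
      ← h1, ← h2, h3]
    rw [abs_le] at *
    constructor <;> linarith [h4.1, h4.2, h5.1, h5.2]
  have := eq_zero_of_nat_mul_le key
  linarith

theorem conj' (h : HQM φ C) (g a : G) : φ (g⁻¹ * a * g) = φ a := by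
  have := h.conj g⁻¹ a
  simpa using this

theorem mul_comm (h : HQM φ C) (a b : G) : φ (a * b) = φ (b * a) := by
  have := h.conj b (a * b)
  rw [← this]
  congr 1
  group

theorem of_bounded (h : HQM φ C) {a : G} {B : ℝ} (hb : ∀ n : ℕ, |φ (a ^ n)| ≤ B) : φ a = 0 := by
  apply eq_zero_of_nat_mul_le (B := B)
  intro n
  have := hb n
  rw [h.pow, abs_mul, abs_of_nonneg (Nat.cast_nonneg n : (0:ℝ) ≤ n)] at this
  exact this

theorem commute (h : HQM φ C) {a b : G} (hab : Commute a b) : φ (a * b) = φ a + φ b := by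
  have key : ∀ n : ℕ, (n : ℝ) * |φ (a * b) - φ a - φ b| ≤ C := by
    intro n
    have h1 := h.defect (a ^ n) (b ^ n)
    rw [← hab.mul_pow, h.pow, h.pow, h.pow] at h1
    rw [← abs_of_nonneg (Nat.cast_nonneg n : (0:ℝ) ≤ n), ← abs_mul]
    calc |(n : ℝ) * (φ (a * b) - φ a - φ b)| = |n * φ (a * b) - n * φ a - n * φ b| := by ring_nf
      _ ≤ C := h1
  have := eq_zero_of_nat_mul_le key
  linarith

/-- Pull back along a homomorphism. -/
theorem comp (h : HQM φ C) {G' : Type*} [Group G'] (f : G' →* G) : HQM (φ ∘ f) C where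
  defect a b := by simpa using h.defect (f a) (f b)
  zpow a n := by simpa using h.zpow (f a) n

/-- If `φ` is additive on the subgroup `P` and `g` normalizes `P` then `φ(m g) = φ m + φ g`. -/
theorem mul_left_of_norm (h : HQM φ C) {P : Subgroup G} (hP : AddOn φ P) {g m : G}
    (hg : ∀ x ∈ P, g * x * g⁻¹ ∈ P) (hm : m ∈ P) : φ (m * g) = φ m + φ g := by
  have hgn : ∀ n : ℕ, ∀ x ∈ P, g ^ n * x * (g ^ n)⁻¹ ∈ P := by
    intro n
    induction n with
    | zero => intro x hx; simpa using hx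
    | succ n ih =>
      intro x hx
      have := hg _ (ih x hx)
      have e : g ^ (n + 1) * x * (g ^ (n + 1))⁻¹ = g * (g ^ n * x * (g ^ n)⁻¹) * g⁻¹ := by
        rw [pow_succ']; group
      rw [e]; exact this
  have key : ∀ n : ℕ, ∃ p ∈ P, φ p = n * φ m ∧ (m * g) ^ n = p * g ^ n := by
    intro n
    induction n with
    | zero => exact ⟨1, P.one_mem, by simp [h.map_one], by simp⟩
    | succ n ih =>
      obtain ⟨p, hp, hp1, hp2⟩ := ih
      refine ⟨p * (g ^ n * m * (g ^ n)⁻¹), P.mul_mem hp (hgn n m hm), ?_, ?_⟩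
      · rw [hP p hp _ (hgn n m hm), h.conj, hp1]; push_cast; ring
      · rw [pow_succ, hp2, pow_succ]; group
  have key2 : ∀ n : ℕ, (n : ℝ) * |φ (m * g) - φ m - φ g| ≤ C := by
    intro n
    obtain ⟨p, hp, hp1, hp2⟩ := key n
    have h1 := h.defect p (g ^ n)
    rw [← hp2, h.pow, h.pow, hp1] at h1
    rw [← abs_of_nonneg (Nat.cast_nonneg n : (0:ℝ) ≤ n), ← abs_mul]
    calc |(n : ℝ) * (φ (m * g) - φ m - φ g)| = |n * φ (m * g) - n * φ m - n * φ g| := by ring_nf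
      _ ≤ C := h1
  have := eq_zero_of_nat_mul_le key2
  linarith

theorem mul_right_of_norm (h : HQM φ C) {P : Subgroup G} (hP : AddOn φ P) {g m : G}
    (hg : ∀ x ∈ P, g * x * g⁻¹ ∈ P) (hm : m ∈ P) : φ (g * m) = φ g + φ m := by
  rw [h.mul_comm, h.mul_left_of_norm hP hg hm, add_comm]

/-- Commuting displacement: exact version. -/
theorem addOn_pair_of_displace (h : HQM φ C) {a b : G}
    (hd : ∀ n : ℕ, ∃ g : ℕ → G, ∀ i < n, ∀ j < n, i ≠ j →
      Commute (g i * a * (g i)⁻¹) (g j * a * (g j)⁻¹) ∧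
      Commute (g i * a * (g i)⁻¹) (g j * b * (g j)⁻¹) ∧
      Commute (g i * b * (g i)⁻¹) (g j * b * (g j)⁻¹)) :
    φ (a * b) = φ a + φ b := by
  have key : ∀ n : ℕ, (n : ℝ) * |φ (a * b) - φ a - φ b| ≤ C := by
    intro n
    obtain ⟨g, hg⟩ := hd n
    set a' : ℕ → G := fun i => g i * a * (g i)⁻¹ with ha'
    set b' : ℕ → G := fun i => g i * b * (g i)⁻¹ with hb'
    -- products
    have main : ∀ k ≤ n, ∃ p q : G, φ p = k * φ a ∧ φ q = k * φ b ∧ φ (p * q) = k * φ (a * b) ∧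
        (∀ j, k ≤ j → j < n → Commute p (a' j) ∧ Commute p (b' j) ∧ Commute q (a' j) ∧ Commute q (b' j)) := by
      intro k
      induction k with
      | zero =>
        intro _
        exact ⟨1, 1, by simp [h.map_one], by simp [h.map_one], by simp [h.map_one],
          fun j _ _ => ⟨Commute.one_left _, Commute.one_left _, Commute.one_left _, Commute.one_left _⟩⟩
      | succ k ih =>
        intro hk
        obtain ⟨p, q, hp, hq, hpq, hc⟩ := ih (by omega)
        obtain ⟨c1, c2, c3, c4⟩ := hc k le_rfl (by omega)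
        refine ⟨p * a' k, q * b' k, ?_, ?_, ?_, ?_⟩
        · rw [h.commute c1, hp, show φ (a' k) = φ a from h.conj _ _]; push_cast; ring
        · rw [h.commute c4, hq, show φ (b' k) = φ b from h.conj _ _]; push_cast; ring
        · have e : p * a' k * (q * b' k) = (p * q) * (a' k * b' k) := by
            calc p * a' k * (q * b' k) = p * (a' k * q) * b' k := by group
              _ = p * (q * a' k) * b' k := by rw [c3.eq]
              _ = (p * q) * (a' k * b' k) := by group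
          have hcm : Commute (p * q) (a' k * b' k) :=
            ((c1.mul_right c2).mul_left (c3.mul_right c4))
          have e2 : a' k * b' k = g k * (a * b) * (g k)⁻¹ := by simp only [ha', hb']; group
          rw [e, h.commute hcm, hpq, e2, h.conj]; push_cast; ring
        · intro j hj hjn
          obtain ⟨d1, d2, d3, d4⟩ := hc j (by omega) hjn
          obtain ⟨e1, e2, e3⟩ := hg k (by omega) j hjn (by omega)
          obtain ⟨f1, f2, f3⟩ := hg j hjn k (by omega) (by omega)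
          exact ⟨d1.mul_left e1, d2.mul_left e2, d3.mul_left f2.symm, d4.mul_left e3⟩
    obtain ⟨p, q, hp, hq, hpq, -⟩ := main n le_rfl
    have h1 := h.defect p q
    rw [hp, hq, hpq] at h1
    rw [← abs_of_nonneg (Nat.cast_nonneg n : (0:ℝ) ≤ n), ← abs_mul]
    calc |(n : ℝ) * (φ (a * b) - φ a - φ b)| = |n * φ (a * b) - n * φ a - n * φ b| := by ring_nf
      _ ≤ C := h1
  have := eq_zero_of_nat_mul_le key
  linarith

/-- the kernel of `φ` in a normal subgroup on which `φ` is additive. -/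
def kerIn (h : HQM φ C) (M : Subgroup G) (hM : AddOn φ M) : Subgroup G where
  carrier := {m | m ∈ M ∧ φ m = 0}
  mul_mem' := by
    rintro a b ⟨ha, ha'⟩ ⟨hb, hb'⟩
    exact ⟨M.mul_mem ha hb, by rw [hM a ha b hb, ha', hb', add_zero]⟩
  one_mem' := ⟨M.one_mem, h.map_one⟩
  inv_mem' := by
    rintro a ⟨ha, ha'⟩
    exact ⟨M.inv_mem ha, by rw [h.map_inv, ha', neg_zero]⟩

theorem kerIn_normal (h : HQM φ C) (M : Subgroup G) [hn : M.Normal] (hM : AddOn φ M) :
    (h.kerIn M hM).Normal := by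
  constructor
  rintro n ⟨hn1, hn2⟩ g
  exact ⟨hn.conj_mem n hn1 g, by rw [h.conj, hn2]⟩

/-- `φ` descends to the quotient by the kernel. -/
theorem exists_quotient (h : HQM φ C) (M : Subgroup G) [hn : M.Normal] (hM : AddOn φ M)
    (K : Subgroup G) [K.Normal] (hK : ∀ m, m ∈ K ↔ m ∈ M ∧ φ m = 0) :
    ∃ ψ : G ⧸ K → ℝ, HQM ψ C ∧ ∀ g : G, ψ (QuotientGroup.mk g) = φ g := by
  have hinv : ∀ g m : G, m ∈ K → φ (g * m) = φ g := by
    intro g m hm
    rw [hK] at hm
    rw [h.mul_right_of_norm hM (fun x hx => hn.conj_mem x hx g) hm.1, hm.2, add_zero]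
  let ψ : G ⧸ K → ℝ := Quotient.lift φ (by
    intro a b hab
    have hab' : a⁻¹ * b ∈ K := QuotientGroup.leftRel_apply.mp hab
    have := hinv a _ hab'
    rw [← this]; congr 1; group)
  have hψ : ∀ g : G, ψ (QuotientGroup.mk g) = φ g := fun g => rfl
  refine ⟨ψ, ⟨?_, ?_⟩, hψ⟩
  · intro a b
    induction a using QuotientGroup.induction_on with | H a => ?_
    induction b using QuotientGroup.induction_on with | H b => ?_
    rw [← QuotientGroup.mk_mul, hψ, hψ, hψ]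
    exact h.defect a b
  · intro a n
    induction a using QuotientGroup.induction_on with | H a => ?_
    rw [← QuotientGroup.mk_zpow, hψ, hψ]
    exact h.zpow a n

/-- Commuting modulo a normal subgroup on which `φ` is additive. -/
theorem map_commutator_of_mem (h : HQM φ C) (M : Subgroup G) [hn : M.Normal] (hM : AddOn φ M)
    {a b : G} (hab : a * b * a⁻¹ * b⁻¹ ∈ M) : φ (a * b * a⁻¹ * b⁻¹) = 0 := by
  have h1 := h.mul_left_of_norm hM (g := b * a) (fun x hx => hn.conj_mem x hx _) hab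
  have h2 : a * b * a⁻¹ * b⁻¹ * (b * a) = a * b := by group
  rw [h2, h.mul_comm a b] at h1
  linarith

/-- Displacement modulo a normal subgroup on which `φ` is additive. -/
theorem addOn_pair_of_displace_mod (h : HQM φ C) (M : Subgroup G) [hn : M.Normal] (hM : AddOn φ M)
    {a b : G}
    (hd : ∀ n : ℕ, ∃ g : ℕ → G, ∀ i < n, ∀ j < n, i ≠ j → ∀ x ∈ ({a, b} : Set G), ∀ y ∈ ({a, b} : Set G),
      (g i * x * (g i)⁻¹) * (g j * y * (g j)⁻¹) * (g i * x * (g i)⁻¹)⁻¹ * (g j * y * (g j)⁻¹)⁻¹ ∈ M) :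
    φ (a * b) = φ a + φ b := by
  let K := h.kerIn M hM
  have : K.Normal := h.kerIn_normal M hM
  obtain ⟨ψ, hψ, hψ'⟩ := h.exists_quotient M hM K (fun m => Iff.rfl)
  rw [← hψ', ← hψ', ← hψ', QuotientGroup.mk_mul]
  apply hψ.addOn_pair_of_displace
  intro n
  obtain ⟨g, hg⟩ := hd n
  have comm : ∀ x y : G, x * y * x⁻¹ * y⁻¹ ∈ M → Commute (x : G ⧸ K) (y : G ⧸ K) := by
    intro x y hxy
    have h1 : x * y * x⁻¹ * y⁻¹ ∈ K := ⟨hxy, h.map_commutator_of_mem M hM hxy⟩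
    have h2 : ((x * y * x⁻¹ * y⁻¹ : G) : G ⧸ K) = 1 := (QuotientGroup.eq_one_iff _).mpr h1
    rw [commute_iff_eq]
    have h3 : ((x * y * x⁻¹ * y⁻¹ : G) : G ⧸ K) = (x : G ⧸ K) * y * (x : G ⧸ K)⁻¹ * (y : G ⧸ K)⁻¹ := rfl
    rw [h3] at h2
    have h4 := mul_inv_eq_one.mp h2
    have h5 := mul_inv_eq_iff_eq_mul.mp h4
    exact h5
  refine ⟨fun i => (g i : G ⧸ K), fun i hi j hj hij => ⟨?_, ?_, ?_⟩⟩
  · exact comm _ _ (hg i hi j hj hij a (by simp) a (by simp))
  · exact comm _ _ (hg i hi j hj hij a (by simp) b (by simp))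
  · exact comm _ _ (hg i hi j hj hij b (by simp) b (by simp))

/-- Abelian quotient: additivity passes from `P` to `Γ` if `[Γ, Γ] ⊆ P`. -/
theorem addOn_of_commutator (h : HQM φ C) {P Γ : Subgroup G} (hP : AddOn φ P)
    (hn : ∀ g ∈ Γ, ∀ x ∈ P, g * x * g⁻¹ ∈ P) (_hPΓ : P ≤ Γ)
    (hc : ∀ a ∈ Γ, ∀ b ∈ Γ, a * b * a⁻¹ * b⁻¹ ∈ P) : AddOn φ Γ := by
  intro a ha b hb
  have hcom : ∀ x ∈ Γ, ∀ y ∈ Γ, φ (x * y * x⁻¹ * y⁻¹) = 0 := by
    intro x hx y hy
    have h1 := h.mul_left_of_norm hP (g := y * x) (fun z hz => hn _ (Γ.mul_mem hy hx) z hz) (hc x hx y hy)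
    have h2 : x * y * x⁻¹ * y⁻¹ * (y * x) = x * y := by group
    rw [h2, h.mul_comm x y] at h1
    linarith
  have key : ∀ n : ℕ, ∃ m ∈ P, φ m = 0 ∧ (a * b) ^ n = m * (a ^ n * b ^ n) := by
    intro n
    induction n with
    | zero => exact ⟨1, P.one_mem, h.map_one, by simp⟩
    | succ n ih =>
      obtain ⟨m, hm, hm0, hmn⟩ := ih
      have hbn : b ^ n ∈ Γ := Γ.pow_mem hb n
      have han : a ^ n ∈ Γ := Γ.pow_mem ha n
      have hmem : a ^ n * (b ^ n * a * (b ^ n)⁻¹ * a⁻¹) * (a ^ n)⁻¹ ∈ P :=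
        hn _ han _ (hc _ hbn _ ha)
      refine ⟨m * (a ^ n * (b ^ n * a * (b ^ n)⁻¹ * a⁻¹) * (a ^ n)⁻¹), P.mul_mem hm hmem, ?_, ?_⟩
      · rw [hP _ hm _ hmem, h.conj, hm0, hcom _ hbn _ ha, add_zero]
      · rw [pow_succ, hmn, pow_succ, pow_succ]; group
  have key2 : ∀ n : ℕ, (n : ℝ) * |φ (a * b) - φ a - φ b| ≤ C := by
    intro n
    obtain ⟨m, hm, hm0, hmn⟩ := key n
    have h1 := h.defect (a ^ n) (b ^ n)
    have h2 := h.mul_left_of_norm hP (g := a ^ n * b ^ n)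
      (fun z hz => hn _ (Γ.mul_mem (Γ.pow_mem ha n) (Γ.pow_mem hb n)) z hz) hm
    rw [← hmn, hm0, zero_add] at h2
    rw [← h2, h.pow, h.pow, h.pow] at h1
    rw [← abs_of_nonneg (Nat.cast_nonneg n : (0:ℝ) ≤ n), ← abs_mul]
    calc |(n : ℝ) * (φ (a * b) - φ a - φ b)| = |n * φ (a * b) - n * φ a - n * φ b| := by ring_nf
      _ ≤ C := h1
  have := eq_zero_of_nat_mul_le key2
  linarith

/-- Product of two subgroups. -/
theorem addOn_of_mul (h : HQM φ C) {P R Γ : Subgroup G} (hP : AddOn φ P) (hR : AddOn φ R)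
    (hn : ∀ g ∈ R, ∀ x ∈ P, g * x * g⁻¹ ∈ P)
    (hd : ∀ g ∈ Γ, ∃ p ∈ P, ∃ r ∈ R, g = p * r) : AddOn φ Γ := by
  intro a ha b hb
  obtain ⟨p, hp, r, hr, rfl⟩ := hd a ha
  obtain ⟨p', hp', r', hr', rfl⟩ := hd b hb
  have e : p * r * (p' * r') = (p * (r * p' * r⁻¹)) * (r * r') := by group
  rw [e, h.mul_left_of_norm hP (hn _ (R.mul_mem hr hr')) (P.mul_mem hp (hn _ hr _ hp')),
    hP _ hp _ (hn _ hr _ hp'), h.conj, hR _ hr _ hr', h.mul_left_of_norm hP (hn _ hr) hp,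
    h.mul_left_of_norm hP (hn _ hr') hp']
  ring

/-- conjugate set -/
theorem addOn_conj (h : HQM φ C) {P : Set G} (hP : AddOn φ P) (g : G) {R : Set G}
    (hR : ∀ x ∈ R, g * x * g⁻¹ ∈ P) : AddOn φ R := by
  intro a ha b hb
  have h1 := hP _ (hR a ha) _ (hR b hb)
  rw [h.conj, h.conj] at h1
  rw [← h1, ← h.conj g (a * b)]
  congr 1
  group

/-- A homogeneous quasimorphism at bounded distance from an additive function is additive. -/
theorem eq_of_close (h : HQM φ C) {P : Subgroup G} {ψ : G → ℝ} (hψ : AddOn ψ P) {B : ℝ}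
    (hB : ∀ x ∈ P, |φ x - ψ x| ≤ B) : ∀ x ∈ P, φ x = ψ x := by
  intro x hx
  have hpow : ∀ n : ℕ, ψ (x ^ n) = n * ψ x := by
    have h1 : ψ 1 = 0 := by
      have := hψ 1 P.one_mem 1 P.one_mem
      simp at this
      exact this
    intro n
    induction n with
    | zero => simp [h1]
    | succ n ih =>
      rw [pow_succ, hψ _ (P.pow_mem hx n) _ hx, ih]; push_cast; ring
  have key : ∀ n : ℕ, (n : ℝ) * |φ x - ψ x| ≤ B := by
    intro n
    have h1 := hB _ (P.pow_mem hx n)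
    rw [h.pow, hpow, ← mul_sub, abs_mul, abs_of_nonneg (Nat.cast_nonneg n : (0:ℝ) ≤ n)] at h1
    exact h1
  have := eq_zero_of_nat_mul_le key
  linarith

theorem addOn_of_close (h : HQM φ C) {P : Subgroup G} {ψ : G → ℝ} (hψ : AddOn ψ P) {B : ℝ}
    (hB : ∀ x ∈ P, |φ x - ψ x| ≤ B) : AddOn φ P := by
  have e := h.eq_of_close hψ hB
  intro a ha b hb
  rw [e _ (P.mul_mem ha hb), e a ha, e b hb, hψ a ha b hb]

end HQM

/-- `g` is absorbed: `φ(g x) = φ g + φ x` for all `x ∈ Γ`. -/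
def Absorb {G : Type*} [Group G] (φ : G → ℝ) (Γ : Subgroup G) (g : G) : Prop :=
  ∀ x ∈ Γ, φ (g * x) = φ g + φ x

theorem Absorb.mul {G : Type*} [Group G] {φ : G → ℝ} {Γ : Subgroup G} {g h : G}
    (hg : Absorb φ Γ g) (hh : Absorb φ Γ h) (hhΓ : h ∈ Γ) : Absorb φ Γ (g * h) := by
  intro x hx
  rw [mul_assoc, hg _ (Γ.mul_mem hhΓ hx), hh _ hx, hg _ hhΓ]
  ring

theorem HQM.absorb {G : Type*} [Group G] {φ : G → ℝ} {C : ℝ} (h : HQM φ C) {Γ P : Subgroup G}
    (hP : AddOn φ P) (hn : ∀ g ∈ Γ, ∀ x ∈ P, g * x * g⁻¹ ∈ P) {m : G} (hm : m ∈ P) :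
    Absorb φ Γ m := fun _ hx => h.mul_left_of_norm hP (hn _ hx) hm

end DiskQM
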