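import Pool.Agent.helper52.DQ.Frag

/-!
Small representatives of germs.
-/

open Set Metric Filter Topology
open scoped ContDiff ComplexConjugate

noncomputable section

namespace DiskQM

/-- `ρ • v` for a smooth nonnegative cutoff function -/
theorem norm_fderivWithin_cutoff2 {ρ : ℂ → ℝ} {v : ℂ → ℂ} {a b : ℝ} (hv : ContDiffOn ℝ ∞ v Disk)
    (hρ : ContDiff ℝ ∞ ρ) (hρ0 : ∀ z, 0 ≤ ρ z) (hρ1 : ∀ z, ρ z ≤ 1) (ha : 0 ≤ a) (hb : 0 ≤ b)
    (h1 : ∀ z ∈ Disk, ρ z ≠ 0 → ‖fderivWithin ℝ v Disk z‖ ≤ a)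
    (h2 : ∀ z ∈ Disk, ρ z ≠ 0 → ‖fderiv ℝ ρ z‖ * ‖v z‖ ≤ b) :
    ∀ z ∈ Disk, ‖fderivWithin ℝ (fun z => ρ z • v z) Disk z‖ ≤ a + b := by
  intro z hz
  have e : fderivWithin ℝ (fun z => ρ z • v z) Disk z =
      ρ z • fderivWithin ℝ v Disk z + (fderiv ℝ ρ z).smulRight (v z) :=
    (((hρ.differentiable (by simp) z).hasFDerivAt.hasFDerivWithinAt).smul
      (hv.differentiableOn (by simp) z hz).hasFDerivWithinAt).fderivWithin (uniqueDiffOn_disk z hz)
  rw [e]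
  by_cases h : ρ z = 0
  · have hmin : IsLocalMin ρ z := by
      filter_upwards with w
      rw [h]; exact hρ0 w
    rw [h, hmin.fderiv_eq_zero]
    simp
    positivity
  · refine (norm_add_le _ _).trans (add_le_add ?_ ?_)
    · rw [norm_smul, Real.norm_of_nonneg (hρ0 z)]
      calc ρ z * ‖fderivWithin ℝ v Disk z‖ ≤ 1 * a := by
            gcongr
            · exact hρ1 z
            · exact h1 z hz h
        _ = a := one_mul a
    · rw [ContinuousLinearMap.norm_smulRight_apply]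
      exact h2 z hz h

theorem contDiffOn_cutoff2 {ρ : ℂ → ℝ} {v : ℂ → ℂ} (hv : ContDiffOn ℝ ∞ v Disk)
    (hρ : ContDiff ℝ ∞ ρ) : ContDiffOn ℝ ∞ (fun z => ρ z • v z) Disk := hρ.contDiffOn.smul hv

theorem exists_st_bound : ∃ M : ℝ, 0 ≤ M ∧ ∀ t : ℝ, |deriv Real.smoothTransition t| ≤ M := by
  have hc : Continuous (deriv Real.smoothTransition) :=
    (Real.smoothTransition.contDiff (n := ⊤)).continuous_deriv (by simp)
  obtain ⟨M, hM⟩ := (isCompact_Icc (a := (0:ℝ)) (b := 1)).exists_bound_of_continuousOn hc.continuousOn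
  refine ⟨max M 0, le_max_right _ _, fun t => ?_⟩
  by_cases h0 : t ≤ 0
  · have : IsLocalMin Real.smoothTransition t := by
      filter_upwards with w
      rw [Real.smoothTransition.zero_of_nonpos h0]; exact Real.smoothTransition.nonneg w
    rw [this.deriv_eq_zero, abs_zero]; exact le_max_right _ _
  by_cases h1 : 1 ≤ t
  · have : IsLocalMax Real.smoothTransition t := by
      filter_upwards with w
      rw [Real.smoothTransition.one_of_one_le h1]; exact Real.smoothTransition.le_one w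
    rw [this.deriv_eq_zero, abs_zero]; exact le_max_right _ _
  · push Not at h0 h1
    exact (hM t ⟨h0.le, h1.le⟩).trans (le_max_left _ _)

/-- radial cutoff `st ((|z|² - a) / c)` -/
def rad (a c : ℝ) (z : ℂ) : ℝ := Real.smoothTransition ((‖z‖ ^ 2 - a) / c)

theorem rad_contDiff (a c : ℝ) : ContDiff ℝ ∞ (rad a c) :=
  (Real.smoothTransition.contDiff (n := ⊤)).comp (((contDiff_norm_sq ℝ).sub contDiff_const).div_const c)

theorem rad_nonneg (a c : ℝ) (z : ℂ) : 0 ≤ rad a c z := Real.smoothTransition.nonneg _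
theorem rad_le_one (a c : ℝ) (z : ℂ) : rad a c z ≤ 1 := Real.smoothTransition.le_one _

theorem rad_fderiv {M : ℝ} (hM : ∀ t : ℝ, |deriv Real.smoothTransition t| ≤ M) (a : ℝ) {c : ℝ} (hc : 0 < c) (z : ℂ) :
    ‖fderiv ℝ (rad a c) z‖ ≤ M / c * (2 * ‖z‖) := by
  have h1 : HasDerivAt Real.smoothTransition (deriv Real.smoothTransition ((‖z‖ ^ 2 - a) / c)) ((‖z‖ ^ 2 - a) / c) :=
    (((Real.smoothTransition.contDiff (n := ⊤)).differentiable (by simp)) _).hasDerivAt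
  have h2 : HasFDerivAt (fun z : ℂ => (‖z‖ ^ 2 - a) / c) (c⁻¹ • ((2:ℝ) • innerSL ℝ z)) z := by
    have h3 : HasFDerivAt (fun z : ℂ => ‖z‖ ^ 2) ((2:ℝ) • innerSL ℝ z) z := by
      have := (hasStrictFDerivAt_norm_sq z).hasFDerivAt
      exact_mod_cast this
    have h4 := (h3.sub_const a).const_mul c⁻¹
    refine h4.congr_of_eventuallyEq ?_
    filter_upwards with w
    rw [div_eq_inv_mul]
  have h3 := h1.comp_hasFDerivAt z h2
  have e : fderiv ℝ (rad a c) z = deriv Real.smoothTransition ((‖z‖ ^ 2 - a) / c) • (c⁻¹ • ((2:ℝ) • innerSL ℝ z)) := h3.fderiv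
  rw [e, norm_smul, norm_smul, norm_smul, innerSL_apply_norm, Real.norm_eq_abs, norm_inv, Real.norm_of_nonneg hc.le,
    Real.norm_of_nonneg (by norm_num : (0:ℝ) ≤ 2)]
  calc |deriv Real.smoothTransition ((‖z‖ ^ 2 - a) / c)| * (c⁻¹ * (2 * ‖z‖)) ≤ M * (c⁻¹ * (2 * ‖z‖)) := by
        gcongr; exact hM _
    _ = M / c * (2 * ‖z‖) := by ring

theorem germ_inv_mul {g g' : DiffD} {p : ℂ} (h : ∀ᶠ z in 𝓝[Disk] p, g' • z = g • z) : Loc (g'⁻¹ * g) p := by
  filter_upwards [h] with z hz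
  rw [mul_smul, ← hz, inv_smul_smul]

theorem dg_eq_of_germ {g g' : DiffD} {p : ℂ} (hp : p ∈ Disk) (h : ∀ᶠ z in 𝓝[Disk] p, g' • z = g • z) :
    dg g' p = dg g p :=
  Filter.EventuallyEq.fderivWithin_eq h (h.self_of_nhdsWithin hp)

/-- small representatives of germs at `0` tangent to the identity -/
theorem exists_rep_zero {g : DiffD} (hg : dg g 0 = ContinuousLinearMap.id ℝ ℂ) {ε η : ℝ} (hε : 0 < ε)
    (hη : 0 < η) :
    ∃ g' : DiffD, Sm g' ε ∧ (∀ z ∈ Disk, η ≤ ‖z‖ → g' • z = z) ∧ (∀ᶠ z in 𝓝[Disk] (0:ℂ), g' • z = g • z) := by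
  obtain ⟨M, hM0, hM⟩ := exists_st_bound
  set ε₁ := min ε (1 / 8) / (1 + 4 * M) with hε₁
  have hmin : 0 < min ε (1 / 8) := lt_min hε (by norm_num)
  have hε₁0 : 0 < ε₁ := by positivity
  -- derivative small near zero
  have hev : ∀ᶠ z in 𝓝[Disk] (0:ℂ), ‖dg g z - ContinuousLinearMap.id ℝ ℂ‖ ≤ ε₁ := by
    have hc := (continuousOn_dg g) 0 zero_mem_disk
    have : Tendsto (fun z => ‖dg g z - ContinuousLinearMap.id ℝ ℂ‖) (𝓝[Disk] 0) (𝓝 0) := by
      have h2 := (hc.tendsto.sub_const (ContinuousLinearMap.id ℝ ℂ)).norm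
      rw [hg, sub_self, norm_zero] at h2
      exact h2
    exact (this.eventually (gt_mem_nhds hε₁0)).mono (fun z hz => hz.le)
  obtain ⟨r, hr0, hr1, hr⟩ := exists_ball_zero hev
  set δ := min r η / 2 with hδ
  have hδ0 : 0 < δ := by
    have := lt_min hr0 hη
    positivity
  have hδr : 2 * δ ≤ r := by rw [hδ]; linarith [min_le_left r η]
  have hδη : 2 * δ ≤ η := by rw [hδ]; linarith [min_le_right r η]
  set v : ℂ → ℂ := fun z => g • z - z with hv
  have hvc : ContDiffOn ℝ ∞ v Disk := contDiffOn_sub_id g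
  have hvd : ∀ z : ℂ, ‖z‖ ≤ r → ‖fderivWithin ℝ v Disk z‖ ≤ ε₁ := by
    intro z hz
    have hzD : z ∈ Disk := mem_disk.mpr (hz.trans hr1.le)
    rw [hv, fderivWithin_sub_id g hzD]; exact hr z hz
  have hvb : ∀ z : ℂ, ‖z‖ ≤ r → ‖v z‖ ≤ ε₁ * ‖z‖ := by
    intro z hz
    have hsub : closedBall (0:ℂ) r ⊆ Disk := closedBall_subset_closedBall hr1.le
    have := (convex_closedBall (0:ℂ) r).norm_image_sub_le_of_norm_hasFDerivWithin_le
      (f := v) (f' := fun z => fderivWithin ℝ v Disk z) (C := ε₁)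
      (fun x hx => ((hvc.differentiableOn (by simp) x (hsub hx)).hasFDerivWithinAt).mono hsub)
      (fun x hx => hvd x (by simpa using hx)) (mem_closedBall_self hr0.le) (by simpa using hz : z ∈ closedBall (0:ℂ) r)
    simpa [hv, smul_zero'] using this
  -- the cutoff function
  set ρ : ℂ → ℝ := fun z => 1 - rad (δ ^ 2) (3 * δ ^ 2) z with hρ
  have hρc : ContDiff ℝ ∞ ρ := contDiff_const.sub (rad_contDiff _ _)
  have hρ0 : ∀ z, 0 ≤ ρ z := fun z => by rw [hρ]; linarith [rad_le_one (δ ^ 2) (3 * δ ^ 2) z]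
  have hρ1 : ∀ z, ρ z ≤ 1 := fun z => by rw [hρ]; linarith [rad_nonneg (δ ^ 2) (3 * δ ^ 2) z]
  have hρz : ∀ z : ℂ, 2 * δ ≤ ‖z‖ → ρ z = 0 := by
    intro z hz
    have : rad (δ ^ 2) (3 * δ ^ 2) z = 1 := by
      apply Real.smoothTransition.one_of_one_le
      rw [le_div_iff₀ (by positivity)]
      nlinarith
    rw [hρ]; simp [this]
  have hρo : ∀ z : ℂ, ‖z‖ ≤ δ → ρ z = 1 := by
    intro z hz
    have : rad (δ ^ 2) (3 * δ ^ 2) z = 0 := by
      apply Real.smoothTransition.zero_of_nonpos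
      apply div_nonpos_of_nonpos_of_nonneg _ (by positivity)
      nlinarith [norm_nonneg z]
    rw [hρ]; simp [this]
  have hρd : ∀ z : ℂ, ‖z‖ ≤ 2 * δ → ‖fderiv ℝ ρ z‖ * ‖z‖ ≤ 4 * M := by
    intro z hz
    have e : fderiv ℝ ρ z = - fderiv ℝ (rad (δ ^ 2) (3 * δ ^ 2)) z := by
      rw [hρ, fderiv_const_sub]
    rw [e, norm_neg]
    have h1 := rad_fderiv hM (δ ^ 2) (c := 3 * δ ^ 2) (by positivity) z
    have h0 := norm_nonneg z
    calc ‖fderiv ℝ (rad (δ ^ 2) (3 * δ ^ 2)) z‖ * ‖z‖ ≤ (M / (3 * δ ^ 2) * (2 * ‖z‖)) * ‖z‖ := by gcongr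
      _ = M / (3 * δ ^ 2) * (2 * ‖z‖ ^ 2) := by ring
      _ ≤ M / (3 * δ ^ 2) * (2 * (2 * δ) ^ 2) := by gcongr
      _ = M * (8 / 3) := by field_simp; ring
      _ ≤ 4 * M := by linarith
  have hbound : ∀ z ∈ Disk, ‖fderivWithin ℝ (fun z => ρ z • v z) Disk z‖ ≤ ε₁ + ε₁ * (4 * M) := by
    apply norm_fderivWithin_cutoff2 hvc hρc hρ0 hρ1 hε₁0.le (by positivity)
    · intro z _ hz
      apply hvd
      by_contra hcon
      push Not at hcon
      exact hz (hρz z (by linarith))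
    · intro z _ hz
      have hz2 : ‖z‖ ≤ 2 * δ := by
        by_contra hcon
        push Not at hcon
        exact hz (hρz z hcon.le)
      calc ‖fderiv ℝ ρ z‖ * ‖v z‖ ≤ ‖fderiv ℝ ρ z‖ * (ε₁ * ‖z‖) := by
            gcongr; exact hvb z (hz2.trans hδr)
        _ = ε₁ * (‖fderiv ℝ ρ z‖ * ‖z‖) := by ring
        _ ≤ ε₁ * (4 * M) := mul_le_mul_of_nonneg_left (hρd z hz2) hε₁0.le
  have hsum : ε₁ + ε₁ * (4 * M) = min ε (1 / 8) := by
    rw [hε₁]; field_simp
  rw [hsum] at hbound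
  obtain ⟨g', hg'⟩ := exists_small_zero (contDiffOn_cutoff2 hvc hρc)
    (fun z hz => (hbound z hz).trans (min_le_right _ _)) (by simp [hv, smul_zero'])
    (fun p hp => by rw [hρz p (by rw [hp]; linarith), zero_smul])
  refine ⟨g', ?_, ?_, ?_⟩
  · intro z hz
    rw [dg, fderivWithin_congr hg' (hg' z hz), fderivWithin_id_add (contDiffOn_cutoff2 hvc hρc) hz,
      add_sub_cancel_left]
    exact (hbound z hz).trans (min_le_left _ _)
  · intro z hz hzη
    rw [hg' z hz, hρz z (hδη.trans hzη), zero_smul, add_zero]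
  · have : ∀ᶠ z in 𝓝[Disk] (0:ℂ), ‖z‖ ≤ δ := by
      apply nhdsWithin_le_nhds
      filter_upwards [Metric.closedBall_mem_nhds (0:ℂ) hδ0] with z hz
      simpa using hz
    filter_upwards [this, self_mem_nhdsWithin] with z hz hzD
    rw [hg' z hzD, hρo z hz, one_smul, hv]; ring

/-- small representatives of germs along the boundary tangent to the identity -/
theorem exists_rep_cir {g : DiffD} (hg : g ∈ TanSub Cir inv_cir.1) {ε : ℝ} (hε : 0 < ε) :
    ∃ g' : DiffD, Sm g' ε ∧ Loc g' 0 ∧ (∀ z ∈ Disk, g • z = z → g' • z = z) ∧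
      (∀ p ∈ Cir, ∀ᶠ z in 𝓝[Disk] p, g' • z = g • z) := by
  obtain ⟨M, hM0, hM⟩ := exists_st_bound
  set ε₁ := min ε (1 / 8) / (1 + 4 * M) with hε₁
  have hmin : 0 < min ε (1 / 8) := lt_min hε (by norm_num)
  have hε₁0 : 0 < ε₁ := by positivity
  have hev : ∀ p ∈ Cir, ∀ᶠ z in 𝓝[Disk] p, ‖dg g z - ContinuousLinearMap.id ℝ ℂ‖ ≤ ε₁ := by
    intro p hp
    have hc := (continuousOn_dg g) p (cir_sub hp)
    have : Tendsto (fun z => ‖dg g z - ContinuousLinearMap.id ℝ ℂ‖) (𝓝[Disk] p) (𝓝 0) := by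
      have h2 := (hc.tendsto.sub_const (ContinuousLinearMap.id ℝ ℂ)).norm
      rw [(hg p hp).2, sub_self, norm_zero] at h2
      exact h2
    exact (this.eventually (gt_mem_nhds hε₁0)).mono (fun z hz => hz.le)
  obtain ⟨R, hR0, hR1, hR⟩ := exists_collar hev
  -- choose δ with 1 - 2δ ≥ R²
  set δ := (1 - R ^ 2) / 2 with hδ
  have hR2 : R ^ 2 < 1 := by nlinarith
  have hδ0 : 0 < δ := by rw [hδ]; linarith
  have hδ1 : 2 * δ < 1 := by rw [hδ]; nlinarith
  have hcol : ∀ z : ℂ, 1 - 2 * δ ≤ ‖z‖ ^ 2 → R ≤ ‖z‖ := by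
    intro z hz
    rw [hδ] at hz
    have : R ^ 2 ≤ ‖z‖ ^ 2 := by linarith
    exact le_of_sq_le_sq this (norm_nonneg z)
  set v : ℂ → ℂ := fun z => g • z - z with hv
  have hvc : ContDiffOn ℝ ∞ v Disk := contDiffOn_sub_id g
  have hvd : ∀ z ∈ Disk, R ≤ ‖z‖ → ‖fderivWithin ℝ v Disk z‖ ≤ ε₁ := by
    intro z hzD hz
    rw [hv, fderivWithin_sub_id g hzD]; exact hR z hzD hz
  have hvb : ∀ z ∈ Disk, R ≤ ‖z‖ → ‖v z‖ ≤ ε₁ * (1 - ‖z‖) := by
    intro z hzD hz
    have hz0 : 0 < ‖z‖ := lt_of_lt_of_le hR0 hz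
    have hz1 := mem_disk.mp hzD
    set p : ℂ := ‖z‖⁻¹ • z with hp
    have hpn : ‖p‖ = 1 := by rw [hp, norm_smul, norm_inv, norm_norm, inv_mul_cancel₀ hz0.ne']
    have hzp : z = ‖z‖ • p := by rw [hp, smul_smul, mul_inv_cancel₀ hz0.ne', one_smul]
    have hseg : ∀ x ∈ segment ℝ z p, x ∈ Disk ∧ R ≤ ‖x‖ := by
      rintro x ⟨a, b, ha, hb, hab, rfl⟩
      have e : a • z + b • p = (a * ‖z‖ + b) • p := by
        conv_lhs => rw [hzp]
        rw [smul_smul, ← add_smul]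
      have e2 : ‖a • z + b • p‖ = a * ‖z‖ + b := by
        rw [e, norm_smul, hpn, mul_one, Real.norm_of_nonneg (by positivity)]
      rw [mem_disk, e2]
      constructor <;> nlinarith
    have := (convex_segment z p).norm_image_sub_le_of_norm_hasFDerivWithin_le
      (f := v) (f' := fun z => fderivWithin ℝ v Disk z) (C := ε₁)
      (fun x hx => ((hvc.differentiableOn (by simp) x (hseg x hx).1).hasFDerivWithinAt).mono (fun y hy => (hseg y hy).1))
      (fun x hx => hvd x (hseg x hx).1 (hseg x hx).2) (right_mem_segment ℝ z p) (left_mem_segment ℝ z p)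
    have hvp : v p = 0 := by rw [hv]; simp [(hg p hpn).1]
    rw [hvp, sub_zero] at this
    have e3 : ‖z - p‖ = 1 - ‖z‖ := by
      have e4 : z - p = (‖z‖ - 1) • p := by
        rw [sub_smul, one_smul, ← hzp]
      rw [e4, norm_smul, hpn, mul_one, Real.norm_eq_abs, abs_of_nonpos (by linarith)]; ring
    rw [e3] at this
    exact this
  set ρ : ℂ → ℝ := rad (1 - 2 * δ) δ with hρ
  have hρc : ContDiff ℝ ∞ ρ := rad_contDiff _ _
  have hρ0 : ∀ z, 0 ≤ ρ z := rad_nonneg _ _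
  have hρ1 : ∀ z, ρ z ≤ 1 := rad_le_one _ _
  have hρz : ∀ z : ℂ, ‖z‖ ^ 2 ≤ 1 - 2 * δ → ρ z = 0 := by
    intro z hz
    apply Real.smoothTransition.zero_of_nonpos
    exact div_nonpos_of_nonpos_of_nonneg (by linarith) hδ0.le
  have hρo : ∀ z : ℂ, 1 - δ ≤ ‖z‖ ^ 2 → ρ z = 1 := by
    intro z hz
    apply Real.smoothTransition.one_of_one_le
    rw [le_div_iff₀ hδ0]
    linarith
  have hρne : ∀ z : ℂ, ρ z ≠ 0 → 1 - 2 * δ ≤ ‖z‖ ^ 2 := by
    intro z hz
    by_contra hcon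
    push Not at hcon
    exact hz (hρz z hcon.le)
  have hbound : ∀ z ∈ Disk, ‖fderivWithin ℝ (fun z => ρ z • v z) Disk z‖ ≤ ε₁ + ε₁ * (4 * M) := by
    apply norm_fderivWithin_cutoff2 hvc hρc hρ0 hρ1 hε₁0.le (by positivity)
    · intro z hzD hz
      exact hvd z hzD (hcol z (hρne z hz))
    · intro z hzD hz
      have h1 := hρne z hz
      have hz1 := mem_disk.mp hzD
      have h0 := norm_nonneg z
      have h2 : ‖fderiv ℝ ρ z‖ ≤ M / δ * 2 := by
        refine (rad_fderiv hM (1 - 2 * δ) hδ0 z).trans ?_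
        have : 0 ≤ M / δ := by positivity
        nlinarith
      have h3 : 1 - ‖z‖ ≤ 2 * δ := by nlinarith
      calc ‖fderiv ℝ ρ z‖ * ‖v z‖ ≤ (M / δ * 2) * (ε₁ * (1 - ‖z‖)) := by
            gcongr
            exact hvb z hzD (hcol z h1)
        _ ≤ (M / δ * 2) * (ε₁ * (2 * δ)) := by gcongr
        _ = ε₁ * (4 * M) := by field_simp; ring
  have hsum : ε₁ + ε₁ * (4 * M) = min ε (1 / 8) := by
    rw [hε₁]; field_simp
  rw [hsum] at hbound
  have hu0 : ∀ z ∈ Disk, g • z = z → ρ z • v z = 0 := by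
    intro z _ hz
    rw [hv]; simp [hz]
  obtain ⟨g', hg'⟩ := exists_small_zero (contDiffOn_cutoff2 hvc hρc)
    (fun z hz => (hbound z hz).trans (min_le_right _ _)) (hu0 0 zero_mem_disk (smul_zero' g))
    (fun p hp => hu0 p (mem_disk.mpr hp.le) (hg p hp).1)
  refine ⟨g', ?_, ?_, ?_, ?_⟩
  · intro z hz
    rw [dg, fderivWithin_congr hg' (hg' z hz), fderivWithin_id_add (contDiffOn_cutoff2 hvc hρc) hz,
      add_sub_cancel_left]
    exact (hbound z hz).trans (min_le_left _ _)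
  · have h1 : ∀ᶠ z in 𝓝[Disk] (0:ℂ), ‖z‖ ^ 2 ≤ 1 - 2 * δ := by
      apply nhdsWithin_le_nhds
      have hcont : Continuous (fun z : ℂ => ‖z‖ ^ 2) := by fun_prop
      have h2 : Tendsto (fun z : ℂ => ‖z‖ ^ 2) (𝓝 0) (𝓝 0) := by
        have := hcont.tendsto 0
        simpa using this
      exact (h2.eventually (gt_mem_nhds (by linarith : (0:ℝ) < 1 - 2 * δ))).mono (fun z hz => hz.le)
    filter_upwards [h1, self_mem_nhdsWithin] with z hz hzD
    rw [hg' z hzD, hρz z hz, zero_smul, add_zero]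
  · intro z hz h
    rw [hg' z hz, hu0 z hz h, add_zero]
  · intro p hp
    have h1 : ∀ᶠ z in 𝓝[Disk] p, 1 - δ ≤ ‖z‖ ^ 2 := by
      apply nhdsWithin_le_nhds
      have hcont : Continuous (fun z : ℂ => ‖z‖ ^ 2) := by fun_prop
      have h2 : Tendsto (fun z : ℂ => ‖z‖ ^ 2) (𝓝 p) (𝓝 1) := by
        have := hcont.tendsto p
        rw [show ‖p‖ = 1 from hp, one_pow] at this
        exact this
      exact (h2.eventually (lt_mem_nhds (by linarith : 1 - δ < 1))).mono (fun z hz => hz.le)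
    filter_upwards [h1, self_mem_nhdsWithin] with z hz hzD
    rw [hg' z hzD, hρo z hz, one_smul, hv]; ring

end DiskQM
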