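import Mathlib

/-!
Smooth linearization of a contraction with scalar linear part.
-/

open Set Metric Filter Topology
open scoped ContDiff

noncomputable section

namespace DiskQM

/-- a smooth contraction of a ball -/
structure Contr (A : ℂ → ℂ) (R q : ℝ) : Prop where
  hR : 0 < R
  hq0 : 0 ≤ q
  hq : q < 1
  hA : ContDiffOn ℝ ∞ A (ball 0 R)
  hle : ∀ z ∈ ball (0:ℂ) R, ‖A z‖ ≤ q * ‖z‖
  hd : ∀ z ∈ ball (0:ℂ) R, ‖fderiv ℝ A z‖ ≤ q

/-- geometric convergence on closed balls -/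
def GeoConv {V : Type} [NormedAddCommGroup V] (F : ℕ → ℂ → V) (G : ℂ → V) (R : ℝ) : Prop :=
  ∀ r < R, ∃ κ D : ℝ, 0 ≤ κ ∧ κ < 1 ∧ ∀ n : ℕ, ∀ z : ℂ, ‖z‖ ≤ r → ‖F n z - G z‖ ≤ D * κ ^ n

set_option linter.unusedSectionVars false

section

variable {V : Type} [NormedAddCommGroup V] [NormedSpace ℝ V]

theorem GeoConv.locallyUniform {F : ℕ → ℂ → V} {G : ℂ → V} {R : ℝ} (h : GeoConv F G R) :
    TendstoLocallyUniformlyOn F G atTop (ball 0 R) := by
  rw [Metric.tendstoLocallyUniformlyOn_iff]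
  intro ε hε x hx
  rw [mem_ball_zero_iff] at hx
  obtain ⟨r, hxr, hrR⟩ := exists_between hx
  obtain ⟨κ, D, hκ0, hκ1, hb⟩ := h r hrR
  refine ⟨closedBall 0 r, mem_nhdsWithin_of_mem_nhds ?_, ?_⟩
  · exact Filter.mem_of_superset (isOpen_ball.mem_nhds (mem_ball_zero_iff.mpr hxr)) ball_subset_closedBall
  · have h1 : Tendsto (fun n : ℕ => D * κ ^ n) atTop (𝓝 0) := by
      have := (tendsto_pow_atTop_nhds_zero_of_lt_one hκ0 hκ1).const_mul D
      rwa [mul_zero] at this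
    filter_upwards [h1.eventually (gt_mem_nhds hε)] with n hn y hy
    rw [dist_eq_norm, norm_sub_rev]
    exact lt_of_le_of_lt (hb n y (by simpa using hy)) hn

theorem GeoConv.tendsto {F : ℕ → ℂ → V} {G : ℂ → V} {R : ℝ} (h : GeoConv F G R) {z : ℂ} (hz : ‖z‖ < R) :
    Tendsto (fun n => F n z) atTop (𝓝 (G z)) :=
  h.locallyUniform.tendsto_at (mem_ball_zero_iff.mpr hz)

theorem exists_bound_closedBall {b : ℂ → V} {R r : ℝ} (hb : ContinuousOn b (ball 0 R)) (hr : r < R) :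
    ∃ B : ℝ, 0 ≤ B ∧ ∀ z : ℂ, ‖z‖ ≤ r → ‖b z‖ ≤ B := by
  obtain ⟨B, hB⟩ := (isCompact_closedBall (0:ℂ) r).exists_bound_of_continuousOn
    (hb.mono (closedBall_subset_ball hr))
  exact ⟨max B 0, le_max_right _ _, fun z hz => (hB z (by simpa using hz)).trans (le_max_left _ _)⟩

/-- a sequence with geometrically small increments converges geometrically -/
theorem GeoConv.of_increments [CompleteSpace V] {F : ℕ → ℂ → V} {R : ℝ}
    (h : ∀ r < R, ∃ κ D : ℝ, 0 ≤ κ ∧ κ < 1 ∧ ∀ n : ℕ, ∀ z : ℂ, ‖z‖ ≤ r → ‖F (n + 1) z - F n z‖ ≤ D * κ ^ n) :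
    ∃ G : ℂ → V, GeoConv F G R := by
  have hcau : ∀ z : ℂ, ‖z‖ < R → CauchySeq (fun n => F n z) := by
    intro z hz
    obtain ⟨r, hzr, hrR⟩ := exists_between hz
    obtain ⟨κ, D, hκ0, hκ1, hb⟩ := h r hrR
    apply cauchySeq_of_le_geometric κ D hκ1
    intro n
    rw [dist_comm, dist_eq_norm]
    exact hb n z hzr.le
  classical
  let G : ℂ → V := fun z => if hz : ‖z‖ < R then (cauchySeq_tendsto_of_complete (hcau z hz)).choose else 0
  have hG : ∀ z : ℂ, ‖z‖ < R → Tendsto (fun n => F n z) atTop (𝓝 (G z)) := by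
    intro z hz
    simp only [G, dif_pos hz]
    exact (cauchySeq_tendsto_of_complete (hcau z hz)).choose_spec
  refine ⟨G, fun r hr => ?_⟩
  obtain ⟨κ, D, hκ0, hκ1, hb⟩ := h r hr
  refine ⟨κ, D / (1 - κ), hκ0, hκ1, fun n z hz => ?_⟩
  have h1 := dist_le_of_le_geometric_of_tendsto κ D hκ1 (f := fun n => F n z)
    (fun n => by rw [dist_comm, dist_eq_norm]; exact hb n z hz) (hG z (lt_of_le_of_lt hz hr)) n
  rw [dist_eq_norm] at h1
  calc ‖F n z - G z‖ ≤ D * κ ^ n / (1 - κ) := h1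
    _ = D / (1 - κ) * κ ^ n := by ring

variable {A : ℂ → ℂ} {R q : ℝ}

theorem Contr.maps (h : Contr A R q) {z : ℂ} (hz : ‖z‖ < R) : ‖A z‖ < R := by
  have h1 := h.hle z (mem_ball_zero_iff.mpr hz)
  have h2 := norm_nonneg z
  nlinarith [h.hq, h.hq0]

theorem Contr.maps' (h : Contr A R q) {r : ℝ} (hr : r < R) {z : ℂ} (hz : ‖z‖ ≤ r) : ‖A z‖ ≤ r := by
  have h1 := h.hle z (mem_ball_zero_iff.mpr (lt_of_le_of_lt hz hr))
  have h2 := norm_nonneg z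
  nlinarith [h.hq, h.hq0]

theorem Contr.mapsTo (h : Contr A R q) : MapsTo A (ball 0 R) (ball 0 R) := fun z hz => by
  rw [mem_ball_zero_iff] at hz ⊢; exact h.maps hz

theorem Contr.hasFDerivAt (h : Contr A R q) {z : ℂ} (hz : ‖z‖ < R) : HasFDerivAt A (fderiv ℝ A z) z :=
  ((h.hA.differentiableOn (by simp)).differentiableAt (isOpen_ball.mem_nhds (mem_ball_zero_iff.mpr hz))).hasFDerivAt

/-- the Picard iterates -/
def pic (A : ℂ → ℂ) (L : ℂ → V →L[ℝ] V) (b : ℂ → V) (Y₀ : ℂ → V) : ℕ → ℂ → V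
  | 0 => Y₀
  | n + 1 => fun z => L z (pic A L b Y₀ n (A z)) + b z

theorem pic_zero (L : ℂ → V →L[ℝ] V) (b : ℂ → V) (Y₀ : ℂ → V) : pic A L b Y₀ 0 = Y₀ := rfl
theorem pic_succ (L : ℂ → V →L[ℝ] V) (b : ℂ → V) (Y₀ : ℂ → V) (n : ℕ) (z : ℂ) :
    pic A L b Y₀ (n + 1) z = L z (pic A L b Y₀ n (A z)) + b z := rfl

/-- Existence of a continuous solution of `Y = L (Y ∘ A) + b`. -/
theorem exists_solution [CompleteSpace V] (h : Contr A R q) {L : ℂ → V →L[ℝ] V} {b : ℂ → V} {ℓ : ℝ}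
    (hL : ContinuousOn L (ball 0 R)) (hLb : ∀ z ∈ ball (0:ℂ) R, ‖L z‖ ≤ ℓ) (hℓ0 : 0 ≤ ℓ) (hℓ : ℓ < 1)
    (hb : ContinuousOn b (ball 0 R)) :
    ∃ Y : ℂ → V, ContinuousOn Y (ball 0 R) ∧ (∀ z ∈ ball (0:ℂ) R, Y z = L z (Y (A z)) + b z) ∧
      GeoConv (pic A L b 0) Y R := by
  have hinc : ∀ r < R, ∃ κ D : ℝ, 0 ≤ κ ∧ κ < 1 ∧ ∀ n : ℕ, ∀ z : ℂ, ‖z‖ ≤ r →
      ‖pic A L b 0 (n + 1) z - pic A L b 0 n z‖ ≤ D * κ ^ n := by
    intro r hr
    obtain ⟨B, hB0, hB⟩ := exists_bound_closedBall hb hr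
    refine ⟨ℓ, B, hℓ0, hℓ, fun n => ?_⟩
    induction n with
    | zero =>
      intro z hz
      simpa [pic] using hB z hz
    | succ n ih =>
      intro z hz
      have e : pic A L b 0 (n + 1 + 1) z - pic A L b 0 (n + 1) z =
          L z (pic A L b 0 (n + 1) (A z) - pic A L b 0 n (A z)) := by
        rw [pic_succ L b 0 (n + 1), pic_succ L b 0 n z, map_sub]; abel
      rw [e]
      calc ‖L z (pic A L b 0 (n + 1) (A z) - pic A L b 0 n (A z))‖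
          ≤ ‖L z‖ * ‖pic A L b 0 (n + 1) (A z) - pic A L b 0 n (A z)‖ := (L z).le_opNorm _
        _ ≤ ℓ * (B * ℓ ^ n) := by
            gcongr
            · exact hLb z (mem_ball_zero_iff.mpr (lt_of_le_of_lt hz hr))
            · exact ih _ (h.maps' hr hz)
        _ = B * ℓ ^ (n + 1) := by ring
  obtain ⟨Y, hY⟩ := GeoConv.of_increments hinc
  have hcont : ∀ n, ContinuousOn (pic A L b 0 n) (ball 0 R) := by
    intro n
    induction n with
    | zero => exact continuousOn_const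
    | succ n ih =>
      exact (hL.clm_apply (ih.comp h.hA.continuousOn h.mapsTo)).add hb
  refine ⟨Y, hY.locallyUniform.continuousOn (Filter.Frequently.of_forall hcont), ?_, hY⟩
  intro z hz
  rw [mem_ball_zero_iff] at hz
  have h1 := hY.tendsto hz
  have h2 := hY.tendsto (h.maps hz)
  have h3 : Tendsto (fun n => pic A L b 0 (n + 1) z) atTop (𝓝 (L z (Y (A z)) + b z)) :=
    (((L z).continuous.tendsto _).comp h2).add_const _
  exact tendsto_nhds_unique ((tendsto_add_atTop_iff_nat 1).mpr h1) h3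

/-- Perturbed iterates converge geometrically to the solution. -/
theorem conv_perturbed (h : Contr A R q) {L : ℂ → V →L[ℝ] V} {b : ℂ → V} {bn : ℕ → ℂ → V} {ℓ : ℝ}
    (hLb : ∀ z ∈ ball (0:ℂ) R, ‖L z‖ ≤ ℓ) (hℓ0 : 0 ≤ ℓ) (hℓ : ℓ < 1)
    (hbn : GeoConv bn b R) {Y : ℂ → V} (hY : ContinuousOn Y (ball 0 R))
    (hYs : ∀ z ∈ ball (0:ℂ) R, Y z = L z (Y (A z)) + b z)
    {F : ℕ → ℂ → V} (hF0 : ContinuousOn (F 0) (ball 0 R))
    (hF : ∀ n, ∀ z ∈ ball (0:ℂ) R, F (n + 1) z = L z (F n (A z)) + bn n z) : GeoConv F Y R := by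
  intro r hr
  obtain ⟨κ, B, hκ0, hκ1, hB⟩ := hbn r hr
  obtain ⟨E, hE0, hE⟩ := exists_bound_closedBall (hF0.sub hY) hr
  set κ' := max κ ((1 + ℓ) / 2) with hκ'
  have hκ'1 : κ' < 1 := max_lt hκ1 (by linarith)
  have hκ'0 : 0 ≤ κ' := le_max_of_le_left hκ0
  have hℓκ : (1 + ℓ) / 2 ≤ κ' := le_max_right _ _
  have hgap : 0 < κ' - ℓ := by linarith
  set D := max E (|B| / (κ' - ℓ)) with hD
  have hD0 : 0 ≤ D := le_max_of_le_left hE0
  have hDB : |B| ≤ (κ' - ℓ) * D := by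
    have : |B| / (κ' - ℓ) ≤ D := le_max_right _ _
    rw [div_le_iff₀ hgap] at this
    linarith
  refine ⟨κ', D, hκ'0, hκ'1, fun n => ?_⟩
  induction n with
  | zero =>
    intro z hz
    rw [pow_zero, mul_one]
    exact (hE z hz).trans (le_max_left _ _)
  | succ n ih =>
    intro z hz
    have hzR : z ∈ ball (0:ℂ) R := mem_ball_zero_iff.mpr (lt_of_le_of_lt hz hr)
    have e : F (n + 1) z - Y z = L z (F n (A z) - Y (A z)) + (bn n z - b z) := by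
      rw [hF n z hzR, hYs z hzR, map_sub]; abel
    rw [e]
    have h1 : ‖L z (F n (A z) - Y (A z))‖ ≤ ℓ * (D * κ' ^ n) :=
      ((L z).le_opNorm _).trans (by
        gcongr
        · exact hLb z hzR
        · exact ih _ (h.maps' hr hz))
    have h2 : ‖bn n z - b z‖ ≤ |B| * κ' ^ n := by
      refine (hB n z hz).trans ?_
      calc B * κ ^ n ≤ |B| * κ ^ n := by gcongr; exact le_abs_self B
        _ ≤ |B| * κ' ^ n := by gcongr; exact le_max_left _ _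
    calc ‖L z (F n (A z) - Y (A z)) + (bn n z - b z)‖ ≤ ℓ * (D * κ' ^ n) + |B| * κ' ^ n :=
          (norm_add_le _ _).trans (add_le_add h1 h2)
      _ ≤ ℓ * (D * κ' ^ n) + ((κ' - ℓ) * D) * κ' ^ n := by gcongr
      _ = D * κ' ^ (n + 1) := by ring

/-- the operator in the derived equation -/
def LL (A : ℂ → ℂ) (L : ℂ → V →L[ℝ] V) (z : ℂ) : (ℂ →L[ℝ] V) →L[ℝ] (ℂ →L[ℝ] V) :=
  (ContinuousLinearMap.compL ℝ ℂ V V (L z)) ∘L ((ContinuousLinearMap.compL ℝ ℂ ℂ V).flip (fderiv ℝ A z))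

theorem LL_apply (L : ℂ → V →L[ℝ] V) (z : ℂ) (Z : ℂ →L[ℝ] V) :
    LL A L z Z = (L z).comp (Z.comp (fderiv ℝ A z)) := rfl

theorem norm_LL_le (L : ℂ → V →L[ℝ] V) (z : ℂ) : ‖LL A L z‖ ≤ ‖L z‖ * ‖fderiv ℝ A z‖ := by
  apply ContinuousLinearMap.opNorm_le_bound _ (by positivity)
  intro Z
  rw [LL_apply]
  calc ‖(L z).comp (Z.comp (fderiv ℝ A z))‖ ≤ ‖L z‖ * ‖Z.comp (fderiv ℝ A z)‖ :=
        ContinuousLinearMap.opNorm_comp_le _ _
    _ ≤ ‖L z‖ * (‖Z‖ * ‖fderiv ℝ A z‖) := by gcongr; exact ContinuousLinearMap.opNorm_comp_le _ _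
    _ = ‖L z‖ * ‖fderiv ℝ A z‖ * ‖Z‖ := by ring

theorem contDiffOn_LL (h : Contr A R q) {L : ℂ → V →L[ℝ] V} (hL : ContDiffOn ℝ ∞ L (ball 0 R)) :
    ContDiffOn ℝ ∞ (LL A L) (ball 0 R) := by
  have h1 : ContDiffOn ℝ ∞ (fderiv ℝ A) (ball 0 R) := h.hA.fderiv_of_isOpen isOpen_ball (by simp)
  exact ((ContinuousLinearMap.compL ℝ ℂ V V).contDiff.comp_contDiffOn hL).clm_comp
    ((ContinuousLinearMap.compL ℝ ℂ ℂ V).flip.contDiff.comp_contDiffOn h1)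

/-- the forcing term in the derived equation -/
def bb (A : ℂ → ℂ) (L : ℂ → V →L[ℝ] V) (b : ℂ → V) (Y : ℂ → V) (z : ℂ) : ℂ →L[ℝ] V :=
  (ContinuousLinearMap.apply ℝ V (Y (A z))).comp (fderiv ℝ L z) + fderiv ℝ b z

theorem bb_eq (L : ℂ → V →L[ℝ] V) (b : ℂ → V) (Y : ℂ → V) (z : ℂ) :
    bb A L b Y z = (fderiv ℝ L z).flip (Y (A z)) + fderiv ℝ b z := by
  ext v
  simp [bb]

theorem contDiffOn_bb (h : Contr A R q) {L : ℂ → V →L[ℝ] V} (hL : ContDiffOn ℝ ∞ L (ball 0 R))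
    {b Y : ℂ → V} {k : ℕ} (hb : ContDiffOn ℝ (k + 1 : ℕ) b (ball 0 R)) (hY : ContDiffOn ℝ k Y (ball 0 R)) :
    ContDiffOn ℝ k (bb A L b Y) (ball 0 R) := by
  have h1 : ContDiffOn ℝ ∞ (fderiv ℝ L) (ball 0 R) := hL.fderiv_of_isOpen isOpen_ball (by simp)
  have h2 : ContDiffOn ℝ k (fderiv ℝ b) (ball 0 R) :=
    hb.fderiv_of_isOpen isOpen_ball (by push_cast; exact le_rfl)
  have h5 : ContDiffOn ℝ k (fderiv ℝ L) (ball 0 R) := h1.of_le (by exact_mod_cast le_top)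
  have h4 : ContDiffOn ℝ k A (ball 0 R) := h.hA.of_le (by exact_mod_cast le_top)
  have h6 : ContDiffOn ℝ k (fun z => Y (A z)) (ball 0 R) := hY.comp h4 h.mapsTo
  have h7 : ContDiff ℝ k (fun v : V => (ContinuousLinearMap.apply ℝ V v : (V →L[ℝ] V) →L[ℝ] V)) :=
    ContinuousLinearMap.contDiff (ContinuousLinearMap.apply ℝ V : V →L[ℝ] (V →L[ℝ] V) →L[ℝ] V)
  have h3 : ContDiffOn ℝ k (fun z => ContinuousLinearMap.apply ℝ V (Y (A z))) (ball 0 R) :=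
    h7.comp_contDiffOn h6
  exact (h3.clm_comp h5).add h2

/-- derivatives of the iterates -/
def picD (A : ℂ → ℂ) (L : ℂ → V →L[ℝ] V) (b : ℂ → V) (Y₀ : ℂ → V) : ℕ → ℂ → (ℂ →L[ℝ] V)
  | 0 => fderiv ℝ Y₀
  | n + 1 => fun z => LL A L z (picD A L b Y₀ n (A z)) + bb A L b (pic A L b Y₀ n) z

theorem hasFDerivAt_pic (h : Contr A R q) {L : ℂ → V →L[ℝ] V} (hL : ContDiffOn ℝ ∞ L (ball 0 R))
    {b Y₀ : ℂ → V} (hb : ContDiffOn ℝ 1 b (ball 0 R)) (hY₀ : ContDiffOn ℝ 1 Y₀ (ball 0 R)) (n : ℕ) :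
    ∀ z ∈ ball (0:ℂ) R, HasFDerivAt (pic A L b Y₀ n) (picD A L b Y₀ n z) z := by
  induction n with
  | zero =>
    intro z hz
    exact ((hY₀.differentiableOn (by simp)).differentiableAt (isOpen_ball.mem_nhds hz)).hasFDerivAt
  | succ n ih =>
    intro z hz
    have hz' := mem_ball_zero_iff.mp hz
    have h1 : HasFDerivAt L (fderiv ℝ L z) z :=
      ((hL.differentiableOn (by simp)).differentiableAt (isOpen_ball.mem_nhds hz)).hasFDerivAt
    have h2 : HasFDerivAt b (fderiv ℝ b z) z :=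
      ((hb.differentiableOn (by simp)).differentiableAt (isOpen_ball.mem_nhds hz)).hasFDerivAt
    have h3 := (ih _ (h.mapsTo hz)).comp z (h.hasFDerivAt hz')
    have h4 := (h1.clm_apply h3).add h2
    have e : picD A L b Y₀ (n + 1) z = (L z).comp ((picD A L b Y₀ n (A z)).comp (fderiv ℝ A z)) +
        (fderiv ℝ L z).flip (pic A L b Y₀ n (A z)) + fderiv ℝ b z := by
      rw [add_assoc, ← bb_eq]; rfl
    rw [e]
    exact h4

theorem deriv_step [CompleteSpace V] (h : Contr A R q) {L : ℂ → V →L[ℝ] V} {b Y₀ Y : ℂ → V} {ℓ' : ℝ}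
    (hL : ContDiffOn ℝ ∞ L (ball 0 R)) (hb : ContDiffOn ℝ 1 b (ball 0 R))
    (hY₀ : ContDiffOn ℝ 1 Y₀ (ball 0 R)) (hℓ0 : 0 ≤ ℓ') (hℓ1 : ℓ' < 1)
    (hℓ : ∀ z ∈ ball (0:ℂ) R, ‖L z‖ * ‖fderiv ℝ A z‖ ≤ ℓ')
    (hY : GeoConv (pic A L b Y₀) Y R) (hYc : ContinuousOn Y (ball 0 R)) :
    ∃ Z : ℂ → (ℂ →L[ℝ] V), ContinuousOn Z (ball 0 R) ∧
      (∀ z ∈ ball (0:ℂ) R, Z z = LL A L z (Z (A z)) + bb A L b Y z) ∧
      (∀ z ∈ ball (0:ℂ) R, HasFDerivAt Y (Z z) z) := by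
  have hLL := contDiffOn_LL h hL
  have hLLb : ∀ z ∈ ball (0:ℂ) R, ‖LL A L z‖ ≤ ℓ' := fun z hz => (norm_LL_le L z).trans (hℓ z hz)
  have hbbc : ContinuousOn (bb A L b Y) (ball 0 R) :=
    (contDiffOn_bb (k := 0) h hL (by simpa using hb) (contDiffOn_zero.mpr hYc)).continuousOn
  obtain ⟨Z, hZc, hZs, -⟩ := exists_solution h hLL.continuousOn hLLb hℓ0 hℓ1 hbbc
  have hDL : ContinuousOn (fderiv ℝ L) (ball 0 R) := (hL.fderiv_of_isOpen isOpen_ball (m := 0) (by simp)).continuousOn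
  have hconv : GeoConv (picD A L b Y₀) Z R := by
    apply conv_perturbed (bn := fun n => bb A L b (pic A L b Y₀ n)) h hLLb hℓ0 hℓ1 _ hZc hZs
    · exact (hY₀.fderiv_of_isOpen isOpen_ball (m := 0) (by simp)).continuousOn
    · intro n z _
      rfl
    · intro r hr
      obtain ⟨κ, D, hκ0, hκ1, hD⟩ := hY r hr
      obtain ⟨B, hB0, hB⟩ := exists_bound_closedBall (V := ℂ →L[ℝ] V →L[ℝ] V) (b := fderiv ℝ L) hDL hr
      refine ⟨κ, B * D, hκ0, hκ1, fun n z hz => ?_⟩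
      have e : bb A L b (pic A L b Y₀ n) z - bb A L b Y z =
          (fderiv ℝ L z).flip (pic A L b Y₀ n (A z) - Y (A z)) := by
        rw [bb_eq, bb_eq, map_sub]; abel
      rw [e]
      calc ‖(fderiv ℝ L z).flip (pic A L b Y₀ n (A z) - Y (A z))‖
          ≤ ‖(fderiv ℝ L z).flip‖ * ‖pic A L b Y₀ n (A z) - Y (A z)‖ := ContinuousLinearMap.le_opNorm _ _
        _ ≤ B * (D * κ ^ n) := by
            rw [ContinuousLinearMap.opNorm_flip]
            gcongr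
            · exact hB z hz
            · exact hD n _ (h.maps' hr hz)
        _ = B * D * κ ^ n := by ring
  refine ⟨Z, hZc, hZs, fun z hz => ?_⟩
  exact hasFDerivAt_of_tendstoLocallyUniformlyOn isOpen_ball hconv.locallyUniform
    (fun n => hasFDerivAt_pic h hL hb hY₀ n) (fun x hx => hY.tendsto (mem_ball_zero_iff.mp hx)) hz

end

theorem contDiffOn_of_hasFDerivAt {V : Type} [NormedAddCommGroup V] [NormedSpace ℝ V] {R : ℝ}
    {Y : ℂ → V} {Z : ℂ → (ℂ →L[ℝ] V)} {k : ℕ} (hZ : ContDiffOn ℝ k Z (ball 0 R))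
    (h : ∀ z ∈ ball (0:ℂ) R, HasFDerivAt Y (Z z) z) : ContDiffOn ℝ (k + 1 : ℕ) Y (ball 0 R) := by
  push_cast
  rw [contDiffOn_succ_iff_fderiv_of_isOpen isOpen_ball]
  refine ⟨fun z hz => (h z hz).differentiableAt.differentiableWithinAt, by simp, ?_⟩
  exact hZ.congr (fun z hz => (h z hz).fderiv)

theorem contDiff_solution {A : ℂ → ℂ} {R q : ℝ} (h : Contr A R q) (k : ℕ) :
    ∀ (V : Type) [NormedAddCommGroup V] [NormedSpace ℝ V] [CompleteSpace V]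
      (L : ℂ → V →L[ℝ] V) (b : ℂ → V) (ℓ : ℝ) (_ : ContDiffOn ℝ ∞ L (ball 0 R))
      (_ : ∀ z ∈ ball (0:ℂ) R, ‖L z‖ ≤ ℓ) (_ : 0 ≤ ℓ) (_ : ℓ < 1) (_ : ContDiffOn ℝ k b (ball 0 R))
      (Y : ℂ → V) (_ : ContinuousOn Y (ball 0 R)) (_ : ∀ z ∈ ball (0:ℂ) R, Y z = L z (Y (A z)) + b z),
      ContDiffOn ℝ k Y (ball 0 R) := by
  induction k with
  | zero =>
    intro V _ _ _ L b ℓ _ _ _ _ _ Y hY _
    exact contDiffOn_zero.mpr hY
  | succ k ih =>
    intro V _ _ _ L b ℓ hL hLb hℓ0 hℓ1 hb Y hY hYs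
    have hYk : ContDiffOn ℝ k Y (ball 0 R) :=
      ih V L b ℓ hL hLb hℓ0 hℓ1 (hb.of_le (by exact_mod_cast Nat.le_succ k)) Y hY hYs
    have hgeo : GeoConv (pic A L b 0) Y R := by
      apply conv_perturbed (bn := fun _ => b) h hLb hℓ0 hℓ1 _ hY hYs
      · exact continuousOn_const
      · intro n z _; rfl
      · intro r _
        exact ⟨0, 0, le_rfl, one_pos, fun n z _ => by simp⟩
    have hq := h.hq
    have hq0 := h.hq0
    have hℓq : ∀ z ∈ ball (0:ℂ) R, ‖L z‖ * ‖fderiv ℝ A z‖ ≤ ℓ * q := by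
      intro z hz
      gcongr
      · exact hLb z hz
      · exact h.hd z hz
    have hℓq1 : ℓ * q < 1 := by nlinarith
    obtain ⟨Z, hZc, hZs, hZd⟩ := deriv_step h hL (hb.of_le (by
      have : (1 : ℕ) ≤ k + 1 := by omega
      exact_mod_cast this)) contDiffOn_const (by positivity) hℓq1 hℓq hgeo hY
    have hZk : ContDiffOn ℝ k Z (ball 0 R) :=
      ih (ℂ →L[ℝ] V) (LL A L) (bb A L b Y) (ℓ * q) (contDiffOn_LL h hL)
        (fun z hz => (norm_LL_le L z).trans (hℓq z hz)) (by positivity) hℓq1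
        (contDiffOn_bb h hL hb hYk) Z hZc hZs
    exact contDiffOn_of_hasFDerivAt hZk hZd

theorem contDiff_limit {A : ℂ → ℂ} {R q : ℝ} (h : Contr A R q) {V : Type} [NormedAddCommGroup V]
    [NormedSpace ℝ V] [CompleteSpace V] {L : ℂ → V →L[ℝ] V} {b Y₀ Y : ℂ → V} {κ : ℝ}
    (hL : ContDiffOn ℝ ∞ L (ball 0 R)) (hb : ContDiffOn ℝ ∞ b (ball 0 R))
    (hY₀ : ContDiffOn ℝ 1 Y₀ (ball 0 R)) (hκ0 : 0 ≤ κ) (hκ1 : κ < 1)
    (hℓ : ∀ z ∈ ball (0:ℂ) R, ‖L z‖ * ‖fderiv ℝ A z‖ ≤ κ)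
    (hY : GeoConv (pic A L b Y₀) Y R) (hYc : ContinuousOn Y (ball 0 R)) (k : ℕ) :
    ContDiffOn ℝ k Y (ball 0 R) := by
  obtain ⟨Z, hZc, hZs, hZd⟩ := deriv_step h hL (hb.of_le (by simp)) hY₀ hκ0 hκ1 hℓ hY hYc
  have hZk : ∀ k : ℕ, ContDiffOn ℝ k Z (ball 0 R) := by
    intro k
    induction k with
    | zero => exact contDiffOn_zero.mpr hZc
    | succ k ih =>
      have hPk : ContDiffOn ℝ (k + 1 : ℕ) Y (ball 0 R) := contDiffOn_of_hasFDerivAt ih hZd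
      exact contDiff_solution h (k + 1) (ℂ →L[ℝ] V) (LL A L) (bb A L b Y) κ
        (contDiffOn_LL h hL) (fun z hz => (norm_LL_le L z).trans (hℓ z hz)) hκ0 hκ1
        (contDiffOn_bb h hL (hb.of_le (by exact_mod_cast le_top)) hPk) Z hZc hZs
  exact (contDiffOn_of_hasFDerivAt (hZk k) hZd).of_le (by exact_mod_cast Nat.le_succ k)

/-- A smooth contraction with scalar linear part is smoothly linearizable. -/
theorem sternberg_aux {A : ℂ → ℂ} {R q t : ℝ} (h : Contr A R q) (ht0 : 0 < t) (hqt : q ^ 2 < t)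
    (hA0 : A 0 = 0) (hdA : fderiv ℝ A 0 = t • ContinuousLinearMap.id ℝ ℂ) :
    ∃ S : ℂ → ℂ, ContDiffOn ℝ ∞ S (ball 0 R) ∧ S 0 = 0 ∧
      HasFDerivAt S (ContinuousLinearMap.id ℝ ℂ) 0 ∧ ∀ z ∈ ball (0:ℂ) R, S (A z) = t • S z := by
  have hq0 := h.hq0
  have hR := h.hR
  set κ := t⁻¹ * q ^ 2 with hκ
  have hκ0 : 0 ≤ κ := by positivity
  have hκ1 : κ < 1 := by
    rw [hκ, inv_mul_lt_iff₀ ht0, mul_one]; exact hqt
  have hDA : ContDiffOn ℝ ∞ (fderiv ℝ A) (ball 0 R) := h.hA.fderiv_of_isOpen isOpen_ball (by simp)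
  -- the operators
  set L : ℂ → (ℂ →L[ℝ] ℂ) →L[ℝ] (ℂ →L[ℝ] ℂ) := fun z =>
    t⁻¹ • (ContinuousLinearMap.compL ℝ ℂ ℂ ℂ).flip (fderiv ℝ A z) with hL
  have hLapp : ∀ z X, L z X = t⁻¹ • X.comp (fderiv ℝ A z) := fun z X => rfl
  have hLc : ContDiffOn ℝ ∞ L (ball 0 R) := by
    have h1 : ContDiffOn ℝ ∞ (fun z => (ContinuousLinearMap.compL ℝ ℂ ℂ ℂ).flip (fderiv ℝ A z)) (ball 0 R) :=
      (ContinuousLinearMap.compL ℝ ℂ ℂ ℂ).flip.contDiff.comp_contDiffOn hDA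
    exact h1.const_smul t⁻¹
  have hLn : ∀ z ∈ ball (0:ℂ) R, ∀ X, ‖L z X‖ ≤ t⁻¹ * q * ‖X‖ := by
    intro z hz X
    rw [hLapp, norm_smul, norm_inv, Real.norm_of_nonneg ht0.le, mul_assoc]
    gcongr
    calc ‖X.comp (fderiv ℝ A z)‖ ≤ ‖X‖ * ‖fderiv ℝ A z‖ := ContinuousLinearMap.opNorm_comp_le _ _
      _ ≤ ‖X‖ * q := by gcongr; exact h.hd z hz
      _ = q * ‖X‖ := by ring
  have hLn' : ∀ z ∈ ball (0:ℂ) R, ‖L z‖ * ‖fderiv ℝ A z‖ ≤ κ := by
    intro z hz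
    have h1 : ‖L z‖ ≤ t⁻¹ * q := ContinuousLinearMap.opNorm_le_bound _ (by positivity) (hLn z hz)
    calc ‖L z‖ * ‖fderiv ℝ A z‖ ≤ (t⁻¹ * q) * q := by gcongr; exact h.hd z hz
      _ = κ := by rw [hκ]; ring
  -- iterates
  set P : ℕ → ℂ → (ℂ →L[ℝ] ℂ) := pic A L 0 (fun _ => ContinuousLinearMap.id ℝ ℂ) with hP
  have hPs : ∀ n z, P (n + 1) z = t⁻¹ • (P n (A z)).comp (fderiv ℝ A z) := by
    intro n z
    rw [hP, pic_succ, hLapp]; simp
  set S : ℕ → ℂ → ℂ := pic A (fun _ => t⁻¹ • ContinuousLinearMap.id ℝ ℂ) 0 id with hS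
  have hSs : ∀ n z, S (n + 1) z = t⁻¹ • S n (A z) := by
    intro n z
    rw [hS, pic_succ]; simp
  have hSd : ∀ n, ∀ z ∈ ball (0:ℂ) R, HasFDerivAt (S n) (P n z) z := by
    intro n
    induction n with
    | zero => intro z _; exact hasFDerivAt_id z
    | succ n ih =>
      intro z hz
      have h1 := ((ih _ (h.mapsTo hz)).comp z (h.hasFDerivAt (mem_ball_zero_iff.mp hz))).const_smul t⁻¹
      rw [hPs]
      have e : S (n + 1) = t⁻¹ • (S n ∘ A) := funext (hSs n)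
      rw [e]
      exact h1
  have hS0 : ∀ n, S n 0 = 0 := by
    intro n
    induction n with
    | zero => rfl
    | succ n ih => rw [hSs, hA0, ih, smul_zero]
  have hP0 : ∀ n, P n 0 = ContinuousLinearMap.id ℝ ℂ := by
    intro n
    induction n with
    | zero => rfl
    | succ n ih =>
      rw [hPs, hA0, ih, hdA]
      ext <;> simp [ht0.ne']
  -- increments of P
  have hE : ∀ r < R, 0 ≤ r → ∃ c : ℝ, 0 ≤ c ∧ ∀ z : ℂ, ‖z‖ ≤ r → ‖P 1 z - P 0 z‖ ≤ c * ‖z‖ := by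
    intro r hr hr0
    have hE1 : ContDiffOn ℝ ∞ (fun z => t⁻¹ • fderiv ℝ A z - ContinuousLinearMap.id ℝ ℂ) (ball 0 R) :=
      (hDA.const_smul t⁻¹).sub contDiffOn_const
    have hE2 : ContinuousOn (fderiv ℝ (fun z => t⁻¹ • fderiv ℝ A z - ContinuousLinearMap.id ℝ ℂ)) (ball 0 R) :=
      (hE1.fderiv_of_isOpen isOpen_ball (m := 0) (by simp)).continuousOn
    obtain ⟨c, hc0, hc⟩ := exists_bound_closedBall (V := ℂ →L[ℝ] (ℂ →L[ℝ] ℂ))
      (b := fderiv ℝ (fun z => t⁻¹ • fderiv ℝ A z - ContinuousLinearMap.id ℝ ℂ)) hE2 hr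
    refine ⟨c, hc0, fun z hz => ?_⟩
    have hsub : closedBall (0:ℂ) r ⊆ ball 0 R := closedBall_subset_ball hr
    have h1 := (convex_closedBall (0:ℂ) r).norm_image_sub_le_of_norm_hasFDerivWithin_le
      (f := fun z => t⁻¹ • fderiv ℝ A z - ContinuousLinearMap.id ℝ ℂ)
      (f' := fderiv ℝ (fun z => t⁻¹ • fderiv ℝ A z - ContinuousLinearMap.id ℝ ℂ)) (C := c)
      (fun x hx => ((hE1.differentiableOn (by simp)).differentiableAt
        (isOpen_ball.mem_nhds (hsub hx))).hasFDerivAt.hasFDerivWithinAt)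
      (fun x hx => hc x (by simpa using hx)) (mem_closedBall_self hr0) (by simpa using hz : z ∈ closedBall (0:ℂ) r)
    have e0 : t⁻¹ • fderiv ℝ A 0 - ContinuousLinearMap.id ℝ ℂ = 0 := by
      rw [hdA, smul_smul, inv_mul_cancel₀ ht0.ne', one_smul, sub_self]
    have e1 : P 1 z - P 0 z = t⁻¹ • fderiv ℝ A z - ContinuousLinearMap.id ℝ ℂ := by
      rw [hPs]
      show t⁻¹ • (ContinuousLinearMap.id ℝ ℂ).comp (fderiv ℝ A z) - ContinuousLinearMap.id ℝ ℂ = _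
      rw [ContinuousLinearMap.id_comp]
    rw [e1]
    have h2 : ‖(fun z => t⁻¹ • fderiv ℝ A z - ContinuousLinearMap.id ℝ ℂ) z -
      (fun z => t⁻¹ • fderiv ℝ A z - ContinuousLinearMap.id ℝ ℂ) 0‖ ≤ c * ‖z - 0‖ := h1
    simp only [e0, sub_zero] at h2
    exact h2
  have hPinc : ∀ r < R, 0 ≤ r → ∃ c : ℝ, 0 ≤ c ∧ ∀ n : ℕ, ∀ z : ℂ, ‖z‖ ≤ r → ‖P (n + 1) z - P n z‖ ≤ c * κ ^ n * ‖z‖ := by
    intro r hr hr0
    obtain ⟨c, hc0, hc⟩ := hE r hr hr0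
    refine ⟨c, hc0, fun n => ?_⟩
    induction n with
    | zero => intro z hz; simpa using hc z hz
    | succ n ih =>
      intro z hz
      have hzR : z ∈ ball (0:ℂ) R := mem_ball_zero_iff.mpr (lt_of_le_of_lt hz hr)
      have e : P (n + 1 + 1) z - P (n + 1) z = L z (P (n + 1) (A z) - P n (A z)) := by
        rw [map_sub, hLapp, hLapp, ← hPs (n + 1) z, ← hPs n z]
      rw [e]
      calc ‖L z (P (n + 1) (A z) - P n (A z))‖ ≤ t⁻¹ * q * ‖P (n + 1) (A z) - P n (A z)‖ := hLn z hzR _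
        _ ≤ t⁻¹ * q * (c * κ ^ n * ‖A z‖) := by gcongr; exact ih _ (h.maps' hr hz)
        _ ≤ t⁻¹ * q * (c * κ ^ n * (q * ‖z‖)) := by gcongr; exact h.hle z hzR
        _ = c * κ ^ (n + 1) * ‖z‖ := by rw [hκ]; ring
  obtain ⟨P', hP'⟩ : ∃ P' : ℂ → (ℂ →L[ℝ] ℂ), GeoConv P P' R := by
    apply GeoConv.of_increments
    intro r hr
    by_cases hr0 : 0 ≤ r
    · obtain ⟨c, hc0, hc⟩ := hPinc r hr hr0
      refine ⟨κ, c * r, hκ0, hκ1, fun n z hz => (hc n z hz).trans ?_⟩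
      calc c * κ ^ n * ‖z‖ ≤ c * κ ^ n * r := by gcongr
        _ = c * r * κ ^ n := by ring
    · exact ⟨0, 0, le_rfl, one_pos, fun n z hz => absurd ((norm_nonneg z).trans hz) hr0⟩
  obtain ⟨S', hS'⟩ : ∃ S' : ℂ → ℂ, GeoConv S S' R := by
    apply GeoConv.of_increments
    intro r hr
    by_cases hr0 : 0 ≤ r
    · obtain ⟨c, hc0, hc⟩ := hPinc r hr hr0
      refine ⟨κ, c * r * r, hκ0, hκ1, fun n z hz => ?_⟩
      have hsub : closedBall (0:ℂ) r ⊆ ball 0 R := closedBall_subset_ball hr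
      have h1 := (convex_closedBall (0:ℂ) r).norm_image_sub_le_of_norm_hasFDerivWithin_le
        (f := fun z => S (n + 1) z - S n z) (f' := fun z => P (n + 1) z - P n z) (C := c * κ ^ n * r)
        (fun x hx => ((hSd (n + 1) x (hsub hx)).sub (hSd n x (hsub hx))).hasFDerivWithinAt)
        (fun x hx => (hc n x (by simpa using hx)).trans (by
          have : ‖x‖ ≤ r := by simpa using hx
          gcongr)) (mem_closedBall_self hr0) (by simpa using hz : z ∈ closedBall (0:ℂ) r)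
      simp only [hS0, sub_zero] at h1
      calc ‖S (n + 1) z - S n z‖ ≤ c * κ ^ n * r * ‖z‖ := h1
        _ ≤ c * κ ^ n * r * r := by gcongr
        _ = c * r * r * κ ^ n := by ring
    · exact ⟨0, 0, le_rfl, one_pos, fun n z hz => absurd ((norm_nonneg z).trans hz) hr0⟩
  have hSder : ∀ z ∈ ball (0:ℂ) R, HasFDerivAt S' (P' z) z := fun z hz =>
    hasFDerivAt_of_tendstoLocallyUniformlyOn isOpen_ball hP'.locallyUniform hSd
      (fun x hx => hS'.tendsto (mem_ball_zero_iff.mp hx)) hz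
  have hPcont : ∀ n, ContinuousOn (P n) (ball 0 R) := by
    intro n
    induction n with
    | zero => exact continuousOn_const
    | succ n ih =>
      have e : P (n + 1) = fun z => L z (P n (A z)) := by
        funext z
        rw [hPs, hLapp]
      rw [e]
      exact hLc.continuousOn.clm_apply (ih.comp h.hA.continuousOn h.mapsTo)
  have hP'c : ContinuousOn P' (ball 0 R) :=
    hP'.locallyUniform.continuousOn (Filter.Frequently.of_forall hPcont)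
  have hP'k : ∀ k : ℕ, ContDiffOn ℝ k P' (ball 0 R) := fun k =>
    contDiff_limit h (V := ℂ →L[ℝ] ℂ) (L := L) (b := 0) (Y₀ := fun _ => ContinuousLinearMap.id ℝ ℂ)
      hLc contDiffOn_const contDiffOn_const hκ0 hκ1 hLn' hP' hP'c k
  have hS'k : ∀ k : ℕ, ContDiffOn ℝ k S' (ball 0 R) := fun k =>
    (contDiffOn_of_hasFDerivAt (hP'k k) hSder).of_le (by exact_mod_cast Nat.le_succ k)
  have h0R : (0:ℂ) ∈ ball (0:ℂ) R := mem_ball_self hR
  refine ⟨S', contDiffOn_infty.mpr hS'k, ?_, ?_, ?_⟩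
  · have h1 := hS'.tendsto (z := 0) (by simpa using hR)
    simp only [hS0] at h1
    exact (tendsto_nhds_unique tendsto_const_nhds h1).symm
  · have h1 := hP'.tendsto (z := 0) (by simpa using hR)
    simp only [hP0] at h1
    have h2 : P' 0 = ContinuousLinearMap.id ℝ ℂ := (tendsto_nhds_unique tendsto_const_nhds h1).symm
    rw [← h2]
    exact hSder 0 h0R
  · intro z hz
    have hz' := mem_ball_zero_iff.mp hz
    have h1 := (tendsto_add_atTop_iff_nat 1).mpr (hS'.tendsto hz')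
    have h2 := (hS'.tendsto (h.maps hz')).const_smul t⁻¹
    have h3 : S' z = t⁻¹ • S' (A z) := by
      refine tendsto_nhds_unique h1 (h2.congr (fun n => ?_))
      rw [hSs]
    rw [h3, smul_smul, mul_inv_cancel₀ ht0.ne', one_smul]

end DiskQM
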