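import Pool.Agent.helper52.DQ.StepMB
import Pool.Agent.helper52.DQ.Stern

/-!
Small representatives of germs at `0`, and linearization.
-/

open Set Metric Filter Topology
open scoped ContDiff ComplexConjugate

noncomputable section

namespace DiskQM

/-- small representatives of germs at `0` tangent to the identity -/
theorem exists_rep_fun {F : ℂ → ℂ} (hF : ContDiffOn ℝ ∞ F Disk) (hF0 : F 0 = 0)
    (hdF : fderivWithin ℝ F Disk 0 = ContinuousLinearMap.id ℝ ℂ) {ε η : ℝ} (hε : 0 < ε)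
    (hη : 0 < η) :
    ∃ g' : DiffD, Sm g' ε ∧ (∀ z ∈ Disk, η ≤ ‖z‖ → g' • z = z) ∧ (∀ᶠ z in 𝓝[Disk] (0:ℂ), g' • z = F z) := by
  obtain ⟨M, hM0, hM⟩ := exists_st_bound
  set ε₁ := min ε (1 / 8) / (1 + 4 * M) with hε₁
  have hmin : 0 < min ε (1 / 8) := lt_min hε (by norm_num)
  have hε₁0 : 0 < ε₁ := by positivity
  -- derivative small near zero
  have hev : ∀ᶠ z in 𝓝[Disk] (0:ℂ), ‖fderivWithin ℝ F Disk z - ContinuousLinearMap.id ℝ ℂ‖ ≤ ε₁ := by
    have hc := (hF.continuousOn_fderivWithin uniqueDiffOn_disk (by simp)) 0 zero_mem_disk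
    have : Tendsto (fun z => ‖fderivWithin ℝ F Disk z - ContinuousLinearMap.id ℝ ℂ‖) (𝓝[Disk] 0) (𝓝 0) := by
      have h2 := (hc.tendsto.sub_const (ContinuousLinearMap.id ℝ ℂ)).norm
      rw [hdF, sub_self, norm_zero] at h2
      exact h2
    exact (this.eventually (gt_mem_nhds hε₁0)).mono (fun z hz => hz.le)
  obtain ⟨r, hr0, hr1, hr⟩ := exists_ball_zero hev
  set δ := min r η / 2 with hδ
  have hδ0 : 0 < δ := by
    have := lt_min hr0 hη
    positivity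
  have hδr : 2 * δ ≤ r := by rw [hδ]; linarith [min_le_left r η]
  have hδη : 2 * δ ≤ η := by rw [hδ]; linarith [min_le_right r η]
  set v : ℂ → ℂ := fun z => F z - z with hv
  have hvc : ContDiffOn ℝ ∞ v Disk := hF.sub contDiff_id.contDiffOn
  have hvd : ∀ z : ℂ, ‖z‖ ≤ r → ‖fderivWithin ℝ v Disk z‖ ≤ ε₁ := by
    intro z hz
    have hzD : z ∈ Disk := mem_disk.mpr (hz.trans hr1.le)
    have e : fderivWithin ℝ v Disk z = fderivWithin ℝ F Disk z - ContinuousLinearMap.id ℝ ℂ :=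
      ((hF.differentiableOn (by simp) z hzD).hasFDerivWithinAt.sub
        (hasFDerivWithinAt_id z Disk)).fderivWithin (uniqueDiffOn_disk z hzD)
    rw [e]; exact hr z hz
  have hvb : ∀ z : ℂ, ‖z‖ ≤ r → ‖v z‖ ≤ ε₁ * ‖z‖ := by
    intro z hz
    have hsub : closedBall (0:ℂ) r ⊆ Disk := closedBall_subset_closedBall hr1.le
    have := (convex_closedBall (0:ℂ) r).norm_image_sub_le_of_norm_hasFDerivWithin_le
      (f := v) (f' := fun z => fderivWithin ℝ v Disk z) (C := ε₁)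
      (fun x hx => ((hvc.differentiableOn (by simp) x (hsub hx)).hasFDerivWithinAt).mono hsub)
      (fun x hx => hvd x (by simpa using hx)) (mem_closedBall_self hr0.le) (by simpa using hz : z ∈ closedBall (0:ℂ) r)
    simpa [hv, hF0] using this
  -- the cutoff function
  set ρ : ℂ → ℝ := fun z => 1 - rad (δ ^ 2) (3 * δ ^ 2) z with hρ
  have hρc : ContDiff ℝ ∞ ρ := contDiff_const.sub (rad_contDiff _ _)
  have hρ0 : ∀ z, 0 ≤ ρ z := fun z => by rw [hρ]; linarith [rad_le_one (δ ^ 2) (3 * δ ^ 2) z]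
  have hρ1 : ∀ z, ρ z ≤ 1 := fun z => by rw [hρ]; linarith [rad_nonneg (δ ^ 2) (3 * δ ^ 2) z]
  have hρz : ∀ z : ℂ, 2 * δ ≤ ‖z‖ → ρ z = 0 := by
    intro z hz
    have : rad (δ ^ 2) (3 * δ ^ 2) z = 1 := by
      apply Real.smoothTransition.one_of_one_le
      rw [le_div_iff₀ (by positivity)]
      nlinarith
    rw [hρ]; simp [this]
  have hρo : ∀ z : ℂ, ‖z‖ ≤ δ → ρ z = 1 := by
    intro z hz
    have : rad (δ ^ 2) (3 * δ ^ 2) z = 0 := by
      apply Real.smoothTransition.zero_of_nonpos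
      apply div_nonpos_of_nonpos_of_nonneg _ (by positivity)
      nlinarith [norm_nonneg z]
    rw [hρ]; simp [this]
  have hρd : ∀ z : ℂ, ‖z‖ ≤ 2 * δ → ‖fderiv ℝ ρ z‖ * ‖z‖ ≤ 4 * M := by
    intro z hz
    have e : fderiv ℝ ρ z = - fderiv ℝ (rad (δ ^ 2) (3 * δ ^ 2)) z := by
      rw [hρ, fderiv_const_sub]
    rw [e, norm_neg]
    have h1 := rad_fderiv hM (δ ^ 2) (c := 3 * δ ^ 2) (by positivity) z
    have h0 := norm_nonneg z
    calc ‖fderiv ℝ (rad (δ ^ 2) (3 * δ ^ 2)) z‖ * ‖z‖ ≤ (M / (3 * δ ^ 2) * (2 * ‖z‖)) * ‖z‖ := by gcongr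
      _ = M / (3 * δ ^ 2) * (2 * ‖z‖ ^ 2) := by ring
      _ ≤ M / (3 * δ ^ 2) * (2 * (2 * δ) ^ 2) := by gcongr
      _ = M * (8 / 3) := by field_simp; ring
      _ ≤ 4 * M := by linarith
  have hbound : ∀ z ∈ Disk, ‖fderivWithin ℝ (fun z => ρ z • v z) Disk z‖ ≤ ε₁ + ε₁ * (4 * M) := by
    apply norm_fderivWithin_cutoff2 hvc hρc hρ0 hρ1 hε₁0.le (by positivity)
    · intro z _ hz
      apply hvd
      by_contra hcon
      push Not at hcon
      exact hz (hρz z (by linarith))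
    · intro z _ hz
      have hz2 : ‖z‖ ≤ 2 * δ := by
        by_contra hcon
        push Not at hcon
        exact hz (hρz z hcon.le)
      calc ‖fderiv ℝ ρ z‖ * ‖v z‖ ≤ ‖fderiv ℝ ρ z‖ * (ε₁ * ‖z‖) := by
            gcongr; exact hvb z (hz2.trans hδr)
        _ = ε₁ * (‖fderiv ℝ ρ z‖ * ‖z‖) := by ring
        _ ≤ ε₁ * (4 * M) := mul_le_mul_of_nonneg_left (hρd z hz2) hε₁0.le
  have hsum : ε₁ + ε₁ * (4 * M) = min ε (1 / 8) := by
    rw [hε₁]; field_simp
  rw [hsum] at hbound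
  obtain ⟨g', hg'⟩ := exists_small_zero (contDiffOn_cutoff2 hvc hρc)
    (fun z hz => (hbound z hz).trans (min_le_right _ _)) (by simp [hv, hF0])
    (fun p hp => by rw [hρz p (by rw [hp]; linarith), zero_smul])
  refine ⟨g', ?_, ?_, ?_⟩
  · intro z hz
    rw [dg, fderivWithin_congr hg' (hg' z hz), fderivWithin_id_add (contDiffOn_cutoff2 hvc hρc) hz,
      add_sub_cancel_left]
    exact (hbound z hz).trans (min_le_left _ _)
  · intro z hz hzη
    rw [hg' z hz, hρz z (hδη.trans hzη), zero_smul, add_zero]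
  · have : ∀ᶠ z in 𝓝[Disk] (0:ℂ), ‖z‖ ≤ δ := by
      apply nhdsWithin_le_nhds
      filter_upwards [Metric.closedBall_mem_nhds (0:ℂ) hδ0] with z hz
      simpa using hz
    filter_upwards [this, self_mem_nhdsWithin] with z hz hzD
    rw [hg' z hzD, hρo z hz, one_smul, hv]; ring


/-- a smooth cutoff which is one on `‖z‖ ≤ δ` and zero on `2δ ≤ ‖z‖`. -/
theorem exists_cut {M : ℝ} (hM : ∀ t : ℝ, |deriv Real.smoothTransition t| ≤ M) {δ : ℝ} (hδ0 : 0 < δ) :
    ∃ ρ : ℂ → ℝ, ContDiff ℝ ∞ ρ ∧ (∀ z, 0 ≤ ρ z) ∧ (∀ z, ρ z ≤ 1) ∧ (∀ z : ℂ, 2 * δ ≤ ‖z‖ → ρ z = 0) ∧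
      (∀ z : ℂ, ‖z‖ ≤ δ → ρ z = 1) ∧ (∀ z : ℂ, ‖z‖ ≤ 2 * δ → ‖fderiv ℝ ρ z‖ * ‖z‖ ≤ 4 * M) := by
  have hM0 : 0 ≤ M := (abs_nonneg _).trans (hM 0)
  refine ⟨fun z => 1 - rad (δ ^ 2) (3 * δ ^ 2) z, contDiff_const.sub (rad_contDiff _ _),
    fun z => by linarith [rad_le_one (δ ^ 2) (3 * δ ^ 2) z],
    fun z => by linarith [rad_nonneg (δ ^ 2) (3 * δ ^ 2) z], ?_, ?_, ?_⟩
  · intro z hz
    have : rad (δ ^ 2) (3 * δ ^ 2) z = 1 := by
      apply Real.smoothTransition.one_of_one_le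
      rw [le_div_iff₀ (by positivity)]
      nlinarith
    simp [this]
  · intro z hz
    have : rad (δ ^ 2) (3 * δ ^ 2) z = 0 := by
      apply Real.smoothTransition.zero_of_nonpos
      apply div_nonpos_of_nonpos_of_nonneg _ (by positivity)
      nlinarith [norm_nonneg z]
    simp [this]
  · intro z hz
    have e : fderiv ℝ (fun z => 1 - rad (δ ^ 2) (3 * δ ^ 2) z) z = - fderiv ℝ (rad (δ ^ 2) (3 * δ ^ 2)) z := by
      rw [fderiv_const_sub]
    rw [e, norm_neg]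
    have h1 := rad_fderiv hM (δ ^ 2) (c := 3 * δ ^ 2) (by positivity) z
    have h0 := norm_nonneg z
    calc ‖fderiv ℝ (rad (δ ^ 2) (3 * δ ^ 2)) z‖ * ‖z‖ ≤ (M / (3 * δ ^ 2) * (2 * ‖z‖)) * ‖z‖ := by gcongr
      _ = M / (3 * δ ^ 2) * (2 * ‖z‖ ^ 2) := by ring
      _ ≤ M / (3 * δ ^ 2) * (2 * (2 * δ) ^ 2) := by gcongr
      _ = M * (8 / 3) := by field_simp; ring
      _ ≤ 4 * M := by linarith

/-- small representatives of germs defined near `0` only -/
theorem exists_rep_germ {S : ℂ → ℂ} {R : ℝ} (hR : 0 < R) (hS : ContDiffOn ℝ ∞ S (ball 0 R)) (hS0 : S 0 = 0)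
    (hdS : HasFDerivAt S (ContinuousLinearMap.id ℝ ℂ) 0) {ε η : ℝ} (hε : 0 < ε)
    (hη : 0 < η) :
    ∃ g' : DiffD, Sm g' ε ∧ (∀ z ∈ Disk, η ≤ ‖z‖ → g' • z = z) ∧ (∀ᶠ z in 𝓝[Disk] (0:ℂ), g' • z = S z) := by
  obtain ⟨M, hM0, hM⟩ := exists_st_bound
  obtain ⟨ρ, hρc, -, -, hρz, hρo, -⟩ := exists_cut hM (δ := R / 4) (by positivity)
  set F : ℂ → ℂ := fun z => z + ρ z • (S z - z) with hF
  have hFc : ContDiff ℝ ∞ F := by
    rw [contDiff_iff_contDiffAt]
    intro z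
    by_cases hz : ‖z‖ < R
    · have h1 : ContDiffAt ℝ ∞ S z := hS.contDiffAt (isOpen_ball.mem_nhds (mem_ball_zero_iff.mpr hz))
      exact contDiffAt_id.add (hρc.contDiffAt.smul (h1.sub contDiffAt_id))
    · have h1 : F =ᶠ[𝓝 z] id := by
        have h2 : {w : ℂ | R / 2 < ‖w‖} ∈ 𝓝 z := by
          apply (isOpen_lt continuous_const continuous_norm).mem_nhds
          show R / 2 < ‖z‖
          linarith [not_lt.mp hz]
        filter_upwards [h2] with w hw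
        have h3 : ρ w = 0 := hρz w (by linarith [show R / 2 < ‖w‖ from hw])
        rw [hF]; simp [h3]
      exact contDiffAt_id.congr_of_eventuallyEq h1
  have hFS : F =ᶠ[𝓝 0] S := by
    filter_upwards [Metric.closedBall_mem_nhds (0:ℂ) (by positivity : 0 < R / 4)] with z hz
    have h3 : ρ z = 1 := hρo z (by simpa using hz)
    rw [hF]; simp [h3]
  have hdF : fderivWithin ℝ F Disk 0 = ContinuousLinearMap.id ℝ ℂ := by
    rw [fderivWithin_of_mem_nhds (disk_mem_nhds (by simp)), hFS.fderiv_eq]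
    exact hdS.fderiv
  have hF0 : F 0 = 0 := by rw [hFS.self_of_nhds, hS0]
  obtain ⟨g', h1, h2, h3⟩ := exists_rep_fun hFc.contDiffOn hF0 hdF hε hη
  refine ⟨g', h1, h2, ?_⟩
  filter_upwards [h3, nhdsWithin_le_nhds hFS] with z hz hz2
  rw [hz, hz2]

/-- local homotheties -/
theorem exists_lam {ε η : ℝ} (hε : 0 < ε) (hη : 0 < η) :
    ∃ (t : ℝ) (g : DiffD), 0 < t ∧ t < 1 ∧ Sm g ε ∧ (∀ z ∈ Disk, η ≤ ‖z‖ → g • z = z) ∧
      ∀ᶠ z in 𝓝 (0:ℂ), g • z = t • z := by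
  obtain ⟨M, hM0, hM⟩ := exists_st_bound
  set η' := min η 1 / 2 with hη'
  have hm := lt_min hη one_pos
  have hη'0 : 0 < η' := by positivity
  obtain ⟨ρ, hρc, hρ0, hρ1, hρz, hρo, hρd⟩ := exists_cut hM (δ := η') hη'0
  have h2η : 2 * η' ≤ η := by rw [hη']; linarith [min_le_left η 1]
  have h2η' : 2 * η' ≤ 1 := by rw [hη']; linarith [min_le_right η 1]
  set s := min ε (1 / 8) / (1 + 4 * M) with hs
  have hmin : 0 < min ε (1 / 8) := lt_min hε (by norm_num)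
  have hs0 : 0 < s := by positivity
  have hs1 : s ≤ 1 / 8 := by
    rw [hs, div_le_iff₀ (by positivity)]
    have := min_le_right ε (1 / 8)
    nlinarith
  have hvc : ContDiffOn ℝ ∞ (fun z : ℂ => -(s • z)) Disk := (contDiff_id.const_smul s).neg.contDiffOn
  have hvd : ∀ z ∈ Disk, ‖fderivWithin ℝ (fun z : ℂ => -(s • z)) Disk z‖ ≤ s := by
    intro z hz
    have h1 : HasFDerivWithinAt (fun z : ℂ => -(s • z)) (-(s • ContinuousLinearMap.id ℝ ℂ)) Disk z :=
      ((hasFDerivWithinAt_id z Disk).const_smul s).neg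
    rw [h1.fderivWithin (uniqueDiffOn_disk z hz), norm_neg, norm_smul, Real.norm_of_nonneg hs0.le]
    have := ContinuousLinearMap.norm_id_le (𝕜 := ℝ) (E := ℂ)
    nlinarith
  have hbound : ∀ z ∈ Disk, ‖fderivWithin ℝ (fun z : ℂ => ρ z • (-(s • z))) Disk z‖ ≤ s + s * (4 * M) := by
    apply norm_fderivWithin_cutoff2 hvc hρc hρ0 hρ1 hs0.le (by positivity)
    · intro z hz _
      exact hvd z hz
    · intro z _ hz
      have hz2 : ‖z‖ ≤ 2 * η' := by
        by_contra hcon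
        push Not at hcon
        exact hz (hρz z hcon.le)
      rw [norm_neg, norm_smul, Real.norm_of_nonneg hs0.le]
      calc ‖fderiv ℝ ρ z‖ * (s * ‖z‖) = s * (‖fderiv ℝ ρ z‖ * ‖z‖) := by ring
        _ ≤ s * (4 * M) := mul_le_mul_of_nonneg_left (hρd z hz2) hs0.le
  have hsum : s + s * (4 * M) = min ε (1 / 8) := by
    rw [hs]; field_simp
  rw [hsum] at hbound
  obtain ⟨g, hg⟩ := exists_small_zero (contDiffOn_cutoff2 hvc hρc)
    (fun z hz => (hbound z hz).trans (min_le_right _ _)) (by simp)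
    (fun p hp => by rw [hρz p (by rw [hp]; exact h2η'), zero_smul])
  refine ⟨1 - s, g, by linarith, by linarith, ?_, ?_, ?_⟩
  · intro z hz
    rw [dg, fderivWithin_congr hg (hg z hz), fderivWithin_id_add (contDiffOn_cutoff2 hvc hρc) hz,
      add_sub_cancel_left]
    exact (hbound z hz).trans (min_le_left _ _)
  · intro z hz hzη
    rw [hg z hz, hρz z (h2η.trans hzη), zero_smul, add_zero]
  · filter_upwards [Metric.closedBall_mem_nhds (0:ℂ) hη'0, disk_mem_nhds (show ‖(0:ℂ)‖ < 1 by simp)] with z hz hzD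
    rw [hg z hzD, hρo z (by simpa using hz), one_smul, sub_smul, one_smul]
    ring

/-- Linearization of `z ↦ x (t z)` for `x` tangent to the identity at `0`. -/
theorem exists_linearization {x : DiffD} (hx : dg x 0 = ContinuousLinearMap.id ℝ ℂ) {t : ℝ} (ht0 : 0 < t)
    (ht1 : t < 1) :
    ∃ (R : ℝ) (S : ℂ → ℂ), 0 < R ∧ ContDiffOn ℝ ∞ S (ball 0 R) ∧ S 0 = 0 ∧
      HasFDerivAt S (ContinuousLinearMap.id ℝ ℂ) 0 ∧ ∀ z ∈ ball (0:ℂ) R, S (x • (t • z)) = t • S z := by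
  set A : ℂ → ℂ := fun z => x • (t • z) with hA
  obtain ⟨q, hq1, hq2⟩ : ∃ q : ℝ, t < q ∧ q ^ 2 < t := by
    obtain ⟨q, h1, h2⟩ := exists_between (show t < Real.sqrt t by
      rw [Real.lt_sqrt ht0.le]; nlinarith)
    exact ⟨q, h1, by
      have h3 := Real.sq_sqrt ht0.le
      nlinarith⟩
  have hq0 : 0 < q := ht0.trans hq1
  have hq1' : q < 1 := by nlinarith
  have hmaps : ∀ z : ℂ, ‖z‖ < 1 → ‖t • z‖ < 1 := by
    intro z hz
    rw [norm_smul, Real.norm_of_nonneg ht0.le]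
    nlinarith [norm_nonneg z]
  have hAc : ContDiffOn ℝ ∞ A (ball 0 1) := by
    intro z hz
    have hz1 : ‖z‖ < 1 := by simpa using hz
    have h1 : ContDiffAt ℝ ∞ (fun z : ℂ => x • z) (t • z) :=
      (contDiffOn_smul x).contDiffAt (disk_mem_nhds (hmaps z hz1))
    have h2 : ContDiffAt ℝ ∞ (fun z : ℂ => t • z) z := (contDiff_id.const_smul t).contDiffAt
    exact (ContDiffAt.comp z h1 h2).contDiffWithinAt
  have hA0 : A 0 = 0 := by rw [hA]; simp [smul_zero']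
  have hdA0 : fderiv ℝ A 0 = t • ContinuousLinearMap.id ℝ ℂ := by
    have h1 : HasFDerivAt (fun z : ℂ => x • z) (ContinuousLinearMap.id ℝ ℂ) (t • (0:ℂ)) := by
      rw [smul_zero, ← hx]
      exact (hasFDerivWithinAt_smul x zero_mem_disk).hasFDerivAt (disk_mem_nhds (by simp))
    have h2 : HasFDerivAt (fun z : ℂ => t • z) (t • ContinuousLinearMap.id ℝ ℂ) 0 :=
      (hasFDerivAt_id (0:ℂ)).const_smul t
    have h3 := (h1.comp (0:ℂ) h2).fderiv
    rw [ContinuousLinearMap.id_comp] at h3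
    exact h3
  have hcont : ContinuousAt (fderiv ℝ A) 0 := by
    have h1 : ContDiffOn ℝ ∞ (fderiv ℝ A) (ball 0 1) := hAc.fderiv_of_isOpen isOpen_ball (by simp)
    exact h1.continuousOn.continuousAt (isOpen_ball.mem_nhds (mem_ball_self one_pos))
  have hev : ∀ᶠ z in 𝓝 (0:ℂ), ‖fderiv ℝ A z‖ < q := by
    have h1 : ‖fderiv ℝ A 0‖ < q := by
      rw [hdA0, norm_smul, Real.norm_of_nonneg ht0.le]
      have := ContinuousLinearMap.norm_id_le (𝕜 := ℝ) (E := ℂ)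
      nlinarith
    exact hcont.norm.eventually (gt_mem_nhds h1)
  obtain ⟨R₀, hR₀, hb⟩ := Metric.eventually_nhds_iff.mp hev
  set R := min R₀ 1 with hR
  have hR0 : 0 < R := lt_min hR₀ one_pos
  have hsub : ball (0:ℂ) R ⊆ ball 0 1 := ball_subset_ball (min_le_right _ _)
  have hC : Contr A R q := by
    refine ⟨hR0, hq0.le, hq1', hAc.mono hsub, ?_, ?_⟩
    · intro z hz
      have h1 := (convex_ball (0:ℂ) R).norm_image_sub_le_of_norm_hasFDerivWithin_le
        (f := A) (f' := fderiv ℝ A) (C := q)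
        (fun y hy => ((hAc.differentiableOn (by simp)).differentiableAt
          (isOpen_ball.mem_nhds (hsub hy))).hasFDerivAt.hasFDerivWithinAt)
        (fun y hy => (hb (lt_of_lt_of_le hy (min_le_left _ _))).le) (mem_ball_self hR0) hz
      rw [hA0, sub_zero, sub_zero] at h1
      exact h1
    · intro z hz
      exact (hb (lt_of_lt_of_le hz (min_le_left _ _))).le
  obtain ⟨S, h1, h2, h3, h4⟩ := sternberg_aux hC ht0 hq2 hA0 hdA0
  exact ⟨R, S, hR0, h1, h2, h3, h4⟩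

end DiskQM
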