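import Pool.Agent.helper52.DQ.Lower

/-!
The rotation quasimorphism.
-/

open Set Metric Filter Topology
open scoped ContDiff ComplexConjugate

noncomputable section

namespace DiskQM

/-- cross product -/
def cr (u v : ℂ) : ℝ := u.re * v.im - u.im * v.re

theorem cr_map (A : ℂ →L[ℝ] ℂ) (u v : ℂ) : cr (A u) (A v) = A.det * cr u v := by
  have e : ∀ u : ℂ, A u = u.re • A 1 + u.im • A Complex.I := by
    intro u
    rw [← map_smul, ← map_smul, ← map_add]
    congr 1
    apply Complex.ext <;> simp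
  rw [e u, e v, det_eq]
  simp only [cr, Complex.add_re, Complex.add_im, Complex.smul_re, Complex.smul_im, smul_eq_mul]
  ring

theorem cr_ee (x y : ℝ) : cr (ee x) (ee y) = Real.sin (2 * Real.pi * (y - x)) := by
  have : 2 * Real.pi * (y - x) = 2 * Real.pi * y - 2 * Real.pi * x := by ring
  rw [cr, ee_re, ee_re, ee_im, ee_im, this, Real.sin_sub]; ring

theorem cr_dir {a b : ℂ} {s t : ℝ} (ha : Dir a s) (hb : Dir b t) :
    cr a b = ‖a‖ * ‖b‖ * Real.sin (2 * Real.pi * (t - s)) := by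
  rw [← cr_ee]
  conv_lhs => rw [ha, hb]
  simp only [cr, Complex.re_ofReal_mul, Complex.im_ofReal_mul]
  ring

theorem half_turn {A : ℂ →L[ℝ] ℂ} (hA : 0 < A.det) (hne : ∀ x, A (ee x) ≠ 0) {f : ℝ → ℝ} (hf : Continuous f)
    (hd : ∀ x, Dir (A (ee x)) (f x)) (x : ℝ) : f (x + 1 / 2) = f x + 1 / 2 := by
  set D : ℝ → ℝ := fun s => f (x + s) - f x with hD
  have hDc : Continuous D := (hf.comp (continuous_const.add continuous_id)).sub continuous_const
  have hD0 : D 0 = 0 := by rw [hD]; simp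
  have hsin : ∀ s : ℝ, 0 < s → s < 1 / 2 → 0 < Real.sin (2 * Real.pi * D s) := by
    intro s hs0 hs1
    have h1 := cr_map A (ee x) (ee (x + s))
    rw [cr_dir (hd x) (hd (x + s)), cr_ee, add_sub_cancel_left] at h1
    have h2 : 0 < Real.sin (2 * Real.pi * s) := by
      apply Real.sin_pos_of_pos_of_lt_pi
      · have := Real.pi_pos; positivity
      · have := Real.pi_pos; nlinarith
    have h3 : 0 < ‖A (ee x)‖ * ‖A (ee (x + s))‖ := mul_pos (norm_pos_iff.mpr (hne _)) (norm_pos_iff.mpr (hne _))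
    have h4 : 0 < ‖A (ee x)‖ * ‖A (ee (x + s))‖ * Real.sin (2 * Real.pi * D s) := by
      rw [hD]; simp only; rw [h1]; positivity
    exact (pos_iff_pos_of_mul_pos h4).mp h3
  have hee : ee (f (x + 1 / 2)) = ee (f x + 1 / 2) := by
    apply Dir.unique (hne (x + 1 / 2)) (hd _)
    apply Dir.of_eq (norm_nonneg (A (ee x)))
    rw [ee_add, ee_half, mul_neg_one, map_neg, ee_add, ee_half, mul_neg_one, mul_neg]
    rw [← hd x]
  obtain ⟨n, hn⟩ := ee_eq_ee hee
  have hDn : D (1 / 2) = n + 1 / 2 := by rw [hD]; simp only; linarith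
  have hn0 : n = 0 := by
    rcases lt_trichotomy n 0 with h | h | h
    · exfalso
      have h1 : (n : ℝ) + 1 ≤ 0 := by exact_mod_cast h
      have h2 : (-(1 / 4) : ℝ) ∈ D '' Icc 0 (1 / 2) := by
        apply (isPreconnected_Icc.image D hDc.continuousOn).Icc_subset
          ⟨1 / 2, ⟨by norm_num, le_rfl⟩, rfl⟩ ⟨0, ⟨le_rfl, by norm_num⟩, rfl⟩
        rw [hDn, hD0]
        constructor <;> linarith
      obtain ⟨s, ⟨hs0, hs1⟩, hs2⟩ := h2
      have hs0' : 0 < s := by
        rcases hs0.lt_or_eq with h3 | h3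
        · exact h3
        · rw [← h3, hD0] at hs2; norm_num at hs2
      have hs1' : s < 1 / 2 := by
        rcases hs1.lt_or_eq with h3 | h3
        · exact h3
        · rw [h3, hDn] at hs2; linarith
      have h4 := hsin s hs0' hs1'
      rw [hs2] at h4
      have h5 : 2 * Real.pi * -(1 / 4) = -(Real.pi / 2) := by ring
      rw [h5, Real.sin_neg, Real.sin_pi_div_two] at h4
      linarith
    · exact h
    · exfalso
      have h1 : (1 : ℝ) ≤ n := by exact_mod_cast h
      have h2 : (1 / 2 : ℝ) ∈ D '' Icc 0 (1 / 2) := by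
        apply (isPreconnected_Icc.image D hDc.continuousOn).Icc_subset
          ⟨0, ⟨le_rfl, by norm_num⟩, rfl⟩ ⟨1 / 2, ⟨by norm_num, le_rfl⟩, rfl⟩
        rw [hDn, hD0]
        constructor <;> linarith
      obtain ⟨s, ⟨hs0, hs1⟩, hs2⟩ := h2
      have hs0' : 0 < s := by
        rcases hs0.lt_or_eq with h3 | h3
        · exact h3
        · rw [← h3, hD0] at hs2; norm_num at hs2
      have hs1' : s < 1 / 2 := by
        rcases hs1.lt_or_eq with h3 | h3
        · exact h3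
        · rw [h3, hDn] at hs2; linarith
      have h4 := hsin s hs0' hs1'
      rw [hs2] at h4
      have h5 : 2 * Real.pi * (1 / 2) = Real.pi := by ring
      rw [h5, Real.sin_pi] at h4
      exact lt_irrefl _ h4
  rw [hn, hn0]; simp

theorem slice_continuous {F : ℝ × ℝ → ℝ} (h : ContinuousOn F SS) {r : ℝ} (hr : r ∈ Icc (0:ℝ) 1) :
    Continuous (fun x => F (r, x)) :=
  h.comp_continuous (by fun_prop) (fun _ => ⟨hr, trivial⟩)

theorem zero_mem_I : (0:ℝ) ∈ Icc (0:ℝ) 1 := ⟨le_rfl, zero_le_one⟩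
theorem one_mem_I : (1:ℝ) ∈ Icc (0:ℝ) 1 := ⟨zero_le_one, le_rfl⟩

theorem IsLift.add_one {g : DiffD} {F : ℝ × ℝ → ℝ} (h : IsLift g F) {r : ℝ} (hr : r ∈ Icc (0:ℝ) 1) (x : ℝ) :
    F (r, x + 1) = F (r, x) + 1 := by
  have hc : ContinuousOn (fun p : ℝ × ℝ => F (p.1, p.2 + 1) - F p) SS := by
    apply ContinuousOn.sub _ h.1
    exact h.1.comp (by fun_prop) (fun p hp => ⟨hp.1, trivial⟩)
  obtain ⟨n, hn⟩ := int_const hc (by
    rintro ⟨r, x⟩ hp
    have hp' : (r, x + 1) ∈ SS := ⟨hp.1, trivial⟩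
    have hG : Gf g (r, x + 1) = Gf g (r, x) := by
      have : ee (x + 1) = ee x := by
        have := ee_add_int x 1
        rwa [Int.cast_one] at this
      simp only [Gf, this]
    have h1 := h.2 _ hp'
    rw [hG] at h1
    obtain ⟨n, hn⟩ := ee_eq_ee (Dir.unique (Gf_ne g hp) h1 (h.2 _ hp))
    exact ⟨n, by simp only; linarith⟩)
  have hz : F (0, 0 + 1) = F (0, 0) + 1 := by
    have hA := det_dg_pos g zero_mem_disk
    have hne : ∀ x, dg g 0 (ee x) ≠ 0 := by
      intro x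
      rw [← Gf_zero]
      exact Gf_ne g ⟨zero_mem_I, trivial⟩
    have hd : ∀ x, Dir (dg g 0 (ee x)) (F (0, x)) := by
      intro x
      rw [← Gf_zero]
      exact h.2 _ ⟨zero_mem_I, trivial⟩
    have h1 := half_turn hA hne (slice_continuous h.1 zero_mem_I) hd 0
    have h2 := half_turn hA hne (slice_continuous h.1 zero_mem_I) hd (0 + 1 / 2)
    have e : (0:ℝ) + 1 / 2 + 1 / 2 = 0 + 1 := by norm_num
    rw [e, h1] at h2
    rw [h2]; ring
  have hn1 := hn (0, 0) ⟨zero_mem_I, trivial⟩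
  simp only at hn1
  have hn2 := hn (r, x) ⟨hr, trivial⟩
  simp only at hn2
  linarith

theorem IsLift.add_int {g : DiffD} {F : ℝ × ℝ → ℝ} (h : IsLift g F) {r : ℝ} (hr : r ∈ Icc (0:ℝ) 1) (x : ℝ) (n : ℤ) :
    F (r, x + n) = F (r, x) + n := by
  induction n using Int.induction_on with
  | zero => simp
  | succ n ih =>
    have := h.add_one hr (x + n)
    push_cast at ih ⊢
    rw [← add_assoc, this, ih]; ring
  | pred n ih =>
    have := h.add_one hr (x + (-n - 1))
    push_cast at ih ⊢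
    have e : x + (-(n:ℝ) - 1) + 1 = x + -n := by ring
    rw [e, ih] at this
    linarith

theorem IsLift.inj_one {g : DiffD} {F : ℝ × ℝ → ℝ} (h : IsLift g F) : Function.Injective (fun x => F (1, x)) := by
  intro x y hxy
  simp only at hxy
  have key : ∀ x, g • ee x = ee (F (1, x)) := by
    intro x
    have h1 := h.2 (1, x) ⟨one_mem_I, trivial⟩
    rw [Gf_pos g one_ne_zero, inv_one, one_smul, one_smul, Dir] at h1
    have h2 : ‖g • ee x‖ = 1 := inv_cir.2 g _ (norm_ee x)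
    rw [h2] at h1
    simpa using h1
  have h1 : g • ee x = g • ee y := by rw [key, key, hxy]
  obtain ⟨n, hn⟩ := ee_eq_ee (smul_left_cancel g h1)
  have h2 := h.add_int one_mem_I y n
  rw [← hn, hxy] at h2
  rw [hn]
  linarith

theorem IsLift.inj_zero {g : DiffD} {F : ℝ × ℝ → ℝ} (h : IsLift g F) : Function.Injective (fun x => F (0, x)) := by
  intro x y hxy
  simp only at hxy
  have h1 := h.2 (0, x) ⟨zero_mem_I, trivial⟩
  have h2 := h.2 (0, y) ⟨zero_mem_I, trivial⟩
  rw [Gf_zero, Dir] at h1 h2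
  have hy0 : dg g 0 (ee y) ≠ 0 := by
    rw [← Gf_zero]; exact Gf_ne g ⟨zero_mem_I, trivial⟩
  set a := ‖dg g 0 (ee x)‖ with ha
  set b := ‖dg g 0 (ee y)‖ with hb
  have hb0 : b ≠ 0 := norm_ne_zero_iff.mpr hy0
  have h3 : dg g 0 (b • ee x - a • ee y) = 0 := by
    rw [map_sub, map_smul, map_smul, h1, h2, hxy, Complex.real_smul, Complex.real_smul]
    ring
  have h4 : b • ee x - a • ee y = 0 := by
    have h5 := congrArg (fun A : ℂ →L[ℝ] ℂ => A (b • ee x - a • ee y)) (dg_inv_comp g zero_mem_disk)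
    simp only [ContinuousLinearMap.comp_apply, h3, map_zero, ContinuousLinearMap.id_apply] at h5
    exact h5.symm
  have h5 : b • ee x = a • ee y := sub_eq_zero.mp h4
  have h6 : b = a := by
    have := congrArg norm h5
    rwa [norm_smul, norm_smul, norm_ee, norm_ee, mul_one, mul_one, Real.norm_of_nonneg (norm_nonneg _),
      Real.norm_of_nonneg (norm_nonneg _)] at this
  rw [← h6] at h5
  obtain ⟨n, hn⟩ := ee_eq_ee (smul_right_injective ℂ hb0 h5)
  have h7 := h.add_int zero_mem_I y n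
  rw [← hn, hxy] at h7
  rw [hn]
  linarith

theorem mono_of_inj {f : ℝ → ℝ} (hc : Continuous f) (hi : Function.Injective f)
    (h1 : ∀ x, f (x + 1) = f x + 1) : Monotone f := by
  rcases hc.strictMono_of_inj hi with h | h
  · exact h.monotone
  · exfalso
    have h2 := h (zero_lt_one (α := ℝ))
    have h3 := h1 0
    rw [zero_add] at h3
    linarith

/-- pairs of lifts of the boundary action and of the action on directions at the origin -/
def Lift2 (g : DiffD) (f₁ f₀ : CircleDeg1Lift) : Prop :=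
  ∃ F, IsLift g F ∧ (∀ x, f₁ x = F (1, x)) ∧ (∀ x, f₀ x = F (0, x))

theorem exists_lift2_of {g : DiffD} {F : ℝ × ℝ → ℝ} (h : IsLift g F) :
    ∃ f₁ f₀ : CircleDeg1Lift, Lift2 g f₁ f₀ ∧ (∀ x, f₁ x = F (1, x)) ∧ (∀ x, f₀ x = F (0, x)) := by
  let f₁ : CircleDeg1Lift := ⟨⟨fun x => F (1, x), mono_of_inj (slice_continuous h.1 one_mem_I) h.inj_one
    (h.add_one one_mem_I)⟩, h.add_one one_mem_I⟩
  let f₀ : CircleDeg1Lift := ⟨⟨fun x => F (0, x), mono_of_inj (slice_continuous h.1 zero_mem_I) h.inj_zero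
    (h.add_one zero_mem_I)⟩, h.add_one zero_mem_I⟩
  exact ⟨f₁, f₀, ⟨F, h, fun _ => rfl, fun _ => rfl⟩, fun _ => rfl, fun _ => rfl⟩

theorem exists_lift2 (g : DiffD) : ∃ f₁ f₀ : CircleDeg1Lift, Lift2 g f₁ f₀ := by
  obtain ⟨F, h⟩ := exists_lift g
  obtain ⟨f₁, f₀, h2, -, -⟩ := exists_lift2_of h
  exact ⟨f₁, f₀, h2⟩

theorem Lift2.mul {g h : DiffD} {f₁ f₀ k₁ k₀ : CircleDeg1Lift} (hg : Lift2 g f₁ f₀) (hh : Lift2 h k₁ k₀) :
    Lift2 (g * h) (f₁ * k₁) (f₀ * k₀) := by
  obtain ⟨F, hF, hF1, hF0⟩ := hg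
  obtain ⟨H, hH, hH1, hH0⟩ := hh
  refine ⟨_, hF.mul hH, fun x => ?_, fun x => ?_⟩
  · have h1 : ‖h • ((1:ℝ) • ee x)‖ = 1 := by
      rw [one_smul]; exact inv_cir.2 h _ (norm_ee x)
    simp only [h1]
    rw [CircleDeg1Lift.mul_apply, hF1, hH1]
  · simp only [zero_smul, smul_zero', norm_zero]
    rw [CircleDeg1Lift.mul_apply, hF0, hH0]

theorem Lift2.one : Lift2 1 1 1 := ⟨Prod.snd, IsLift.one, fun _ => rfl, fun _ => rfl⟩

theorem tn_add_int {f f' : CircleDeg1Lift} {n : ℤ} (h : ∀ x, f' x = f x + n) :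
    f'.translationNumber = f.translationNumber + n := by
  have e : f' = (CircleDeg1Lift.translate (Multiplicative.ofAdd (n:ℝ)) : CircleDeg1Lift) * f := by
    apply CircleDeg1Lift.ext
    intro x
    rw [h x, CircleDeg1Lift.mul_apply, CircleDeg1Lift.translate_apply, add_comm]
  have hc : Commute (CircleDeg1Lift.translate (Multiplicative.ofAdd (n:ℝ)) : CircleDeg1Lift) f := by
    apply CircleDeg1Lift.ext
    intro x
    rw [CircleDeg1Lift.mul_apply, CircleDeg1Lift.mul_apply, CircleDeg1Lift.translate_apply,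
      CircleDeg1Lift.translate_apply, CircleDeg1Lift.map_int_add]
  rw [e, CircleDeg1Lift.translationNumber_mul_of_commute hc, CircleDeg1Lift.translationNumber_translate, add_comm]

theorem Lift2.tn_eq {g : DiffD} {f₁ f₀ k₁ k₀ : CircleDeg1Lift} (h : Lift2 g f₁ f₀) (h' : Lift2 g k₁ k₀) :
    f₁.translationNumber - f₀.translationNumber = k₁.translationNumber - k₀.translationNumber := by
  obtain ⟨F, hF, hF1, hF0⟩ := h
  obtain ⟨H, hH, hH1, hH0⟩ := h'
  obtain ⟨n, hn⟩ := hF.unique hH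
  have e1 : k₁.translationNumber = f₁.translationNumber + n :=
    tn_add_int (fun x => by rw [hH1, hF1, hn _ ⟨one_mem_I, trivial⟩])
  have e0 : k₀.translationNumber = f₀.translationNumber + n :=
    tn_add_int (fun x => by rw [hH0, hF0, hn _ ⟨zero_mem_I, trivial⟩])
  rw [e1, e0]; ring

/-- the rotation quasimorphism -/
def Rot (g : DiffD) : ℝ :=
  (exists_lift2 g).choose.translationNumber - (exists_lift2 g).choose_spec.choose.translationNumber

theorem Rot_eq {g : DiffD} {f₁ f₀ : CircleDeg1Lift} (h : Lift2 g f₁ f₀) :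
    Rot g = f₁.translationNumber - f₀.translationNumber :=
  (exists_lift2 g).choose_spec.choose_spec.tn_eq h

theorem tn_defect (f g : CircleDeg1Lift) :
    |(f * g).translationNumber - f.translationNumber - g.translationNumber| ≤ 4 := by
  have h1 := (f * g).dist_map_zero_translationNumber_le
  have h2 := f.dist_map_zero_translationNumber_le
  have h3 := g.dist_map_zero_translationNumber_le
  have h4 := f.dist_map_map_zero_lt g
  rw [CircleDeg1Lift.mul_apply] at h1
  rw [Real.dist_eq, abs_le] at h1 h2 h3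
  rw [Real.dist_eq, abs_lt] at h4
  rw [abs_le]
  constructor <;> linarith [h1.1, h1.2, h2.1, h2.2, h3.1, h3.2, h4.1, h4.2]

theorem Rot_defect (a b : DiffD) : |Rot (a * b) - Rot a - Rot b| ≤ 8 := by
  obtain ⟨f₁, f₀, hf⟩ := exists_lift2 a
  obtain ⟨k₁, k₀, hk⟩ := exists_lift2 b
  rw [Rot_eq hf, Rot_eq hk, Rot_eq (hf.mul hk)]
  have h1 := tn_defect f₁ k₁
  have h2 := tn_defect f₀ k₀
  rw [abs_le] at *
  constructor <;> linarith [h1.1, h1.2, h2.1, h2.2]

theorem Rot_pow (a : DiffD) (n : ℕ) : Rot (a ^ n) = n * Rot a := by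
  obtain ⟨f₁, f₀, hf⟩ := exists_lift2 a
  have h : Lift2 (a ^ n) (f₁ ^ n) (f₀ ^ n) := by
    induction n with
    | zero => exact Lift2.one
    | succ n ih => rw [pow_succ, pow_succ, pow_succ]; exact ih.mul hf
  rw [Rot_eq h, Rot_eq hf, CircleDeg1Lift.translationNumber_pow, CircleDeg1Lift.translationNumber_pow]
  ring

theorem Rot_inv (a : DiffD) : Rot a⁻¹ = - Rot a := by
  have key : ∀ n : ℕ, (n : ℝ) * |Rot a⁻¹ + Rot a| ≤ 8 := by
    intro n
    have h1 := Rot_defect (a ^ n) ((a⁻¹) ^ n)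
    have h2 : a ^ n * (a⁻¹) ^ n = 1 := by rw [inv_pow, mul_inv_cancel]
    have h3 : Rot 1 = 0 := by
      have := Rot_pow 1 0
      simpa using this
    rw [h2, h3, Rot_pow, Rot_pow] at h1
    rw [← abs_of_nonneg (Nat.cast_nonneg n : (0:ℝ) ≤ n), ← abs_mul]
    rw [show (n:ℝ) * (Rot a⁻¹ + Rot a) = -(0 - n * Rot a - n * Rot a⁻¹) by ring, abs_neg]
    exact h1
  have := eq_zero_of_nat_mul_le key
  linarith

theorem Rot_HQM : HQM Rot 8 := by
  refine ⟨Rot_defect, fun a n => ?_⟩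
  cases n with
  | ofNat n => simp [Rot_pow]
  | negSucc n =>
    rw [zpow_negSucc, Rot_inv, Rot_pow]
    push_cast
    ring

end DiskQM
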