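import Pool.Agent.helper52.DQ.Disk

/-!
Small perturbations of the identity.
-/

open Set Metric Filter Topology
open scoped ContDiff

namespace DiskQM

theorem det_eq (A : ℂ →L[ℝ] ℂ) :
    A.det = (A 1).re * (A Complex.I).im - (A Complex.I).re * (A 1).im := by
  rw [ContinuousLinearMap.det, ← LinearMap.det_toMatrix Complex.basisOneI, Matrix.det_fin_two]
  simp [LinearMap.toMatrix_apply]

theorem det_pos_of_norm_sub_le {A : ℂ →L[ℝ] ℂ} (h : ‖A - ContinuousLinearMap.id ℝ ℂ‖ ≤ 1 / 8) : 0 < A.det := by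
  set B := A - ContinuousLinearMap.id ℝ ℂ with hB
  have hA : A = B + ContinuousLinearMap.id ℝ ℂ := by rw [hB]; abel
  have h1 : ‖B 1‖ ≤ 1 / 8 := by
    have := B.le_opNorm 1
    rw [norm_one, mul_one] at this
    exact this.trans h
  have h2 : ‖B Complex.I‖ ≤ 1 / 8 := by
    have := B.le_opNorm Complex.I
    rw [Complex.norm_I, mul_one] at this
    exact this.trans h
  have a := (Complex.abs_re_le_norm _).trans h1
  have b := (Complex.abs_im_le_norm _).trans h1
  have c := (Complex.abs_re_le_norm _).trans h2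
  have d := (Complex.abs_im_le_norm _).trans h2
  rw [det_eq, hA]
  simp only [add_apply, ContinuousLinearMap.id_apply, Complex.add_re, Complex.add_im, Complex.one_re, Complex.one_im, Complex.I_re, Complex.I_im, add_zero]
  rw [abs_le] at a b c d
  nlinarith [mul_nonneg (sub_nonneg.mpr a.2) (sub_nonneg.mpr d.2)]

/-- the radial retraction onto the disk -/
noncomputable def retr (z : ℂ) : ℂ := (max 1 ‖z‖)⁻¹ • z

theorem retr_of_mem {z : ℂ} (h : z ∈ Disk) : retr z = z := by
  rw [mem_disk] at h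
  rw [retr, max_eq_left h, inv_one, one_smul]

theorem retr_mem (z : ℂ) : retr z ∈ Disk := by
  rw [mem_disk, retr, norm_smul, norm_inv, Real.norm_of_nonneg (le_trans zero_le_one (le_max_left _ _))]
  rw [inv_mul_le_iff₀ (lt_of_lt_of_le one_pos (le_max_left _ _)), mul_one]
  exact le_max_right _ _

theorem norm_retr_sub_le (z w : ℂ) : ‖retr z - retr w‖ ≤ 2 * ‖z - w‖ := by
  set r := max 1 ‖z‖ with hr
  set s := max 1 ‖w‖ with hs
  have hr1 : 1 ≤ r := le_max_left _ _
  have hs1 : 1 ≤ s := le_max_left _ _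
  have hws : ‖w‖ ≤ s := le_max_right _ _
  have hrs : |s - r| ≤ ‖z - w‖ := by
    have h1 : |max ‖w‖ 1 - max ‖z‖ 1| ≤ |‖w‖ - ‖z‖| := abs_max_sub_max_le_abs _ _ _
    rw [max_comm, max_comm ‖z‖] at h1
    exact h1.trans ((abs_norm_sub_norm_le w z).trans (by rw [norm_sub_rev]))
  have e : retr z - retr w = r⁻¹ • (z - w) + ((s - r) * (r⁻¹ * s⁻¹)) • w := by
    have hr0 : r ≠ 0 := by positivity
    have hs0 : s ≠ 0 := by positivity
    have e2 : (s - r) * (r⁻¹ * s⁻¹) = r⁻¹ - s⁻¹ := by field_simp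
    rw [e2, retr, retr, smul_sub, sub_smul, ← hr, ← hs]
    abel
  rw [e]
  refine (norm_add_le _ _).trans ?_
  rw [norm_smul, norm_smul, norm_inv, norm_mul, norm_mul, norm_inv, norm_inv,
    Real.norm_of_nonneg (by positivity : (0:ℝ) ≤ r), Real.norm_of_nonneg (by positivity : (0:ℝ) ≤ s), Real.norm_eq_abs]
  have h1 : r⁻¹ * ‖z - w‖ ≤ ‖z - w‖ := by
    rw [inv_mul_le_iff₀ (by positivity)]
    nlinarith [norm_nonneg (z - w)]
  have h2 : |s - r| * (r⁻¹ * s⁻¹) * ‖w‖ ≤ ‖z - w‖ := by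
    have h3 : r⁻¹ ≤ 1 := inv_le_one_of_one_le₀ hr1
    have h4 : s⁻¹ * ‖w‖ ≤ 1 := by
      rw [inv_mul_le_iff₀ (by positivity), mul_one]; exact hws
    have h5 : r⁻¹ * s⁻¹ * ‖w‖ ≤ 1 := by
      have : 0 ≤ r⁻¹ := by positivity
      have : 0 ≤ s⁻¹ * ‖w‖ := by positivity
      nlinarith
    calc |s - r| * (r⁻¹ * s⁻¹) * ‖w‖ = |s - r| * (r⁻¹ * s⁻¹ * ‖w‖) := by ring
      _ ≤ |s - r| * 1 := by gcongr
      _ ≤ ‖z - w‖ := by rw [mul_one]; exact hrs
  linarith

theorem norm_sub_le_of_deriv {u : ℂ → ℂ} {ε : ℝ} (hc : ContDiffOn ℝ ∞ u Disk)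
    (hd : ∀ z ∈ Disk, ‖fderivWithin ℝ u Disk z‖ ≤ ε) {z w : ℂ} (hz : z ∈ Disk) (hw : w ∈ Disk) :
    ‖u z - u w‖ ≤ ε * ‖z - w‖ :=
  (convex_closedBall (0:ℂ) 1).norm_image_sub_le_of_norm_fderivWithin_le
    (hc.differentiableOn (by simp)) hd hw hz

theorem fderivWithin_id_add {u : ℂ → ℂ} (hc : ContDiffOn ℝ ∞ u Disk) {z : ℂ} (hz : z ∈ Disk) :
    fderivWithin ℝ (fun z => z + u z) Disk z = ContinuousLinearMap.id ℝ ℂ + fderivWithin ℝ u Disk z :=
  ((hasFDerivWithinAt_id z Disk).add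
    (hc.differentiableOn (by simp) z hz).hasFDerivWithinAt).fderivWithin (uniqueDiffOn_disk z hz)

/-- Small perturbations of the identity are diffeomorphisms. -/
theorem exists_small {u : ℂ → ℂ} (hc : ContDiffOn ℝ ∞ u Disk)
    (hd : ∀ z ∈ Disk, ‖fderivWithin ℝ u Disk z‖ ≤ 1 / 8) (h0 : u 0 = 0)
    (hmaps : ∀ z ∈ Disk, z + u z ∈ Disk)
    (hbd : ∀ p : ℂ, ‖p‖ = 1 → ∀ t : ℝ, 0 < t → 1 < ‖p + u p + t • p‖) :
    ∃ g : DiffD, ∀ z ∈ Disk, g • z = z + u z := by
  have hlip : ∀ z ∈ Disk, ∀ w ∈ Disk, ‖u z - u w‖ ≤ 1 / 8 * ‖z - w‖ :=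
    fun z hz w hw => norm_sub_le_of_deriv hc hd hz hw
  have hder : ∀ z ∈ Disk, fderivWithin ℝ (fun z => z + u z) Disk z =
      ContinuousLinearMap.id ℝ ℂ + fderivWithin ℝ u Disk z := fun z hz => fderivWithin_id_add hc hz
  have hpos : ∀ z ∈ Disk, 0 < (fderivWithin ℝ (fun z => z + u z) Disk z).det := by
    intro z hz
    apply det_pos_of_norm_sub_le
    rw [hder z hz, add_sub_cancel_left]
    exact hd z hz
  refine exists_of_bijOn ⟨hmaps, ?_, ?_⟩ (contDiff_id.contDiffOn.add hc) (by simp [h0])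
    (fun z hz => (hpos z hz).ne') (hpos 0 zero_mem_disk)
  · intro z hz w hw h
    have h1 : z - w = u w - u z := by
      have : z + u z = w + u w := h
      linear_combination this
    have h2 := hlip w hw z hz
    rw [← h1, norm_sub_rev w z] at h2
    have h3 : ‖z - w‖ = 0 := by
      have := norm_nonneg (z - w)
      linarith
    exact sub_eq_zero.mp (norm_eq_zero.mp h3)
  · intro w hw
    -- Banach fixed point
    have hK : ContractingWith (1 / 4 : NNReal) (fun z => w - u (retr z)) := by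
      refine ⟨by rw [← NNReal.coe_lt_coe]; norm_num, LipschitzWith.of_dist_le_mul fun z z' => ?_⟩
      rw [dist_eq_norm, dist_eq_norm]
      have h1 : w - u (retr z) - (w - u (retr z')) = u (retr z') - u (retr z) := by ring
      rw [h1]
      have h2 := hlip _ (retr_mem z') _ (retr_mem z)
      have h3 := norm_retr_sub_le z' z
      rw [norm_sub_rev z' z] at h3
      push_cast
      linarith
    obtain ⟨z, hz, -⟩ := hK.exists_fixedPoint w (edist_ne_top _ _)
    have hz' : w - u (retr z) = z := hz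
    by_cases hzD : z ∈ Disk
    · rw [retr_of_mem hzD] at hz'
      refine ⟨z, hzD, ?_⟩
      show z + u z = w
      linear_combination -hz'
    · exfalso
      rw [mem_disk, not_le] at hzD
      have hr : retr z = ‖z‖⁻¹ • z := by rw [retr, max_eq_right hzD.le]
      have hp : ‖retr z‖ = 1 := by
        rw [hr, norm_smul, norm_inv, norm_norm, inv_mul_cancel₀ (by positivity)]
      have h1 := hbd (retr z) hp (‖z‖ - 1) (by linarith)
      have h2 : retr z + u (retr z) + (‖z‖ - 1) • retr z = w := by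
        have h3 : ‖z‖ • retr z = z := by
          rw [hr, smul_smul, mul_inv_cancel₀ (by positivity), one_smul]
        rw [sub_smul, one_smul, h3]
        linear_combination -hz'
      rw [h2] at h1
      exact absurd (mem_disk.mp hw) (not_le.mpr h1)

/-- version for perturbations vanishing on the boundary circle -/
theorem exists_small_zero {u : ℂ → ℂ} (hc : ContDiffOn ℝ ∞ u Disk)
    (hd : ∀ z ∈ Disk, ‖fderivWithin ℝ u Disk z‖ ≤ 1 / 8) (h0 : u 0 = 0)
    (hs : ∀ p : ℂ, ‖p‖ = 1 → u p = 0) :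
    ∃ g : DiffD, ∀ z ∈ Disk, g • z = z + u z := by
  apply exists_small hc hd h0
  · intro z hz
    by_cases hz0 : z = 0
    · rw [hz0, h0, add_zero]; exact zero_mem_disk
    · have hzn : ‖z‖ ≠ 0 := norm_ne_zero_iff.mpr hz0
      have hp : ‖‖z‖⁻¹ • z‖ = 1 := by
        rw [norm_smul, norm_inv, norm_norm, inv_mul_cancel₀ hzn]
      have h1 := norm_sub_le_of_deriv hc hd hz (mem_disk.mpr hp.le)
      rw [hs _ hp, sub_zero] at h1
      have h2 : ‖z - ‖z‖⁻¹ • z‖ = 1 - ‖z‖ := by
        have e : z - ‖z‖⁻¹ • z = (1 - ‖z‖⁻¹) • z := by rw [sub_smul, one_smul]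
        have hz1 := mem_disk.mp hz
        have h3 : 1 ≤ ‖z‖⁻¹ := by
          rw [one_le_inv₀ (by positivity)]; exact hz1
        rw [e, norm_smul, Real.norm_eq_abs, abs_of_nonpos (by linarith)]
        field_simp
        ring
      rw [h2] at h1
      rw [mem_disk] at hz ⊢
      have := norm_add_le z (u z)
      linarith
  · intro p hp t ht
    rw [hs p hp, add_zero]
    have e : p + t • p = (1 + t) • p := by rw [add_smul, one_smul]
    rw [e, norm_smul, hp, Real.norm_eq_abs, abs_of_pos (by linarith)]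
    linarith

theorem norm_exp_sub_one_le (x : ℝ) : ‖Complex.exp (x * Complex.I) - 1‖ ≤ |x| := by
  have := Real.norm_exp_I_mul_ofReal_sub_one_le (x := x)
  rwa [mul_comm, Real.norm_eq_abs] at this

/-- version for angular perturbations -/
theorem exists_small_ang {β : ℂ → ℝ} (hc : ContDiffOn ℝ ∞ β Disk)
    (hb : ∀ z ∈ Disk, |β z| ≤ 1 / 16) (hd : ∀ z ∈ Disk, ‖fderivWithin ℝ β Disk z‖ ≤ 1 / 16) :
    ∃ g : DiffD, ∀ z ∈ Disk, g • z = z * Complex.exp (β z * Complex.I) := by
  have hE : ContDiffOn ℝ ∞ (fun z => Complex.exp (β z * Complex.I)) Disk :=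
    ((Complex.ofRealCLM.contDiff.comp_contDiffOn hc).mul contDiffOn_const).cexp
  have hu : ContDiffOn ℝ ∞ (fun z => z * (Complex.exp (β z * Complex.I) - 1)) Disk :=
    contDiff_id.contDiffOn.mul (hE.sub contDiffOn_const)
  have hnorm : ∀ z : ℂ, ‖z * Complex.exp (β z * Complex.I)‖ = ‖z‖ := by
    intro z
    rw [norm_mul, Complex.norm_exp_ofReal_mul_I, mul_one]
  have hadd : ∀ z : ℂ, z + z * (Complex.exp (β z * Complex.I) - 1) = z * Complex.exp (β z * Complex.I) := by
    intro z; ring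
  suffices H : ∃ g : DiffD, ∀ z ∈ Disk, g • z = z + z * (Complex.exp (β z * Complex.I) - 1) by
    obtain ⟨g, hg⟩ := H
    exact ⟨g, fun z hz => (hg z hz).trans (hadd z)⟩
  apply exists_small (u := fun z => z * (Complex.exp (β z * Complex.I) - 1)) hu
  · intro z hz
    have h1 : HasFDerivWithinAt β (fderivWithin ℝ β Disk z) Disk z :=
      (hc.differentiableOn (by simp) z hz).hasFDerivWithinAt
    have h2 : HasFDerivWithinAt (fun z => (β z : ℂ)) (Complex.ofRealCLM.comp (fderivWithin ℝ β Disk z)) Disk z :=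
      Complex.ofRealCLM.hasFDerivAt.comp_hasFDerivWithinAt z h1
    have h3 := (h2.mul_const Complex.I).cexp
    have h4 := (hasFDerivWithinAt_id (𝕜 := ℝ) z Disk).mul (h3.sub_const 1)
    have h5 := h4.fderivWithin (uniqueDiffOn_disk z hz)
    have h6 : (fun z => z * (Complex.exp (β z * Complex.I) - 1)) =
      (id * fun x => Complex.exp (↑(β x) * Complex.I) - 1) := rfl
    rw [h6, h5]
    refine (norm_add_le _ _).trans ?_
    have hz1 := mem_disk.mp hz
    have e1 : ‖Complex.ofRealCLM.comp (fderivWithin ℝ β Disk z)‖ ≤ 1 / 16 := by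
      refine (ContinuousLinearMap.opNorm_comp_le _ _).trans ?_
      have := hd z hz
      have h7 : ‖Complex.ofRealCLM‖ = 1 := Complex.ofRealCLM_norm
      rw [h7, one_mul]; exact this
    have e2 : ‖id z • Complex.exp (↑(β z) * Complex.I) • Complex.I • Complex.ofRealCLM.comp (fderivWithin ℝ β Disk z)‖ ≤ 1 / 16 := by
      rw [norm_smul, norm_smul, norm_smul, Complex.norm_exp_ofReal_mul_I, Complex.norm_I, one_mul, one_mul, id]
      calc ‖z‖ * _ ≤ 1 * (1 / 16) := by gcongr
        _ = 1 / 16 := by norm_num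
    have e3 : ‖(Complex.exp (↑(β z) * Complex.I) - 1) • ContinuousLinearMap.id ℝ ℂ‖ ≤ 1 / 16 := by
      rw [norm_smul]
      have h8 := (norm_exp_sub_one_le (β z)).trans (hb z hz)
      have h9 : ‖ContinuousLinearMap.id ℝ ℂ‖ ≤ 1 := ContinuousLinearMap.norm_id_le
      calc _ ≤ 1 / 16 * (1:ℝ) := by gcongr
        _ = 1 / 16 := by norm_num
    linarith
  · simp
  · intro z hz
    show z + z * (Complex.exp (β z * Complex.I) - 1) ∈ Disk
    rw [hadd, mem_disk, hnorm]
    exact mem_disk.mp hz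
  · intro p hp t ht
    show 1 < ‖p + p * (Complex.exp (β p * Complex.I) - 1) + t • p‖
    rw [hadd]
    have e : p * Complex.exp (β p * Complex.I) + t • p = p * (Complex.exp (β p * Complex.I) + t) := by
      rw [Complex.real_smul]; ring
    rw [e, norm_mul, hp, one_mul]
    have hpD : p ∈ Disk := mem_disk.mpr hp.le
    have h1 := hb p hpD
    have h2 : Complex.exp (β p * Complex.I) + t = ⟨Real.cos (β p) + t, Real.sin (β p)⟩ := by
      apply Complex.ext
      · simp [Complex.exp_ofReal_mul_I_re]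
      · simp [Complex.exp_ofReal_mul_I_im]
    rw [h2]
    have hcos : 0 < Real.cos (β p) := by
      apply Real.cos_pos_of_mem_Ioo
      rw [abs_le] at h1
      have := Real.pi_gt_three
      constructor <;> linarith [h1.1, h1.2]
    have h3 : 1 < ‖(⟨Real.cos (β p) + t, Real.sin (β p)⟩ : ℂ)‖ ^ 2 := by
      rw [← Complex.normSq_eq_norm_sq, Complex.normSq_mk]
      nlinarith [Real.sin_sq_add_cos_sq (β p)]
    by_contra hcon
    have h4 : ‖(⟨Real.cos (β p) + t, Real.sin (β p)⟩ : ℂ)‖ ≤ 1 := not_lt.mp hcon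
    have h5 := norm_nonneg (⟨Real.cos (β p) + t, Real.sin (β p)⟩ : ℂ)
    nlinarith

end DiskQM
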