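import Pool.Agent.helper52.DQ.Mob

/-!
Additivity on the stabilizers of boundary points in `HH`.
-/

open Set Metric Filter Topology
open scoped ContDiff ComplexConjugate

noncomputable section

namespace DiskQM

variable {φ : DiffD → ℝ} {C : ℝ}

theorem tendsto_smul_cir (g : DiffD) {p : ℂ} (hp : p ∈ Cir) :
    Tendsto (fun z : ℂ => g • z) (𝓝[Cir] p) (𝓝[Cir] (g • p)) :=
  (((continuousOn_smul g).mono cir_sub) p hp).tendsto_nhdsWithin (fun _ h => inv_cir.2 g _ h)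

/-- identity on the boundary near `1` -/
def DL : Subgroup DiffD where
  carrier := {g | g ∈ HH ∧ ∀ᶠ z in 𝓝[Cir] (1:ℂ), g • z = z}
  mul_mem' := by
    rintro a b ⟨ha, ha'⟩ ⟨hb, hb'⟩
    refine ⟨HH.mul_mem ha hb, ?_⟩
    filter_upwards [ha', hb'] with z h1 h2
    rw [mul_smul, h2, h1]
  one_mem' := ⟨HH.one_mem, by filter_upwards with z using one_smul _ z⟩
  inv_mem' := by
    rintro a ⟨ha, ha'⟩
    refine ⟨HH.inv_mem ha, ?_⟩
    filter_upwards [ha'] with z h1
    rw [inv_smul_eq_iff, h1]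

theorem DL_conj {g k : DiffD} (hk : k ∈ Dst HH (1:ℂ)) (hg : g ∈ DL) : k * g * k⁻¹ ∈ DL := by
  refine ⟨hh_normal.conj_mem g hg.1 k, ?_⟩
  have h1 := tendsto_smul_cir k⁻¹ one_mem_cir
  have h2 : k⁻¹ • (1:ℂ) = 1 := by rw [inv_smul_eq_iff, hk.2]
  rw [h2] at h1
  filter_upwards [h1.eventually hg.2] with z hz
  rw [mul_smul, mul_smul, hz, smul_inv_smul]

theorem addOn_DL (hφ : HQM φ C) : AddOn φ (DL : Subgroup DiffD) := by
  have hPP := addOn_PP hφ (addOn_HB hφ) (w := -1) (by simp)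
  intro a ha b hb
  -- common radius
  obtain ⟨ε, hε0, hε1, hε⟩ : ∃ ε : ℝ, 0 < ε ∧ ε ≤ 1 ∧ ∀ z ∈ Cir, ‖z - 1‖ < ε → a • z = z ∧ b • z = z := by
    obtain ⟨ε, hε, h⟩ := Metric.eventually_nhds_iff.mp (eventually_nhdsWithin_iff.mp (ha.2.and hb.2))
    refine ⟨min ε 1, lt_min hε one_pos, min_le_right _ _, fun z hz hz1 => ?_⟩
    refine h ?_ hz
    rw [dist_eq_norm]
    exact lt_of_lt_of_le hz1 (min_le_left _ _)
  set s := ε / 2 with hs
  have hs0 : 0 < s := by positivity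
  have hs1 : s ≤ 1 / 2 := by rw [hs]; linarith
  have ha1 : ‖((-(1 - s) : ℝ) : ℂ)‖ < 1 := by
    rw [Complex.norm_real, Real.norm_eq_abs, abs_neg, abs_of_pos (by linarith)]
    linarith
  obtain ⟨u, huH, hu, -⟩ := exists_mob ha1
  have hre : ∀ z ∈ Cir, ε ≤ ‖z - 1‖ → 1 / 10 < -(u • z).re := by
    intro z hz hzε
    rw [hu z (cir_sub hz), mobf_cir hz, Complex.conj_ofReal]
    set t := 1 - s with ht
    have hzn : z.re * z.re + z.im * z.im = 1 := by
      rw [← Complex.normSq_apply, Complex.normSq_eq_norm_sq, show ‖z‖ = 1 from hz]; norm_num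
    have hdist : ε ^ 2 ≤ 2 - 2 * z.re := by
      have h1 : ‖z - 1‖ ^ 2 = 2 - 2 * z.re := by
        rw [← Complex.normSq_eq_norm_sq, Complex.normSq_apply]
        simp only [Complex.sub_re, Complex.sub_im, Complex.one_re, Complex.one_im]
        linear_combination hzn
      rw [← h1]
      gcongr
    have hden : Complex.normSq (1 + ((-t : ℝ) : ℂ) * z) = 1 - 2 * t * z.re + t ^ 2 := by
      rw [Complex.normSq_apply]
      simp only [Complex.add_re, Complex.add_im, Complex.one_re, Complex.one_im, Complex.re_ofReal_mul, Complex.im_ofReal_mul]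
      linear_combination t ^ 2 * hzn
    have hx1 : z.re ≤ 1 := by nlinarith
    have hx2 : -1 ≤ z.re := by nlinarith
    have ht0 : 0 < t := by rw [ht]; linarith
    have hpos : 0 < 1 - 2 * t * z.re + t ^ 2 := by nlinarith
    have hnum : ((z + ((-t : ℝ) : ℂ)) * conj (1 + ((-t : ℝ) : ℂ) * z)).re = (1 + t ^ 2) * z.re - 2 * t := by
      simp only [map_add, map_one, map_mul, Complex.conj_ofReal, Complex.mul_re, Complex.add_re, Complex.add_im,
        Complex.ofReal_re, Complex.ofReal_im, Complex.one_re, Complex.one_im, Complex.conj_re, Complex.conj_im, Complex.mul_im]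
      linear_combination (-t) * hzn
    have hdiv : ((z + ((-t : ℝ) : ℂ)) / (1 + ((-t : ℝ) : ℂ) * z)).re =
        ((1 + t ^ 2) * z.re - 2 * t) / (1 - 2 * t * z.re + t ^ 2) := by
      rw [Complex.div_re, hden, ← hnum]
      simp only [Complex.mul_re, Complex.conj_re, Complex.conj_im]
      ring
    rw [hdiv, ← neg_div, lt_div_iff₀ hpos]
    -- polynomial inequality
    have key : 0 < 18 * (1 - z.re) * (1 - s) + s ^ 2 * (-10 * z.re - 1) := by
      have e1 : 9 * ε ^ 2 * (1 - s) ≤ 18 * (1 - z.re) * (1 - s) := by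
        have : 0 ≤ 1 - s := by linarith
        nlinarith
      have e2 : ε = 2 * s := by rw [hs]; ring
      have e3 : -11 * s ^ 2 ≤ s ^ 2 * (-10 * z.re - 1) := by nlinarith [sq_nonneg s]
      rw [e2] at e1
      have e4 : 0 < s ^ 2 := by positivity
      nlinarith
    rw [ht]
    nlinarith [key]
  have hmem : ∀ x : DiffD, x ∈ HH → (∀ z ∈ Cir, ‖z - 1‖ < ε → x • z = z) → u * x * u⁻¹ ∈ PP (-1) := by
    intro x hx hxε
    refine ⟨hh_normal.conj_mem x hx u, ?_⟩
    rintro q ⟨hq, hq2⟩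
    set z := u⁻¹ • q with hz
    have hzC : z ∈ Cir := inv_cir.2 _ q hq
    have huz : u • z = q := smul_inv_smul u q
    have hlt : ‖z - 1‖ < ε := by
      by_contra hcon
      have h1 := hre z hzC (not_lt.mp hcon)
      rw [huz] at h1
      have h2 : (conj (-1:ℂ) * q).re = -q.re := by simp
      rw [h2] at hq2
      linarith
    rw [mul_smul, mul_smul, ← hz, hxε z hzC hlt, huz]
  have h1 := hmem a ha.1 (fun z hz h => (hε z hz h).1)
  have h2 := hmem b hb.1 (fun z hz h => (hε z hz h).2)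
  have h3 := hPP _ h1 _ h2
  rw [hφ.conj, hφ.conj] at h3
  rw [← h3, ← hφ.conj u (a * b)]
  congr 1
  group

/-- the derivative along the boundary is tangential -/
theorem dg_tangential {g : DiffD} (hg : g • (1:ℂ) = 1) : ∃ l : ℝ, dg g 1 Complex.I = l • Complex.I := by
  have hpD := cir_sub one_mem_cir
  have hγ : HasDerivAt (fun t : ℝ => Complex.exp (t * Complex.I)) Complex.I 0 := by
    have h1 : HasDerivAt (fun t : ℝ => ((t : ℝ) : ℂ) * Complex.I) Complex.I 0 := by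
      have := (Complex.ofRealCLM.hasDerivAt (x := (0:ℝ))).mul_const Complex.I
      simpa using this
    simpa using h1.cexp
  have hγD : ∀ t : ℝ, Complex.exp (t * Complex.I) ∈ Cir := by
    intro t
    exact Complex.norm_exp_ofReal_mul_I t
  have h0 : Complex.exp (((0:ℝ) : ℂ) * Complex.I) = 1 := by simp
  have h3 : HasFDerivWithinAt (fun z : ℂ => g • z) (dg g 1) Disk (Complex.exp (((0:ℝ) : ℂ) * Complex.I)) := by
    rw [h0]; exact hasFDerivWithinAt_smul g hpD
  have h4 := h3.comp_hasDerivWithinAt (0:ℝ) (hγ.hasDerivWithinAt (s := univ)) (fun t _ => cir_sub (hγD t))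
  rw [hasDerivWithinAt_univ] at h4
  -- norm squared is constant
  have h5 : HasDerivAt (fun t : ℝ => ((g • Complex.exp (t * Complex.I)).re) ^ 2 + ((g • Complex.exp (t * Complex.I)).im) ^ 2)
      (2 * (g • (1:ℂ)).re * (dg g 1 Complex.I).re + 2 * (g • (1:ℂ)).im * (dg g 1 Complex.I).im) 0 := by
    have hre : HasDerivAt (fun t : ℝ => (g • Complex.exp (t * Complex.I)).re) ((dg g 1 Complex.I).re) 0 :=
      (Complex.reCLM.hasFDerivAt.comp_hasDerivAt (0:ℝ) h4)
    have him : HasDerivAt (fun t : ℝ => (g • Complex.exp (t * Complex.I)).im) ((dg g 1 Complex.I).im) 0 :=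
      (Complex.imCLM.hasFDerivAt.comp_hasDerivAt (0:ℝ) h4)
    have := (hre.pow 2).add (him.pow 2)
    simp only [h0, Nat.cast_ofNat, Nat.add_one_sub_one, pow_one] at this
    exact this
  have h6 : (fun t : ℝ => ((g • Complex.exp (t * Complex.I)).re) ^ 2 + ((g • Complex.exp (t * Complex.I)).im) ^ 2) = fun _ => 1 := by
    funext t
    have h7 : ‖g • Complex.exp (t * Complex.I)‖ = 1 := inv_cir.2 g _ (hγD t)
    have h8 := Complex.normSq_eq_norm_sq (g • Complex.exp (t * Complex.I))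
    rw [h7, Complex.normSq_apply] at h8
    linarith
  rw [h6] at h5
  have h9 := h5.unique (hasDerivAt_const (0:ℝ) (1:ℝ))
  rw [hg] at h9
  simp only [Complex.one_re, Complex.one_im, mul_one, mul_zero, zero_mul, add_zero] at h9
  refine ⟨(dg g 1 Complex.I).im, ?_⟩
  apply Complex.ext
  · simp; linarith
  · simp

/-- tangential derivative one at `1` -/
def D1 : Subgroup DiffD where
  carrier := {g | g ∈ Dst HH (1:ℂ) ∧ dg g 1 Complex.I = Complex.I}
  mul_mem' := by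
    rintro a b ⟨ha, ha'⟩ ⟨hb, hb'⟩
    refine ⟨(Dst HH (1:ℂ)).mul_mem ha hb, ?_⟩
    rw [dg_mul a b (cir_sub one_mem_cir), hb.2, ContinuousLinearMap.comp_apply, hb', ha']
  one_mem' := ⟨(Dst HH (1:ℂ)).one_mem, by rw [dg_one (cir_sub one_mem_cir)]; rfl⟩
  inv_mem' := by
    rintro a ⟨ha, ha'⟩
    refine ⟨(Dst HH (1:ℂ)).inv_mem ha, ?_⟩
    have h1 := dg_inv_comp a (cir_sub one_mem_cir)
    rw [ha.2] at h1
    have h2 := congrArg (fun A : ℂ →L[ℝ] ℂ => A Complex.I) h1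
    simp only [ContinuousLinearMap.comp_apply, ha', ContinuousLinearMap.id_apply] at h2
    exact h2

/-- unit angular projection -/
def Ef (z : ℂ) : ℂ := Complex.exp (((Complex.log z).im : ℂ) * Complex.I)

theorem Ef_mem (z : ℂ) : Ef z ∈ Cir := Complex.norm_exp_ofReal_mul_I _

theorem Ef_cir {z : ℂ} (hz : z ∈ Cir) : Ef z = z := by
  have := Complex.norm_mul_exp_arg_mul_I z
  rwa [show ‖z‖ = 1 from hz, Complex.ofReal_one, one_mul, ← Complex.log_im] at this

theorem contDiffAt_clog {z : ℂ} (hz : z ∈ Complex.slitPlane) : ContDiffAt ℝ ∞ Complex.log z :=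
  (Complex.contDiffAt_log hz (n := ∞)).restrict_scalars ℝ

theorem contDiffAt_Ef {z : ℂ} (hz : z ∈ Complex.slitPlane) : ContDiffAt ℝ ∞ Ef z := by
  have h1 : ContDiffAt ℝ ∞ (fun z => (((Complex.log z).im : ℝ) : ℂ)) z :=
    Complex.ofRealCLM.contDiff.contDiffAt.comp z (Complex.imCLM.contDiff.contDiffAt.comp z (contDiffAt_clog hz))
  exact (h1.mul contDiffAt_const).cexp

theorem hasFDerivAt_Ef : ∃ D : ℂ →L[ℝ] ℂ, HasFDerivAt Ef D 1 ∧ ∀ v : ℂ, D v = v.im • Complex.I := by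
  have h1 : HasFDerivAt Complex.log ((1:ℂ)⁻¹ • (1 : ℂ →L[ℝ] ℂ)) 1 :=
    (Complex.hasStrictDerivAt_log (by simp : (1:ℂ) ∈ Complex.slitPlane)).hasDerivAt.complexToReal_fderiv
  have h2 := Complex.imCLM.hasFDerivAt.comp (1:ℂ) h1
  have h3 := Complex.ofRealCLM.hasFDerivAt.comp (1:ℂ) h2
  have h4 := (h3.mul_const Complex.I).cexp
  refine ⟨_, h4, fun v => ?_⟩
  simp [mul_comm]

theorem exists_split {g : DiffD} (hg : g ∈ D1) : ∃ h ∈ PP 1 ⊓ Dst HH (1:ℂ), h⁻¹ * g ∈ DL := by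
  obtain ⟨M, hM0, hM⟩ := exists_st_bound
  have hg1 : g • (1:ℂ) = 1 := hg.1.2
  set F : ℂ → ℂ := fun z => (g • Ef z) * conj (Ef z) with hF
  have hE1 : Ef 1 = 1 := Ef_cir one_mem_cir
  have hF1 : F 1 = 1 := by rw [hF]; simp [hE1, hg1]
  have hFn : ∀ z, ‖F z‖ = 1 := by
    intro z
    have h1 : ‖g • Ef z‖ = 1 := inv_cir.2 g _ (Ef_mem z)
    rw [hF]
    simp only [norm_mul, Complex.norm_conj, h1, show ‖Ef z‖ = 1 from Ef_mem z, mul_one]
  have hFc : ∀ z ∈ Complex.slitPlane, ContDiffAt ℝ ∞ F z := by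
    intro z hz
    have h1 := contDiffAt_Ef hz
    have h2 : ContDiffWithinAt ℝ ∞ (fun z : ℂ => g • z) Disk (Ef z) := contDiffOn_smul g _ (cir_sub (Ef_mem z))
    have h3 : ContDiffWithinAt ℝ ∞ (fun z : ℂ => g • Ef z) univ z :=
      h2.comp z h1.contDiffWithinAt (fun w _ => cir_sub (Ef_mem w))
    rw [contDiffWithinAt_univ] at h3
    exact h3.mul (Complex.conjCLE.contDiff.contDiffAt.comp z h1)
  set θ : ℂ → ℝ := fun z => (Complex.log (F z)).im with hθ
  have hs1 : (1:ℂ) ∈ Complex.slitPlane := by simp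
  have hθc : ∀ z ∈ Complex.slitPlane, F z ∈ Complex.slitPlane → ContDiffAt ℝ ∞ θ z := by
    intro z hz hz2
    exact Complex.imCLM.contDiff.contDiffAt.comp z ((contDiffAt_clog hz2).comp z (hFc z hz))
  have hθ1 : θ 1 = 0 := by rw [hθ]; simp [hF1]
  -- derivative of `θ` at `1`
  have hdθ : fderiv ℝ θ 1 = 0 := by
    obtain ⟨D, hD, hDv⟩ := hasFDerivAt_Ef
    have h1 : HasFDerivWithinAt (fun z : ℂ => g • z) (dg g 1) Disk (Ef 1) := by
      rw [hE1]; exact hasFDerivWithinAt_smul g (cir_sub one_mem_cir)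
    have h2 : HasFDerivAt (fun z : ℂ => g • Ef z) ((dg g 1).comp D) 1 := by
      have := h1.comp (1:ℂ) (hD.hasFDerivWithinAt (s := univ)) (fun w _ => cir_sub (Ef_mem w))
      rw [hasFDerivWithinAt_univ] at this
      exact this
    have h3 : HasFDerivAt (fun z : ℂ => conj (Ef z)) ((Complex.conjCLE : ℂ →L[ℝ] ℂ).comp D) 1 :=
      Complex.conjCLE.hasFDerivAt.comp (1:ℂ) hD
    have h4 := h2.mul h3
    have h5 : (g • Ef 1) • ((Complex.conjCLE : ℂ →L[ℝ] ℂ).comp D) + (conj (Ef 1)) • ((dg g 1).comp D) = 0 := by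
      apply ContinuousLinearMap.ext
      intro v
      · simp only [hE1, hg1, map_one, one_smul, add_apply, ContinuousLinearMap.comp_apply, hDv, map_smul, hg.2,
          zero_apply]
        simp
    have h4' : HasFDerivAt F (0 : ℂ →L[ℝ] ℂ) 1 := by
      rw [← h5]; exact h4
    have h6 : HasFDerivAt Complex.log ((F 1)⁻¹ • (1 : ℂ →L[ℝ] ℂ)) (F 1) := by
      apply HasDerivAt.complexToReal_fderiv
      exact (Complex.hasStrictDerivAt_log (by rw [hF1]; simp)).hasDerivAt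
    have h7 := (Complex.imCLM.hasFDerivAt.comp (1:ℂ) (h6.comp (1:ℂ) h4')).fderiv
    have h8 : fderiv ℝ θ 1 = Complex.imCLM.comp (((F 1)⁻¹ • (1 : ℂ →L[ℝ] ℂ)).comp 0) := h7
    rw [h8, ContinuousLinearMap.comp_zero, ContinuousLinearMap.comp_zero]
  set ε₁ : ℝ := 1 / (16 * (1 + 4 * M)) with hε₁
  have hε₁0 : 0 < ε₁ := by positivity
  have hev : ∀ᶠ z in 𝓝 (1:ℂ), z ∈ Complex.slitPlane ∧ F z ∈ Complex.slitPlane ∧ ‖fderiv ℝ θ z‖ < ε₁ := by
    have h1 : ∀ᶠ z in 𝓝 (1:ℂ), z ∈ Complex.slitPlane := Complex.isOpen_slitPlane.mem_nhds hs1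
    have h2 : ∀ᶠ z in 𝓝 (1:ℂ), F z ∈ Complex.slitPlane := by
      apply (hFc 1 hs1).continuousAt
      rw [hF1]
      exact Complex.isOpen_slitPlane.mem_nhds hs1
    have h3 : ContinuousAt (fderiv ℝ θ) 1 := (hθc 1 hs1 (by rw [hF1]; exact hs1)).continuousAt_fderiv (by simp)
    have h4 : ∀ᶠ z in 𝓝 (1:ℂ), ‖fderiv ℝ θ z‖ < ε₁ := by
      apply h3.norm.eventually (gt_mem_nhds _)
      simp only [hdθ, norm_zero]; exact hε₁0
    filter_upwards [h1, h2, h4] with z a b c using ⟨a, b, c⟩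
  obtain ⟨r, hr0, hr⟩ := Metric.eventually_nhds_iff.mp hev
  have hball : ∀ z : ℂ, ‖z - 1‖ < r → z ∈ Complex.slitPlane ∧ F z ∈ Complex.slitPlane ∧ ‖fderiv ℝ θ z‖ < ε₁ := by
    intro z hz
    exact hr (by rwa [dist_eq_norm])
  have hθd : ∀ z : ℂ, ‖z - 1‖ < r → ContDiffAt ℝ ∞ θ z := fun z hz => hθc z (hball z hz).1 (hball z hz).2.1
  have hθb : ∀ z : ℂ, ‖z - 1‖ < r → |θ z| ≤ ε₁ * ‖z - 1‖ := by
    intro z hz
    have h1 := (convex_ball (1:ℂ) r).norm_image_sub_le_of_norm_fderiv_le (𝕜 := ℝ) (f := θ) (C := ε₁)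
      (fun x hx => (hθd x (by rwa [mem_ball, dist_eq_norm] at hx)).differentiableAt (by simp))
      (fun x hx => (hball x (by rwa [mem_ball, dist_eq_norm] at hx)).2.2.le) (mem_ball_self hr0)
      (by rwa [mem_ball, dist_eq_norm] : z ∈ ball (1:ℂ) r)
    rw [hθ1, sub_zero, Real.norm_eq_abs] at h1
    exact h1
  set δ := min r 1 / 4 with hδ
  have hm := lt_min hr0 one_pos
  have hδ0 : 0 < δ := by positivity
  have h2δr : 2 * δ < r := by
    have := min_le_left r 1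
    rw [hδ]; linarith
  have h2δ1 : 2 * δ ≤ 1 / 2 := by
    have := min_le_right r 1
    rw [hδ]; linarith
  obtain ⟨ρ, hρc, hρ0, hρ1, hρz, hρo, hρd⟩ := exists_cut hM hδ0
  set β : ℂ → ℝ := fun z => ρ (z - 1) * θ z with hβ
  have hβ0 : ∀ z : ℂ, 2 * δ ≤ ‖z - 1‖ → β z = 0 := by
    intro z hz
    rw [hβ]; simp [hρz _ hz]
  have hβloc : ∀ z : ℂ, 2 * δ < ‖z - 1‖ → β =ᶠ[𝓝 z] fun _ => 0 := by
    intro z hz
    have : {w : ℂ | 2 * δ < ‖w - 1‖} ∈ 𝓝 z :=
      (isOpen_lt continuous_const (continuous_id.sub continuous_const).norm).mem_nhds hz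
    filter_upwards [this] with w hw using hβ0 w (le_of_lt hw)
  have hβc : ContDiff ℝ ∞ β := by
    rw [contDiff_iff_contDiffAt]
    intro z
    by_cases hz : ‖z - 1‖ < r
    · exact (hρc.comp (contDiff_id.sub contDiff_const)).contDiffAt.mul (hθd z hz)
    · exact contDiffAt_const.congr_of_eventuallyEq (hβloc z (by linarith [not_lt.mp hz]))
  have hβb : ∀ z : ℂ, |β z| ≤ 1 / 16 := by
    intro z
    by_cases hz : ‖z - 1‖ < 2 * δ
    · have h1 := hθb z (hz.trans h2δr)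
      have h2 : ε₁ ≤ 1 / 16 := by
        rw [hε₁]
        apply one_div_le_one_div_of_le (by norm_num)
        nlinarith
      rw [hβ]
      simp only [abs_mul, abs_of_nonneg (hρ0 (z - 1))]
      calc ρ (z - 1) * |θ z| ≤ 1 * (ε₁ * ‖z - 1‖) := by
            gcongr
            exact hρ1 _
        _ ≤ 1 * (1 / 16 * 1) := by
            gcongr
            linarith
        _ = 1 / 16 := by norm_num
    · rw [hβ0 z (not_lt.mp hz)]; norm_num
  have hβd : ∀ z : ℂ, ‖fderiv ℝ β z‖ ≤ 1 / 16 := by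
    intro z
    by_cases hz : ‖z - 1‖ ≤ 2 * δ
    · have hzr : ‖z - 1‖ < r := lt_of_le_of_lt hz h2δr
      have h1 : HasFDerivAt (fun z : ℂ => ρ (z - 1)) (fderiv ℝ ρ (z - 1)) z := by
        have := ((hρc.differentiable (by simp) (z - 1)).hasFDerivAt).comp z ((hasFDerivAt_id z).sub_const (1:ℂ))
        rwa [ContinuousLinearMap.comp_id] at this
      have h2 := h1.mul ((hθd z hzr).differentiableAt (by simp)).hasFDerivAt
      have h3 : fderiv ℝ β z = ρ (z - 1) • fderiv ℝ θ z + θ z • fderiv ℝ ρ (z - 1) := h2.fderiv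
      rw [h3]
      refine (norm_add_le _ _).trans ?_
      rw [norm_smul, norm_smul, Real.norm_of_nonneg (hρ0 _), Real.norm_eq_abs]
      have e1 : ρ (z - 1) * ‖fderiv ℝ θ z‖ ≤ 1 * ε₁ := by
        gcongr
        · exact hρ1 _
        · exact (hball z hzr).2.2.le
      have e2 : |θ z| * ‖fderiv ℝ ρ (z - 1)‖ ≤ ε₁ * (4 * M) := by
        calc |θ z| * ‖fderiv ℝ ρ (z - 1)‖ ≤ (ε₁ * ‖z - 1‖) * ‖fderiv ℝ ρ (z - 1)‖ := by
              gcongr; exact hθb z hzr
          _ = ε₁ * (‖fderiv ℝ ρ (z - 1)‖ * ‖z - 1‖) := by ring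
          _ ≤ ε₁ * (4 * M) := mul_le_mul_of_nonneg_left (hρd _ hz) hε₁0.le
      have e3 : 1 * ε₁ + ε₁ * (4 * M) = 1 / 16 := by rw [hε₁]; field_simp
      linarith
    · rw [(hβloc z (not_le.mp hz)).fderiv_eq]
      simp
  obtain ⟨h, hh⟩ := exists_small_ang hβc.contDiffOn (fun z _ => hβb z) (fun z hz => by
    rw [(hβc.differentiable (by simp) z).hasFDerivAt.hasFDerivWithinAt.fderivWithin (uniqueDiffOn_disk z hz)]
    exact hβd z)
  have hfix : ∀ z ∈ Disk, 2 * δ ≤ ‖z - 1‖ → h • z = z := by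
    intro z hz hz2
    rw [hh z hz, hβ0 z hz2]
    simp
  have hhH : h ∈ HH := by
    rw [mem_HH]
    have hloc : Loc h 0 := by
      have h1 : ∀ᶠ z in 𝓝[Disk] (0:ℂ), ‖z‖ ≤ 1 / 2 := by
        apply nhdsWithin_le_nhds
        filter_upwards [Metric.closedBall_mem_nhds (0:ℂ) (by norm_num : (0:ℝ) < 1 / 2)] with z hz
        simpa using hz
      filter_upwards [h1, self_mem_nhdsWithin] with z hz hzD
      apply hfix z hzD
      have h2 : ‖(1:ℂ)‖ ≤ ‖z‖ + ‖z - 1‖ := by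
        have := norm_sub_le z (z - 1)
        rwa [sub_sub_cancel] at this
      rw [norm_one] at h2
      linarith
    exact hloc.dg zero_mem_disk
  have hh1 : h • (1:ℂ) = 1 := by
    rw [hh 1 (cir_sub one_mem_cir)]
    have : β 1 = 0 := by rw [hβ]; simp [hθ1]
    rw [this]; simp
  refine ⟨h, ⟨⟨hhH, ?_⟩, ⟨hhH, hh1⟩⟩, HH.mul_mem (HH.inv_mem hhH) hg.1.1, ?_⟩
  · rintro p ⟨hp, hp2⟩
    apply hfix p (cir_sub hp)
    have hpn : p.re * p.re + p.im * p.im = 1 := by
      rw [← Complex.normSq_apply, Complex.normSq_eq_norm_sq, show ‖p‖ = 1 from hp]; norm_num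
    have h1 : ‖p - 1‖ ^ 2 = 2 - 2 * p.re := by
      rw [← Complex.normSq_eq_norm_sq, Complex.normSq_apply]
      simp only [Complex.sub_re, Complex.sub_im, Complex.one_re, Complex.one_im]
      linear_combination hpn
    have h2 : p.re ≤ 1 / 10 := by simpa using hp2
    by_contra hcon
    push Not at hcon
    have h3 : ‖p - 1‖ < 1 := by linarith
    nlinarith [norm_nonneg (p - 1)]
  · have h1 : ∀ᶠ z in 𝓝[Cir] (1:ℂ), ‖z - 1‖ ≤ δ := by
      apply nhdsWithin_le_nhds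
      filter_upwards [Metric.closedBall_mem_nhds (1:ℂ) hδ0] with z hz
      rwa [mem_closedBall, dist_eq_norm] at hz
    filter_upwards [h1, self_mem_nhdsWithin] with z hz hzC
    have h2 : h • z = g • z := by
      rw [hh z (cir_sub hzC)]
      have h3 : β z = θ z := by rw [hβ]; simp [hρo _ hz]
      have h4 : Complex.exp ((θ z : ℂ) * Complex.I) = F z := Ef_cir (hFn z)
      rw [h3, h4, hF]
      simp only [Ef_cir hzC]
      linear_combination (g • z) * cir_mul_conj hzC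
    rw [mul_smul, ← h2, inv_smul_smul]

theorem DL_le_Dst : DL ≤ Dst HH (1:ℂ) := fun _ hg => ⟨hg.1, hg.2.self_of_nhdsWithin one_mem_cir⟩

theorem addOn_D1 (hφ : HQM φ C) : AddOn φ (D1 : Subgroup DiffD) := by
  have hPP := addOn_PP hφ (addOn_HB hφ) (w := 1) (by simp)
  apply hφ.addOn_of_mul (addOn_DL hφ) (R := PP 1 ⊓ Dst HH (1:ℂ)) (fun a ha b hb => hPP a ha.1 b hb.1)
    (fun g hg x hx => DL_conj hg.2 hx)
  intro g hg
  obtain ⟨h, hh, hl⟩ := exists_split hg
  exact ⟨h * (h⁻¹ * g) * h⁻¹, DL_conj hh.2 hl, h, hh, by group⟩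

theorem addOn_Dst_one (hφ : HQM φ C) : AddOn φ (Dst HH (1:ℂ) : Subgroup DiffD) := by
  have hpD := cir_sub one_mem_cir
  apply hφ.addOn_of_commutator (addOn_D1 hφ) _ (fun g hg => hg.1)
  · intro a ha b hb
    have hmem : a * b * a⁻¹ * b⁻¹ ∈ Dst HH (1:ℂ) := mul_mem (mul_mem (mul_mem ha hb) (inv_mem ha)) (inv_mem hb)
    refine ⟨hmem, ?_⟩
    obtain ⟨l, hl⟩ := dg_tangential ha.2
    obtain ⟨m, hm⟩ := dg_tangential hb.2
    have e : a * b = (a * b * a⁻¹ * b⁻¹) * (b * a) := by group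
    have hba : (b * a) • (1:ℂ) = 1 := by rw [mul_smul, ha.2, hb.2]
    have h1 : dg (a * b) 1 Complex.I = (l * m) • Complex.I := by
      rw [dg_mul a b hpD, hb.2, ContinuousLinearMap.comp_apply, hm, map_smul, hl, smul_smul, mul_comm]
    have h2 : dg (b * a) 1 Complex.I = (l * m) • Complex.I := by
      rw [dg_mul b a hpD, ha.2, ContinuousLinearMap.comp_apply, hl, map_smul, hm, smul_smul]
    have h3 : dg (a * b) 1 Complex.I = dg (a * b * a⁻¹ * b⁻¹) 1 (dg (b * a) 1 Complex.I) := by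
      conv_lhs => rw [e]
      rw [dg_mul _ _ hpD, hba]; rfl
    rw [h1, h2, map_smul] at h3
    have h4 : l * m ≠ 0 := by
      intro h0
      rw [h0, zero_smul] at h1
      have h5 := dg_inv_comp (a * b) hpD
      have h6 := congrArg (fun A : ℂ →L[ℝ] ℂ => A Complex.I) h5
      simp only [ContinuousLinearMap.comp_apply, h1, map_zero, ContinuousLinearMap.id_apply] at h6
      exact Complex.I_ne_zero h6.symm
    exact (smul_right_injective ℂ h4 h3).symm
  · intro g hg x hx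
    refine ⟨mul_mem (mul_mem hg hx.1) (inv_mem hg), ?_⟩
    have hgi : g⁻¹ • (1:ℂ) = 1 := by rw [inv_smul_eq_iff, hg.2]
    obtain ⟨l, hl⟩ := dg_tangential hgi
    have h1 := dg_comp_inv g hpD
    rw [hg.2] at h1
    have h2 := congrArg (fun A : ℂ →L[ℝ] ℂ => A Complex.I) h1
    simp only [ContinuousLinearMap.comp_apply, ContinuousLinearMap.id_apply] at h2
    rw [dg_mul _ _ hpD, hgi, dg_mul _ _ hpD, hx.1.2, ContinuousLinearMap.comp_apply, ContinuousLinearMap.comp_apply,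
      hl, map_smul, hx.2, ← hl, h2]

theorem addOn_Dst (hφ : HQM φ C) {q : ℂ} (hq : q ∈ Cir) : AddOn φ (Dst HH q : Subgroup DiffD) := by
  obtain ⟨T, hT⟩ := rot_conj_stab hq
  have hTi : T⁻¹ • q = 1 := by rw [inv_smul_eq_iff, hT]
  apply hφ.addOn_conj (addOn_Dst_one hφ) T⁻¹
  intro g hg
  refine ⟨hh_normal.conj_mem g hg.1 _, ?_⟩
  rw [inv_inv, mul_smul, mul_smul, hT, hg.2, hTi]

end DiskQM
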