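import Pool.Agent.helper52.DQ.StepNN

/-!
Additivity on `MM` and `HB`.
-/

open Set Metric Filter Topology
open scoped ContDiff ComplexConjugate

noncomputable section

namespace DiskQM

variable {φ : DiffD → ℝ} {C : ℝ}

theorem addOn_MM (hφ : HQM φ C) : AddOn φ (MM : Subgroup DiffD) := by
  apply hφ.addOn_of_mul (addOn_NN hφ) (addOn_MB hφ) (fun g _ x hx => nn_normal.conj_mem x hx g)
  intro g hg
  obtain ⟨y, -, h2, h3⟩ := exists_rep_zero (hg.1 0 rfl).2 one_pos (η := 1 / 10) (by norm_num)
  have hy : y ∈ GB (1 / 10) := mem_GB.mpr h2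
  have hyd : dg y 0 = ContinuousLinearMap.id ℝ ℂ := by
    rw [dg_eq_of_germ zero_mem_disk h3]; exact (hg.1 0 rfl).2
  have hyC : y ∈ LocSub Cir := GB_loc_cir (by norm_num) hy
  refine ⟨y, ⟨?_, hyC⟩, y⁻¹ * g, ⟨?_, ?_⟩, by group⟩
  · rintro _ rfl
    exact ⟨smul_zero' y, hyd⟩
  · rintro _ rfl
    exact germ_inv_mul h3
  · exact (TanSub Cir inv_cir.1).mul_mem
      ((TanSub Cir inv_cir.1).inv_mem (locSub_le_tanSub cir_sub hyC)) hg.2

/-- determinant in a rotated basis -/
theorem det_rot (A : ℂ →L[ℝ] ℂ) {p : ℂ} (hp : ‖p‖ = 1) :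
    A.det = (A p).re * (A (p * Complex.I)).im - (A (p * Complex.I)).re * (A p).im := by
  have h1 : p.re * p.re + p.im * p.im = 1 := by
    rw [← Complex.normSq_apply, Complex.normSq_eq_norm_sq, hp]; norm_num
  have e1 : A p = p.re • A 1 + p.im • A Complex.I := by
    rw [← map_smul, ← map_smul, ← map_add]
    congr 1
    apply Complex.ext <;> simp
  have e2 : A (p * Complex.I) = (-p.im) • A 1 + p.re • A Complex.I := by
    rw [← map_smul, ← map_smul, ← map_add]
    congr 1
    apply Complex.ext <;> simp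
  rw [e1, e2, det_eq]
  simp only [Complex.add_re, Complex.add_im, Complex.smul_re, Complex.smul_im, smul_eq_mul]
  linear_combination ((A 1).re * (A Complex.I).im - (A Complex.I).re * (A 1).im) * (-h1)

/-- two linear maps agreeing on `p` and `p i` -/
theorem clm_ext_rot {A B : ℂ →L[ℝ] ℂ} {p : ℂ} (hp : ‖p‖ = 1) (h1 : A p = B p)
    (h2 : A (p * Complex.I) = B (p * Complex.I)) : A = B := by
  have hsq : p.re * p.re + p.im * p.im = 1 := by
    rw [← Complex.normSq_apply, Complex.normSq_eq_norm_sq, hp]; norm_num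
  ext z
  have e : z = (z.re * p.re + z.im * p.im) • p + (z.im * p.re - z.re * p.im) • (p * Complex.I) := by
    apply Complex.ext
    · simp only [Complex.add_re, Complex.smul_re, smul_eq_mul, Complex.mul_re, Complex.I_re, Complex.I_im, mul_zero, mul_one, zero_sub]
      linear_combination (-z.re) * hsq
    · simp only [Complex.add_im, Complex.smul_im, smul_eq_mul, Complex.mul_im, Complex.I_re, Complex.I_im, mul_zero, mul_one, zero_add, add_zero]
      linear_combination (-z.im) * hsq
  rw [e, map_add, map_add, map_smul, map_smul, map_smul, map_smul, h1, h2]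

/-- the derivative of `g` fixes the tangent vectors of the boundary if `g` fixes the boundary -/
theorem dg_tangent {g : DiffD} (hg : g ∈ FixSub Cir) {p : ℂ} (hp : p ∈ Cir) :
    dg g p (p * Complex.I) = p * Complex.I := by
  have hpD := cir_sub hp
  have hγ : HasDerivAt (fun t : ℝ => p * Complex.exp (t * Complex.I)) (p * Complex.I) 0 := by
    have h1 : HasDerivAt (fun t : ℝ => ((t : ℝ) : ℂ) * Complex.I) Complex.I 0 := by
      have := (Complex.ofRealCLM.hasDerivAt (x := (0:ℝ))).mul_const Complex.I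
      simpa using this
    have h2 := (h1.cexp).const_mul p
    simpa using h2
  have hγD : ∀ t : ℝ, p * Complex.exp (t * Complex.I) ∈ Cir := by
    intro t
    show ‖_‖ = 1
    rw [norm_mul, Complex.norm_exp_ofReal_mul_I, mul_one]
    exact hp
  have h0 : p * Complex.exp (((0:ℝ) : ℂ) * Complex.I) = p := by simp
  have h3 : HasFDerivWithinAt (fun z : ℂ => g • z) (dg g p) Disk (p * Complex.exp (((0:ℝ) : ℂ) * Complex.I)) := by
    rw [h0]; exact hasFDerivWithinAt_smul g hpD
  have h4 := h3.comp_hasDerivWithinAt (0:ℝ) (hγ.hasDerivWithinAt (s := univ))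
    (fun t _ => cir_sub (hγD t))
  have h5 : ((fun z : ℂ => g • z) ∘ fun t : ℝ => p * Complex.exp (t * Complex.I)) =
      fun t : ℝ => p * Complex.exp (t * Complex.I) := by
    funext t
    exact hg _ (hγD t)
  rw [h5, hasDerivWithinAt_univ] at h4
  exact h4.unique hγ

theorem dg_commutator {a b : DiffD} {p : ℂ} (hp : p ∈ Disk) (ha : a • p = p) (hb : b • p = p)
    (hAB : (dg a p).comp (dg b p) = (dg b p).comp (dg a p)) :
    dg (a * b * a⁻¹ * b⁻¹) p = ContinuousLinearMap.id ℝ ℂ := by
  have e : a * b = (a * b * a⁻¹ * b⁻¹) * (b * a) := by group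
  have hba : (b * a) • p = p := by rw [mul_smul, ha, hb]
  have h1 : dg (a * b) p = (dg a p).comp (dg b p) := by rw [dg_mul a b hp, hb]
  have h2 : dg (b * a) p = (dg b p).comp (dg a p) := by rw [dg_mul b a hp, ha]
  have h3 : dg (a * b) p = (dg (a * b * a⁻¹ * b⁻¹) p).comp (dg (b * a) p) := by
    conv_lhs => rw [e]
    rw [dg_mul _ _ hp, hba]
  rw [h1, hAB, ← h2] at h3
  have h4 := dg_comp_inv (b * a) hp
  rw [hba] at h4
  have h5 := congrArg (fun X : ℂ →L[ℝ] ℂ => X.comp (dg (b * a)⁻¹ p)) h3
  simp only [ContinuousLinearMap.comp_assoc, h4, ContinuousLinearMap.comp_id] at h5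
  exact h5.symm

/-- elements of `HB` with Jacobian one along the boundary -/
def HB1 : Subgroup DiffD where
  carrier := {g | g ∈ HB ∧ ∀ p ∈ Cir, (dg g p).det = 1}
  mul_mem' := by
    rintro a b ⟨ha, ha'⟩ ⟨hb, hb'⟩
    refine ⟨HB.mul_mem ha hb, fun p hp => ?_⟩
    rw [dg_mul a b (cir_sub hp), det_comp', hb.2 p hp, ha' p hp, hb' p hp, mul_one]
  one_mem' := ⟨HB.one_mem, fun p hp => by rw [dg_one (cir_sub hp), det_id']⟩
  inv_mem' := by
    rintro a ⟨ha, ha'⟩
    refine ⟨HB.inv_mem ha, fun p hp => ?_⟩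
    have h1 := dg_inv_comp a (cir_sub hp)
    rw [ha.2 p hp] at h1
    have h2 := congrArg ContinuousLinearMap.det h1
    rw [det_comp', det_id', ha' p hp, mul_one] at h2
    exact h2

theorem mm_le_hb1 : MM ≤ HB1 := by
  intro g hg
  refine ⟨⟨hg.1, tanSub_le_fixSub cir_sub hg.2⟩, fun p hp => ?_⟩
  rw [(hg.2 p hp).2, det_id']

theorem addOn_HB1 (hφ : HQM φ C) : AddOn φ (HB1 : Subgroup DiffD) := by
  apply hφ.addOn_of_commutator (addOn_MM hφ) (fun g _ x hx => mm_normal.conj_mem x hx g) mm_le_hb1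
  intro a ha b hb
  constructor
  · exact (TanSub {0} inv_zero.1).mul_mem ((TanSub {0} inv_zero.1).mul_mem ((TanSub {0} inv_zero.1).mul_mem ha.1.1 hb.1.1)
      ((TanSub {0} inv_zero.1).inv_mem ha.1.1)) ((TanSub {0} inv_zero.1).inv_mem hb.1.1)
  · intro p hp
    have hpD := cir_sub hp
    have ha2 : a • p = p := ha.1.2 p hp
    have hb2 : b • p = p := hb.1.2 p hp
    refine ⟨?_, ?_⟩
    · have hai : a⁻¹ • p = p := by rw [inv_smul_eq_iff, ha2]
      have hbi : b⁻¹ • p = p := by rw [inv_smul_eq_iff, hb2]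
      rw [mul_smul, hbi, mul_smul, hai, mul_smul, hb2, ha2]
    · apply dg_commutator hpD ha2 hb2
      have key : ∀ g ∈ HB1, ∃ s : ℝ, dg g p p = p + s • (p * Complex.I) := by
        intro g hg
        have h1 := dg_tangent hg.1.2 hp
        have h2 := hg.2 p hp
        rw [det_rot _ hp, h1] at h2
        have hsq : p.re * p.re + p.im * p.im = 1 := by
          rw [← Complex.normSq_apply, Complex.normSq_eq_norm_sq, show ‖p‖ = 1 from hp]; norm_num
        set u := dg g p p with hu
        simp only [Complex.mul_re, Complex.mul_im, Complex.I_re, Complex.I_im, mul_zero, mul_one, zero_sub, add_zero, zero_add] at h2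
        refine ⟨u.im * p.re - u.re * p.im, ?_⟩
        apply Complex.ext
        · simp only [Complex.add_re, Complex.smul_re, smul_eq_mul, Complex.mul_re, Complex.I_re, Complex.I_im, mul_zero, mul_one, zero_sub]
          linear_combination (-u.re) * hsq + p.re * h2
        · simp only [Complex.add_im, Complex.smul_im, smul_eq_mul, Complex.mul_im, Complex.I_re, Complex.I_im, mul_zero, mul_one, zero_add, add_zero]
          linear_combination (-u.im) * hsq + p.im * h2
      obtain ⟨s, hs⟩ := key a ha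
      obtain ⟨t, ht⟩ := key b hb
      have ta := dg_tangent ha.1.2 hp
      have tb := dg_tangent hb.1.2 hp
      apply clm_ext_rot hp
      · rw [ContinuousLinearMap.comp_apply, ContinuousLinearMap.comp_apply, hs, ht, map_add, map_add,
          map_smul, map_smul, ta, tb, hs, ht]
        abel
      · rw [ContinuousLinearMap.comp_apply, ContinuousLinearMap.comp_apply, ta, tb, ta]

theorem addOn_HB (hφ : HQM φ C) : AddOn φ (HB : Subgroup DiffD) := by
  apply hφ.addOn_of_commutator (addOn_HB1 hφ) _ (fun g hg => hg.1)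
  · intro a ha b hb
    have hmem : a * b * a⁻¹ * b⁻¹ ∈ HB := HB.mul_mem (HB.mul_mem (HB.mul_mem ha hb) (HB.inv_mem ha)) (HB.inv_mem hb)
    refine ⟨hmem, fun p hp => ?_⟩
    have hpD := cir_sub hp
    have e : a * b = (a * b * a⁻¹ * b⁻¹) * (b * a) := by group
    have hba : (b * a) • p = p := by rw [mul_smul, ha.2 p hp, hb.2 p hp]
    have h1 : (dg (a * b) p).det = (dg a p).det * (dg b p).det := by
      rw [dg_mul a b hpD, hb.2 p hp, det_comp']
    have h2 : (dg (b * a) p).det = (dg b p).det * (dg a p).det := by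
      rw [dg_mul b a hpD, ha.2 p hp, det_comp']
    have h3 : (dg (a * b) p).det = (dg (a * b * a⁻¹ * b⁻¹) p).det * (dg (b * a) p).det := by
      conv_lhs => rw [e]
      rw [dg_mul _ _ hpD, hba, det_comp']
    have h4 := det_dg_pos a hpD
    have h5 := det_dg_pos b hpD
    rw [h1, h2] at h3
    have h6 : 0 < (dg a p).det * (dg b p).det := mul_pos h4 h5
    have h7 : ((dg (a * b * a⁻¹ * b⁻¹) p).det - 1) * ((dg a p).det * (dg b p).det) = 0 := by linear_combination -h3
    rcases mul_eq_zero.mp h7 with h8 | h8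
    · linarith
    · exact absurd h8 h6.ne'
  · intro g hg x hx
    refine ⟨hb_normal.conj_mem x hx.1 g, fun p hp => ?_⟩
    have hpD := cir_sub hp
    have hgi : g⁻¹ • p = p := HB.inv_mem hg |>.2 p hp
    have hxp : x • p = p := hx.1.2 p hp
    rw [dg_mul _ _ hpD, hgi, dg_mul _ _ hpD, hxp, det_comp', det_comp', hx.2 p hp, mul_one]
    have h1 := dg_comp_inv g hpD
    rw [hg.2 p hp] at h1
    have h2 := congrArg ContinuousLinearMap.det h1
    rw [det_comp', det_id'] at h2
    exact h2

end DiskQM
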