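import Pool.Agent.helper52.DQ.Rep

/-!
Additivity on the group `MB` of diffeomorphisms which are the identity near `0` and tangent to the
identity along the boundary.
-/

open Set Metric Filter Topology
open scoped ContDiff ComplexConjugate

noncomputable section

namespace DiskQM

variable {φ : DiffD → ℝ} {C : ℝ}

theorem IsPiece.mem_EE {g gk : DiffD} {w : ℂ} (h : IsPiece g gk w) (hg0 : Loc g 0) : gk ∈ EE w := by
  constructor
  · rintro _ rfl
    exact hg0.of_fix h.fix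
  · rintro p ⟨hp, hp2⟩
    have h1 : ∀ᶠ z in 𝓝[Disk] p, (conj w * z).re ≤ ‖z‖ / 5 := by
      apply nhdsWithin_le_nhds
      have hcont : Continuous (fun z : ℂ => ‖z‖ / 5 - (conj w * z).re) := by fun_prop
      have h2 : 0 < ‖p‖ / 5 - (conj w * p).re := by
        rw [show ‖p‖ = 1 from hp]; linarith
      exact ((hcont.tendsto p).eventually (lt_mem_nhds h2)).mono (fun z hz => by linarith)
    filter_upwards [h1, self_mem_nhdsWithin] with z hz hzD using h.supp z hzD hz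

theorem IsPiece.mem_MB {g gk : DiffD} {w : ℂ} (h : IsPiece g gk w) (hg : g ∈ MB) : gk ∈ MB := by
  constructor
  · rintro _ rfl
    exact (hg.1 0 rfl).of_fix h.fix
  · intro p hp
    exact ⟨h.fix p (cir_sub hp) (hg.2 p hp).1, h.tan p hp (hg.2 p hp).2⟩

theorem IsPiece.mem_KK {g gk : DiffD} {w : ℂ} (h : IsPiece g gk w) (hg : g ∈ KK) : gk ∈ KK :=
  ⟨fun p hp => (hg.1 p hp).of_fix h.fix, fun p hp => (hg.2 p hp).of_fix h.fix⟩

theorem absorb_EE_MB (hφ : HQM φ C) {w : ℂ} (hw : ‖w‖ = 1) {m : DiffD} (hm : m ∈ EE w) (hm' : m ∈ MB) :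
    Absorb φ MB m := by
  apply hφ.absorb (P := EE w ⊓ MB) (fun a ha b hb => addOn_EE hφ hw a ha.1 b hb.1) _ ⟨hm, hm'⟩
  rintro g hg x ⟨⟨hx1, hx2⟩, hx3⟩
  refine ⟨⟨?_, ?_⟩, mb_normal.conj_mem x hx3 g⟩
  · rintro _ rfl
    have := (hx1 0 rfl).conj zero_mem_disk g
    rwa [smul_zero'] at this
  · rintro p ⟨hp, hp2⟩
    have := (hx2 p ⟨hp, hp2⟩).conj (cir_sub hp) g
    rwa [(hg.2 p hp).1] at this

theorem absorb_KK (hφ : HQM φ C) {Γ : Subgroup DiffD} {m : DiffD} (hm : m ∈ KK) : Absorb φ Γ m :=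
  hφ.absorb (addOn_KK hφ) (fun g _ x hx => kk_normal.conj_mem x hx g) hm

theorem kk_le_mb : KK ≤ MB := fun _ hg => ⟨hg.1, locSub_le_tanSub cir_sub hg.2⟩

theorem addOn_MB (hφ : HQM φ C) : AddOn φ (MB : Subgroup DiffD) := by
  obtain ⟨ε₀, hε₀, hfrag⟩ := exists_frag
  intro a ha
  have key : Absorb φ MB a := by
    obtain ⟨g', hS, hL, hfix, hgerm⟩ := exists_rep_cir ha.2 hε₀
    have hg'C : g' ∈ FixSub Cir := fun p hp => hfix p (cir_sub hp) (ha.2 p hp).1
    have hg'MB : g' ∈ MB := ⟨by rintro _ rfl; exact hL, fun p hp => ⟨hg'C p hp, by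
      rw [dg_eq_of_germ (cir_sub hp) (hgerm p hp)]; exact (ha.2 p hp).2⟩⟩
    have hk : g'⁻¹ * a ∈ KK := by
      constructor
      · rintro _ rfl
        exact hL.inv.mul (ha.1 0 rfl)
      · intro p hp
        exact germ_inv_mul (hgerm p hp)
    obtain ⟨g₁, g₂, g₃, g₄, hfac, h1, h2, h3, h4⟩ := hfrag g' hS hL hg'C
    have m1 := h1.mem_MB hg'MB
    have m2 := h2.mem_MB hg'MB
    have m3 := h3.mem_MB hg'MB
    have m4 := h4.mem_MB hg'MB
    have A1 := absorb_EE_MB hφ (by simp) (h1.mem_EE hL) m1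
    have A2 := absorb_EE_MB hφ (by simp) (h2.mem_EE hL) m2
    have A3 := absorb_EE_MB hφ (by simp) (h3.mem_EE hL) m3
    have A4 := absorb_EE_MB hφ (by simp) (h4.mem_EE hL) m4
    have A5 : Absorb φ MB (g'⁻¹ * a) := absorb_KK hφ hk
    have A : Absorb φ MB g' := by
      rw [hfac]
      exact A1.mul (A2.mul (A3.mul A4 m4) (MB.mul_mem m3 m4)) (MB.mul_mem m2 (MB.mul_mem m3 m4))
    have := A.mul A5 (kk_le_mb hk)
    rwa [mul_inv_cancel_left] at this
  exact fun b hb => key b hb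

end DiskQM
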