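import Pool.Agent.helper52.DQ.Rep2

/-!
Additivity on the group `NN` of diffeomorphisms which are tangent to the identity at `0` and the
identity near the boundary.
-/

open Set Metric Filter Topology
open scoped ContDiff ComplexConjugate

noncomputable section

namespace DiskQM

/-- radial twists -/
theorem exists_twist {ρ : ℂ → ℝ} (hρ : ContDiff ℝ ∞ ρ) (hrad : ∀ z w : ℂ, ‖z‖ = ‖w‖ → ρ z = ρ w) :
    ∃ g : DiffD, (∀ z ∈ Disk, g • z = z * Complex.exp (ρ z * Complex.I)) ∧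
      (∀ z ∈ Disk, g⁻¹ • z = z * Complex.exp (-(ρ z * Complex.I))) := by
  have hE : ContDiff ℝ ∞ (fun z => Complex.exp (ρ z * Complex.I)) :=
    ((Complex.ofRealCLM.contDiff.comp hρ).mul contDiff_const).cexp
  have hE' : ContDiff ℝ ∞ (fun z => Complex.exp (-(ρ z * Complex.I))) :=
    (((Complex.ofRealCLM.contDiff.comp hρ).mul contDiff_const).neg).cexp
  have hn : ∀ z : ℂ, ‖z * Complex.exp (ρ z * Complex.I)‖ = ‖z‖ := by
    intro z
    rw [norm_mul, Complex.norm_exp_ofReal_mul_I, mul_one]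
  have hn' : ∀ z : ℂ, ‖z * Complex.exp (-(ρ z * Complex.I))‖ = ‖z‖ := by
    intro z
    have : -((ρ z : ℂ) * Complex.I) = ((-ρ z : ℝ) : ℂ) * Complex.I := by push_cast; ring
    rw [norm_mul, this, Complex.norm_exp_ofReal_mul_I, mul_one]
  apply exists_of_inverse (f := fun z => z * Complex.exp (ρ z * Complex.I))
    (f' := fun z => z * Complex.exp (-(ρ z * Complex.I)))
  · intro z hz
    rw [mem_disk] at hz ⊢
    rwa [hn]
  · intro z hz
    rw [mem_disk] at hz ⊢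
    rwa [hn']
  · intro z _
    rw [hrad _ _ (hn z), mul_assoc, ← Complex.exp_add, add_neg_cancel, Complex.exp_zero, mul_one]
  · intro z _
    rw [hrad _ _ (hn' z), mul_assoc, ← Complex.exp_add, neg_add_cancel, Complex.exp_zero, mul_one]
  · exact (contDiff_id.mul hE).contDiffOn
  · exact (contDiff_id.mul hE').contDiffOn
  · simp
  · have h1 : HasFDerivAt (fun z => z * Complex.exp (ρ z * Complex.I))
        ((0:ℂ) • fderiv ℝ (fun z => Complex.exp (ρ z * Complex.I)) 0 +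
          Complex.exp (ρ 0 * Complex.I) • ContinuousLinearMap.id ℝ ℂ) 0 :=
      (hasFDerivAt_id (0:ℂ)).mul ((hE.differentiable (by simp) 0).hasFDerivAt)
    rw [h1.hasFDerivWithinAt.fderivWithin (uniqueDiffOn_disk 0 zero_mem_disk), zero_smul, zero_add, det_eq]
    have h2 : (Complex.exp (ρ 0 * Complex.I)).re ^ 2 + (Complex.exp (ρ 0 * Complex.I)).im ^ 2 = 1 := by
      have := Complex.norm_exp_ofReal_mul_I (ρ 0)
      have h3 := Complex.normSq_eq_norm_sq (Complex.exp (ρ 0 * Complex.I))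
      rw [this, Complex.normSq_apply] at h3
      linarith
    simp only [smul_apply, ContinuousLinearMap.id_apply, smul_eq_mul, mul_one,
      Complex.mul_re, Complex.mul_im, Complex.I_re, Complex.I_im, mul_zero, zero_sub, add_zero]
    nlinarith

/-- diffeomorphisms supported in the ball of radius `η` -/
def GB (η : ℝ) : Subgroup DiffD := FixSub {z | z ∈ Disk ∧ η ≤ ‖z‖}

theorem mem_GB {η : ℝ} {g : DiffD} : g ∈ GB η ↔ ∀ z ∈ Disk, η ≤ ‖z‖ → g • z = z :=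
  ⟨fun h z h1 h2 => h z ⟨h1, h2⟩, fun h z hz => h z hz.1 hz.2⟩

theorem GB_fix {η : ℝ} {g : DiffD} (hg : g ∈ GB η) {z : ℂ} (hz : η ≤ ‖z‖) : g • z = z := by
  by_cases h : z ∈ Disk
  · exact mem_GB.mp hg z h hz
  · exact smul_notMem g h

theorem GB_mono {η η' : ℝ} (h : η ≤ η') : GB η ≤ GB η' :=
  fun _ hg => mem_GB.mpr (fun _ _ hz' => GB_fix hg (h.trans hz'))

theorem GB_norm_lt {η : ℝ} {g : DiffD} (hg : g ∈ GB η) {z : ℂ} (hz : ‖z‖ < η) : ‖g • z‖ < η := by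
  by_contra hcon
  have h1 : g • (g • z) = g • z := GB_fix hg (not_lt.mp hcon)
  have h2 := smul_left_cancel g h1
  rw [h2] at hcon
  exact hcon hz

theorem GB_contDiff {η : ℝ} (hη : η < 1) {g : DiffD} (hg : g ∈ GB η) : ContDiff ℝ ∞ (fun z : ℂ => g • z) := by
  rw [contDiff_iff_contDiffAt]
  intro z
  by_cases hz : ‖z‖ < 1
  · exact (contDiffOn_smul g).contDiffAt (disk_mem_nhds hz)
  · have h1 : (fun z : ℂ => g • z) =ᶠ[𝓝 z] id := by
      have h2 : {w : ℂ | η < ‖w‖} ∈ 𝓝 z := by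
        apply (isOpen_lt continuous_const continuous_norm).mem_nhds
        show η < ‖z‖
        linarith [not_lt.mp hz]
      filter_upwards [h2] with w hw using GB_fix hg (le_of_lt hw)
    exact contDiffAt_id.congr_of_eventuallyEq h1

theorem exists_trn {g : DiffD} (hg : g ∈ GB (1 / 10)) :
    ∃ g' : DiffD, g' ∈ KK ∧ ∀ z ∈ Disk, g' • z = g • (z - (1 / 5 : ℂ)) + (1 / 5 : ℂ) := by
  have hc : ‖(1 / 5 : ℂ)‖ = 1 / 5 := by norm_num
  have hc2 : ∀ z : ℂ, ‖z‖ ≤ 1 / 5 + ‖z - (1 / 5 : ℂ)‖ := by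
    intro z
    have := norm_add_le (1 / 5 : ℂ) (z - (1 / 5 : ℂ))
    rw [add_sub_cancel, hc] at this
    exact this
  have hc3 : ∀ z : ℂ, ‖z - (1 / 5 : ℂ)‖ ≤ 1 / 5 + ‖z‖ := by
    intro z
    have := norm_sub_le z (1 / 5 : ℂ)
    rw [hc] at this
    linarith
  have hc4 : ∀ z : ℂ, 1 / 5 ≤ ‖z‖ + ‖z - (1 / 5 : ℂ)‖ := by
    intro z
    have := norm_sub_le z (z - (1 / 5 : ℂ))
    rw [sub_sub_cancel, hc] at this
    exact this
  have hmaps : ∀ g ∈ GB (1 / 10), MapsTo (fun z : ℂ => g • (z - (1 / 5 : ℂ)) + (1 / 5 : ℂ)) Disk Disk := by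
    intro g hg z hz
    rcases lt_or_ge ‖z - (1 / 5 : ℂ)‖ (1 / 10) with h | h
    · have h1 := GB_norm_lt hg h
      have h2 := norm_add_le (g • (z - (1 / 5 : ℂ))) (1 / 5 : ℂ)
      rw [hc] at h2
      rw [mem_disk]
      linarith
    · simp only
      rw [GB_fix hg h, sub_add_cancel]
      exact hz
  have hfix : ∀ g ∈ GB (1 / 10), ∀ z : ℂ, 1 / 10 ≤ ‖z - (1 / 5 : ℂ)‖ → g • (z - (1 / 5 : ℂ)) + (1 / 5 : ℂ) = z := by
    intro g hg z hz
    rw [GB_fix hg hz, sub_add_cancel]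
  have hcd : ∀ g ∈ GB (1 / 10), ContDiffOn ℝ ∞ (fun z : ℂ => g • (z - (1 / 5 : ℂ)) + (1 / 5 : ℂ)) Disk := by
    intro g hg
    exact ((GB_contDiff (by norm_num) hg).comp (contDiff_id.sub contDiff_const)).add contDiff_const |>.contDiffOn
  have hnear : ∀ᶠ z in 𝓝 (0:ℂ), g • (z - (1 / 5 : ℂ)) + (1 / 5 : ℂ) = z := by
    filter_upwards [Metric.closedBall_mem_nhds (0:ℂ) (by norm_num : (0:ℝ) < 1 / 10)] with z hz
    apply hfix g hg
    have h1 : ‖z‖ ≤ 1 / 10 := by simpa using hz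
    linarith [hc4 z]
  obtain ⟨g', h1, -⟩ := exists_of_inverse (hmaps g hg) (hmaps g⁻¹ (inv_mem hg))
    (fun z _ => by simp) (fun z _ => by simp) (hcd g hg) (hcd g⁻¹ (inv_mem hg)) hnear.self_of_nhds
    (by
      have h2 : (fun z : ℂ => g • (z - (1 / 5 : ℂ)) + (1 / 5 : ℂ)) =ᶠ[𝓝[Disk] 0] id := nhdsWithin_le_nhds hnear
      rw [h2.fderivWithin_eq hnear.self_of_nhds, fderivWithin_id (uniqueDiffOn_disk 0 zero_mem_disk), det_id']
      exact one_pos)
  refine ⟨g', ⟨?_, ?_⟩, h1⟩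
  · rintro _ rfl
    filter_upwards [nhdsWithin_le_nhds hnear, self_mem_nhdsWithin] with z hz hzD
    rw [h1 z hzD, hz]
  · intro p hp
    have h2 : {w : ℂ | 1 / 2 < ‖w‖} ∈ 𝓝[Disk] p := by
      apply nhdsWithin_le_nhds
      apply (isOpen_lt continuous_const continuous_norm).mem_nhds
      show 1 / 2 < ‖p‖
      rw [show ‖p‖ = 1 from hp]; norm_num
    filter_upwards [h2, self_mem_nhdsWithin] with z hz hzD
    rw [h1 z hzD]
    apply hfix g hg
    have h3 : 1 / 2 < ‖z‖ := hz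
    linarith [hc2 z]

/-- data of the translated diffeomorphisms -/
structure Trn (tr : DiffD → DiffD) : Prop where
  mem : ∀ g ∈ GB (1 / 10), tr g ∈ KK
  eq : ∀ g ∈ GB (1 / 10), ∀ z ∈ Disk, tr g • z = g • (z - (1 / 5 : ℂ)) + (1 / 5 : ℂ)

theorem exists_Trn : ∃ tr, Trn tr := by
  choose! tr h1 h2 using fun (g : DiffD) (hg : g ∈ GB (1 / 10)) => exists_trn hg
  exact ⟨tr, h1, h2⟩

theorem Trn.mul {tr : DiffD → DiffD} (h : Trn tr) {a b : DiffD} (ha : a ∈ GB (1 / 10)) (hb : b ∈ GB (1 / 10)) :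
    tr (a * b) = tr a * tr b := by
  apply ext_smul
  intro z hz
  rw [h.eq _ (mul_mem ha hb) z hz, mul_smul, mul_smul, h.eq a ha _ (smul_mem _ hz), h.eq b hb z hz, add_sub_cancel_right]

variable {φ : DiffD → ℝ} {C : ℝ}

theorem Trn.addOn (hφ : HQM φ C) {tr : DiffD → DiffD} (h : Trn tr) :
    AddOn (fun g => φ (tr g)) (GB (1 / 10) : Subgroup DiffD) := by
  intro a ha b hb
  simp only
  rw [h.mul ha hb]
  exact addOn_KK hφ _ (h.mem a ha) _ (h.mem b hb)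

/-- the difference `χ = φ - φ ∘ tr`. -/
structure Chi (φ χ : DiffD → ℝ) (C : ℝ) : Prop where
  defect : ∀ a ∈ GB (1 / 10), ∀ b ∈ GB (1 / 10), |χ (a * b) - χ a - χ b| ≤ C
  inv : ∀ a ∈ GB (1 / 10), χ a⁻¹ = - χ a
  cnj : ∀ a ∈ GB (1 / 10), ∀ b ∈ GB (1 / 10), χ (b * a * b⁻¹) = χ a
  mulK : ∀ a ∈ GB (1 / 10), ∀ k ∈ GB (1 / 10), k ∈ KK → χ (a * k) = χ a + χ k
  addK : ∀ a ∈ GB (1 / 10), a ∈ KK → ∀ k ∈ GB (1 / 10), k ∈ KK → χ (a * k) = χ a + χ k
  close : AddOn (fun g => φ g - χ g) (GB (1 / 10) : Subgroup DiffD)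

theorem Trn.chi (hφ : HQM φ C) {tr : DiffD → DiffD} (h : Trn tr) :
    Chi φ (fun g => φ g - φ (tr g)) C := by
  have hadd := h.addOn hφ
  have hone : φ (tr 1) = 0 := by
    have := hadd 1 (one_mem _) 1 (one_mem _)
    simp only [mul_one] at this
    linarith
  have hinv : ∀ a ∈ GB (1 / 10), φ (tr a⁻¹) = - φ (tr a) := by
    intro a ha
    have := hadd a ha a⁻¹ (inv_mem ha)
    simp only [mul_inv_cancel, hone] at this
    linarith
  have hmul : ∀ a ∈ GB (1 / 10), ∀ b ∈ GB (1 / 10), φ (tr (a * b)) = φ (tr a) + φ (tr b) :=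
    fun a ha b hb => hadd a ha b hb
  refine ⟨?_, ?_, ?_, ?_, ?_, ?_⟩
  · intro a ha b hb
    have e : φ (a * b) - φ (tr (a * b)) - (φ a - φ (tr a)) - (φ b - φ (tr b)) = φ (a * b) - φ a - φ b := by
      rw [hmul a ha b hb]; ring
    rw [e]
    exact hφ.defect a b
  · intro a ha
    rw [hφ.map_inv, hinv a ha]; ring
  · intro a ha b hb
    rw [hφ.conj, hmul _ (mul_mem hb ha) _ (inv_mem hb), hmul b hb a ha, hinv b hb]; ring
  · intro a ha k hk hkK
    rw [hφ.mul_right_of_norm (addOn_KK hφ) (fun x hx => kk_normal.conj_mem x hx a) hkK, hmul a ha k hk]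
    ring
  · intro a ha _ k hk hkK
    rw [hφ.mul_right_of_norm (addOn_KK hφ) (fun x hx => kk_normal.conj_mem x hx a) hkK, hmul a ha k hk]
    ring
  · intro a ha b hb
    simp only [sub_sub_cancel]
    exact hmul a ha b hb

/-- step (a), direction `1`. -/
theorem phi_eq_tr_one (hφ : HQM φ C) {tr : DiffD → DiffD} (h : Trn tr) {k : DiffD} (hk : k ∈ KK)
    (hk' : k ∈ GB (1 / 10)) (hs : ∀ z ∈ Disk, z.re ≤ ‖z‖ / 5 → k • z = z) : φ k = φ (tr k) := by
  obtain ⟨r, _, hr0, -, -, -, hr⟩ := kk_radii hk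
  obtain ⟨M, hM0, hM⟩ := exists_st_bound
  obtain ⟨ρ₂, hρc, hρ0, hρ1, hρz, hρo, -⟩ := exists_cut hM (δ := 1 / 2) (by norm_num)
  set ρ : ℂ → ℝ := fun z => Real.smoothTransition (z.re / (r / 5)) * ρ₂ z with hρ
  have hρs : ContDiff ℝ ∞ ρ := by
    refine ContDiff.mul ?_ hρc
    exact (Real.smoothTransition.contDiff (n := ⊤)).comp (Complex.reCLM.contDiff.div_const _)
  have hρone : ∀ z : ℂ, r / 5 ≤ z.re → ‖z‖ ≤ 1 / 2 → ρ z = 1 := by
    intro z h1 h2
    have : Real.smoothTransition (z.re / (r / 5)) = 1 := by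
      apply Real.smoothTransition.one_of_one_le
      rwa [one_le_div (by positivity)]
    rw [hρ]; simp [this, hρo z h2]
  have hρzero : ρ 0 = 0 := by
    have : Real.smoothTransition ((0:ℂ).re / (r / 5)) = 0 := by
      apply Real.smoothTransition.zero_of_nonpos; simp
    rw [hρ]; simp only [this, zero_mul]
  have hρcir : ∀ p : ℂ, ‖p‖ = 1 → ρ p = 0 := by
    intro p hp
    have : ρ₂ p = 0 := hρz p (by rw [hp]; norm_num)
    rw [hρ]; simp [this]
  -- bound of the derivative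
  obtain ⟨B, hB⟩ : ∃ B : ℝ, ∀ z ∈ Disk, ‖fderiv ℝ ρ z‖ ≤ B :=
    (isCompact_closedBall (0:ℂ) 1).exists_bound_of_continuousOn
      (hρs.continuous_fderiv (by simp)).continuousOn
  have hB0 : 0 ≤ B := (norm_nonneg _).trans (hB 0 zero_mem_disk)
  obtain ⟨n, hn⟩ := exists_nat_gt (8 * B + 1)
  have hn0 : (0:ℝ) < n := by linarith
  set δ : ℝ := (1 / 5) / n with hδ
  have hδ0 : 0 < δ := by positivity
  have hδB : δ * B ≤ 1 / 8 := by
    rw [hδ, div_mul_eq_mul_div, div_le_iff₀ hn0]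
    linarith
  have hnδ : (n : ℝ) * δ = 1 / 5 := by rw [hδ]; field_simp
  set u : ℂ → ℂ := fun z => (((δ * ρ z : ℝ)) : ℂ) with hu
  have huc : ContDiff ℝ ∞ u := Complex.ofRealCLM.contDiff.comp (contDiff_const.mul hρs)
  have hud : ∀ z ∈ Disk, ‖fderivWithin ℝ u Disk z‖ ≤ 1 / 8 := by
    intro z hz
    have h1 : HasFDerivAt (fun z => δ * ρ z) (δ • fderiv ℝ ρ z) z :=
      ((hρs.differentiable (by simp) z).hasFDerivAt).const_mul δ
    have h2 : HasFDerivAt u (Complex.ofRealCLM.comp (δ • fderiv ℝ ρ z)) z :=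
      Complex.ofRealCLM.hasFDerivAt.comp z h1
    rw [h2.hasFDerivWithinAt.fderivWithin (uniqueDiffOn_disk z hz)]
    refine (ContinuousLinearMap.opNorm_comp_le _ _).trans ?_
    rw [Complex.ofRealCLM_norm, one_mul, norm_smul, Real.norm_of_nonneg hδ0.le]
    exact (mul_le_mul_of_nonneg_left (hB z hz) hδ0.le).trans hδB
  obtain ⟨g, hg⟩ := exists_small_zero huc.contDiffOn hud (by simp [hu, hρzero])
    (fun p hp => by simp [hu, hρcir p hp])
  have hpow : ∀ j : ℕ, j ≤ n → ∀ z : ℂ, r / 5 ≤ z.re → ‖z‖ ≤ 1 / 10 → g ^ j • z = z + ((j * δ : ℝ) : ℂ) := by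
    intro j
    induction j with
    | zero => intro _ z _ _; simp
    | succ j ih =>
      intro hj z h1 h2
      have hjn : (j : ℝ) * δ ≤ 1 / 5 := by
        rw [← hnδ]
        gcongr
        omega
      have hjn0 : 0 ≤ (j : ℝ) * δ := by positivity
      have h3 : ‖z + ((j * δ : ℝ) : ℂ)‖ ≤ 1 / 2 := by
        refine (norm_add_le _ _).trans ?_
        rw [Complex.norm_real, Real.norm_of_nonneg hjn0]
        linarith
      have h4 : r / 5 ≤ (z + ((j * δ : ℝ) : ℂ)).re := by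
        rw [Complex.add_re, Complex.ofReal_re]; linarith
      rw [pow_succ', mul_smul, ih (by omega) z h1 h2, hg _ (mem_disk.mpr (h3.trans (by norm_num)))]
      simp only [hu, hρone _ h4 h3]
      push_cast
      ring
  set H := g ^ n with hH
  have hHz : ∀ z ∈ Disk, k • z ≠ z → H • z = z + (1 / 5 : ℂ) := by
    intro z hz hkz
    have h1 : ‖z‖ < 1 / 10 := by
      by_contra hcon
      exact hkz (GB_fix hk' (not_lt.mp hcon))
    have h2 : r < ‖z‖ := by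
      by_contra hcon
      exact hkz (hr z hz (Or.inl (not_lt.mp hcon)))
    have h3 : ‖z‖ / 5 < z.re := by
      by_contra hcon
      exact hkz (hs z hz (not_lt.mp hcon))
    rw [hpow n le_rfl z (by linarith) h1.le, hnδ]
    push_cast
    ring
  have hconj : H * k * H⁻¹ = tr k := by
    apply ext_smul
    intro z hz
    rw [h.eq k hk' z hz, mul_smul, mul_smul]
    set y := H⁻¹ • z with hy
    have hyD : y ∈ Disk := smul_mem _ hz
    have hHy : H • y = z := smul_inv_smul H z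
    by_cases hky : k • y = y
    · rw [hky, hHy]
      by_cases hkz : k • (z - (1 / 5 : ℂ)) = z - (1 / 5 : ℂ)
      · rw [hkz, sub_add_cancel]
      · exfalso
        have hzD : z - (1 / 5 : ℂ) ∈ Disk := by
          by_contra hcon
          exact hkz (smul_notMem k hcon)
        have h1 := hHz _ hzD hkz
        rw [sub_add_cancel] at h1
        have h2 : y = z - (1 / 5 : ℂ) := by rw [hy, inv_smul_eq_iff, h1]
        rw [← h2] at hkz
        exact hkz hky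
    · have h1 := hHz y hyD hky
      have h2 : k • (k • y) ≠ k • y := fun hcon => hky (smul_left_cancel k hcon)
      have h3 := hHz _ (smul_mem k hyD) h2
      rw [h3]
      rw [hHy] at h1
      rw [h1, add_sub_cancel_right]
  rw [← hconj, hφ.conj]

/-- step (a) -/
theorem phi_eq_tr (hφ : HQM φ C) {tr : DiffD → DiffD} (h : Trn tr) {k : DiffD} (hk : k ∈ KK)
    (hk' : k ∈ GB (1 / 20)) {w : ℂ} (hw : ‖w‖ = 1)
    (hs : ∀ z ∈ Disk, (conj w * z).re ≤ ‖z‖ / 5 → k • z = z) : φ k = φ (tr k) := by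
  obtain ⟨R, hR, hR'⟩ := exists_twist (ρ := fun z => -w.arg * (1 - rad (1 / 400) (3 / 400) z))
    (contDiff_const.mul (contDiff_const.sub (rad_contDiff _ _)))
    (fun z w hzw => by simp only [rad, hzw])
  have hRG : R ∈ GB (1 / 10) := by
    rw [mem_GB]
    intro z hz hz2
    have : rad (1 / 400) (3 / 400) z = 1 := by
      apply Real.smoothTransition.one_of_one_le
      rw [le_div_iff₀ (by norm_num)]
      nlinarith
    rw [hR z hz]
    simp only [this, sub_self, mul_zero, Complex.ofReal_zero, zero_mul, Complex.exp_zero, mul_one]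
  have hwe : Complex.exp (w.arg * Complex.I) = w := by
    have := Complex.norm_mul_exp_arg_mul_I w
    rwa [hw, Complex.ofReal_one, one_mul] at this
  have hRi : ∀ z : ℂ, ‖z‖ ≤ 1 / 20 → R⁻¹ • z = w * z := by
    intro z hz
    have : rad (1 / 400) (3 / 400) z = 0 := by
      apply Real.smoothTransition.zero_of_nonpos
      apply div_nonpos_of_nonpos_of_nonneg _ (by norm_num)
      nlinarith [norm_nonneg z]
    rw [hR' z (mem_disk.mpr (hz.trans (by norm_num)))]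
    simp only [this]
    have e : -((((-w.arg) * (1 - 0) : ℝ) : ℂ) * Complex.I) = w.arg * Complex.I := by push_cast; ring
    rw [e, hwe, mul_comm]
  have hkG : k ∈ GB (1 / 10) := GB_mono (by norm_num) hk'
  set k' := R * k * R⁻¹ with hk'def
  have hk'K : k' ∈ KK := kk_normal.conj_mem k hk R
  have hk'G : k' ∈ GB (1 / 10) := mul_mem (mul_mem hRG hkG) (inv_mem hRG)
  have hnorm : ∀ z ∈ Disk, ‖R⁻¹ • z‖ = ‖z‖ := by
    intro z hz
    rw [hR' z hz, norm_mul]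
    have : -((((-w.arg) * (1 - rad (1 / 400) (3 / 400) z) : ℝ) : ℂ) * Complex.I) =
      ((w.arg * (1 - rad (1 / 400) (3 / 400) z) : ℝ) : ℂ) * Complex.I := by push_cast; ring
    rw [this, Complex.norm_exp_ofReal_mul_I, mul_one]
  have hsupp : ∀ z ∈ Disk, z.re ≤ ‖z‖ / 5 → k' • z = z := by
    intro z hz hz2
    have key : k • (R⁻¹ • z) = R⁻¹ • z := by
      by_cases h1 : ‖z‖ ≤ 1 / 20
      · apply hs _ (smul_mem _ hz)
        rw [hnorm z hz, hRi z h1, ← mul_assoc, mul_comm (conj w), Complex.mul_conj, Complex.normSq_eq_norm_sq, hw]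
        simpa using hz2
      · apply GB_fix hk'
        rw [hnorm z hz]
        exact (not_le.mp h1).le
    rw [hk'def, mul_smul, mul_smul, key, smul_inv_smul]
  have h1 := phi_eq_tr_one hφ h hk'K hk'G hsupp
  have h2 := (h.chi hφ).cnj k hkG R hRG
  rw [hk'def] at h1
  linarith

/-- step (b) -/
theorem chi_small (hφ : HQM φ C) {tr : DiffD → DiffD} (h : Trn tr) :
    ∃ ε₀ : ℝ, 0 < ε₀ ∧ ∀ k ∈ KK, k ∈ GB (1 / 20) → Sm k ε₀ → φ k - φ (tr k) = 0 := by
  obtain ⟨ε₀, hε₀, hfrag⟩ := exists_frag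
  refine ⟨ε₀, hε₀, fun k hk hkG hkS => ?_⟩
  obtain ⟨g₁, g₂, g₃, g₄, hfac, h1, h2, h3, h4⟩ := hfrag k hkS (hk.1 0 rfl)
    (fun p hp => (hk.2 p hp).eq (cir_sub hp))
  have hG : ∀ {gk : DiffD} {w : ℂ}, IsPiece k gk w → gk ∈ GB (1 / 20) := by
    intro gk w hp
    rw [mem_GB]
    intro z hz hz2
    exact hp.fix z hz (mem_GB.mp hkG z hz hz2)
  have hz : ∀ {gk : DiffD} {w : ℂ}, IsPiece k gk w → ‖w‖ = 1 → φ gk - φ (tr gk) = 0 := by
    intro gk w hp hw
    rw [phi_eq_tr hφ h (hp.mem_KK hk) (hG hp) hw hp.supp, sub_self]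
  have hG' : ∀ {gk : DiffD} {w : ℂ}, IsPiece k gk w → gk ∈ GB (1 / 10) := fun hp => GB_mono (by norm_num) (hG hp)
  have hadd := (h.chi hφ).addK
  have e1 := hadd g₃ (hG' h3) (h3.mem_KK hk) g₄ (hG' h4) (h4.mem_KK hk)
  have e2 := hadd g₂ (hG' h2) (h2.mem_KK hk) (g₃ * g₄) (mul_mem (hG' h3) (hG' h4))
    (mul_mem (h3.mem_KK hk) (h4.mem_KK hk))
  have e3 := hadd g₁ (hG' h1) (h1.mem_KK hk) (g₂ * (g₃ * g₄)) (mul_mem (hG' h2) (mul_mem (hG' h3) (hG' h4)))
    (mul_mem (h2.mem_KK hk) (mul_mem (h3.mem_KK hk) (h4.mem_KK hk)))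
  rw [hfac, e3, e2, e1, hz h1 (by simp), hz h2 (by simp), hz h3 (by simp), hz h4 (by simp)]
  ring

/-- multiplicative size -/
theorem Sm.mul' {g h : DiffD} {a b : ℝ} (hg : Sm g (a - 1)) (hh : Sm h (b - 1)) : Sm (g * h) (a * b - 1) := by
  have := hg.mul hh
  have e : (a - 1) * (1 + (b - 1)) + (b - 1) = a * b - 1 := by ring
  rwa [e] at this

/-- step (c): `χ` is bounded on small diffeomorphisms tangent to the identity. -/
theorem chi_bounded (hφ : HQM φ C) {tr : DiffD → DiffD} (h : Trn tr) :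
    ∃ ε₁ : ℝ, 0 < ε₁ ∧ ∀ y : DiffD, y ∈ GB (1 / 20) → Sm y ε₁ → dg y 0 = ContinuousLinearMap.id ℝ ℂ →
      |φ y - φ (tr y)| ≤ C := by
  obtain ⟨ε₀, hε₀, hsm⟩ := chi_small hφ h
  obtain ⟨ε₁, hε₁, hε₁2, hε₁5⟩ : ∃ ε₁ : ℝ, 0 < ε₁ ∧ ε₁ ≤ 1 / 2 ∧ (1 + 2 * ε₁) ^ 5 - 1 ≤ ε₀ := by
    have hcont : Continuous (fun e : ℝ => (1 + 2 * e) ^ 5 - 1) := by fun_prop
    have h1 : Tendsto (fun e : ℝ => (1 + 2 * e) ^ 5 - 1) (𝓝[>] 0) (𝓝 0) := by
      have := (hcont.tendsto 0).mono_left (nhdsWithin_le_nhds (s := Ioi (0:ℝ)))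
      simpa using this
    have h2 : ∀ᶠ e in 𝓝[>] (0:ℝ), (1 + 2 * e) ^ 5 - 1 < ε₀ := h1.eventually (gt_mem_nhds hε₀)
    have h3 : ∀ᶠ e in 𝓝[>] (0:ℝ), e < 1 / 2 := nhdsWithin_le_nhds (gt_mem_nhds (by norm_num))
    obtain ⟨e, ⟨he1, he2⟩, he3⟩ := ((h2.and h3).and self_mem_nhdsWithin).exists
    exact ⟨e, he3, he2.le, he1.le⟩
  refine ⟨ε₁, hε₁, fun y hyG hyS hyd => ?_⟩
  obtain ⟨t, lam, ht0, ht1, hlS, hlG, hlt⟩ := exists_lam hε₁ (η := 1 / 20) (by norm_num)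
  obtain ⟨R, S, hR, hSc, hS0, hSd, hSeq⟩ := exists_linearization hyd ht0 ht1
  obtain ⟨s, hsS, hsG, hsg⟩ := exists_rep_germ hR hSc hS0 hSd hε₁ (η := 1 / 20) (by norm_num)
  have hlG' : lam ∈ GB (1 / 20) := mem_GB.mpr hlG
  have hsG' : s ∈ GB (1 / 20) := mem_GB.mpr hsG
  -- the commutator
  set k : DiffD := lam * ((lam * s)⁻¹ * (s * y * lam)) * lam⁻¹ with hk
  have h0 : 𝓝[Disk] (0:ℂ) = 𝓝 0 := nhdsWithin_eq_nhds.mpr (disk_mem_nhds (by simp))
  have hloc : Loc ((lam * s)⁻¹ * (s * y * lam)) 0 := by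
    apply germ_inv_mul
    rw [h0] at hsg ⊢
    have hlin : Tendsto (fun z : ℂ => t • z) (𝓝 0) (𝓝 0) := by
      have := (continuous_const_smul t (T := ℂ)).tendsto 0
      rwa [smul_zero] at this
    have hy : Tendsto (fun z : ℂ => y • z) (𝓝 0) (𝓝 0) := by
      have := tendsto_smul y zero_mem_disk
      rwa [smul_zero', h0] at this
    have hs' : Tendsto (fun z : ℂ => s • z) (𝓝 0) (𝓝 0) := by
      have := tendsto_smul s zero_mem_disk
      rwa [smul_zero', h0] at this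
    have hball : ∀ᶠ z in 𝓝 (0:ℂ), z ∈ ball (0:ℂ) R := isOpen_ball.mem_nhds (mem_ball_self hR)
    filter_upwards [hlt, (hy.comp hlin).eventually hsg, hs'.eventually hlt, hsg, hball] with z a b c d e
    rw [mul_smul, mul_smul, mul_smul, a]
    simp only [Function.comp] at b
    rw [b, c, d, hSeq z e]
  have hkGB : k ∈ GB (1 / 20) := mul_mem (mul_mem hlG' (mul_mem (inv_mem (mul_mem hlG' hsG'))
    (mul_mem (mul_mem hsG' hyG) hlG'))) (inv_mem hlG')
  have hinner : (lam * s)⁻¹ * (s * y * lam) ∈ KK := by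
    constructor
    · rintro _ rfl
      exact hloc
    · have hG : (lam * s)⁻¹ * (s * y * lam) ∈ GB (1 / 20) := mul_mem (inv_mem (mul_mem hlG' hsG'))
        (mul_mem (mul_mem hsG' hyG) hlG')
      intro p hp
      have h2 : {w : ℂ | 1 / 2 < ‖w‖} ∈ 𝓝[Disk] p := by
        apply nhdsWithin_le_nhds
        apply (isOpen_lt continuous_const continuous_norm).mem_nhds
        show 1 / 2 < ‖p‖
        rw [show ‖p‖ = 1 from hp]; norm_num
      filter_upwards [h2] with z hz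
      apply GB_fix hG
      have : 1 / 2 < ‖z‖ := hz
      linarith
  have hkK : k ∈ KK := kk_normal.conj_mem _ hinner lam
  have hkeq : k = lam * s⁻¹ * lam⁻¹ * s * y := by rw [hk]; group
  have hkS : Sm k ε₀ := by
    rw [hkeq]
    have one : ∀ {g : DiffD}, Sm g ε₁ → Sm g ((1 + 2 * ε₁) - 1) := fun hg => hg.mono (by linarith)
    have two : ∀ {g : DiffD}, Sm g ε₁ → Sm g⁻¹ ((1 + 2 * ε₁) - 1) := fun hg => (hg.inv hε₁2).mono (by linarith)
    have := ((((one hlS).mul' (two hsS)).mul' (two hlS)).mul' (one hsS)).mul' (one hyS)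
    refine this.mono ?_
    refine le_trans (le_of_eq ?_) hε₁5
    ring
  have hchik := hsm k hkK hkGB hkS
  have hchi := h.chi hφ
  have m : GB (1 / 20) ≤ GB (1 / 10) := GB_mono (by norm_num)
  have hyeq : y = s⁻¹ * (lam * s * lam⁻¹) * k := by rw [hkeq]; group
  have e1 := hchi.mulK (s⁻¹ * (lam * s * lam⁻¹)) (mul_mem (inv_mem (m hsG')) (mul_mem (mul_mem (m hlG') (m hsG'))
    (inv_mem (m hlG')))) k (m hkGB) hkK
  rw [← hyeq, hchik, add_zero] at e1
  have e2 := hchi.defect s⁻¹ (inv_mem (m hsG')) (lam * s * lam⁻¹) (mul_mem (mul_mem (m hlG') (m hsG')) (inv_mem (m hlG')))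
  rw [hchi.inv s (m hsG'), hchi.cnj s (m hsG') lam (m hlG'), ← e1] at e2
  have e3 : φ y - φ (tr y) - -(φ s - φ (tr s)) - (φ s - φ (tr s)) = φ y - φ (tr y) := by ring
  rw [e3] at e2
  exact e2

/-- tangent to the identity at `0` and supported in the ball of radius `1/10` -/
def NB : Subgroup DiffD := TanSub {0} inv_zero.1 ⊓ GB (1 / 10)

theorem GB_loc_cir {η : ℝ} (hη : η < 1) {g : DiffD} (hg : g ∈ GB η) : g ∈ LocSub Cir := by
  intro p hp
  have h2 : {w : ℂ | η < ‖w‖} ∈ 𝓝[Disk] p := by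
    apply nhdsWithin_le_nhds
    apply (isOpen_lt continuous_const continuous_norm).mem_nhds
    show η < ‖p‖
    rw [show ‖p‖ = 1 from hp]; exact hη
  filter_upwards [h2] with z hz using GB_fix hg (le_of_lt hz)

theorem addOn_NB (hφ : HQM φ C) : AddOn φ (NB : Subgroup DiffD) := by
  obtain ⟨tr, h⟩ := exists_Trn
  have hchi := h.chi hφ
  set χ : DiffD → ℝ := fun g => φ g - φ (tr g) with hχ
  obtain ⟨ε₀, hε₀, hsm⟩ := chi_small hφ h
  obtain ⟨ε₁, hε₁, hbd⟩ := chi_bounded hφ h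
  have m : GB (1 / 20) ≤ GB (1 / 10) := GB_mono (by norm_num)
  obtain ⟨δ, hδ0, hδ1, hδ2, hδ3⟩ : ∃ δ : ℝ, 0 < δ ∧ δ ≤ 1 / 2 ∧ δ ≤ ε₁ ∧ (1 + 2 * δ) ^ 3 - 1 ≤ ε₀ := by
    have hcont : Continuous (fun e : ℝ => (1 + 2 * e) ^ 3 - 1) := by fun_prop
    have h1 : Tendsto (fun e : ℝ => (1 + 2 * e) ^ 3 - 1) (𝓝[>] 0) (𝓝 0) := by
      have := (hcont.tendsto 0).mono_left (nhdsWithin_le_nhds (s := Ioi (0:ℝ)))
      simpa using this
    have h2 : ∀ᶠ e in 𝓝[>] (0:ℝ), (1 + 2 * e) ^ 3 - 1 < ε₀ := h1.eventually (gt_mem_nhds hε₀)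
    have h3 : ∀ᶠ e in 𝓝[>] (0:ℝ), e < 1 / 2 := nhdsWithin_le_nhds (gt_mem_nhds (by norm_num))
    have h4 : ∀ᶠ e in 𝓝[>] (0:ℝ), e < ε₁ := nhdsWithin_le_nhds (gt_mem_nhds hε₁)
    obtain ⟨e, ⟨⟨he1, he2⟩, he4⟩, he3⟩ := (((h2.and h3).and h4).and self_mem_nhdsWithin).exists
    exact ⟨e, he3, he2.le, he4.le, he1.le⟩
  -- small representatives
  have hrep : ∀ x ∈ NB, ∃ y : DiffD, Sm y δ ∧ y ∈ GB (1 / 20) ∧ dg y 0 = ContinuousLinearMap.id ℝ ℂ ∧
      Loc (y⁻¹ * x) 0 := by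
    intro x hx
    obtain ⟨y, h1, h2, h3⟩ := exists_rep_zero (hx.1 0 rfl).2 hδ0 (η := 1 / 20) (by norm_num)
    exact ⟨y, h1, mem_GB.mpr h2, by rw [dg_eq_of_germ zero_mem_disk h3]; exact (hx.1 0 rfl).2, germ_inv_mul h3⟩
  choose! y hyS hyG hyd hyL using hrep
  set ξ : DiffD → ℝ := fun x => χ ((y x)⁻¹ * x) with hξ
  have hkK : ∀ x ∈ NB, ∀ u ∈ GB (1 / 20), Loc (u⁻¹ * x) 0 → u⁻¹ * x ∈ KK ∧ u⁻¹ * x ∈ GB (1 / 10) := by
    intro x hx u hu hL
    have hG : u⁻¹ * x ∈ GB (1 / 10) := mul_mem (inv_mem (m hu)) hx.2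
    exact ⟨⟨by rintro _ rfl; exact hL, GB_loc_cir (by norm_num) hG⟩, hG⟩
  -- independence of the representative
  have hindep : ∀ x ∈ NB, ∀ u ∈ GB (1 / 20), Sm u ((1 + 2 * δ) ^ 2 - 1) → Loc (u⁻¹ * x) 0 → ξ x = χ (u⁻¹ * x) := by
    intro x hx u hu huS huL
    obtain ⟨a1, a2⟩ := hkK x hx _ (hyG x hx) (hyL x hx)
    obtain ⟨b1, b2⟩ := hkK x hx u hu huL
    have hcG : (y x)⁻¹ * u ∈ GB (1 / 20) := mul_mem (inv_mem (hyG x hx)) hu
    have hceq : (y x)⁻¹ * u = ((y x)⁻¹ * x) * (u⁻¹ * x)⁻¹ := by group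
    have hcK : (y x)⁻¹ * u ∈ KK := by rw [hceq]; exact mul_mem a1 (inv_mem b1)
    have hcS : Sm ((y x)⁻¹ * u) ε₀ := by
      have two : Sm (y x)⁻¹ ((1 + 2 * δ) - 1) := ((hyS x hx).inv hδ1).mono (by linarith)
      refine (two.mul' huS).mono ?_
      refine le_trans (le_of_eq ?_) hδ3
      ring
    have h1 : χ ((y x)⁻¹ * u) = 0 := hsm _ hcK hcG hcS
    have h2 := hchi.addK _ (m hcG) hcK _ b2 b1
    rw [h1, zero_add] at h2
    rw [← h2, hξ]
    group
  have hξadd : AddOn ξ NB := by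
    intro a ha b hb
    have hab : a * b ∈ NB := mul_mem ha hb
    obtain ⟨a1, a2⟩ := hkK a ha _ (hyG a ha) (hyL a ha)
    obtain ⟨b1, b2⟩ := hkK b hb _ (hyG b hb) (hyL b hb)
    have e : (y a * y b)⁻¹ * (a * b) = ((y b)⁻¹ * ((y a)⁻¹ * a) * (y b)) * ((y b)⁻¹ * b) := by group
    have c1 : (y b)⁻¹ * ((y a)⁻¹ * a) * (y b) ∈ KK := by
      have := kk_normal.conj_mem _ a1 (y b)⁻¹
      rwa [inv_inv] at this
    have c2 : (y b)⁻¹ * ((y a)⁻¹ * a) * (y b) ∈ GB (1 / 10) := mul_mem (mul_mem (inv_mem (m (hyG b hb))) a2) (m (hyG b hb))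
    have hL : Loc ((y a * y b)⁻¹ * (a * b)) 0 := by
      rw [e]
      exact (c1.1 0 rfl).mul (b1.1 0 rfl)
    have one : ∀ {g : DiffD}, Sm g δ → Sm g ((1 + 2 * δ) - 1) := fun hg => hg.mono (by linarith)
    have hS : Sm (y a * y b) ((1 + 2 * δ) ^ 2 - 1) := by
      have := (one (hyS a ha)).mul' (one (hyS b hb))
      rwa [← sq] at this
    rw [hindep _ hab _ (mul_mem (hyG a ha) (hyG b hb)) hS hL, e, hchi.addK _ c2 c1 _ b2 b1]
    have h3 := hchi.cnj _ a2 (y b)⁻¹ (inv_mem (m (hyG b hb)))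
    rw [inv_inv] at h3
    rw [h3]
  have hclose : ∀ x ∈ NB, |χ x - ξ x| ≤ C := by
    intro x hx
    obtain ⟨a1, a2⟩ := hkK x hx _ (hyG x hx) (hyL x hx)
    have h1 := hchi.mulK _ (m (hyG x hx)) _ a2 a1
    rw [mul_inv_cancel_left] at h1
    have h2 : χ x - ξ x = χ (y x) := by rw [h1, hξ]; ring
    rw [h2]
    exact hbd _ (hyG x hx) ((hyS x hx).mono hδ2) (hyd x hx)
  apply hφ.addOn_of_close (ψ := fun x => ξ x + φ (tr x)) (B := C)
  · intro a ha b hb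
    have h1 := hchi.close a ha.2 b hb.2
    simp only [hχ, sub_sub_cancel] at h1
    simp only
    rw [hξadd a ha b hb, h1]
    ring
  · intro x hx
    have h1 := hclose x hx
    have e : φ x - (ξ x + φ (tr x)) = χ x - ξ x := by rw [hχ]; ring
    rw [e]
    exact h1

theorem addOn_NN (hφ : HQM φ C) : AddOn φ (NN : Subgroup DiffD) := by
  apply hφ.addOn_of_mul (addOn_KK hφ) (addOn_NB hφ) (fun g _ x hx => kk_normal.conj_mem x hx g)
  intro g hg
  obtain ⟨y, -, h2, h3⟩ := exists_rep_zero (hg.1 0 rfl).2 one_pos (η := 1 / 10) (by norm_num)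
  have hy : y ∈ GB (1 / 10) := mem_GB.mpr h2
  have hyd : dg y 0 = ContinuousLinearMap.id ℝ ℂ := by
    rw [dg_eq_of_germ zero_mem_disk h3]; exact (hg.1 0 rfl).2
  have hk : y⁻¹ * g ∈ KK := by
    refine ⟨?_, (LocSub Cir).mul_mem ((LocSub Cir).inv_mem (GB_loc_cir (by norm_num) hy)) hg.2⟩
    rintro _ rfl
    exact germ_inv_mul h3
  refine ⟨y * (y⁻¹ * g) * y⁻¹, kk_normal.conj_mem _ hk y, y, ⟨?_, hy⟩, by group⟩
  rintro _ rfl
  exact ⟨smul_zero' y, hyd⟩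

end DiskQM
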