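import Pool.Agent.helper52.DQ.Small

/-!
Germ conditions and the normal subgroups they define.
-/

open Set Metric Filter Topology
open scoped ContDiff

noncomputable section

namespace DiskQM

/-- the boundary circle -/
abbrev Cir : Set ℂ := {p | ‖p‖ = 1}

theorem cir_sub : Cir ⊆ Disk := fun _ hp => mem_disk.mpr (le_of_eq hp)

theorem tendsto_smul (g : DiffD) {p : ℂ} (hp : p ∈ Disk) :
    Tendsto (fun z : ℂ => g • z) (𝓝[Disk] p) (𝓝[Disk] (g • p)) :=
  ((continuousOn_smul g) p hp).tendsto_nhdsWithin (fun _ h => smul_mem g h)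

/-- `g` is the identity near `p`. -/
def Loc (g : DiffD) (p : ℂ) : Prop := ∀ᶠ z in 𝓝[Disk] p, g • z = z

theorem Loc.eq {g : DiffD} {p : ℂ} (h : Loc g p) (hp : p ∈ Disk) : g • p = p :=
  h.self_of_nhdsWithin hp

theorem Loc.one (p : ℂ) : Loc 1 p := by
  filter_upwards with z using one_smul _ z

theorem Loc.mul {g h : DiffD} {p : ℂ} (hg : Loc g p) (hh : Loc h p) : Loc (g * h) p := by
  filter_upwards [hg, hh] with z h1 h2
  rw [mul_smul, h2, h1]

theorem Loc.inv {g : DiffD} {p : ℂ} (hg : Loc g p) : Loc g⁻¹ p := by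
  filter_upwards [hg] with z h1
  rw [inv_smul_eq_iff, h1]

theorem Loc.conj {g : DiffD} {p : ℂ} (hg : Loc g p) (hp : p ∈ Disk) (h : DiffD) :
    Loc (h * g * h⁻¹) (h • p) := by
  have h1 := tendsto_smul h⁻¹ (smul_mem h hp)
  rw [inv_smul_smul] at h1
  filter_upwards [h1.eventually hg] with z hz
  rw [mul_smul, mul_smul, hz, smul_inv_smul]

theorem Loc.dg {g : DiffD} {p : ℂ} (h : Loc g p) (hp : p ∈ Disk) :
    dg g p = ContinuousLinearMap.id ℝ ℂ := by
  have h1 : (fun z : ℂ => g • z) =ᶠ[𝓝[Disk] p] id := h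
  rw [DiskQM.dg, h1.fderivWithin_eq (h.eq hp), fderivWithin_id (uniqueDiffOn_disk p hp)]

/-- invariance of a subset under the group -/
def Inv' (Z : Set ℂ) : Prop := Z ⊆ Disk ∧ ∀ (g : DiffD), ∀ p ∈ Z, g • p ∈ Z

theorem inv_zero : Inv' {0} :=
  ⟨by rintro _ rfl; exact zero_mem_disk, by rintro g _ rfl; exact smul_zero' g⟩

theorem inv_cir : Inv' Cir := ⟨cir_sub, fun g _ hp => (norm_smul_eq_one_iff g).mpr hp⟩

/-- identity near `Z` -/
def LocSub (Z : Set ℂ) : Subgroup DiffD where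
  carrier := {g | ∀ p ∈ Z, Loc g p}
  mul_mem' := fun ha hb p hp => (ha p hp).mul (hb p hp)
  one_mem' := fun p _ => Loc.one p
  inv_mem' := fun ha p hp => (ha p hp).inv

theorem mem_locSub {Z : Set ℂ} {g : DiffD} : g ∈ LocSub Z ↔ ∀ p ∈ Z, Loc g p := Iff.rfl

theorem locSub_normal {Z : Set ℂ} (hZ : Inv' Z) : (LocSub Z).Normal := by
  constructor
  intro g hg h p hp
  have h1 : h⁻¹ • p ∈ Z := hZ.2 _ p hp
  have := (hg _ h1).conj (hZ.1 h1) h
  rwa [smul_inv_smul] at this

/-- tangent to the identity along `Z` -/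
def TanSub (Z : Set ℂ) (hZ : Z ⊆ Disk) : Subgroup DiffD where
  carrier := {g | ∀ p ∈ Z, g • p = p ∧ dg g p = ContinuousLinearMap.id ℝ ℂ}
  mul_mem' := by
    intro a b ha hb p hp
    refine ⟨by rw [mul_smul, (hb p hp).1, (ha p hp).1], ?_⟩
    rw [dg_mul a b (hZ hp), (hb p hp).1, (hb p hp).2, (ha p hp).2, ContinuousLinearMap.id_comp]
  one_mem' := fun p hp => ⟨one_smul _ p, dg_one (hZ hp)⟩
  inv_mem' := by
    intro a ha p hp
    refine ⟨by rw [inv_smul_eq_iff, (ha p hp).1], ?_⟩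
    have h1 := dg_inv_comp a (hZ hp)
    rw [(ha p hp).1, (ha p hp).2, ContinuousLinearMap.comp_id] at h1
    exact h1

theorem mem_tanSub {Z : Set ℂ} {hZ : Z ⊆ Disk} {g : DiffD} :
    g ∈ TanSub Z hZ ↔ ∀ p ∈ Z, g • p = p ∧ dg g p = ContinuousLinearMap.id ℝ ℂ := Iff.rfl

theorem tanSub_normal {Z : Set ℂ} (hZ : Inv' Z) : (TanSub Z hZ.1).Normal := by
  constructor
  intro g hg h p hp
  have h1 : h⁻¹ • p ∈ Z := hZ.2 _ p hp
  obtain ⟨h2, h3⟩ := hg _ h1
  refine ⟨by rw [mul_smul, mul_smul, h2, smul_inv_smul], ?_⟩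
  rw [dg_mul _ _ (hZ.1 hp), dg_mul _ _ (hZ.1 h1), h3, h2, ContinuousLinearMap.comp_id]
  have h4 := dg_comp_inv h (hZ.1 h1)
  rw [smul_inv_smul] at h4
  exact h4

/-- identity on `Z` -/
def FixSub (Z : Set ℂ) : Subgroup DiffD where
  carrier := {g | ∀ p ∈ Z, g • p = p}
  mul_mem' := fun {a b} ha hb p hp => by rw [mul_smul, hb p hp, ha p hp]
  one_mem' := fun p _ => one_smul _ p
  inv_mem' := fun {a} ha p hp => by rw [inv_smul_eq_iff, ha p hp]

theorem mem_fixSub {Z : Set ℂ} {g : DiffD} : g ∈ FixSub Z ↔ ∀ p ∈ Z, g • p = p := Iff.rfl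

theorem fixSub_normal {Z : Set ℂ} (hZ : Inv' Z) : (FixSub Z).Normal := by
  constructor
  intro g hg h p hp
  have h1 : h⁻¹ • p ∈ Z := hZ.2 _ p hp
  rw [mul_smul, mul_smul, hg _ h1, smul_inv_smul]

theorem locSub_le_tanSub {Z : Set ℂ} (hZ : Z ⊆ Disk) : LocSub Z ≤ TanSub Z hZ :=
  fun _ hg p hp => ⟨(hg p hp).eq (hZ hp), (hg p hp).dg (hZ hp)⟩

theorem tanSub_le_fixSub {Z : Set ℂ} (hZ : Z ⊆ Disk) : TanSub Z hZ ≤ FixSub Z :=
  fun _ hg p hp => (hg p hp).1

/-- the group `K` of diffeomorphisms with compact support in the open annulus -/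
def KK : Subgroup DiffD := LocSub {0} ⊓ LocSub Cir
/-- tangent to the identity at `0`, identity near the boundary -/
def NN : Subgroup DiffD := TanSub {0} inv_zero.1 ⊓ LocSub Cir
/-- tangent to the identity along the boundary, identity near `0` -/
def MB : Subgroup DiffD := LocSub {0} ⊓ TanSub Cir inv_cir.1
/-- tangent to the identity at `0` and along the boundary -/
def MM : Subgroup DiffD := TanSub {0} inv_zero.1 ⊓ TanSub Cir inv_cir.1
/-- tangent to the identity at `0` and equal to the identity on the boundary -/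
def HB : Subgroup DiffD := TanSub {0} inv_zero.1 ⊓ FixSub Cir
/-- tangent to the identity at `0` -/
def HH : Subgroup DiffD := TanSub {0} inv_zero.1

theorem inf_normal {A B : Subgroup DiffD} (hA : A.Normal) (hB : B.Normal) : (A ⊓ B).Normal := by
  constructor
  rintro n ⟨h1, h2⟩ g
  exact ⟨hA.conj_mem n h1 g, hB.conj_mem n h2 g⟩

instance kk_normal : KK.Normal := inf_normal (locSub_normal inv_zero) (locSub_normal inv_cir)
instance nn_normal : NN.Normal := inf_normal (tanSub_normal inv_zero) (locSub_normal inv_cir)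
instance mb_normal : MB.Normal := inf_normal (locSub_normal inv_zero) (tanSub_normal inv_cir)
instance mm_normal : MM.Normal := inf_normal (tanSub_normal inv_zero) (tanSub_normal inv_cir)
instance hb_normal : HB.Normal := inf_normal (tanSub_normal inv_zero) (fixSub_normal inv_cir)
instance hh_normal : HH.Normal := tanSub_normal inv_zero

theorem Loc.comp_of_tendsto {a b : DiffD} {p : ℂ} (hp : p ∈ Disk) (hb : Loc b (a • p)) :
    ∀ᶠ y in 𝓝[Disk] p, b • (a • y) = a • y :=
  (tendsto_smul a hp).eventually hb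

/-- germwise disjoint supports along `Z` -/
theorem commutator_mem_locSub {Z : Set ℂ} (hZ : Inv' Z) {a b : DiffD}
    (h : ∀ q ∈ Z, Loc a q ∨ Loc b q) : a * b * a⁻¹ * b⁻¹ ∈ LocSub Z := by
  intro q hq
  set p := (b * a)⁻¹ • q with hp
  have hpZ : p ∈ Z := hZ.2 _ q hq
  have hpD : p ∈ Disk := hZ.1 hpZ
  have key : ∀ᶠ y in 𝓝[Disk] p, a • (b • y) = b • (a • y) := by
    rcases h p hpZ with h1 | h1
    · -- `Loc a p`
      rcases h (b • p) (hZ.2 _ p hpZ) with h2 | h2
      · filter_upwards [h1, Loc.comp_of_tendsto hpD h2] with y hy hy2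
        rw [hy2, hy]
      · have h3 : b • (b • p) = b • p := h2.eq (hZ.1 (hZ.2 _ p hpZ))
        have h4 : b • p = p := smul_left_cancel b h3
        rw [h4] at h2
        filter_upwards [h1, h2] with y hy hy2
        rw [hy, hy2, hy]
    · rcases h (a • p) (hZ.2 _ p hpZ) with h2 | h2
      · have h3 : a • (a • p) = a • p := h2.eq (hZ.1 (hZ.2 _ p hpZ))
        have h4 : a • p = p := smul_left_cancel a h3
        rw [h4] at h2
        filter_upwards [h1, h2] with y hy hy2
        rw [hy2, hy, hy2]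
      · filter_upwards [h1, Loc.comp_of_tendsto hpD h2] with y hy hy2
        rw [hy2, hy]
  have hq' : (b * a) • p = q := by rw [hp, smul_inv_smul]
  have htd := tendsto_smul (b * a)⁻¹ (hZ.1 hq)
  filter_upwards [htd.eventually key] with z hz
  have e : a * b * a⁻¹ * b⁻¹ = a * b * (b * a)⁻¹ := by group
  rw [e, mul_smul, mul_smul, hz, ← mul_smul, smul_inv_smul]

theorem commutator_mem_fixSub {Z : Set ℂ} (hZ : Inv' Z) {a b : DiffD}
    (h : ∀ q ∈ Z, a • q = q ∨ b • q = q) : a * b * a⁻¹ * b⁻¹ ∈ FixSub Z := by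
  intro q hq
  set p := (b * a)⁻¹ • q with hp
  have hpZ : p ∈ Z := hZ.2 _ q hq
  have key : a • (b • p) = b • (a • p) := by
    rcases h p hpZ with h1 | h1
    · rcases h (b • p) (hZ.2 _ p hpZ) with h2 | h2
      · rw [h2, h1]
      · have h4 : b • p = p := smul_left_cancel b h2
        rw [h4, h1, h4]
    · rcases h (a • p) (hZ.2 _ p hpZ) with h2 | h2
      · have h4 : a • p = p := smul_left_cancel a h2
        rw [h4, h1, h4]
      · rw [h2, h1]
  have hq' : (b * a) • p = q := by rw [hp, smul_inv_smul]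
  have e : a * b * a⁻¹ * b⁻¹ = a * b * (b * a)⁻¹ := by group
  rw [e, mul_smul, ← hp, mul_smul, key, ← mul_smul, hq']

end DiskQM
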