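import Pool.Agent.helper52.DQ.StepD

/-!
The upper bound: homogeneous quasimorphisms of `DiffD` modulo homomorphisms are detected by one
linear functional.
-/

open Set Metric Filter Topology
open scoped ContDiff ComplexConjugate

noncomputable section

namespace DiskQM

variable {φ : DiffD → ℝ} {C : ℝ}

theorem cir_infinite : Cir.Infinite := by
  have h1 : IsPreconnected Cir := by
    have h2 := isPreconnected_sphere (E := ℂ) (by rw [Complex.rank_real_complex]; norm_num) 0 1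
    have h3 : sphere (0:ℂ) 1 = Cir := by
      ext z; simp
    rwa [h3] at h2
  refine h1.infinite_of_nontrivial ⟨1, one_mem_cir, -1, neg_one_mem_cir, ?_⟩
  norm_num

/-- data for the linear functional -/
structure Data (s₁ s₂ h₀ : DiffD) : Prop where
  s₁_mem : s₁ ∈ Dst HH Complex.I
  s₁_one : s₁ • (1:ℂ) = -1
  s₂_mem : s₂ ∈ Dst HH (-Complex.I)
  s₂_one : s₂ • (1:ℂ) = -1
  h₀_mem : h₀ ∈ HH
  h₀_one : h₀ • (1:ℂ) = -1

theorem one_ne_I : (1:ℂ) ≠ Complex.I := by
  intro h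
  have := congrArg Complex.re h
  simp at this

theorem exists_data : ∃ s₁ s₂ h₀ : DiffD, Data s₁ s₂ h₀ := by
  obtain ⟨s₁, h1, h1'⟩ := T1 Complex.I I_mem_cir 1 one_mem_cir (-1) neg_one_mem_cir one_ne_I (by
    intro h
    have := congrArg Complex.re h
    simp at this)
  obtain ⟨s₂, h2, h2'⟩ := T1 (-Complex.I) neg_I_mem_cir 1 one_mem_cir (-1) neg_one_mem_cir (by
    intro h
    have := congrArg Complex.re h
    simp at this) (by
    intro h
    have := congrArg Complex.re h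
    simp at this)
  obtain ⟨h₀, h3, h3'⟩ := exists_brot Real.pi
  refine ⟨s₁, s₂, h₀, h1, h1', h2, h2', h3, ?_⟩
  rw [h3' 1 one_mem_cir, one_mul, Complex.exp_pi_mul_I]

theorem addOn_HH (hφ : HQM φ C) {s₁ s₂ h₀ : DiffD} (hd : Data s₁ s₂ h₀)
    (ha : φ s₁ + φ (s₁⁻¹ * h₀) = φ s₂ + φ (s₂⁻¹ * h₀)) : AddOn φ (HH : Subgroup DiffD) := by
  apply addOn_of_two_sides (o := (1:ℂ)) Cir hφ (fun q hq => addOn_Dst hφ hq) one_mem_cir
    (fun h _ x hx => inv_cir.2 h x hx) cir_infinite hd.h₀_mem hd.h₀_one (by norm_num) T1 T2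
    (v₀ := φ s₁ + φ (s₁⁻¹ * h₀))
  · exact ⟨s₁, hd.s₁_mem, by rw [hd.s₁_one, hd.h₀_one], rfl⟩
  · exact ⟨s₂, hd.s₂_mem, by rw [hd.s₂_one, hd.h₀_one], ha⟩

/-! ### the linear group -/

theorem GLp_one_apply (z : ℂ) : (1 : GLp).1 z = z := rfl
theorem GLp_mul_apply (S T : GLp) (z : ℂ) : (S * T).1 z = S.1 (T.1 z) := rfl

theorem linP_mul {a b c d a' b' c' d' : ℝ} (h : 0 < a * d - b * c) (h' : 0 < a' * d' - b' * c')
    (h'' : 0 < (a * a' + b * c') * (c * b' + d * d') - (a * b' + b * d') * (c * a' + d * c')) :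
    linP a b c d h * linP a' b' c' d' h' =
      linP (a * a' + b * c') (a * b' + b * d') (c * a' + d * c') (c * b' + d * d') h'' := by
  apply GLp_ext
  intro z
  rw [GLp_mul_apply, linP_apply, linP_apply, linP_apply]
  apply Complex.ext
  · simp only; ring
  · simp only; ring

/-- upper unipotent -/
def uU (x : ℝ) : GLp := linP 1 x 0 1 (by norm_num)
/-- lower unipotent -/
def uL (x : ℝ) : GLp := linP 1 0 x 1 (by norm_num)
/-- diagonal -/
def dg2 : GLp := linP 2 0 0 (1 / 2) (by norm_num)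
/-- diagonal -/
def dg2' : GLp := linP (1 / 2) 0 0 2 (by norm_num)

theorem uU_apply (x : ℝ) (z : ℂ) : (uU x).1 z = ⟨z.re + x * z.im, z.im⟩ := by
  rw [uU, linP_apply]; apply Complex.ext <;> simp
theorem uL_apply (x : ℝ) (z : ℂ) : (uL x).1 z = ⟨z.re, x * z.re + z.im⟩ := by
  rw [uL, linP_apply]; apply Complex.ext <;> simp
theorem dg2_apply (z : ℂ) : dg2.1 z = ⟨2 * z.re, 1 / 2 * z.im⟩ := by
  rw [dg2, linP_apply]; apply Complex.ext <;> simp
theorem dg2'_apply (z : ℂ) : dg2'.1 z = ⟨1 / 2 * z.re, 2 * z.im⟩ := by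
  rw [dg2', linP_apply]; apply Complex.ext <;> simp

theorem uU_add (x y : ℝ) : uU (x + y) = uU x * uU y := by
  apply GLp_ext
  intro z
  rw [GLp_mul_apply, uU_apply, uU_apply, uU_apply]
  apply Complex.ext
  · simp only; ring
  · simp only
theorem uL_add (x y : ℝ) : uL (x + y) = uL x * uL y := by
  apply GLp_ext
  intro z
  rw [GLp_mul_apply, uL_apply, uL_apply, uL_apply]
  apply Complex.ext
  · simp only
  · simp only; ring

theorem uU_pow (x : ℝ) (n : ℕ) : uU x ^ n = uU (n * x) := by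
  induction n with
  | zero =>
    apply GLp_ext
    intro z
    rw [pow_zero, GLp_one_apply, uU_apply]
    apply Complex.ext <;> simp
  | succ n ih =>
    rw [pow_succ, ih, ← uU_add]; congr 1; push_cast; ring

theorem uL_pow (x : ℝ) (n : ℕ) : uL x ^ n = uL (n * x) := by
  induction n with
  | zero =>
    apply GLp_ext
    intro z
    rw [pow_zero, GLp_one_apply, uL_apply]
    apply Complex.ext <;> simp
  | succ n ih =>
    rw [pow_succ, ih, ← uL_add]; congr 1; push_cast; ring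

theorem uU_conj (x : ℝ) : dg2 * uU x = uU (4 * x) * dg2 := by
  apply GLp_ext
  intro z
  rw [GLp_mul_apply, GLp_mul_apply, uU_apply, uU_apply, dg2_apply, dg2_apply]
  apply Complex.ext
  · simp only; ring
  · simp only

theorem uL_conj (x : ℝ) : dg2' * uL x = uL (4 * x) * dg2' := by
  apply GLp_ext
  intro z
  rw [GLp_mul_apply, GLp_mul_apply, uL_apply, uL_apply, dg2'_apply, dg2'_apply]
  apply Complex.ext
  · simp only
  · simp only; ring

theorem psi_uU {ψ : GLp → ℝ} (hψ : HQM ψ C) (x : ℝ) : ψ (uU x) = 0 := by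
  have h1 := hψ.conj dg2 (uU x)
  rw [uU_conj, mul_inv_cancel_right] at h1
  have h2 := hψ.pow (uU x) 4
  rw [uU_pow] at h2
  push_cast at h2
  rw [h1] at h2
  linarith

theorem psi_uL {ψ : GLp → ℝ} (hψ : HQM ψ C) (x : ℝ) : ψ (uL x) = 0 := by
  have h1 := hψ.conj dg2' (uL x)
  rw [uL_conj, mul_inv_cancel_right] at h1
  have h2 := hψ.pow (uL x) 4
  rw [uL_pow] at h2
  push_cast at h2
  rw [h1] at h2
  linarith

/-- matrix entries -/
theorem exists_entries (T : GLp) : ∃ a b c d : ℝ, 0 < a * d - b * c ∧ (∀ z : ℂ, T.1 z = ⟨a * z.re + b * z.im, c * z.re + d * z.im⟩) ∧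
    (T.1 : ℂ →L[ℝ] ℂ).det = a * d - b * c := by
  have hdet : 0 < (T.1 : ℂ →L[ℝ] ℂ).det := T.2
  rw [det_eq] at hdet
  refine ⟨(T.1 1).re, (T.1 Complex.I).re, (T.1 1).im, (T.1 Complex.I).im, hdet, ?_, det_eq _⟩
  intro z
  have e : z = z.re • (1:ℂ) + z.im • Complex.I := by
    apply Complex.ext <;> simp
  conv_lhs => rw [e, map_add, map_smul, map_smul]
  apply Complex.ext
  · simp; ring
  · simp; ring

theorem decomp_of_ne {a b c d : ℝ} (hc : c ≠ 0) (hdet : a * d - b * c = 1) {T : GLp}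
    (hT : ∀ z : ℂ, T.1 z = ⟨a * z.re + b * z.im, c * z.re + d * z.im⟩) :
    T = uU ((a - 1) / c) * uL c * uU ((d - 1) / c) := by
  apply GLp_ext
  intro z
  rw [GLp_mul_apply, GLp_mul_apply, hT, uU_apply, uL_apply, uU_apply]
  apply Complex.ext
  · simp only
    field_simp
    linear_combination (-z.im) * hdet
  · simp only
    field_simp
    ring

theorem psi_bound {ψ : GLp → ℝ} (hψ : HQM ψ C) {T : GLp} (hT : (T.1 : ℂ →L[ℝ] ℂ).det = 1) : |ψ T| ≤ 3 * C := by
  have hC := hψ.C_nonneg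
  have three : ∀ x c y : ℝ, |ψ (uU x * uL c * uU y)| ≤ 2 * C := by
    intro x c y
    have h1 := hψ.defect (uU x * uL c) (uU y)
    have h2 := hψ.defect (uU x) (uL c)
    rw [psi_uU hψ, psi_uL hψ] at h2
    rw [psi_uU hψ] at h1
    rw [abs_le] at *
    constructor <;> linarith [h1.1, h1.2, h2.1, h2.2]
  obtain ⟨a, b, c, d, -, h2, h3⟩ := exists_entries T
  rw [hT] at h3
  by_cases hc : c = 0
  · -- multiply by a lower unipotent
    have ha : a ≠ 0 := by
      rintro rfl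
      rw [hc] at h3
      simp at h3
    have e : T = uL (-1) * (uL 1 * T) := by
      rw [← mul_assoc, ← uL_add]
      have : uL (-1 + 1) = 1 := by
        apply GLp_ext
        intro z
        rw [uL_apply, GLp_one_apply]
        apply Complex.ext <;> simp
      rw [this, one_mul]
    have h4 : uL 1 * T = uU ((a - 1) / (a + c)) * uL (a + c) * uU ((b + d - 1) / (a + c)) := by
      apply decomp_of_ne (b := b)
      · rw [hc, add_zero]; exact ha
      · linarith
      · intro z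
        rw [GLp_mul_apply, h2, uL_apply]
        apply Complex.ext
        · simp only
        · simp only; ring
    have h5 := three ((a - 1) / (a + c)) (a + c) ((b + d - 1) / (a + c))
    rw [← h4] at h5
    have h6 := hψ.defect (uL (-1)) (uL 1 * T)
    rw [← e, psi_uL hψ] at h6
    rw [abs_le] at *
    constructor <;> linarith [h5.1, h5.2, h6.1, h6.2]
  · rw [decomp_of_ne hc h3.symm h2]
    exact (three _ _ _).trans (by linarith)

theorem psi_zero {ψ : GLp → ℝ} (hψ : HQM ψ C) {T : GLp} (hT : (T.1 : ℂ →L[ℝ] ℂ).det = 1) : ψ T = 0 := by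
  apply hψ.of_bounded (B := 3 * C)
  intro n
  apply psi_bound hψ
  induction n with
  | zero => exact det_id'
  | succ n ih =>
    have : (((T ^ (n + 1)).1 : ℂ ≃L[ℝ] ℂ) : ℂ →L[ℝ] ℂ) = ((T ^ n).1 : ℂ →L[ℝ] ℂ).comp (T.1 : ℂ →L[ℝ] ℂ) := by
      rw [pow_succ]; rfl
    rw [this, det_comp', ih, hT, mul_one]

theorem homo_comm (s : ℝ) (hs : 0 < s) (T : GLp) : Commute (homo s hs) T := by
  apply GLp_ext
  intro z
  rw [GLp_mul_apply, GLp_mul_apply, homo_apply, homo_apply, map_smul]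

theorem exists_homo (T : GLp) : ∃ (s : ℝ) (hs : 0 < s) (T₁ : GLp), T = homo s hs * T₁ ∧ (T₁.1 : ℂ →L[ℝ] ℂ).det = 1 := by
  have hdet : 0 < (T.1 : ℂ →L[ℝ] ℂ).det := T.2
  set D := (T.1 : ℂ →L[ℝ] ℂ).det with hD
  have hs : 0 < Real.sqrt D := Real.sqrt_pos.mpr hdet
  refine ⟨Real.sqrt D, hs, (homo (Real.sqrt D) hs)⁻¹ * T, by group, ?_⟩
  set T₁ := (homo (Real.sqrt D) hs)⁻¹ * T with hT₁
  have e : T = homo (Real.sqrt D) hs * T₁ := by rw [hT₁]; group
  have h1 : (T.1 : ℂ →L[ℝ] ℂ) = ((homo (Real.sqrt D) hs).1 : ℂ →L[ℝ] ℂ).comp (T₁.1 : ℂ →L[ℝ] ℂ) := by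
    conv_lhs => rw [e]
    rfl
  have h2 := congrArg ContinuousLinearMap.det h1
  have h3 : ((homo (Real.sqrt D) hs).1 : ℂ →L[ℝ] ℂ).det = D := by
    rw [det_eq]
    have : ∀ z : ℂ, ((homo (Real.sqrt D) hs).1 : ℂ →L[ℝ] ℂ) z = Real.sqrt D • z := homo_apply _ hs
    rw [this, this]
    simp [Real.mul_self_sqrt hdet.le]
  rw [det_comp', ← hD, h3] at h2
  have h4 : D * ((T₁.1 : ℂ →L[ℝ] ℂ).det - 1) = 0 := by linear_combination -h2
  rcases mul_eq_zero.mp h4 with h5 | h5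
  · exact absurd h5 hdet.ne'
  · linarith

theorem psi_add {ψ : GLp → ℝ} (hψ : HQM ψ C) (S T : GLp) : ψ (S * T) = ψ S + ψ T := by
  obtain ⟨s, hs, S₁, hS, hS1⟩ := exists_homo S
  obtain ⟨t, ht, T₁, hT, hT1⟩ := exists_homo T
  have e : S * T = homo s hs * homo t ht * (S₁ * T₁) := by
    rw [hS, hT]
    have := (homo_comm t ht S₁).eq
    calc homo s hs * S₁ * (homo t ht * T₁) = homo s hs * (S₁ * homo t ht) * T₁ := by group
      _ = homo s hs * (homo t ht * S₁) * T₁ := by rw [this]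
      _ = homo s hs * homo t ht * (S₁ * T₁) := by group
  have hST1 : ((S₁ * T₁).1 : ℂ →L[ℝ] ℂ).det = 1 := by
    have : (((S₁ * T₁).1 : ℂ ≃L[ℝ] ℂ) : ℂ →L[ℝ] ℂ) = (S₁.1 : ℂ →L[ℝ] ℂ).comp (T₁.1 : ℂ →L[ℝ] ℂ) := rfl
    rw [this, det_comp', hS1, hT1, mul_one]
  have c : Commute (homo s hs * homo t ht) (S₁ * T₁) := (homo_comm s hs _).mul_left (homo_comm t ht _)
  rw [e, hψ.commute c, psi_zero hψ hST1, add_zero, hψ.commute (homo_comm s hs _), hS, hT,
    hψ.commute (homo_comm s hs S₁), hψ.commute (homo_comm t ht T₁), psi_zero hψ hS1, psi_zero hψ hT1,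
    add_zero, add_zero]

/-- If `φ` is additive on `HH` then it is a homomorphism. -/
theorem hom_of_HH (hφ : HQM φ C) (h : AddOn φ (HH : Subgroup DiffD)) (a b : DiffD) : φ (a * b) = φ a + φ b := by
  have hψ : HQM (φ ∘ tau) C := hφ.comp tau
  have hR : AddOn φ (tau.range : Subgroup DiffD) := by
    rintro _ ⟨S, rfl⟩ _ ⟨T, rfl⟩
    have := psi_add hψ S T
    simpa using this
  have htop : AddOn φ ((⊤ : Subgroup DiffD) : Set DiffD) := by
    apply hφ.addOn_of_mul h hR (fun g _ x hx => hh_normal.conj_mem x hx g)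
    intro g _
    set T : GLp := ⟨dgEquiv g zero_mem_disk, by
      show 0 < ((dgEquiv g zero_mem_disk : ℂ ≃L[ℝ] ℂ) : ℂ →L[ℝ] ℂ).det
      rw [coe_dgEquiv]; exact det_dg_pos g zero_mem_disk⟩ with hT
    have hTc : (T.1 : ℂ →L[ℝ] ℂ) = dg g 0 := rfl
    have hmem : g * (tau T)⁻¹ ∈ HH := by
      rw [mem_HH, dg_mul _ _ zero_mem_disk, smul_zero']
      have h1 := dg_comp_inv (tau T) zero_mem_disk
      rw [smul_zero', dg_tau, hTc] at h1
      exact h1
    exact ⟨g * (tau T)⁻¹, hmem, tau T, ⟨T, rfl⟩, by group⟩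
  exact htop a trivial b trivial

end DiskQM
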